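import Pool.Agent.P.MP_3bd355_an.AllMain
import Pool.Agent.P.MP_3bd355_an.Pk.Att

/-! Composition of the packages: attainment. -/

namespace Pool.Agent.P.MP_3bd355_an

theorem all_ATT : S_ATT := att all_BL all_MREAL all_GEN all_CRIT1 all_MAIN2

end Pool.Agent.P.MP_3bd355_an
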