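import Pool.Agent.P.MP_3bd355_an.Pk.Arc1
import Pool.Agent.P.MP_3bd355_an.Pk.Arc2
import Pool.Agent.P.MP_3bd355_an.Pk.ArcA
import Pool.Agent.P.MP_3bd355_an.Pk.ArcB
import Pool.Agent.P.MP_3bd355_an.Pk.ArcC
import Pool.Agent.P.MP_3bd355_an.Pk.BL
import Pool.Agent.P.MP_3bd355_an.Pk.Br
import Pool.Agent.P.MP_3bd355_an.Pk.Closed
import Pool.Agent.P.MP_3bd355_an.Pk.Conf
import Pool.Agent.P.MP_3bd355_an.Pk.Core
import Pool.Agent.P.MP_3bd355_an.Pk.Crit1
import Pool.Agent.P.MP_3bd355_an.Pk.Crit2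
import Pool.Agent.P.MP_3bd355_an.Pk.Dir
import Pool.Agent.P.MP_3bd355_an.Pk.Edat
import Pool.Agent.P.MP_3bd355_an.Pk.Exist
import Pool.Agent.P.MP_3bd355_an.Pk.Fold1
import Pool.Agent.P.MP_3bd355_an.Pk.Fold2
import Pool.Agent.P.MP_3bd355_an.Pk.Gen
import Pool.Agent.P.MP_3bd355_an.Pk.Green
import Pool.Agent.P.MP_3bd355_an.Pk.Lim
import Pool.Agent.P.MP_3bd355_an.Pk.Lin
import Pool.Agent.P.MP_3bd355_an.Pk.Loc1
import Pool.Agent.P.MP_3bd355_an.Pk.Loc2
import Pool.Agent.P.MP_3bd355_an.Pk.Log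
import Pool.Agent.P.MP_3bd355_an.Pk.Main
import Pool.Agent.P.MP_3bd355_an.Pk.Mart
import Pool.Agent.P.MP_3bd355_an.Pk.Mult
import Pool.Agent.P.MP_3bd355_an.Pk.Open
import Pool.Agent.P.MP_3bd355_an.Pk.PN
import Pool.Agent.P.MP_3bd355_an.Pk.PV
import Pool.Agent.P.MP_3bd355_an.Pk.Pic
import Pool.Agent.P.MP_3bd355_an.Pk.PicA
import Pool.Agent.P.MP_3bd355_an.Pk.PicB
import Pool.Agent.P.MP_3bd355_an.Pk.PosV
import Pool.Agent.P.MP_3bd355_an.Pk.QuadA
import Pool.Agent.P.MP_3bd355_an.Pk.QuadN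
import Pool.Agent.P.MP_3bd355_an.Pk.QuadT
import Pool.Agent.P.MP_3bd355_an.Pk.RM
import Pool.Agent.P.MP_3bd355_an.Pk.RMO
import Pool.Agent.P.MP_3bd355_an.Pk.Ray
import Pool.Agent.P.MP_3bd355_an.Pk.Reg
import Pool.Agent.P.MP_3bd355_an.Pk.Sh
import Pool.Agent.P.MP_3bd355_an.Pk.Shr
import Pool.Agent.P.MP_3bd355_an.Pk.Small
import Pool.Agent.P.MP_3bd355_an.Pk.Tip
import Pool.Agent.P.MP_3bd355_an.Pk.Tpath
import Pool.Agent.P.MP_3bd355_an.Pk.VarA
import Pool.Agent.P.MP_3bd355_an.Pk.VarB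
import Pool.Agent.P.MP_3bd355_an.Pk.VarG

/-! Composition of the packages: the structure theorem. -/

namespace Pool.Agent.P.MP_3bd355_an

theorem all_GEN : S_GEN := gen

theorem all_BR : S_BR := br

theorem all_MREAL : S_MREAL := mreal all_GEN all_BR

theorem all_SMALL : S_SMALL := small

theorem all_LOG : S_LOG := log_ex

theorem all_BL : S_BL := bl all_LOG

theorem all_DIR : S_DIR := dir all_BL

theorem all_SOLEX : S_SOLEX := solex all_DIR

theorem all_STEP : S_STEP := step all_SMALL all_SOLEX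

theorem all_RM : S_RM := rm all_LOG

theorem all_RMO : S_RMO := rmo all_RM

theorem all_QUADn : S_QUADn := quadn all_RMO

theorem all_PICa : S_PICa := pica

theorem all_PICb : S_PICb := picb all_DIR

theorem all_PIC : S_PIC := pic all_PICa all_PICb all_SOLEX

theorem all_QUADa : S_QUADa := quada all_RMO all_PIC all_SOLEX

theorem all_QUADt : S_QUADt := quadt all_QUADa all_SOLEX

theorem all_LIM : S_LIM := lim all_BL

theorem all_CLOSED : S_CLOSED := closed all_QUADn all_QUADt all_LIM all_SOLEX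

theorem all_PN : S_PN := pn

theorem all_OPEN : S_OPEN := opn all_LIM all_PN

theorem all_E1 : S_E1 := e1 all_STEP all_SOLEX all_CLOSED all_OPEN

theorem all_FOLD1 : S_FOLD1 := fold1 all_DIR

theorem all_LIM3 : S_LIM3 := lim3 all_BL

theorem all_E2 : S_E2 := e2 all_STEP all_SOLEX all_CLOSED all_OPEN all_LIM all_FOLD1 all_E1 all_LIM3

theorem all_PV : S_PV := pv

theorem all_TIP : S_TIP := tip all_PN

theorem all_FR : S_FR := fr all_RMO all_PIC all_PV all_TIP

theorem all_ZEX : S_ZEX := zex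

theorem all_REFL : S_REFL := refl

theorem all_TPATH : S_TPATH := tpath all_PN all_REFL

theorem all_SC : S_SC := sc all_FR all_ZEX all_TPATH

theorem all_GREEN : S_GREEN := green all_DIR

theorem all_MART : S_MART := mart

theorem all_POSV : S_POSV := posv

theorem all_VARA : S_VARA := vara

theorem all_VARG : S_VARG := varg all_VARA

theorem all_VARB : S_VARB := varb all_VARG

theorem all_GORDAN : S_GORDAN := gordan

theorem all_LIN : S_LIN := lin all_MART all_POSV all_VARB all_SC all_GORDAN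

theorem all_EDAT : S_EDAT := edat

theorem all_REG0 : S_REG0 := reg0

theorem all_REG : S_REG := reg all_REG0

theorem all_LOC1 : S_LOC1 := loc1

theorem all_LOC2 : S_LOC2 := loc2

theorem all_LOC : S_LOC := loc all_LOC1 all_LOC2

theorem all_MULT : S_MULT := mult all_LOC

theorem all_SHR : S_SHR := shr all_DIR

theorem all_POSAT : S_POSAT := posat

theorem all_SH : S_SH := sh all_SHR all_PN all_TPATH all_POSAT

theorem all_ARC1 : S_ARC1 := arc1

theorem all_ARC2 : S_ARC2 := arc2 all_ARC1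

theorem all_ARCa : S_ARCa := arca all_LOC

theorem all_ARCb : S_ARCb := arcb all_LOC

theorem all_ARCc : S_ARCc := arcc all_LOC

theorem all_CORE : S_CORE :=
  core all_FR all_GREEN all_LIN all_EDAT all_REG all_MULT all_SH all_ARC1 all_ARC2 all_ARCa
    all_ARCb all_ARCc all_ZEX all_TPATH all_POSAT

theorem all_FOLD2 : S_FOLD2 := fold2 all_FOLD1

theorem all_FOLD3 : S_FOLD3 := fold3 all_FOLD1

theorem all_CRIT1 : S_CRIT1 := crit1

theorem all_ROT : S_ROT := rot

theorem all_ROTc : S_ROTc := rotc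

theorem all_CRIT2 : S_CRIT2 := crit2 all_CRIT1

theorem all_CONF : S_CONF := conf all_MREAL all_CRIT1 all_CRIT2 all_E1 all_SC all_FOLD2

theorem all_MPOS : S_MPOS := mpos all_SOLEX

theorem all_MAIN2 : S_MAIN2 :=
  main2 all_MREAL all_E1 all_E2 all_SC all_CORE all_FOLD1 all_FOLD2 all_FOLD3 all_BR all_CRIT1
    all_ROT all_ROTc all_CONF all_MPOS

theorem all_MAIN : S_MAIN := main_of all_MAIN2

end Pool.Agent.P.MP_3bd355_an
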