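import Pool.Agent.P.MP_3bd355_an.AllMain
import Pool.Agent.P.MP_3bd355_an.Pk.Na
import Pool.Agent.P.MP_3bd355_an.Pk.Na01
import Pool.Agent.P.MP_3bd355_an.Pk.Na2
import Pool.Agent.P.MP_3bd355_an.Pk.Na3
import Pool.Agent.P.MP_3bd355_an.Pk.Na4

/-! Composition of the packages: non-attainment. -/

namespace Pool.Agent.P.MP_3bd355_an

theorem all_NA0 : S_NA0 := na0 all_CRIT1

theorem all_NA1 : S_NA1 := na1 all_DIR

theorem all_NA2 : S_NA2 := na2 all_BL all_LIM all_SOLEX all_NA0 all_NA1 all_CRIT1 all_CRIT2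

theorem all_NA3 : S_NA3 := na3

theorem all_NA4 : S_NA4 := na4

theorem all_NA : S_NA := na all_MAIN all_ROT all_NA0 all_NA2 all_NA3 all_NA4 all_CRIT1 all_CRIT2

end Pool.Agent.P.MP_3bd355_an
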