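import Pool.Agent.P.MP_3bd355_an.AllMain
import Pool.Agent.P.MP_3bd355_an.Pk.Conf
import Pool.Agent.P.MP_3bd355_an.Pk.Rad1

/-! Composition of the packages: opposite points. -/

namespace Pool.Agent.P.MP_3bd355_an

theorem all_RAD1 : S_RAD1 := rad1 all_CRIT1

theorem all_RAD : S_RAD := rad all_MAIN all_CRIT1 all_RAD1

end Pool.Agent.P.MP_3bd355_an
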