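import Pool.Agent.P.MP_3bd355_an.AllMain

/-! Final forms of the structure theorem. -/

open Set Filter Metric Complex InnerProductSpace
open scoped Topology ComplexConjugate Real

namespace Pool.Agent.P.MP_3bd355_an

theorem Adm.congr {r A B : ℝ} {z₁ : ℂ} {u w : ℂ → EReal} (h : Adm r A B z₁ u)
    (e : ∀ z ∈ ann r, w z = u z) : Adm r A B z₁ w := by
  have ev : ∀ p : ℂ, u =ᶠ[𝓝[ann r] p] w := fun p =>
    eventually_nhdsWithin_of_forall fun z hz => (e z hz).symm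
  obtain ⟨γ, h1, h2, h3, h4⟩ := h.curve
  refine ⟨⟨fun p hp y hy => ?_, fun z hz => e z hz ▸ h.sub.2.1 z hz,
    fun c ρ hρ hs H hH hb z hz => ?_⟩, fun p hp => (h.outer p hp).congr' (ev p),
    fun p hp => (h.inner p hp).congr' (ev p), γ, h1, h2,
    fun t ht => ⟨(h3 t ht).1, e _ (h3 t ht).1 ▸ (h3 t ht).2⟩, h4⟩
  · have hy' : u p < y := by rw [← e p hp]; exact hy
    filter_upwards [h.sub.1 p hp y hy', ev p] with z h5 h6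
    show w z < y
    rw [← h6]
    exact h5
  · rw [e z (hs (ball_subset_closedBall hz))]
    exact h.sub.2.2 c ρ hρ hs H hH
      (fun y hy => e y (hs (sphere_subset_closedBall hy)) ▸ hb y hy) z hz

theorem structure_thm (r A B : ℝ) (z₀ z₁ : ℂ) (hr : 0 < r) (h₀ : z₀ ∈ ann r) (h₁ : z₁ ∈ ann r)
    (hA : A ≤ 0) (hh : 0 < hf r A B z₁)
    (hp : (∀ t : ℝ, 0 < t → z₀ ≠ t * z₁) ∨ (A = 0 ∧ z₀ ≠ z₁) ∨ Msup r A B z₀ z₁ ≠ 0) :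
    IsGreatest {x : EReal | ∃ a b c κ v g, Crit r A B z₀ z₁ a b c κ v g ∧ x = (v z₀ : EReal)}
        (Msup r A B z₀ z₁) ∧
      ∀ u : ℂ → EReal, (Adm r A B z₁ u ∧ u z₀ = Msup r A B z₀ z₁) ↔
        ∃ a b c κ v g, Crit r A B z₀ z₁ a b c κ v g ∧ (∀ t ∈ Icc (0 : ℝ) 1, r < ‖κ t‖) ∧
          (v z₀ : EReal) = Msup r A B z₀ z₁ ∧ ∀ z ∈ ann r, u z = (v z : EReal) := by
  obtain ⟨⟨a, b, c, κ, v, g, k1, k2⟩, k3, k4⟩ := all_MAIN2 r A B z₀ z₁ hr h₀ h₁ hA hh hp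
  refine ⟨⟨⟨a, b, c, κ, v, g, k1, k2.symm⟩, ?_⟩, fun u => ⟨fun ⟨hu, e⟩ => ?_, ?_⟩⟩
  · rintro _ ⟨a, b, c, κ, v, g, k, rfl⟩
    exact (k3 a b c κ v g k).1
  · obtain ⟨a, b, c, κ, v, g, k, k5, k6⟩ := k4 u hu e
    exact ⟨a, b, c, κ, v, g, k, k5, (k6 _ h₀).symm.trans e, k6⟩
  · rintro ⟨a, b, c, κ, v, g, k, k5, k6, k7⟩
    exact ⟨((k3 a b c κ v g k).2.1 k5).congr k7, (k7 _ h₀).trans k6⟩

theorem sector_thm (r A B : ℝ) (z₀ z₁ ω : ℂ) (hr : 0 < r) (h₀ : z₀ ∈ ann r) (h₁ : z₁ ∈ ann r)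
    (hA : A ≤ 0) (hh : 0 < hf r A B z₁) (i0 : 0 < (ω * z₀).im) (i1 : (ω * z₁).im ≤ 0)
    (a b : ℂ) (c : ℝ) (κ : ℝ → ℂ) (v g : ℂ → ℝ) (hc : Crit r A B z₀ z₁ a b c κ v g)
    (hv : (v z₀ : EReal) = Msup r A B z₀ z₁) : ∀ t ∈ Icc (0 : ℝ) 1, (ω * κ t).im ≤ 0 := by
  refine ((all_MAIN r A B z₀ z₁ hr h₀ h₁ hA hh fun t ht e => ?_).2.1 a b c κ v g hc).2.2 hv ω i0 i1
  rw [e, show ω * (t * z₁) = t * (ω * z₁) by ring, im_ofReal_mul] at i0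
  nlinarith

end Pool.Agent.P.MP_3bd355_an
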