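import Pool.Agent.P.MP_3bd355_an.AllRad
import Pool.Agent.P.MP_3bd355_an.Pk.X0
import Pool.Agent.P.MP_3bd355_an.Pk.X1
import Pool.Agent.P.MP_3bd355_an.Pk.X2
import Pool.Agent.P.MP_3bd355_an.Pk.X3
import Pool.Agent.P.MP_3bd355_an.Pk.X4
import Pool.Agent.P.MP_3bd355_an.Pk.X5
import Pool.Agent.P.MP_3bd355_an.Pk.X6
import Pool.Agent.P.MP_3bd355_an.Pk.X7
import Pool.Agent.P.MP_3bd355_an.Pk.X9

/-! Composition of the packages: the explicit formula. -/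

open Set Complex

namespace Pool.Agent.P.MP_3bd355_an

theorem all_X8 : S_X8 := x8 all_MREAL all_E1 all_SC all_FOLD1 all_ROT

theorem all_X9 : S_X9 := x9 (x0 all_MAIN all_RAD all_CRIT1) (x5 x1 x2 x3 x4) x6 x7

theorem bound_opp {r A B x x₀ : ℝ} (hr : 0 < r) (hx : r < x) (hx1 : x < 1) (hy : r < x₀)
    (hy1 : x₀ < 1) (hA : A ≤ 0) (hh : 0 < hf r A B x) (z : ℂ) (hz : ‖z‖ = x₀) :
    Msup r A B z x ≤ Msup r A B (-x₀) x := by
  have n0 : ‖-(x₀ : ℂ)‖ = x₀ := by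
    rw [norm_neg, norm_real, Real.norm_eq_abs, abs_of_pos (hr.trans hy)]
  have n1 : ‖(x : ℂ)‖ = x := by rw [norm_real, Real.norm_eq_abs, abs_of_pos (hr.trans hx)]
  refine all_X8 r A B (-x₀) z x hr ⟨by rwa [n0], by rwa [n0]⟩ ⟨by rwa [n1], by rwa [n1]⟩ hA hh
    (hz.trans n0.symm) ((norm_sub_le _ _).trans (le_of_eq ?_))
  rw [hz, n1, ← neg_add', norm_neg, ← ofReal_add, norm_real, Real.norm_eq_abs,
    abs_of_pos (by linarith)]

end Pool.Agent.P.MP_3bd355_an
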