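import Mathlib
import Pool.Agent.P.MP_3bd355_an.AllAtt

namespace Pool.Agent.P.MP_3bd355_an.AttainedOld

open Set Pool.Agent.P.MP_3bd355_an

/-- The supremum is attained when `h(z₁)` is small. -/
theorem result (r A B : ℝ) (z₀ : ℂ) (hr : 0 < r) (h₀ : z₀ ∈ ann r) (hA : A ≤ 0) (hB : 0 < B) :
    ∃ ε : ℝ, 0 < ε ∧ ∀ z₁ ∈ ann r, 0 < hf r A B z₁ → hf r A B z₁ < ε →
      ∃ u : ℂ → EReal, Adm r A B z₁ u ∧ u z₀ = Msup r A B z₀ z₁ :=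
  all_ATT r A B z₀ hr h₀ hA hB

end Pool.Agent.P.MP_3bd355_an.AttainedOld
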