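import Mathlib

/-! Extremal subharmonic functions in an annulus: the definitions used in the statements. -/

open Set Filter Metric Complex InnerProductSpace
open scoped Topology ComplexConjugate

namespace Pool.Agent.P.MP_3bd355_an

/-- The annulus `r < |z| < 1`. -/
def ann (r : ℝ) : Set ℂ := {z | r < ‖z‖ ∧ ‖z‖ < 1}

/-- `u` is subharmonic in `U`: upper semicontinuous, with values in `[-∞, ∞)`, and below every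
harmonic function on a closed disc in `U` that it is below on the boundary circle. -/
def Subharm (u : ℂ → EReal) (U : Set ℂ) : Prop :=
  UpperSemicontinuousOn u U ∧ (∀ z ∈ U, u z ≠ ⊤) ∧
    ∀ (c : ℂ) (ρ : ℝ), 0 < ρ → closedBall c ρ ⊆ U → ∀ h : ℂ → ℝ, HarmonicContOnCl h (ball c ρ) →
      (∀ z ∈ sphere c ρ, u z ≤ (h z : EReal)) → ∀ z ∈ ball c ρ, u z ≤ (h z : EReal)

/-- Admissible functions of the problem. -/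
structure Adm (r A B : ℝ) (z₁ : ℂ) (u : ℂ → EReal) : Prop where
  sub : Subharm u (ann r)
  outer : ∀ p : ℂ, ‖p‖ = 1 → Tendsto u (𝓝[ann r] p) (𝓝 (A : EReal))
  inner : ∀ p : ℂ, ‖p‖ = r → Tendsto u (𝓝[ann r] p) (𝓝 (B : EReal))
  curve : ∃ γ : ℝ → ℂ, ContinuousOn γ (Ico 0 1) ∧ γ 0 = z₁ ∧
    (∀ t ∈ Ico (0 : ℝ) 1, γ t ∈ ann r ∧ u (γ t) ≤ 0) ∧
    Tendsto (fun t => ‖γ t‖) (𝓝[<] 1) (𝓝 1)

/-- The extremal value `M`. -/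
noncomputable def Msup (r A B : ℝ) (z₀ z₁ : ℂ) : EReal :=
  ⨆ (u : ℂ → EReal) (_ : Adm r A B z₁ u), u z₀

/-- The harmonic function with boundary values `A` and `B`. -/
noncomputable def hf (r A B : ℝ) (z : ℂ) : ℝ := A + (B - A) * Real.log ‖z‖ / Real.log r

/-- The Villat kernel of the annulus (a Weierstrass zeta function in the variable `log t`). -/
noncomputable def vk (r : ℝ) (t : ℂ) : ℂ :=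
  (1 + t) / (1 - t) + 2 * ∑' n : ℕ, ((r : ℂ) ^ (2 * n + 2) * t / (1 - (r : ℂ) ^ (2 * n + 2) * t) -
    (r : ℂ) ^ (2 * n + 2) / (t - (r : ℂ) ^ (2 * n + 2)))

/-- The explicit quadratic differential `Q(z) dz²`. -/
noncomputable def QD (r : ℝ) (z₀ z₁ a b : ℂ) (c : ℝ) (z : ℂ) : ℂ :=
  (c + a * vk r (z / z₀) - conj a * vk r (z * conj z₀) + b * vk r (z / z₁) -
    conj b * vk r (z * conj z₁)) / z ^ 2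

/-- The complex gradient `u_x - i u_y`. -/
noncomputable def grad (u : ℂ → ℝ) (z : ℂ) : ℂ :=
  (fderiv ℝ u z 1 : ℝ) - I * (fderiv ℝ u z I : ℝ)

/-- Critical configurations: a simple arc `K = κ[0,1]` from `z₁`, the function `v` harmonic off
`K` and zero on `K`, the Green function `g` of the complement with pole `z₀`, and
`grad v * grad g = Q`. -/
structure Crit (r A B : ℝ) (z₀ z₁ a b : ℂ) (c : ℝ) (κ : ℝ → ℂ) (v g : ℂ → ℝ) : Prop where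
  bal : (a + b).im = 0
  b_ne : b ≠ 0
  cont : ContinuousOn κ (Icc 0 1)
  inj : InjOn κ (Icc 0 1)
  start : κ 0 = z₁
  mem : ∀ t ∈ Ico (0 : ℝ) 1, r ≤ ‖κ t‖ ∧ ‖κ t‖ < 1
  avoid : z₀ ∉ κ '' Icc 0 1
  traj : ∀ t ∈ Ioo (0 : ℝ) 1, r < ‖κ t‖ → AnalyticAt ℝ κ t ∧
    ∃ ρ : ℝ, 0 < ρ ∧ QD r z₀ z₁ a b c (κ t) * deriv κ t ^ 2 = -(ρ : ℂ)
  touch : (∀ t ∈ Icc (0 : ℝ) 1, r < ‖κ t‖) ∨ ∃ s₁ s₂ : ℝ, 0 < s₁ ∧ s₁ ≤ s₂ ∧ s₂ < 1 ∧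
    (∀ t ∈ Icc (0 : ℝ) 1, ‖κ t‖ = r ↔ t ∈ Icc s₁ s₂) ∧
    QD r z₀ z₁ a b c (κ s₁) = 0 ∧ QD r z₀ z₁ a b c (κ s₂) = 0
  v_cont : ContinuousOn v (ann r)
  v_bdd : ∃ C : ℝ, ∀ z ∈ ann r, |v z| ≤ C
  v_harm : HarmonicOnNhd v (ann r \ κ '' Icc 0 1)
  v_zero : ∀ z ∈ ann r, z ∈ κ '' Icc 0 1 → v z = 0
  v_outer : ∀ p : ℂ, ‖p‖ = 1 → Tendsto v (𝓝[ann r] p) (𝓝 A)
  v_inner : ∀ p : ℂ, ‖p‖ = r → p ∉ κ '' Icc 0 1 → Tendsto v (𝓝[ann r] p) (𝓝 B)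
  v_hug : ∀ p : ℂ, ‖p‖ = r → p ∉ closure (sphere 0 r \ κ '' Icc 0 1) →
    Tendsto v (𝓝[ann r] p) (𝓝 0)
  v_pos : ∀ t ∈ Ico (0 : ℝ) 1, r < ‖κ t‖ → ∀ᶠ z in 𝓝 (κ t), 0 ≤ v z
  g_harm : HarmonicOnNhd g ((ann r \ κ '' Icc 0 1) \ {z₀})
  g_pole : ∃ H : ℂ → ℝ, HarmonicAt H z₀ ∧ ∀ᶠ z in 𝓝[≠] z₀, g z = H z - Real.log ‖z - z₀‖
  g_bd : ∀ p ∈ frontier (ann r \ κ '' Icc 0 1), Tendsto g (𝓝[ann r \ κ '' Icc 0 1] p) (𝓝 0)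
  prod : ∀ z ∈ ann r \ κ '' Icc 0 1, z ≠ z₀ → grad v z * grad g z = QD r z₀ z₁ a b c z
  end_zero : A = 0 → ‖κ 1‖ = 1 ∧ QD r z₀ z₁ a b c (κ 1) = 0
  end_neg : A < 0 → κ 1 ∈ ann r ∧ QD r z₀ z₁ a b c (κ 1) ≠ 0 ∧
    (∃ C : ℝ, ∀ᶠ z in 𝓝 (κ 1), |v z| ≤ C * ‖z - κ 1‖ ^ (3 / 2 : ℝ)) ∧
    ∃ T : ℝ → ℂ, ContinuousOn T (Ico 0 1) ∧ T 0 = κ 1 ∧
      (∀ t ∈ Ioo (0 : ℝ) 1, T t ∈ ann r ∧ v (T t) < 0) ∧
      Tendsto (fun t => ‖T t‖) (𝓝[<] 1) (𝓝 1)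

end Pool.Agent.P.MP_3bd355_an
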