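import Pool.Agent.P.MP_3bd355_an.Defs

/-! Definitions for the explicit formula in the case of opposite points. -/

namespace Pool.Agent.P.MP_3bd355_an

/-- The elliptic function `K(z) = vk(z / x) - vk(z x)` of `log z`. -/
noncomputable def Kc (r x : ℝ) (z : ℂ) : ℂ := vk r (z / x) - vk r (z * x)

/-- The integral of `sqrt (max (K(σ s) - κ) 0) / s` over `a < s < b`. -/
noncomputable def Jint (r x κ σ a b : ℝ) : ℝ :=
  ∫ s in a..b, √(max ((Kc r x ((σ * s : ℝ) : ℂ)).re - κ) 0) / s

/-- The real segment from `x` to `R`. -/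
def seg (x R : ℝ) : Set ℂ := {z | z.im = 0 ∧ x ≤ z.re ∧ z.re ≤ R}

end Pool.Agent.P.MP_3bd355_an
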