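import Pool.Agent.P.MP_3bd355_an.Int

/-! Harmonic functions, complex gradients, the Dirichlet problem in a disc. -/

open Set Filter Metric Complex InnerProductSpace
open scoped Topology ComplexConjugate Real

namespace Pool.Agent.P.MP_3bd355_an

/-- A harmonic function is locally the real part of a holomorphic function. -/
theorem harm_exists_re {u : ℂ → ℝ} {z : ℂ} (hu : HarmonicAt u z) :
    ∃ f : ℂ → ℂ, AnalyticAt ℂ f z ∧ ∀ᶠ y in 𝓝 z, u y = (f y).re := by
  obtain ⟨ε, h1, h2⟩ := Metric.isOpen_iff.1 (isOpen_setOfPred_harmonicAt (f := u)) z hu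
  obtain ⟨F, h3, h4⟩ := HarmonicOnNhd.exists_analyticOnNhd_ball_re_eq (fun _ hy => h2 hy)
  exact ⟨F, h3 z (mem_ball_self h1),
    Filter.eventually_of_mem (ball_mem_nhds z h1) fun y hy => (h4 hy).symm⟩

theorem harm_comp {u : ℂ → ℝ} {f : ℂ → ℂ} {z : ℂ} (hu : HarmonicAt u (f z))
    (hf : AnalyticAt ℂ f z) : HarmonicAt (fun y => u (f y)) z := by
  obtain ⟨F, h1, h2⟩ := harm_exists_re hu
  refine (harmonicAt_congr_nhds ?_).2 (h1.comp hf).harmonicAt_re
  exact hf.continuousAt.eventually h2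

theorem harm_conj {u : ℂ → ℝ} {z : ℂ} (hu : HarmonicAt u (conj z)) :
    HarmonicAt (fun y => u (conj y)) z := by
  obtain ⟨F, h1, h2⟩ := harm_exists_re hu
  have h3 : AnalyticAt ℂ (fun x => conj (F (conj x))) z := by
    rw [analyticAt_iff_eventually_differentiableAt]
    filter_upwards [continuous_conj.continuousAt.eventually h1.eventually_analyticAt] with x hx
    have := hx.differentiableAt.conj_conj
    rwa [conj_conj] at this
  refine (harmonicAt_congr_nhds ?_).2 h3.harmonicAt_re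
  filter_upwards [continuous_conj.continuousAt.eventually h2] with y hy
  simpa using hy

theorem harm_log {a z : ℂ} (h : z ≠ a) : HarmonicAt (fun y => Real.log ‖y - a‖) z := by
  exact AnalyticAt.harmonicAt_log_norm (f := fun y => y - a) (by fun_prop) (sub_ne_zero.2 h)

theorem harm_arg {f : ℂ → ℂ} {z : ℂ} (hf : AnalyticAt ℂ f z) (h : f z ∈ slitPlane) :
    HarmonicAt (fun y => arg (f y)) z := by
  simpa only [log_im] using (hf.clog h).harmonicAt_im

theorem harm_const_mul {u : ℂ → ℝ} {z : ℂ} (hu : HarmonicAt u z) (c : ℝ) :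
    HarmonicAt (fun y => c * u y) z := by
  exact hu.const_smul (c := c)

theorem harm_sum {ι : Type*} (s : Finset ι) {u : ι → ℂ → ℝ} {z : ℂ}
    (hu : ∀ i ∈ s, HarmonicAt (u i) z) : HarmonicAt (fun y => ∑ i ∈ s, u i y) z := by
  classical
  induction s using Finset.induction_on with
  | empty => simp
  | insert a s ha ih =>
    simp only [Finset.sum_insert ha]
    exact (hu a (by simp)).add (ih fun i hi => hu i (by simp [hi]))

theorem harm_diff {u : ℂ → ℝ} {z : ℂ} (hu : HarmonicAt u z) : DifferentiableAt ℝ u z := by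
  exact hu.1.differentiableAt two_ne_zero

namespace GradP

/-- Comparison of the Poisson integral with a harmonic function. -/
theorem poisson_le {R : ℝ} {w : ℂ} (hw : w ∈ ball (0 : ℂ) R) {g k : ℂ → ℝ}
    (hg : ContinuousOn g (sphere 0 R)) (hk : ContinuousOn k (sphere 0 R))
    (h : ∀ z ∈ sphere (0 : ℂ) R, g z ≤ k z) :
    Real.circleAverage ((re ∘ herglotzRieszKernel 0 w) • g) 0 R ≤
      Real.circleAverage ((re ∘ herglotzRieszKernel 0 w) • k) 0 R := by
  have hR : 0 < R := pos_of_mem_ball hw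
  have hK : ContinuousOn (re ∘ herglotzRieszKernel 0 w) (sphere 0 R) := by
    have := continuousOn_herglotzRieszKernel_sphere hw
    rw [abs_of_pos hR] at this
    exact continuous_re.comp_continuousOn this
  refine Real.circleAverage_mono ((hK.smul hg).circleIntegrable hR.le)
    ((hK.smul hk).circleIntegrable hR.le) fun z hz => ?_
  rw [abs_of_pos hR] at hz
  have h1 := le_re_herglotzRieszKernel hz hw
  have h2 : ‖w - 0‖ < R := mem_ball_iff_norm.1 hw
  have h3 : 0 ≤ (R - ‖w - 0‖) / (R + ‖w - 0‖) :=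
    div_nonneg (by linarith) (by linarith [norm_nonneg (w - 0)])
  exact mul_le_mul_of_nonneg_left (h z hz) (h3.trans h1)

/-- A quadratic modulus of continuity on a circle. -/
theorem quad_mod {R : ℝ} {g : ℂ → ℝ} (hg : ContinuousOn g (sphere 0 R)) {p : ℂ}
    (hp : p ∈ sphere (0 : ℂ) R) {ε : ℝ} (hε : 0 < ε) :
    ∃ C, ∀ z ∈ sphere (0 : ℂ) R, |g z - g p| ≤ ε + C * (2 * R ^ 2 - 2 * (z * conj p).re) := by
  obtain ⟨M, hM⟩ := (isCompact_sphere (0 : ℂ) R).exists_bound_of_continuousOn hg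
  obtain ⟨δ, hδ, h⟩ := Metric.continuousWithinAt_iff.1 (hg p hp) ε hε
  have hM0 : 0 ≤ M := (norm_nonneg _).trans (hM p hp)
  refine ⟨2 * M / δ ^ 2, fun z hz => ?_⟩
  have e : 2 * R ^ 2 - 2 * (z * conj p).re = ‖z - p‖ ^ 2 := by
    have h1 : ‖z‖ = R := mem_sphere_zero_iff_norm.1 hz
    have h2 : ‖p‖ = R := mem_sphere_zero_iff_norm.1 hp
    rw [← normSq_eq_norm_sq, normSq_sub, normSq_eq_norm_sq, normSq_eq_norm_sq, h1, h2]
    ring
  rw [e]
  by_cases hd : dist z p < δ
  · have := h hz hd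
    rw [Real.dist_eq] at this
    have : 0 ≤ 2 * M / δ ^ 2 * ‖z - p‖ ^ 2 := by positivity
    linarith
  · rw [not_lt, dist_eq_norm] at hd
    have h1 := hM z hz
    have h2 := hM p hp
    rw [Real.norm_eq_abs] at h1 h2
    have h3 : 2 * M ≤ 2 * M / δ ^ 2 * ‖z - p‖ ^ 2 := by
      rw [div_mul_eq_mul_div, le_div_iff₀ (by positivity)]
      gcongr
    linarith [abs_sub (g z) (g p)]

theorem poisson0 {R : ℝ} (hR : 0 < R) {g : ℂ → ℝ} (hg : ContinuousOn g (sphere 0 R)) :
    ∃ h : ℂ → ℝ, HarmonicContOnCl h (ball 0 R) ∧ EqOn h g (sphere 0 R) := by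
  classical
  set u : ℂ → ℝ := fun w => Real.circleAverage ((re ∘ herglotzRieszKernel 0 w) • g) 0 R with hu
  have hi : CircleIntegrable g 0 R := hg.circleIntegrable hR.le
  have hi' : CircleIntegrable (fun ζ => (g ζ : ℂ)) 0 R :=
    (continuous_ofReal.comp_continuousOn hg).circleIntegrable hR.le
  have hh : ∀ w ∈ ball (0 : ℂ) R, HarmonicAt (fun y => if y ∈ ball (0 : ℂ) R then u y else g y) w := by
    intro w hw
    refine (harmonicAt_congr_nhds ?_).1
      (analyticOnNhd_circleAverage_herglotzRieszKernel_smul hi' w hw).harmonicAt_re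
    filter_upwards [isOpen_ball.mem_nhds hw] with y hy
    rw [if_pos hy, re_circleAverage_herglotzRieszKernel_smul hi hy]
  have he : EqOn (fun y => if y ∈ ball (0 : ℂ) R then u y else g y) g (sphere 0 R) := fun y hy => by
    have : y ∉ ball (0 : ℂ) R := by simp [mem_sphere_zero_iff_norm.1 hy]
    simp only [if_neg this]
  refine ⟨_, HarmonicContOnCl.mk_ball hh fun p hp => ?_, he⟩
  rw [← ball_union_sphere] at hp
  rcases hp with hp | hp
  · exact (hh p hp).1.continuousAt.continuousWithinAt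
  rw [← ball_union_sphere]
  refine ContinuousWithinAt.union ?_ ((hg.congr he) p hp)
  refine Tendsto.mono_right (y := 𝓝 (g p)) ?_ (by rw [he hp])
  rw [Metric.tendsto_nhds]
  intro ε hε
  obtain ⟨C, hC⟩ := quad_mod hg hp (half_pos (half_pos hε))
  set q : ℂ → ℝ := fun z => ε / 2 / 2 + C * (2 * R ^ 2 - 2 * (z * conj p).re) with hq
  have cq : Continuous q := by simp only [hq]; fun_prop
  have hq' : ∀ (a s : ℝ) (z : ℂ), HarmonicAt (fun z => a + s * q z) z := fun a s z => by
    have : AnalyticAt ℂ (fun z : ℂ => (a : ℂ) + (s : ℂ) * (((ε / 2 / 2 : ℝ) : ℂ) + (C : ℂ) *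
        (((2 * R ^ 2 : ℝ) : ℂ) - ((2 : ℝ) : ℂ) * (z * conj p)))) z := by fun_prop
    refine (harmonicAt_congr_nhds (Eventually.of_forall fun y => ?_)).1 this.harmonicAt_re
    simp only [hq, add_re, ofReal_re, re_ofReal_mul, sub_re]
  have hqp : q p < ε := by
    have : (p * conj p).re = R ^ 2 := by
      rw [mul_conj, ofReal_re, normSq_eq_norm_sq, mem_sphere_zero_iff_norm.1 hp]
    simp only [hq, this]; linarith
  filter_upwards [nhdsWithin_le_nhds (cq.continuousAt.eventually_lt continuousAt_const hqp),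
    self_mem_nhdsWithin] with w h1 hw
  have P : ∀ a s : ℝ, Real.circleAverage ((re ∘ herglotzRieszKernel 0 w) • fun z => a + s * q z) 0 R
      = a + s * q w := fun a s =>
    HarmonicOnNhd.circleAverage_re_herglotzRieszKernel_smul (fun z _ => hq' a s z) hw
  have h2 := poisson_le hw hg (k := fun z => g p + 1 * q z) (by fun_prop) fun z hz => by
    have := (abs_le.1 (hC z hz)).2
    simp only [hq]; linarith
  have h3 := poisson_le hw (g := fun z => g p + (-1) * q z) (by fun_prop) hg fun z hz => by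
    have := (abs_le.1 (hC z hz)).1
    simp only [hq]; linarith
  rw [P] at h2 h3
  rw [if_pos hw, Real.dist_eq, abs_lt]
  simp only [hu]
  constructor <;> linarith

theorem clm_apply_eq (L : ℂ →L[ℝ] ℝ) (v : ℂ) : L v = v.re * L 1 + v.im * L I := by
  conv_lhs => rw [← re_add_im v]
  rw [map_add, ← smul_eq_mul v.re, ← smul_eq_mul v.im, ← map_smul, ← map_smul]
  simp

/-- The gradient is determined by the real derivative. -/
theorem grad_of_fderiv {u : ℂ → ℝ} {z g : ℂ} (h : ∀ β, fderiv ℝ u z β = (g * β).re) :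
    grad u z = g := by
  simp only [grad, h]
  apply Complex.ext <;> simp

theorem fderiv_of_hasDerivAt {f : ℂ → ℂ} {f' z : ℂ} (h : HasDerivAt f f' z) (v : ℂ) :
    fderiv ℝ f z v = f' * v := by
  rw [(h.hasFDerivAt.restrictScalars ℝ).fderiv]
  simp [mul_comm]

end GradP

theorem exists_poisson {c : ℂ} {R : ℝ} (hR : 0 < R) {f : ℂ → ℝ}
    (hf : ContinuousOn f (sphere c R)) :
    ∃ h : ℂ → ℝ, HarmonicContOnCl h (ball c R) ∧ EqOn h f (sphere c R) := by
  have m : MapsTo (fun z => z + c) (sphere (0 : ℂ) R) (sphere c R) := fun z hz => by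
    simpa using hz
  obtain ⟨h, h1, h2⟩ := GradP.poisson0 hR (g := fun z => f (z + c))
    (hf.comp (by fun_prop) m)
  refine ⟨fun z => h (z - c), HarmonicContOnCl.mk_ball (fun z hz => ?_) ?_, fun z hz => ?_⟩
  · exact harm_comp (f := fun z => z - c)
      (h1.1 _ (mem_ball_zero_iff.2 (mem_ball_iff_norm.1 hz))) (by fun_prop)
  · exact h1.continuousOn_ball.comp (by fun_prop) fun z hz =>
      mem_closedBall_zero_iff.2 (mem_closedBall_iff_norm.1 hz)
  · have := h2 (x := z - c) (mem_sphere_zero_iff_norm.2 (mem_sphere_iff_norm.1 hz))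
    simpa using this

theorem fderiv_eq_grad (u : ℂ → ℝ) (z β : ℂ) : fderiv ℝ u z β = (grad u z * β).re := by
  rw [GradP.clm_apply_eq]
  simp [grad]
  ring

theorem norm_grad (u : ℂ → ℝ) (z : ℂ) : ‖grad u z‖ = ‖fderiv ℝ u z‖ := by
  symm
  apply le_antisymm
  · refine ContinuousLinearMap.opNorm_le_bound _ (norm_nonneg _) fun v => ?_
    rw [fderiv_eq_grad, ← norm_mul]
    exact abs_re_le_norm _
  · by_cases h0 : grad u z = 0
    · rw [h0, norm_zero]; exact norm_nonneg _
    · have h1 := (fderiv ℝ u z).le_opNorm (conj (grad u z))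
      rw [fderiv_eq_grad, mul_conj, ofReal_re, Real.norm_eq_abs, abs_of_nonneg (normSq_nonneg _),
        normSq_eq_norm_sq, norm_conj, sq] at h1
      exact le_of_mul_le_mul_right h1 (norm_pos_iff.mpr h0)

theorem grad_congr {u w : ℂ → ℝ} {z : ℂ} (h : u =ᶠ[𝓝 z] w) : grad u z = grad w z := by
  simp only [grad, h.fderiv_eq]

theorem grad_analytic {u : ℂ → ℝ} {z : ℂ} (hu : HarmonicAt u z) : AnalyticAt ℂ (grad u) z := by
  exact HarmonicAt.analyticAt_complex_partial hu

theorem grad_re {f : ℂ → ℂ} {z : ℂ} (hf : DifferentiableAt ℂ f z) :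
    grad (fun y => (f y).re) z = deriv f z := by
  refine GradP.grad_of_fderiv fun β => ?_
  have := (reCLM.hasFDerivAt.comp z (hf.restrictScalars ℝ).hasFDerivAt).fderiv
  rw [show (fun y => (f y).re) = reCLM ∘ f from rfl, this]
  simp [GradP.fderiv_of_hasDerivAt hf.hasDerivAt]

theorem grad_im {f : ℂ → ℂ} {z : ℂ} (hf : DifferentiableAt ℂ f z) :
    grad (fun y => (f y).im) z = -I * deriv f z := by
  refine GradP.grad_of_fderiv fun β => ?_
  have := (imCLM.hasFDerivAt.comp z (hf.restrictScalars ℝ).hasFDerivAt).fderiv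
  rw [show (fun y => (f y).im) = imCLM ∘ f from rfl, this]
  simp [GradP.fderiv_of_hasDerivAt hf.hasDerivAt]

theorem grad_comp {u : ℂ → ℝ} {f : ℂ → ℂ} {z : ℂ} (hu : DifferentiableAt ℝ u (f z))
    (hf : DifferentiableAt ℂ f z) : grad (fun y => u (f y)) z = grad u (f z) * deriv f z := by
  refine GradP.grad_of_fderiv fun β => ?_
  rw [fderiv_fun_comp z hu (hf.restrictScalars ℝ), ContinuousLinearMap.comp_apply,
    GradP.fderiv_of_hasDerivAt hf.hasDerivAt, fderiv_eq_grad, mul_assoc]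

theorem grad_add {u w : ℂ → ℝ} {z : ℂ} (hu : DifferentiableAt ℝ u z)
    (hw : DifferentiableAt ℝ w z) : grad (fun y => u y + w y) z = grad u z + grad w z := by
  refine GradP.grad_of_fderiv fun β => ?_
  rw [fderiv_fun_add hu hw, _root_.add_apply, fderiv_eq_grad, fderiv_eq_grad, add_mul,
    add_re]

theorem grad_sub {u w : ℂ → ℝ} {z : ℂ} (hu : DifferentiableAt ℝ u z)
    (hw : DifferentiableAt ℝ w z) : grad (fun y => u y - w y) z = grad u z - grad w z := by
  refine GradP.grad_of_fderiv fun β => ?_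
  rw [fderiv_fun_sub hu hw, _root_.sub_apply, fderiv_eq_grad, fderiv_eq_grad, sub_mul,
    sub_re]

theorem grad_const_mul (u : ℂ → ℝ) (c : ℝ) (z : ℂ) :
    grad (fun y => c * u y) z = c * grad u z := by
  refine GradP.grad_of_fderiv fun β => ?_
  rw [show (fun y => c * u y) = c • u from rfl, fderiv_const_smul_field]
  simp only [Pi.smul_apply, _root_.smul_apply, smul_eq_mul, fderiv_eq_grad, mul_assoc,
    re_ofReal_mul]

theorem grad_const (c : ℝ) (z : ℂ) : grad (fun _ => c) z = 0 := by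
  simp [grad]

theorem grad_sum {ι : Type*} (s : Finset ι) {u : ι → ℂ → ℝ} {z : ℂ}
    (hu : ∀ i ∈ s, DifferentiableAt ℝ (u i) z) :
    grad (fun y => ∑ i ∈ s, u i y) z = ∑ i ∈ s, grad (u i) z := by
  classical
  induction s using Finset.induction_on with
  | empty => simpa using grad_const 0 z
  | insert a s ha ih =>
    simp only [Finset.sum_insert ha]
    rw [grad_add (hu a (by simp)) (DifferentiableAt.fun_sum fun i hi => hu i (by simp [hi])),
      ih fun i hi => hu i (by simp [hi])]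

theorem grad_log {a z : ℂ} (h : z ≠ a) : grad (fun y => Real.log ‖y - a‖) z = 1 / (z - a) := by
  have h0 : z - a ≠ 0 := sub_ne_zero.2 h
  have h1 : HasDerivAt (fun y => log ((y - a) / (z - a)) + (Real.log ‖z - a‖ : ℂ))
      (1 / (z - a)) z := by
    have := ((((hasDerivAt_id z).sub_const a).div_const (z - a)).clog
      (by simp [div_self h0])).add_const (Real.log ‖z - a‖ : ℂ)
    simpa [div_self h0] using this
  rw [← h1.deriv, ← grad_re h1.differentiableAt]
  refine grad_congr ?_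
  filter_upwards [isOpen_ne.mem_nhds h] with y hy
  rw [add_re, log_re, ofReal_re, norm_div,
    Real.log_div (norm_ne_zero_iff.2 (sub_ne_zero.2 hy)) (norm_ne_zero_iff.2 h0), sub_add_cancel]

theorem hf_harm (r A B : ℝ) {z : ℂ} (hz : z ≠ 0) : HarmonicAt (hf r A B) z := by
  have := (harmonicAt_const (x := z) A).add
    (harm_const_mul (harm_log (a := 0) hz) ((B - A) / Real.log r))
  refine (harmonicAt_congr_nhds (Eventually.of_forall fun y => ?_)).1 this
  simp only [hf, Pi.add_apply, sub_zero]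
  ring

theorem hf_outer (r A B : ℝ) {z : ℂ} (hz : ‖z‖ = 1) : hf r A B z = A := by
  simp [hf, hz]

theorem hf_inner {r : ℝ} (h0 : 0 < r) (h1 : r < 1) (A B : ℝ) {z : ℂ} (hz : ‖z‖ = r) :
    hf r A B z = B := by
  have := (Real.log_neg h0 h1).ne
  simp only [hf, hz]
  field_simp
  ring

theorem B_pos {r A B : ℝ} {z : ℂ} (h0 : 0 < r) (hz : z ∈ ann r) (hA : A ≤ 0)
    (h : 0 < hf r A B z) : 0 < B := by
  have h1 : Real.log r < Real.log ‖z‖ := Real.log_lt_log h0 hz.1
  have h2 : Real.log ‖z‖ < 0 := Real.log_neg (h0.trans hz.1) hz.2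
  have h3 : Real.log r < 0 := h1.trans h2
  have h4 : 0 < Real.log ‖z‖ / Real.log r := div_pos_of_neg_of_neg h2 h3
  have h5 : Real.log ‖z‖ / Real.log r < 1 := (div_lt_one_of_neg h3).2 h1
  rw [hf, mul_div_assoc] at h
  by_contra hB
  push Not at hB
  nlinarith

theorem LS.of_tendsto {u : ℂ → ℝ} {U : Set ℂ} {p : ℂ} {c d : ℝ} (h : Tendsto u (𝓝[U] p) (𝓝 c))
    (hcd : c ≤ d) : LS u U p d := by
  exact fun ε hε => h.eventually (gt_mem_nhds (by linarith))

theorem LS.mono {u : ℂ → ℝ} {U V : Set ℂ} {p : ℂ} {c : ℝ} (h : LS u U p c) (hV : V ⊆ U) :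
    LS u V p c := by
  exact fun ε hε => (h ε hε).filter_mono (nhdsWithin_mono _ hV)

theorem LS.le {u : ℂ → ℝ} {U : Set ℂ} {p : ℂ} {c d : ℝ} (h : LS u U p c) (hcd : c ≤ d) :
    LS u U p d := by
  exact fun ε hε => (h ε hε).mono fun z hz => by linarith

theorem LS.of_le {u w : ℂ → ℝ} {U : Set ℂ} {p : ℂ} {c : ℝ} (h : LS u U p c)
    (hw : ∀ᶠ z in 𝓝[U] p, w z ≤ u z) : LS w U p c := by
  exact fun ε hε => ((h ε hε).and hw).mono fun z hz => hz.2.trans_lt hz.1

theorem LS.of_eventually {u : ℂ → ℝ} {U : Set ℂ} {p : ℂ} {c : ℝ} (h : ∀ᶠ z in 𝓝[U] p, u z ≤ c) :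
    LS u U p c := by
  exact fun ε hε => h.mono fun z hz => by linarith

theorem LS.add {u w : ℂ → ℝ} {U : Set ℂ} {p : ℂ} {c d : ℝ} (hu : LS u U p c) (hw : LS w U p d) :
    LS (fun z => u z + w z) U p (c + d) := by
  exact fun ε hε => ((hu _ (half_pos hε)).and (hw _ (half_pos hε))).mono fun z hz => by
    linarith [hz.1, hz.2]

theorem LS.sub_tendsto {u w : ℂ → ℝ} {U : Set ℂ} {p : ℂ} {c d : ℝ} (hu : LS u U p c)
    (hw : Tendsto w (𝓝[U] p) (𝓝 d)) : LS (fun z => u z - w z) U p (c - d) := by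
  simpa only [sub_eq_add_neg] using hu.add (LS.of_tendsto hw.neg le_rfl)

theorem LS.const_mul {u : ℂ → ℝ} {U : Set ℂ} {p : ℂ} {c k : ℝ} (hu : LS u U p c) (hk : 0 ≤ k) :
    LS (fun z => k * u z) U p (k * c) := by
  intro ε hε
  have h1 : 0 < k + 1 := by linarith
  filter_upwards [hu _ (div_pos hε h1)] with z hz
  have h2 : k * (ε / (k + 1)) < ε := by
    rw [← mul_div_assoc, div_lt_iff₀ h1]; linarith
  nlinarith [mul_le_mul_of_nonneg_left hz.le hk]

theorem LS.max {u w : ℂ → ℝ} {U : Set ℂ} {p : ℂ} {c : ℝ} (hu : LS u U p c) (hw : LS w U p c) :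
    LS (fun z => max (u z) (w z)) U p c := by
  exact fun ε hε => ((hu ε hε).and (hw ε hε)).mono fun z hz => max_lt hz.1 hz.2

theorem LS.of_usc {u : ℂ → ℝ} {U V : Set ℂ} {p : ℂ} (h : UpperSemicontinuousOn u U) (hp : p ∈ U)
    (hV : V ⊆ U) : LS u V p (u p) := by
  exact fun ε hε => (h p hp (u p + ε) (by linarith)).filter_mono (nhdsWithin_mono _ hV)

theorem LS.comp {u : ℂ → ℝ} {f : ℂ → ℂ} {U V : Set ℂ} {p q : ℂ} {c : ℝ} (h : LS u U q c)
    (hf : Tendsto f (𝓝[V] p) (𝓝[U] q)) : LS (fun z => u (f z)) V p c := by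
  exact fun ε hε => hf.eventually (h ε hε)

theorem tendsto_of_LS {u : ℂ → ℝ} {U : Set ℂ} {p : ℂ} {c : ℝ} (h1 : LS u U p c)
    (h2 : LS (fun z => -u z) U p (-c)) : Tendsto u (𝓝[U] p) (𝓝 c) := by
  rw [Metric.tendsto_nhds]
  intro ε hε
  filter_upwards [h1 ε hε, h2 ε hε] with z a1 a2
  rw [Real.dist_eq, abs_lt]
  constructor <;> linarith

end Pool.Agent.P.MP_3bd355_an
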