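import Pool.Agent.P.MP_3bd355_an.Grad

/-! Harnack inequalities, identity theorem, gradient bounds, limits. -/

open Set Filter Metric Complex InnerProductSpace
open scoped Topology ComplexConjugate Real

namespace Pool.Agent.P.MP_3bd355_an

namespace Har1P

theorem harnack_closed {u : ℂ → ℝ} {c : ℂ} {R : ℝ} (hu : HarmonicOnNhd u (closedBall c R))
    (h0 : ∀ z ∈ closedBall c R, 0 ≤ u z) {z : ℂ} (hz : z ∈ ball c R) :
    (R - ‖z - c‖) / (R + ‖z - c‖) * u c ≤ u z ∧ u z ≤ (R + ‖z - c‖) / (R - ‖z - c‖) * u c := by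
  have hR : 0 < R := pos_of_mem_ball hz
  have h1 := hu.circleAverage_re_herglotzRieszKernel_smul hz
  have h2 : Real.circleAverage u c R = u c := by
    apply InnerProductSpace.HarmonicOnNhd.circleAverage_eq
    rwa [abs_of_pos hR]
  have hc : ContinuousOn u (sphere c |R|) := by
    rw [abs_of_pos hR]; exact hu.continuousOn.mono sphere_subset_closedBall
  have hk : CircleIntegrable ((re ∘ herglotzRieszKernel c z) • u) c R :=
    ((continuous_re.comp_continuousOn (continuousOn_herglotzRieszKernel_sphere hz)).smul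
      hc).circleIntegrable'
  have hi : ∀ a : ℝ, CircleIntegrable (fun x => a • u x) c R := fun a =>
    (hc.const_smul a).circleIntegrable'
  constructor
  · rw [← h1, ← h2, ← smul_eq_mul, ← Real.circleAverage_fun_smul]
    refine Real.circleAverage_mono (hi _) hk fun x hx => ?_
    rw [abs_of_pos hR] at hx
    exact mul_le_mul_of_nonneg_right (le_re_herglotzRieszKernel hx hz)
      (h0 x (sphere_subset_closedBall hx))
  · rw [← h1, ← h2, ← smul_eq_mul, ← Real.circleAverage_fun_smul]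
    refine Real.circleAverage_mono hk (hi _) fun x hx => ?_
    rw [abs_of_pos hR] at hx
    exact mul_le_mul_of_nonneg_right (re_herglotzRieszKernel_le hx hz)
      (h0 x (sphere_subset_closedBall hx))

/-- Maximum principle in a disc. -/
theorem le_of_sphere {v : ℂ → ℝ} {c : ℂ} {R ε : ℝ} (hv : HarmonicContOnCl v (ball c R))
    (h : ∀ z ∈ sphere c R, v z ≤ ε) {w : ℂ} (hw : w ∈ ball c R) : v w ≤ ε := by
  have hR : 0 < R := pos_of_mem_ball hw
  have h1 := hv.circleAverage_re_herglotzRieszKernel_smul hw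
  have h2 := HarmonicOnNhd.circleAverage_re_herglotzRieszKernel_smul
    (f := fun _ : ℂ => ε) (c := c) (R := R) (harmonicOnNhd_const ε) hw
  have hc : ContinuousOn v (sphere c |R|) := by
    rw [abs_of_pos hR]; exact hv.continuousOn_ball.mono sphere_subset_closedBall
  have hK := continuous_re.comp_continuousOn (continuousOn_herglotzRieszKernel_sphere hw)
  rw [← h1]
  refine le_trans (Real.circleAverage_mono (hK.smul hc).circleIntegrable'
    (hK.smul (continuousOn_const (c := ε))).circleIntegrable' fun x hx => ?_) h2.le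
  rw [abs_of_pos hR] at hx
  have h3 := le_re_herglotzRieszKernel hx hw
  have h4 : ‖w - c‖ < R := mem_ball_iff_norm.1 hw
  have h5 : 0 ≤ (R - ‖w - c‖) / (R + ‖w - c‖) :=
    div_nonneg (by linarith) (by linarith [norm_nonneg (w - c)])
  exact mul_le_mul_of_nonneg_left (h x hx) (h5.trans h3)

theorem ball_half {c x : ℂ} {R : ℝ} (hx : x ∈ ball c (R / 2)) : ball x (R / 2) ⊆ ball c R :=
  ball_subset_ball' (by have := mem_ball.1 hx; linarith)

theorem arg_upH {w : ℂ} (hw : 0 < w.im) : arg w = π / 2 + Real.arctan (-w.re / w.im) := by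
  set t := -w.re / w.im with ht
  have hs : 0 < √(1 + t ^ 2) := Real.sqrt_pos.2 (by positivity)
  have h1 := Real.neg_pi_div_two_lt_arctan t
  have h2 := Real.arctan_lt_pi_div_two t
  have h3 := Real.pi_pos
  rw [← arg_mul_cos_add_sin_mul_I (r := w.im * √(1 + t ^ 2)) (mul_pos hw hs)
    (θ := π / 2 + Real.arctan t) ⟨by linarith, by linarith⟩]
  congr 1
  rw [← ofReal_cos, ← ofReal_sin, add_comm (π / 2), Real.cos_add_pi_div_two,
    Real.sin_add_pi_div_two, Real.sin_arctan, Real.cos_arctan]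
  apply Complex.ext
  · simp only [mul_re, add_re, ofReal_re, ofReal_im, I_re, I_im, add_im, mul_im]
    field_simp
    rw [ht]; field_simp; ring
  · simp only [mul_re, add_re, ofReal_re, ofReal_im, I_re, I_im, add_im, mul_im]
    field_simp
    ring

theorem inv_im (x : ℝ) : Tendsto (fun η : ℂ => η.im⁻¹) (𝓝[upH] (x : ℂ)) atTop := by
  refine tendsto_inv_nhdsGT_zero.comp (tendsto_nhdsWithin_iff.2 ⟨?_, self_mem_nhdsWithin⟩)
  simpa using (continuous_im.tendsto (x : ℂ)).mono_left nhdsWithin_le_nhds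

theorem sub_re_tendsto (s x : ℝ) :
    Tendsto (fun η : ℂ => s - η.re) (𝓝[upH] (x : ℂ)) (𝓝 (s - x)) := by
  have : Continuous fun η : ℂ => s - η.re := by fun_prop
  simpa using (this.tendsto (x : ℂ)).mono_left nhdsWithin_le_nhds

theorem arctan_pos {s x : ℝ} (h : x < s) :
    Tendsto (fun η : ℂ => Real.arctan ((s - η.re) / η.im)) (𝓝[upH] (x : ℂ)) (𝓝 (π / 2)) :=
  (Real.tendsto_arctan_atTop.mono_right nhdsWithin_le_nhds).comp
    (((sub_re_tendsto s x).pos_mul_atTop (sub_pos.2 h) (inv_im x)).congr fun _ =>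
      (div_eq_mul_inv _ _).symm)

theorem arctan_neg {s x : ℝ} (h : s < x) :
    Tendsto (fun η : ℂ => Real.arctan ((s - η.re) / η.im)) (𝓝[upH] (x : ℂ)) (𝓝 (-(π / 2))) :=
  (Real.tendsto_arctan_atBot.mono_right nhdsWithin_le_nhds).comp
    (((sub_re_tendsto s x).neg_mul_atTop (sub_neg.2 h) (inv_im x)).congr fun _ =>
      (div_eq_mul_inv _ _).symm)

theorem arg_sub {η : ℂ} (hη : η ∈ upH) (s : ℝ) :
    arg (η - s) = π / 2 + Real.arctan ((s - η.re) / η.im) := by
  rw [arg_upH (w := η - s) (by simpa using (show 0 < η.im from hη))]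
  simp

theorem hmI_aux {η : ℂ} (hη : η ∈ upH) (a b : ℝ) : (arg (η - b) - arg (η - a)) / π =
    (Real.arctan ((b - η.re) / η.im) - Real.arctan ((a - η.re) / η.im)) / π := by
  rw [arg_sub hη, arg_sub hη]; ring

end Har1P

open Har1P

theorem harnack_ball {u : ℂ → ℝ} {c : ℂ} {R : ℝ} (hu : HarmonicOnNhd u (ball c R))
    (h0 : ∀ z ∈ ball c R, 0 ≤ u z) {z : ℂ} (hz : z ∈ ball c R) :
    (R - ‖z - c‖) / (R + ‖z - c‖) * u c ≤ u z ∧ u z ≤ (R + ‖z - c‖) / (R - ‖z - c‖) * u c := by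
  have hr : ‖z - c‖ < R := mem_ball_iff_norm.1 hz
  have hn := norm_nonneg (z - c)
  have key : ∀ᶠ S in 𝓝[<] R, (S - ‖z - c‖) / (S + ‖z - c‖) * u c ≤ u z ∧
      u z ≤ (S + ‖z - c‖) / (S - ‖z - c‖) * u c := by
    filter_upwards [Ioo_mem_nhdsLT hr] with S hS
    have hs : closedBall c S ⊆ ball c R := closedBall_subset_ball hS.2
    exact harnack_closed (hu.mono hs) (fun x hx => h0 x (hs hx)) (mem_ball_iff_norm.2 hS.1)
  have c1 : ContinuousAt (fun S : ℝ => (S - ‖z - c‖) / (S + ‖z - c‖) * u c) R :=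
    ((continuousAt_id.sub continuousAt_const).div (continuousAt_id.add continuousAt_const)
      (by change R + _ ≠ 0; linarith)).mul continuousAt_const
  have c2 : ContinuousAt (fun S : ℝ => (S + ‖z - c‖) / (S - ‖z - c‖) * u c) R :=
    ((continuousAt_id.add continuousAt_const).div (continuousAt_id.sub continuousAt_const)
      (by change R - _ ≠ 0; linarith)).mul continuousAt_const
  exact ⟨le_of_tendsto (c1.tendsto.mono_left nhdsWithin_le_nhds) (key.mono fun _ h => h.1),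
    ge_of_tendsto (c2.tendsto.mono_left nhdsWithin_le_nhds) (key.mono fun _ h => h.2)⟩

theorem harnack_unif {U K : Set ℂ} (hU : IsOpen U) (hc : IsPreconnected U) (hK : IsCompact K)
    (hKU : K ⊆ U) : ∃ C : ℝ, 0 < C ∧ ∀ u : ℂ → ℝ, HarmonicOnNhd u U → (∀ z ∈ U, 0 ≤ u z) →
      ∀ x ∈ K, ∀ y ∈ K, u x ≤ C * u y := by
  have loc : ∀ x ∈ U, ∀ᶠ y in 𝓝 x, ∀ u : ℂ → ℝ, HarmonicOnNhd u U → (∀ z ∈ U, 0 ≤ u z) →
      u x ≤ 3 * u y ∧ u y ≤ 3 * u x := by
    intro x hx
    obtain ⟨ε, hε, hb⟩ := Metric.isOpen_iff.1 hU x hx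
    filter_upwards [ball_mem_nhds x (half_pos hε)] with y hy u hu h0
    have hr : ‖y - x‖ < ε / 2 := mem_ball_iff_norm.1 hy
    have hn := norm_nonneg (y - x)
    obtain ⟨h1, h2⟩ := harnack_ball (hu.mono hb) (fun z hz => h0 z (hb hz))
      (ball_subset_ball (half_le_self hε.le) hy)
    have h3 : 1 / 3 ≤ (ε - ‖y - x‖) / (ε + ‖y - x‖) := by
      rw [le_div_iff₀ (by linarith)]; linarith
    have h4 : (ε + ‖y - x‖) / (ε - ‖y - x‖) ≤ 3 := by
      rw [div_le_iff₀ (by linarith)]; linarith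
    have h5 := h0 x hx
    constructor
    · nlinarith
    · nlinarith
  have glob : ∀ x ∈ U, ∀ y ∈ U, ∃ C : ℝ, 0 < C ∧ ∀ u : ℂ → ℝ, HarmonicOnNhd u U →
      (∀ z ∈ U, 0 ≤ u z) → u x ≤ C * u y := by
    intro x hx y hy
    refine hc.induction₂' (fun x y => ∃ C : ℝ, 0 < C ∧ ∀ u : ℂ → ℝ, HarmonicOnNhd u U →
      (∀ z ∈ U, 0 ≤ u z) → u x ≤ C * u y) (fun x hx => ?_) ?_ hx hy
    · filter_upwards [nhdsWithin_le_nhds (loc x hx)] with y hy
      exact ⟨⟨3, by norm_num, fun u hu h0 => (hy u hu h0).1⟩,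
        ⟨3, by norm_num, fun u hu h0 => (hy u hu h0).2⟩⟩
    · rintro x y z - - - ⟨C, hC, h1⟩ ⟨D, hD, h2⟩
      refine ⟨C * D, mul_pos hC hD, fun u hu h0 => (h1 u hu h0).trans ?_⟩
      rw [mul_assoc]
      exact mul_le_mul_of_nonneg_left (h2 u hu h0) hC.le
  rcases K.eq_empty_or_nonempty with rfl | ⟨x₀, hx₀⟩
  · exact ⟨1, one_pos, fun _ _ _ _ h => absurd h (notMem_empty _)⟩
  have hx₀U := hKU hx₀
  have key : ∃ C : ℝ, 0 < C ∧ ∀ u : ℂ → ℝ, HarmonicOnNhd u U → (∀ z ∈ U, 0 ≤ u z) →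
      ∀ x ∈ K, x ∈ U → u x ≤ C * u x₀ ∧ u x₀ ≤ C * u x := by
    refine hK.induction_on (p := fun S => ∃ C : ℝ, 0 < C ∧ ∀ u : ℂ → ℝ, HarmonicOnNhd u U →
      (∀ z ∈ U, 0 ≤ u z) → ∀ x ∈ S, x ∈ U → u x ≤ C * u x₀ ∧ u x₀ ≤ C * u x)
      ⟨1, one_pos, fun _ _ _ _ h => absurd h (notMem_empty _)⟩ ?_ ?_ ?_
    · rintro S T hST ⟨C, hC, h⟩
      exact ⟨C, hC, fun u hu h0 x hx => h u hu h0 x (hST hx)⟩
    · rintro S T ⟨C, hC, h⟩ ⟨D, hD, h'⟩
      refine ⟨C + D, by linarith, fun u hu h0 x hx hxU => ?_⟩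
      have a1 := h0 x hxU
      have a2 := h0 x₀ hx₀U
      rcases hx with hx | hx
      · obtain ⟨b1, b2⟩ := h u hu h0 x hx hxU
        constructor <;> nlinarith
      · obtain ⟨b1, b2⟩ := h' u hu h0 x hx hxU
        constructor <;> nlinarith
    · intro x hx
      obtain ⟨C, hC, h1⟩ := glob x (hKU hx) x₀ hx₀U
      obtain ⟨D, hD, h2⟩ := glob x₀ hx₀U x (hKU hx)
      refine ⟨_, nhdsWithin_le_nhds (loc x (hKU hx)), 3 * (C + D), by linarith,
        fun u hu h0 y hy hyU => ?_⟩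
      obtain ⟨b1, b2⟩ := hy u hu h0
      have a1 := h0 y hyU
      have a2 := h0 x₀ hx₀U
      have a3 := h1 u hu h0
      have a4 := h2 u hu h0
      constructor <;> nlinarith
  obtain ⟨C, hC, h⟩ := key
  refine ⟨C * C, mul_pos hC hC, fun u hu h0 x hx y hy => (h u hu h0 x hx (hKU hx)).1.trans ?_⟩
  rw [mul_assoc]
  exact mul_le_mul_of_nonneg_left (h u hu h0 y hy (hKU hy)).2 hC.le

theorem harm_identity {u : ℂ → ℝ} {U : Set ℂ} (hU : IsOpen U) (hc : IsPreconnected U)
    (hu : HarmonicOnNhd u U) {z : ℂ} (hz : z ∈ U) {c : ℝ} (h : ∃ᶠ y in 𝓝 z, ∀ᶠ x in 𝓝 y, u x = c) :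
    ∀ y ∈ U, u y = c := by
  obtain ⟨y, h1, h2⟩ := (h.and_eventually (hU.mem_nhds hz)).exists
  have ha : AnalyticOnNhd ℝ u U := fun x hx => _root_.HarmonicAt.analyticAt (hu x hx)
  exact ha.eqOn_of_preconnected_of_eventuallyEq (g := fun _ => c) analyticOnNhd_const hc h2 h1

theorem grad_bound {u : ℂ → ℝ} {c : ℂ} {R M : ℝ} (hR : 0 < R) (hu : HarmonicOnNhd u (ball c R))
    (hM : ∀ z ∈ ball c R, |u z| ≤ M) : ‖grad u c‖ ≤ 4 * M / R := by
  have hc := abs_le.1 (hM c (mem_ball_self hR))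
  have hM0 : 0 ≤ M := by linarith
  have hv : HarmonicOnNhd (fun z => u z + M) (ball c R) := hu.add (harmonicOnNhd_const M)
  have h0 : ∀ z ∈ ball c R, 0 ≤ u z + M := fun z hz => by linarith [(abs_le.1 (hM z hz)).1]
  have key : ∀ᶠ δ in 𝓝[>] (0 : ℝ), ‖fderiv ℝ u c‖ ≤ 4 * M / (R - δ) := by
    filter_upwards [Ioo_mem_nhdsGT hR] with δ hδ
    have hRδ : 0 < R - δ := sub_pos.2 hδ.2
    refine (harm_diff (hu c (mem_ball_self hR))).hasFDerivAt.le_of_lip' (by positivity) ?_
    filter_upwards [ball_mem_nhds c hδ.1] with z hz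
    have hr : ‖z - c‖ < δ := mem_ball_iff_norm.1 hz
    have hn := norm_nonneg (z - c)
    obtain ⟨h1, h2⟩ := harnack_ball hv h0 (ball_subset_ball hδ.2.le hz)
    have h3 : 1 - 2 / (R - δ) * ‖z - c‖ ≤ (R - ‖z - c‖) / (R + ‖z - c‖) := by
      have e : (R - ‖z - c‖) / (R + ‖z - c‖) = 1 - 2 / (R + ‖z - c‖) * ‖z - c‖ := by
        field_simp; ring
      have : 2 / (R + ‖z - c‖) ≤ 2 / (R - δ) := by gcongr; linarith [hδ.1]
      rw [e]; nlinarith
    have h4 : (R + ‖z - c‖) / (R - ‖z - c‖) ≤ 1 + 2 / (R - δ) * ‖z - c‖ := by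
      have hp : 0 < R - ‖z - c‖ := by linarith
      have e : (R + ‖z - c‖) / (R - ‖z - c‖) = 1 + 2 / (R - ‖z - c‖) * ‖z - c‖ := by
        field_simp; ring
      have : 2 / (R - ‖z - c‖) ≤ 2 / (R - δ) := by gcongr
      rw [e]; nlinarith
    have h5 : 0 ≤ 2 / (R - δ) * ‖z - c‖ := by positivity
    have e : 4 * M / (R - δ) * ‖z - c‖ = 2 * M * (2 / (R - δ) * ‖z - c‖) := by ring
    have h6 : 0 ≤ u c + M := by linarith
    have h7 := mul_le_mul_of_nonneg_right h3 h6
    have h8 := mul_le_mul_of_nonneg_right h4 h6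
    rw [Real.norm_eq_abs, e, abs_le]
    constructor <;> nlinarith
  have c1 : ContinuousAt (fun δ : ℝ => 4 * M / (R - δ)) 0 :=
    continuousAt_const.div (continuousAt_const.sub continuousAt_id) (by simpa using hR.ne')
  rw [norm_grad]
  simpa using ge_of_tendsto (c1.tendsto.mono_left nhdsWithin_le_nhds) key

theorem harm_lip {u : ℂ → ℝ} {c : ℂ} {R M : ℝ} (hR : 0 < R) (hu : HarmonicOnNhd u (ball c R))
    (hM : ∀ z ∈ ball c R, |u z| ≤ M) {x y : ℂ} (hx : x ∈ ball c (R / 2))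
    (hy : y ∈ ball c (R / 2)) : |u x - u y| ≤ 8 * M / R * ‖x - y‖ := by
  have hs : ball c (R / 2) ⊆ ball c R := ball_subset_ball (half_le_self hR.le)
  refine (convex_ball c (R / 2)).norm_image_sub_le_of_norm_fderiv_le (𝕜 := ℝ)
    (fun w hw => harm_diff (hu w (hs hw))) (fun w hw => ?_) hy hx
  rw [← norm_grad]
  refine (grad_bound (half_pos hR) (hu.mono (ball_half hw))
    fun z hz => hM z (ball_half hw hz)).trans (le_of_eq ?_)
  field_simp; ring

/-- Second order Taylor estimate. -/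
theorem harm_taylor {u : ℂ → ℝ} {c : ℂ} {R M : ℝ} (hR : 0 < R) (hu : HarmonicOnNhd u (ball c R))
    (hM : ∀ z ∈ ball c R, |u z| ≤ M) {z : ℂ} (hz : z ∈ ball c (R / 4)) :
    |u z - u c - (grad u c * (z - c)).re| ≤ 64 * M / R ^ 2 * ‖z - c‖ ^ 2 := by
  have hs : ball c (R / 2) ⊆ ball c R := ball_subset_ball (half_le_self hR.le)
  have hM0 : 0 ≤ M := (abs_nonneg _).trans (hM c (mem_ball_self hR))
  have hg : ∀ w ∈ ball c (R / 2), ‖grad u w‖ ≤ 8 * M / R := fun w hw => by
    refine (grad_bound (half_pos hR) (hu.mono (ball_half hw))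
      fun z hz => hM z (ball_half hw hz)).trans (le_of_eq ?_)
    field_simp; ring
  have hl : ∀ w ∈ ball c (R / 2), ‖grad u w - grad u c‖ ≤ 32 * M / R ^ 2 * ‖w - c‖ := by
    intro w hw
    have := dist_le_div_mul_dist_of_mapsTo_ball (f := grad u) (c := c) (R₁ := R / 2)
      (R₂ := 16 * M / R)
      (fun x hx => (grad_analytic (hu x (hs hx))).differentiableAt.differentiableWithinAt)
      (fun x hx => by
        rw [mem_closedBall, dist_eq_norm]
        have a1 := norm_sub_le (grad u x) (grad u c)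
        have a2 := hg x hx
        have a3 := hg c (mem_ball_self (half_pos hR))
        have e : 16 * M / R = 8 * M / R + 8 * M / R := by ring
        linarith) hw
    rw [dist_eq_norm, dist_eq_norm] at this
    refine this.trans (le_of_eq ?_)
    field_simp; ring
  have hr : ‖z - c‖ < R / 4 := mem_ball_iff_norm.1 hz
  have hsub : closedBall c ‖z - c‖ ⊆ ball c (R / 2) := closedBall_subset_ball (by linarith)
  have hd : ∀ w : ℂ, HasDerivAt (fun w => grad u c * (w - c)) (grad u c) w := fun w => by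
    simpa using ((hasDerivAt_id w).sub_const c).const_mul (grad u c)
  have hd' : ∀ w : ℂ, DifferentiableAt ℝ (fun w => (grad u c * (w - c)).re) w := fun w =>
    reCLM.differentiableAt.comp w ((hd w).differentiableAt.restrictScalars ℝ)
  have key := (convex_closedBall c ‖z - c‖).norm_image_sub_le_of_norm_fderiv_le (𝕜 := ℝ)
    (f := fun w => u w - (grad u c * (w - c)).re) (C := 32 * M / R ^ 2 * ‖z - c‖)
    (fun w hw => (harm_diff (hu w (hs (hsub hw)))).sub (hd' w)) (fun w hw => by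
      rw [← norm_grad, grad_sub (harm_diff (hu w (hs (hsub hw)))) (hd' w),
        grad_re (hd w).differentiableAt, (hd w).deriv]
      refine (hl w (hsub hw)).trans ?_
      gcongr
      exact mem_closedBall_iff_norm.1 hw) (mem_closedBall_self (norm_nonneg _))
    (mem_closedBall_iff_norm.2 le_rfl)
  simp only [sub_self, mul_zero, zero_re, sub_zero, Real.norm_eq_abs] at key
  rw [sub_right_comm]
  refine key.trans ?_
  have : 0 ≤ 32 * M / R ^ 2 * ‖z - c‖ ^ 2 := by positivity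
  have e : 64 * M / R ^ 2 * ‖z - c‖ ^ 2 = 2 * (32 * M / R ^ 2 * ‖z - c‖ ^ 2) := by ring
  have e' : 32 * M / R ^ 2 * ‖z - c‖ * ‖z - c‖ = 32 * M / R ^ 2 * ‖z - c‖ ^ 2 := by ring
  linarith

/-- Pointwise limits of locally bounded harmonic functions. -/
theorem harm_limit {ι : Type*} {l : Filter ι} [l.NeBot] {u : ι → ℂ → ℝ} {f : ℂ → ℝ} {U : Set ℂ}
    (hU : IsOpen U)
    (hb : ∀ z ∈ U, ∃ ρ > 0, ∃ M : ℝ, ∀ᶠ i in l,
      HarmonicOnNhd (u i) (ball z ρ) ∧ ∀ y ∈ ball z ρ, |u i y| ≤ M)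
    (hl : ∀ z ∈ U, Tendsto (fun i => u i z) l (𝓝 (f z))) :
    HarmonicOnNhd f U ∧ TendstoLocallyUniformlyOn u f l U ∧
      ∀ z ∈ U, Tendsto (fun i => grad (u i) z) l (𝓝 (grad f z)) := by
  have loc : ∀ z ∈ U, ∃ r > 0, ContinuousOn f (closedBall z r) ∧
      (∀ᶠ i in l, HarmonicOnNhd (u i) (closedBall z r)) ∧
      ∀ ε > 0, ∀ᶠ i in l, ∀ y ∈ closedBall z r, |u i y - f y| < ε := by
    intro z hz
    obtain ⟨ρ₀, hρ₀, M, hM⟩ := hb z hz
    obtain ⟨ρ₁, hρ₁, hU'⟩ := Metric.isOpen_iff.1 hU z hz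
    set ρ := min ρ₀ ρ₁ with hρdef
    have hρ : 0 < ρ := lt_min hρ₀ hρ₁
    have s0 : ball z ρ ⊆ ball z ρ₀ := ball_subset_ball (min_le_left _ _)
    have s1 : ball z ρ ⊆ U := (ball_subset_ball (min_le_right _ _)).trans hU'
    have s2 : closedBall z (ρ / 4) ⊆ ball z (ρ / 2) := closedBall_subset_ball (by linarith)
    have s3 : ball z (ρ / 2) ⊆ ball z ρ := ball_subset_ball (half_le_self hρ.le)
    set L := |8 * M / ρ| + 1 with hL
    have hL0 : 0 < L := by positivity
    have lip : ∀ᶠ i in l, ∀ x ∈ closedBall z (ρ / 4), ∀ y ∈ closedBall z (ρ / 4),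
        |u i x - u i y| ≤ L * ‖x - y‖ := by
      filter_upwards [hM] with i hi x hx y hy
      refine (harm_lip hρ (hi.1.mono s0) (fun y hy => hi.2 y (s0 hy)) (s2 hx) (s2 hy)).trans ?_
      gcongr
      linarith [le_abs_self (8 * M / ρ)]
    have lipf : ∀ x ∈ closedBall z (ρ / 4), ∀ y ∈ closedBall z (ρ / 4),
        |f x - f y| ≤ L * ‖x - y‖ := fun x hx y hy =>
      le_of_tendsto ((hl x (s1 (s3 (s2 hx)))).sub (hl y (s1 (s3 (s2 hy))))).abs
        (lip.mono fun i hi => hi x hx y hy)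
    refine ⟨ρ / 4, by linarith, ?_, hM.mono fun i hi => hi.1.mono ((s2.trans s3).trans s0),
      fun ε hε => ?_⟩
    · refine (LipschitzOnWith.of_dist_le_mul (K := ⟨L, hL0.le⟩) fun x hx y hy => ?_).continuousOn
      rw [Real.dist_eq, dist_eq_norm]
      exact lipf x hx y hy
    · obtain ⟨t, ht, hfin, hcov⟩ := finite_cover_balls_of_compact (isCompact_closedBall z (ρ / 4))
        (e := ε / 3 / L) (by positivity)
      have h1 : ∀ᶠ i in l, ∀ x ∈ t, |u i x - f x| < ε / 3 := by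
        refine (eventually_all_finite hfin).2 fun x hx => ?_
        have := Metric.tendsto_nhds.1 (hl x (s1 (s3 (s2 (ht hx))))) (ε / 3) (by positivity)
        simpa only [Real.dist_eq] using this
      filter_upwards [lip, h1] with i h2 h3 y hy
      obtain ⟨x, hx, hxy⟩ := mem_iUnion₂.1 (hcov hy)
      have h4 : L * ‖y - x‖ < ε / 3 := by
        have := mem_ball_iff_norm.1 hxy
        rwa [lt_div_iff₀ hL0, mul_comm] at this
      have a1 := abs_le.1 (h2 y hy x (ht hx))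
      have a2 := abs_le.1 (lipf y hy x (ht hx))
      have a3 := abs_lt.1 (h3 x hx)
      rw [abs_lt]
      constructor <;> linarith
  have hf : HarmonicOnNhd f U := by
    intro z hz
    obtain ⟨r, hr, hc, hh, hε⟩ := loc z hz
    obtain ⟨h, h1, h2⟩ := exists_poisson hr (hc.mono sphere_subset_closedBall)
    refine (harmonicAt_congr_nhds ?_).1 (h1.1 z (mem_ball_self hr))
    filter_upwards [ball_mem_nhds z hr] with w hw
    refine eq_of_forall_dist_le fun ε hε0 => ?_
    obtain ⟨i, hi, hi'⟩ := (hh.and (hε (ε / 2) (half_pos hε0))).exists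
    have hcl : HarmonicContOnCl (u i) (ball z r) :=
      HarmonicContOnCl.mk_ball (hi.mono ball_subset_closedBall) hi.continuousOn
    have a1 := le_of_sphere (hcl.sub h1) (ε := ε / 2) (fun x hx => by
      have := abs_lt.1 (hi' x (sphere_subset_closedBall hx))
      simp only [Pi.sub_apply, h2 hx]; linarith) hw
    have a2 := le_of_sphere (h1.sub hcl) (ε := ε / 2) (fun x hx => by
      have := abs_lt.1 (hi' x (sphere_subset_closedBall hx))
      simp only [Pi.sub_apply, h2 hx]; linarith) hw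
    have a3 := abs_lt.1 (hi' w (ball_subset_closedBall hw))
    simp only [Pi.sub_apply] at a1 a2
    rw [Real.dist_eq, abs_le]
    constructor <;> linarith
  refine ⟨hf, ?_, fun z hz => ?_⟩
  · rw [Metric.tendstoLocallyUniformlyOn_iff]
    intro ε hε z hz
    obtain ⟨r, hr, -, -, h⟩ := loc z hz
    refine ⟨closedBall z r, nhdsWithin_le_nhds (closedBall_mem_nhds z hr), ?_⟩
    filter_upwards [h ε hε] with i hi y hy
    rw [Real.dist_eq, abs_sub_comm]
    exact hi y hy
  · obtain ⟨r, hr, -, hh, h⟩ := loc z hz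
    obtain ⟨ρ, hρ, hU'⟩ := Metric.isOpen_iff.1 hU z hz
    have hs : 0 < min r ρ := lt_min hr hρ
    have s0 : ball z (min r ρ) ⊆ closedBall z r :=
      (ball_subset_ball (min_le_left _ _)).trans ball_subset_closedBall
    have s1 : ball z (min r ρ) ⊆ U := (ball_subset_ball (min_le_right _ _)).trans hU'
    rw [Metric.tendsto_nhds]
    intro ε hε
    filter_upwards [hh, h (ε * min r ρ / 8) (by positivity)] with i h1 h2
    rw [dist_eq_norm, ← grad_sub (harm_diff (h1 z (mem_closedBall_self hr.le)))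
      (harm_diff (hf z hz))]
    refine (grad_bound hs ((h1.mono s0).sub (hf.mono s1))
      fun y hy => (h2 y (s0 hy)).le).trans_lt ?_
    rw [div_lt_iff₀ hs]
    nlinarith

/-- The harmonic measure of the segment `(a, b)` in the upper half plane. -/
noncomputable def hmI (a b : ℝ) (η : ℂ) : ℝ := (arg (η - b) - arg (η - a)) / π

theorem hmI_harm (a b : ℝ) : HarmonicOnNhd (hmI a b) upH := by
  intro η hη
  have h : ∀ s : ℝ, HarmonicAt (fun y : ℂ => arg (y - s)) η := fun s => by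
    have h0 : (η - s).im ≠ 0 := by simpa using (show 0 < η.im from hη).ne'
    have h1 : η - s ∈ slitPlane := Complex.mem_slitPlane_iff.2 (Or.inr h0)
    have h2 : AnalyticAt ℂ (fun y : ℂ => y - s) η := analyticAt_id.sub analyticAt_const
    exact harm_arg h2 h1
  refine (harmonicAt_congr_nhds (Eventually.of_forall fun y => ?_)).1
    (harm_const_mul ((h b).sub (h a)) π⁻¹)
  simp only [hmI, Pi.sub_apply]
  ring

theorem hmI_mem {a b : ℝ} (hab : a ≤ b) {η : ℂ} (hη : η ∈ upH) : 0 ≤ hmI a b η ∧ hmI a b η ≤ 1 := by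
  have h1 : Real.arctan ((a - η.re) / η.im) ≤ Real.arctan ((b - η.re) / η.im) :=
    Real.arctan_mono (div_le_div_of_nonneg_right (by linarith) (le_of_lt hη))
  have h2 := Real.neg_pi_div_two_lt_arctan ((a - η.re) / η.im)
  have h3 := Real.arctan_lt_pi_div_two ((b - η.re) / η.im)
  rw [hmI, hmI_aux hη]
  exact ⟨div_nonneg (by linarith) Real.pi_pos.le, (div_le_one Real.pi_pos).2 (by linarith)⟩

theorem hmI_out {a b x : ℝ} (hab : a ≤ b) (hx : x < a ∨ b < x) :
    Tendsto (hmI a b) (𝓝[upH] (x : ℂ)) (𝓝 0) := by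
  refine Tendsto.congr' (f₁ := fun η => (Real.arctan ((b - η.re) / η.im) -
    Real.arctan ((a - η.re) / η.im)) / π)
    (eventually_of_mem self_mem_nhdsWithin fun η hη => ?_) ?_
  · beta_reduce
    rw [hmI, hmI_aux hη]
  rcases hx with hx | hx
  · simpa using ((arctan_pos (hx.trans_le hab)).sub (arctan_pos hx)).div_const π
  · simpa using ((arctan_neg hx).sub (arctan_neg (hab.trans_lt hx))).div_const π

theorem hmI_eq {a b : ℝ} {η : ℂ} (hη : η ∈ upH) :
    hmI a b η = (Real.arctan ((b - η.re) / η.im) - Real.arctan ((a - η.re) / η.im)) / π := by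
  rw [hmI, hmI_aux hη]

end Pool.Agent.P.MP_3bd355_an
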