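import Pool.Agent.P.MP_3bd355_an.Sub2
import Pool.Agent.P.MP_3bd355_an.Har1

/-! Reflection across the real line. -/

open Set Filter Metric Complex InnerProductSpace
open scoped Topology ComplexConjugate Real

namespace Pool.Agent.P.MP_3bd355_an

theorem isOpen_upH : IsOpen upH := isOpen_lt continuous_const Complex.continuous_im

theorem isOpen_St (h : ℝ) : IsOpen (St h) :=
  (isOpen_lt continuous_const Complex.continuous_im).inter
    (isOpen_lt Complex.continuous_im continuous_const)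

theorem St_mem {h : ℝ} (hh : 0 < h) (x : ℝ) : St h ∈ 𝓝[upH] (x : ℂ) := by
  have h1 : {z : ℂ | z.im < h} ∈ 𝓝 (x : ℂ) :=
    (isOpen_lt Complex.continuous_im continuous_const).mem_nhds (by simpa using hh)
  filter_upwards [self_mem_nhdsWithin, mem_nhdsWithin_of_mem_nhds h1] with z hz1 hz2
  exact ⟨hz1, hz2⟩

theorem tendsto_vert (x : ℝ) :
    Tendsto (fun τ : ℝ => (x : ℂ) + τ * I) (𝓝[>] 0) (𝓝[upH] (x : ℂ)) := by
  apply tendsto_nhdsWithin_of_tendsto_nhds_of_eventually_within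
  · have hc : Continuous (fun τ : ℝ => (x : ℂ) + τ * I) := by fun_prop
    have := hc.tendsto 0
    simp only [ofReal_zero, zero_mul, add_zero] at this
    exact this.mono_left nhdsWithin_le_nhds
  · filter_upwards [self_mem_nhdsWithin] with τ hτ
    simpa [upH] using hτ

instance upH_neBot (x : ℝ) : (𝓝[upH] (x : ℂ)).NeBot := (tendsto_vert x).neBot

theorem tendsto_shift (x a : ℝ) :
    Tendsto (fun η : ℂ => η + a) (𝓝[upH] (x : ℂ)) (𝓝[upH] ((x + a : ℝ) : ℂ)) := by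
  apply tendsto_nhdsWithin_of_tendsto_nhds_of_eventually_within
  · have hc : Continuous (fun η : ℂ => η + (a : ℂ)) := by fun_prop
    have := hc.tendsto (x : ℂ)
    rw [ofReal_add]
    exact this.mono_left nhdsWithin_le_nhds
  · filter_upwards [self_mem_nhdsWithin] with η hη
    simpa [upH] using hη

theorem eventually_upH {x : ℝ} {P : ℂ → Prop} (h : ∀ᶠ η : ℂ in 𝓝[upH] (x : ℂ), P η) :
    ∀ᶠ t : ℝ in 𝓝 x, ∀ᶠ η : ℂ in 𝓝[upH] (t : ℂ), P η :=
  (Complex.continuous_ofReal.tendsto x).eventually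
    (p := fun y : ℂ => ∀ᶠ η : ℂ in 𝓝[upH] y, P η) (eventually_nhds_nhdsWithin.2 h)

theorem har2_ball {x : ℝ} {P : ℂ → Prop} (h : ∀ᶠ η : ℂ in 𝓝[upH] (x : ℂ), P η) :
    ∃ δ > 0, ∀ η ∈ ball (x : ℂ) δ ∩ upH, P η := by
  obtain ⟨δ, hδ, h⟩ := Metric.mem_nhdsWithin_iff.1 h
  exact ⟨δ, hδ, fun η hη => h hη⟩

theorem har2_nhds {x : ℝ} {P : ℂ → Prop} (h : ∀ᶠ η : ℂ in 𝓝[upH] (x : ℂ), P η) :
    ∀ᶠ η : ℂ in 𝓝[upH] (x : ℂ), ∀ᶠ y in 𝓝 η, P y := by
  filter_upwards [eventually_eventually_nhdsWithin.2 h, self_mem_nhdsWithin] with η h2 h3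
  rwa [isOpen_upH.nhdsWithin_eq h3] at h2

theorem har2_conj_ball {x ρ : ℝ} {z : ℂ} (hz : z ∈ ball (x : ℂ) ρ) : conj z ∈ ball (x : ℂ) ρ := by
  rw [mem_ball, dist_eq_norm] at hz ⊢
  have : conj z - (x : ℂ) = conj (z - x) := by simp
  rwa [this, Complex.norm_conj]

theorem har2_conj_dist (x : ℝ) (z : ℂ) : dist (conj z) (x : ℂ) = dist z x := by
  rw [dist_eq_norm, dist_eq_norm]
  have : conj z - (x : ℂ) = conj (z - x) := by simp
  rw [this, Complex.norm_conj]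

theorem har2_real_ball {x t ρ : ℝ} : (t : ℂ) ∈ ball (x : ℂ) ρ ↔ |t - x| < ρ := by
  rw [mem_ball, dist_eq_norm, ← ofReal_sub, Complex.norm_real, Real.norm_eq_abs]

/-- The odd extension across the real line. -/
noncomputable def oddE (u : ℂ → ℝ) (z : ℂ) : ℝ :=
  if 0 < z.im then u z else if z.im < 0 then -u (conj z) else 0

theorem oddE_up {u : ℂ → ℝ} {z : ℂ} (h : 0 < z.im) : oddE u z = u z := by simp [oddE, h]

theorem oddE_low {u : ℂ → ℝ} {z : ℂ} (h : z.im < 0) : oddE u z = -u (conj z) := by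
  simp [oddE, h, not_lt.2 h.le]

theorem oddE_zero {u : ℂ → ℝ} {z : ℂ} (h : z.im = 0) : oddE u z = 0 := by simp [oddE, h]

theorem oddE_conj (u : ℂ → ℝ) (z : ℂ) : oddE u (conj z) = -oddE u z := by
  rcases lt_trichotomy z.im 0 with h | h | h
  · rw [oddE_up (by simpa using h), oddE_low h, neg_neg]
  · rw [oddE_zero (by simpa using h), oddE_zero h, neg_zero]
  · rw [oddE_low (by simpa using h), oddE_up h, Complex.conj_conj]

theorem har2_sub_odd {v : ℂ → ℝ} {U : Set ℂ} (hU : IsOpen U) (hc : ContinuousOn v U)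
    (ho : ∀ z, v (conj z) = -v z) (hh : ∀ z ∈ U, z.im ≠ 0 → HarmonicAt v z) : Sub v U := by
  refine Sub.of_center hU hc.upperSemicontinuousOn fun c hcU => ?_
  apply Eventually.frequently
  by_cases him : c.im = 0
  · obtain ⟨x, rfl⟩ : ∃ x : ℝ, c = x := ⟨c.re, by apply Complex.ext <;> simp [him]⟩
    filter_upwards [self_mem_nhdsWithin] with ρ hρ g hg hle
    have hρ' : 0 < ρ := hρ
    have hv0 : v x = 0 := by
      have := ho x
      rw [Complex.conj_ofReal] at this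
      linarith
    have hg2 : HarmonicContOnCl (fun z => g (conj z)) (ball (x : ℂ) ρ) := by
      refine ⟨fun z hz => harm_conj (hg.1 _ (har2_conj_ball hz)), ?_⟩
      refine hg.2.comp Complex.continuous_conj.continuousOn ?_
      intro z hz
      rw [closure_ball _ hρ'.ne'] at hz ⊢
      rw [mem_closedBall, har2_conj_dist]
      exact hz
    have := (Sub.const 0 univ).2 x ρ hρ' (subset_univ _) _ (hg.add hg2) (fun z hz => by
      have h1 := hle z hz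
      have h2 := hle (conj z) (by rw [mem_sphere, har2_conj_dist]; exact hz)
      rw [ho] at h2
      simp only [Pi.add_apply]
      linarith) x (mem_ball_self hρ')
    simp only [Pi.add_apply, Complex.conj_ofReal] at this
    linarith
  · obtain ⟨δ, hδ, hb⟩ := Metric.mem_nhds_iff.1 (hh c hcU him).eventually
    have hs : Sub v (ball c δ) := Sub.of_harm fun z hz => hb hz
    filter_upwards [Ioo_mem_nhdsGT hδ] with ρ hρ g hg hle
    exact hs.2 c ρ hρ.1 (closedBall_subset_ball hρ.2) g hg hle c (mem_ball_self hρ.1)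

theorem oddE_harm {u : ℂ → ℝ} {U : Set ℂ} (hU : IsOpen U) (hs : ∀ z ∈ U, conj z ∈ U)
    (hu : HarmonicOnNhd u (U ∩ upH))
    (h0 : ∀ t : ℝ, (t : ℂ) ∈ U → Tendsto u (𝓝[upH] (t : ℂ)) (𝓝 0)) :
    HarmonicOnNhd (oddE u) U := by
  have hh : ∀ z ∈ U, z.im ≠ 0 → HarmonicAt (oddE u) z := by
    intro z hz him
    rcases lt_or_gt_of_ne him with h | h
    · have h1 : HarmonicAt (fun y => u (conj y)) z :=
        harm_conj (hu _ ⟨hs z hz, by simpa [upH] using h⟩)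
      refine (harmonicAt_congr_nhds ?_).1 h1.neg
      filter_upwards [(isOpen_lt Complex.continuous_im continuous_const).mem_nhds h] with y hy
      rw [oddE_low hy]
      rfl
    · refine (harmonicAt_congr_nhds ?_).1 (hu z ⟨hz, h⟩)
      filter_upwards [isOpen_upH.mem_nhds h] with y hy
      rw [oddE_up hy]
  have hc : ContinuousOn (oddE u) U := by
    intro z hz
    apply ContinuousAt.continuousWithinAt
    by_cases him : z.im = 0
    · obtain ⟨x, rfl⟩ : ∃ x : ℝ, z = x := ⟨z.re, by apply Complex.ext <;> simp [him]⟩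
      rw [ContinuousAt, oddE_zero him, Metric.tendsto_nhds]
      intro ε hε
      obtain ⟨δ, hδ, hb⟩ := har2_ball (Metric.tendsto_nhds.1 (h0 x hz) ε hε)
      filter_upwards [ball_mem_nhds _ hδ] with y hy
      rcases lt_trichotomy y.im 0 with h | h | h
      · have := hb (conj y) ⟨har2_conj_ball hy, by simpa [upH] using h⟩
        rw [oddE_low h]
        simpa using this
      · rw [oddE_zero h]
        simpa using hε
      · rw [oddE_up h]
        exact hb y ⟨hy, h⟩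
    · exact (hh z hz him).1.continuousAt
  refine harm_of_sub hU (har2_sub_odd hU hc (oddE_conj u) hh) ?_
  exact har2_sub_odd hU hc.neg (fun z => by rw [oddE_conj]) fun z hz him => (hh z hz him).neg

/-- The reflection principle. -/
theorem reflect {u : ℂ → ℝ} {x ρ : ℝ} (hρ : 0 < ρ) (hu : HarmonicOnNhd u (ball (x : ℂ) ρ ∩ upH))
    (h0 : ∀ t : ℝ, |t - x| < ρ → Tendsto u (𝓝[upH] (t : ℂ)) (𝓝 0)) :
    ∃ Φ : ℂ → ℂ, DifferentiableOn ℂ Φ (ball (x : ℂ) ρ) ∧ (∀ t : ℝ, |t - x| < ρ → (Φ t).im = 0) ∧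
      (∀ η ∈ ball (x : ℂ) ρ ∩ upH, u η = (Φ η).im) ∧
      ∀ η ∈ ball (x : ℂ) ρ, (Φ (conj η)).im = -(Φ η).im := by
  have _ := hρ
  have hv := oddE_harm isOpen_ball (fun z hz => har2_conj_ball hz) hu
    (fun t ht => h0 t (har2_real_ball.1 ht))
  obtain ⟨F, hF, hE⟩ := hv.exists_analyticOnNhd_ball_re_eq
  have key : ∀ η ∈ ball (x : ℂ) ρ, (I * F η).im = oddE u η := by
    intro η hη
    rw [← hE hη]
    simp
  refine ⟨fun z => I * F z, hF.differentiableOn.const_mul I, fun t ht => ?_, fun η hη => ?_,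
    fun η hη => ?_⟩
  · rw [key _ (har2_real_ball.2 ht), oddE_zero (by simp)]
  · rw [key _ hη.1, oddE_up hη.2]
  · rw [key _ hη, key _ (har2_conj_ball hη), oddE_conj]

theorem har2_refAt {u : ℂ → ℝ} {x ρ : ℝ} (hρ : 0 < ρ) {Φ : ℂ → ℂ}
    (h1 : DifferentiableOn ℂ Φ (ball (x : ℂ) ρ)) (h2 : ∀ t : ℝ, |t - x| < ρ → (Φ t).im = 0)
    (h3 : ∀ η ∈ ball (x : ℂ) ρ ∩ upH, u η = (Φ η).im) : RefAt u x Φ := by
  refine ⟨h1.analyticAt (ball_mem_nhds _ hρ), ?_, ?_⟩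
  · filter_upwards [ball_mem_nhds x hρ] with t ht
    exact h2 t (by simpa [Real.dist_eq] using ht)
  · filter_upwards [self_mem_nhdsWithin, mem_nhdsWithin_of_mem_nhds (ball_mem_nhds _ hρ)]
      with η h4 h5
    exact h3 η ⟨h5, h4⟩

theorem refAt_of_tendsto {u : ℂ → ℝ} {x : ℝ} (hu : ∀ᶠ η : ℂ in 𝓝[upH] (x : ℂ), HarmonicAt u η)
    (h0 : ∀ᶠ t : ℝ in 𝓝 x, Tendsto u (𝓝[upH] (t : ℂ)) (𝓝 0)) : ∃ Φ, RefAt u x Φ := by
  obtain ⟨δ, hδ, hb⟩ := har2_ball hu
  obtain ⟨ε, hε, he⟩ := Metric.mem_nhds_iff.1 h0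
  have hρ : 0 < min δ ε := lt_min hδ hε
  obtain ⟨Φ, h1, h2, h3, -⟩ := reflect (u := u) (x := x) hρ
    (fun z hz => hb z ⟨ball_subset_ball (min_le_left _ _) hz.1, hz.2⟩)
    (fun t ht => he (by
      rw [mem_ball, Real.dist_eq]
      exact ht.trans_le (min_le_right _ _)))
  exact ⟨Φ, har2_refAt hρ h1 h2 h3⟩

theorem refAt_exc {u : ℂ → ℝ} {x : ℝ} (hu : ∀ᶠ η : ℂ in 𝓝[upH] (x : ℂ), HarmonicAt u η)
    (hb : ∃ M : ℝ, ∀ᶠ η : ℂ in 𝓝[upH] (x : ℂ), |u η| ≤ M)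
    (h0 : ∀ᶠ t : ℝ in 𝓝[≠] x, Tendsto u (𝓝[upH] (t : ℂ)) (𝓝 0)) : ∃ Φ, RefAt u x Φ := by
  obtain ⟨M, hM⟩ := hb
  obtain ⟨δ, hδ, hb⟩ := har2_ball (hu.and hM)
  obtain ⟨ε, hε, he⟩ := Metric.mem_nhdsWithin_iff.1 h0
  have hρ : 0 < min δ ε := lt_min hδ hε
  have hsub : ball (x : ℂ) (min δ ε) ⊆ ball (x : ℂ) δ := ball_subset_ball (min_le_left _ _)
  have hU : IsOpen (ball (x : ℂ) (min δ ε) \ {(x : ℂ)}) := isOpen_ball.sdiff isClosed_singleton
  have hv : HarmonicOnNhd (oddE u) (ball (x : ℂ) (min δ ε) \ {(x : ℂ)}) := by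
    refine oddE_harm hU (fun z hz => ⟨har2_conj_ball hz.1, fun h => hz.2 ?_⟩)
      (fun z hz => (hb z ⟨hsub hz.1.1, hz.2⟩).1) (fun t ht => he ⟨?_, fun h => ht.2 ?_⟩)
    · rw [mem_singleton_iff] at h ⊢
      rw [← Complex.conj_conj z, h, Complex.conj_ofReal]
    · rw [mem_ball, Real.dist_eq]
      exact (har2_real_ball.1 ht.1).trans_le (min_le_right _ _)
    · rw [mem_singleton_iff] at h ⊢
      rw [h]
  have hmem : ball (x : ℂ) (min δ ε) \ {(x : ℂ)} ∈ 𝓝[≠] (x : ℂ) := by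
    filter_upwards [self_mem_nhdsWithin, mem_nhdsWithin_of_mem_nhds (ball_mem_nhds _ hρ)]
      with η h4 h5
    exact ⟨h5, h4⟩
  obtain ⟨g, hg, hge⟩ := harm_removable (u := oddE u) (p := (x : ℂ))
    (by filter_upwards [hmem] with z hz using hv z hz)
    ⟨|M|, by
      filter_upwards [hmem] with z hz
      rcases lt_trichotomy z.im 0 with h | h | h
      · rw [oddE_low h, abs_neg]
        exact (hb (conj z) ⟨har2_conj_ball (hsub hz.1), by simpa [upH] using h⟩).2.trans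
          (le_abs_self M)
      · rw [oddE_zero h]
        simp
      · rw [oddE_up h]
        exact (hb z ⟨hsub hz.1, h⟩).2.trans (le_abs_self M)⟩
  obtain ⟨f, hf, hfe⟩ := harm_exists_re hg
  have hT : Tendsto (fun t : ℝ => (t : ℂ)) (𝓝[≠] x) (𝓝[≠] (x : ℂ)) := by
    apply tendsto_nhdsWithin_of_tendsto_nhds_of_eventually_within
    · exact (Complex.continuous_ofReal.tendsto x).mono_left nhdsWithin_le_nhds
    · filter_upwards [self_mem_nhdsWithin] with t ht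
      simpa using ht
  have hz : ∀ᶠ t : ℝ in 𝓝[≠] x, g t = 0 := by
    filter_upwards [hT.eventually hge] with t ht
    rw [← ht, oddE_zero (by simp)]
  have hgx : g x = 0 := by
    have h1 : Tendsto (fun t : ℝ => g t) (𝓝[≠] x) (𝓝 (g x)) :=
      hg.1.continuousAt.tendsto.comp (hT.mono_right nhdsWithin_le_nhds)
    exact tendsto_nhds_unique h1 (tendsto_const_nhds.congr' (hz.mono fun t ht => ht.symm))
  have hz' : ∀ᶠ t : ℝ in 𝓝 x, g t = 0 := by
    rw [eventually_nhdsWithin_iff] at hz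
    filter_upwards [hz] with t ht
    by_cases h : t = x
    · rw [h, hgx]
    · exact ht h
  refine ⟨fun z => I * f z, analyticAt_const.mul hf, ?_, ?_⟩
  · filter_upwards [hz', (Complex.continuous_ofReal.tendsto x).eventually hfe] with t h1 h2
    rw [h2] at h1
    simpa using h1
  · have hle : 𝓝[upH] (x : ℂ) ≤ 𝓝[≠] (x : ℂ) := nhdsWithin_mono _ fun z hz h => by
      rw [mem_singleton_iff] at h
      simp [upH, h] at hz
    filter_upwards [self_mem_nhdsWithin, hge.filter_mono hle,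
      hfe.filter_mono nhdsWithin_le_nhds] with η h1 h2 h3
    rw [oddE_up h1, h3] at h2
    simpa using h2

theorem RefAt.congr {u w : ℂ → ℝ} {x : ℝ} {Φ : ℂ → ℂ} (h : RefAt u x Φ)
    (he : ∀ᶠ η : ℂ in 𝓝[upH] (x : ℂ), w η = u η) : RefAt w x Φ :=
  ⟨h.1, h.2.1, by filter_upwards [he, h.2.2] with η h1 h2 using h1.trans h2⟩

theorem RefAt.eventually {u : ℂ → ℝ} {x : ℝ} {Φ : ℂ → ℂ} (h : RefAt u x Φ) :
    ∀ᶠ t : ℝ in 𝓝 x, RefAt u t Φ := by
  filter_upwards [(Complex.continuous_ofReal.tendsto x).eventually h.1.eventually_analyticAt,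
    h.2.1.eventually_nhds, eventually_upH h.2.2] with t h1 h2 h3
  exact ⟨h1, h2, h3⟩

theorem RefAt.shift {u : ℂ → ℝ} {x a : ℝ} {Φ : ℂ → ℂ} (h : RefAt u (x + a) Φ) :
    RefAt (fun η => u (η + a)) x (fun η => Φ (η + a)) := by
  refine ⟨?_, ?_, (tendsto_shift x a).eventually h.2.2⟩
  · have h1 := h.1
    rw [ofReal_add] at h1
    exact AnalyticAt.comp (f := fun η : ℂ => η + a) h1 (by fun_prop)
  · have hc : Continuous (fun t : ℝ => t + a) := by fun_prop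
    filter_upwards [(hc.tendsto x).eventually h.2.1] with t ht
    rwa [ofReal_add] at ht

theorem har2_deriv_im {u : ℂ → ℝ} {x : ℝ} {Φ : ℂ → ℂ} (h : RefAt u x Φ) :
    (deriv Φ x).im = 0 := by
  have h1 : HasDerivAt (fun t : ℝ => (Φ t).im) (deriv Φ x).im x :=
    Complex.imCLM.hasFDerivAt.comp_hasDerivAt x h.1.differentiableAt.hasDerivAt.comp_ofReal
  have h2 : HasDerivAt (fun t : ℝ => (Φ t).im) 0 x :=
    (hasDerivAt_const x (0 : ℝ)).congr_of_eventuallyEq h.2.1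
  exact h1.unique h2

theorem RefAt.deriv_im {u : ℂ → ℝ} {x : ℝ} {Φ : ℂ → ℂ} (h : RefAt u x Φ) :
    ∀ᶠ t : ℝ in 𝓝 x, (deriv Φ t).im = 0 :=
  h.eventually.mono fun _ ht => har2_deriv_im ht

theorem RefAt.grad {u : ℂ → ℝ} {x : ℝ} {Φ : ℂ → ℂ} (h : RefAt u x Φ) :
    ∀ᶠ η : ℂ in 𝓝[upH] (x : ℂ), grad u η = -I * deriv Φ η := by
  filter_upwards [har2_nhds h.2.2, h.1.eventually_analyticAt.filter_mono nhdsWithin_le_nhds]
    with η h1 h2
  rw [grad_congr (w := fun y => (Φ y).im) h1, grad_im h2.differentiableAt]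

theorem RefAt.deriv_eq {u : ℂ → ℝ} {x : ℝ} {Φ Ψ : ℂ → ℂ} (h : RefAt u x Φ) (h' : RefAt u x Ψ) :
    deriv Φ =ᶠ[𝓝 (x : ℂ)] deriv Ψ := by
  have hle : 𝓝[upH] (x : ℂ) ≤ 𝓝[≠] (x : ℂ) := nhdsWithin_mono _ fun z hz h => by
    rw [mem_singleton_iff] at h
    simp [upH, h] at hz
  refine (h.1.deriv.frequently_eq_iff_eventually_eq h'.1.deriv).1 (Frequently.filter_mono ?_ hle)
  apply Eventually.frequently
  filter_upwards [h.grad, h'.grad] with η h1 h2
  exact mul_left_cancel₀ (neg_ne_zero.2 I_ne_zero) (h1.symm.trans h2)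

theorem RefAt.tendsto {u : ℂ → ℝ} {x : ℝ} {Φ : ℂ → ℂ} (h : RefAt u x Φ) :
    Tendsto u (𝓝[upH] (x : ℂ)) (𝓝 0) := by
  have h1 : Tendsto (fun η => (Φ η).im) (𝓝 (x : ℂ)) (𝓝 (Φ x).im) :=
    (Complex.continuous_im.tendsto _).comp h.1.continuousAt.tendsto
  rw [h.2.1.self_of_nhds] at h1
  exact (h1.mono_left nhdsWithin_le_nhds).congr' (h.2.2.mono fun η hη => hη.symm)

theorem RefAt.tendsto_div {u : ℂ → ℝ} {x : ℝ} {Φ : ℂ → ℂ} (h : RefAt u x Φ) :
    Tendsto (fun τ : ℝ => u (x + τ * I) / τ) (𝓝[>] 0) (𝓝 (deriv Φ x).re) := by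
  have h0 : HasDerivAt (fun w : ℂ => Φ (x + w * I)) (deriv Φ x * I) ((0 : ℝ) : ℂ) := by
    have h1 : HasDerivAt (fun w : ℂ => (x : ℂ) + w * I) I ((0 : ℝ) : ℂ) := by
      simpa using ((hasDerivAt_id ((0 : ℝ) : ℂ)).mul_const I).const_add (x : ℂ)
    have h2 : HasDerivAt Φ (deriv Φ x) ((x : ℂ) + ((0 : ℝ) : ℂ) * I) := by
      simpa using h.1.differentiableAt.hasDerivAt
    exact HasDerivAt.comp (h := fun w : ℂ => (x : ℂ) + w * I) ((0 : ℝ) : ℂ) h2 h1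
  have h1 : HasDerivAt (fun τ : ℝ => (Φ (x + τ * I)).im) (deriv Φ x * I).im 0 :=
    Complex.imCLM.hasFDerivAt.comp_hasDerivAt (0 : ℝ) h0.comp_ofReal
  have h2 := h1.tendsto_slope_zero_right
  have h3 : (deriv Φ x * I).im = (deriv Φ x).re := by simp
  rw [h3] at h2
  refine h2.congr' ?_
  filter_upwards [(tendsto_vert x).eventually h.2.2] with τ hτ
  rw [hτ]
  simp only [zero_add, ofReal_zero, zero_mul, add_zero, h.2.1.self_of_nhds, sub_zero, smul_eq_mul]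
  ring

theorem har2_taylor {Φ : ℂ → ℂ} {t ρ M τ : ℝ} (hρ : 0 < ρ)
    (hΦ : DifferentiableOn ℂ Φ (ball (t : ℂ) ρ)) (hM : ∀ z ∈ ball (t : ℂ) ρ, |(Φ z).im| ≤ M)
    (h0 : (Φ t).im = 0) (hτ : 0 < τ) (hτρ : τ < ρ / 4) :
    |(Φ (t + τ * I)).im - (deriv Φ t).re * τ| ≤ 64 * M * τ ^ 2 / ρ ^ 2 := by
  have hv : HarmonicOnNhd (fun z => (Φ z).im) (ball (t : ℂ) ρ) := fun z hz =>
    (hΦ.analyticAt (isOpen_ball.mem_nhds hz)).harmonicAt_im
  have hn : ‖(t : ℂ) + τ * I - t‖ = τ := by simp [hτ.le]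
  have := harm_taylor hρ hv hM (z := t + τ * I) (by rwa [mem_ball, dist_eq_norm, hn])
  rw [hn, grad_im (hΦ.differentiableAt (ball_mem_nhds _ hρ)), h0] at this
  have h3 : (-I * deriv Φ t * ((t : ℂ) + τ * I - t)).re = (deriv Φ t).re * τ := by
    simp
  rw [h3, sub_zero] at this
  calc _ ≤ _ := this
    _ = _ := by ring

theorem RefAt.quad {u : ℂ → ℝ} {x : ℝ} {Φ : ℂ → ℂ} (h : RefAt u x Φ) :
    ∃ C : ℝ, ∀ᶠ η : ℂ in 𝓝[upH] (x : ℂ),
      |u η - η.im * (deriv Φ η.re).re| ≤ C * η.im ^ 2 := by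
  have hb : ∀ᶠ z in 𝓝 (x : ℂ), |(Φ z).im| ≤ |(Φ x).im| + 1 := by
    have hc : ContinuousAt (fun z => |(Φ z).im|) (x : ℂ) :=
      (Complex.continuous_im.continuousAt.comp h.1.continuousAt).abs
    exact (hc.eventually (gt_mem_nhds (lt_add_one _))).mono fun z hz => hz.le
  obtain ⟨δ, hδ, hball⟩ := Metric.mem_nhds_iff.1 (h.1.eventually_analyticAt.and hb)
  have hre : Tendsto (fun η : ℂ => η.re) (𝓝[upH] (x : ℂ)) (𝓝 x) := by
    simpa using (Complex.continuous_re.tendsto (x : ℂ)).mono_left nhdsWithin_le_nhds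
  refine ⟨64 * (|(Φ x).im| + 1) / (δ / 2) ^ 2, ?_⟩
  filter_upwards [h.2.2, hre.eventually h.2.1, hre.eventually (ball_mem_nhds x (half_pos hδ)),
    St_mem (show 0 < δ / 2 / 4 by positivity) x] with η h1 h2 h3 h4
  have hsub : ball ((η.re : ℝ) : ℂ) (δ / 2) ⊆ ball (x : ℂ) δ := by
    apply ball_subset_ball'
    have : dist ((η.re : ℝ) : ℂ) (x : ℂ) < δ / 2 := by
      rw [← mem_ball, har2_real_ball]
      simpa [Real.dist_eq] using h3
    linarith
  have := har2_taylor (Φ := Φ) (t := η.re) (half_pos hδ)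
    (fun z hz => (hball (hsub hz)).1.differentiableAt.differentiableWithinAt)
    (fun z hz => (hball (hsub hz)).2) h2 h4.1 h4.2
  rw [Complex.re_add_im] at this
  rw [h1, mul_comm η.im]
  calc _ ≤ _ := this
    _ = _ := by ring

theorem RefAt.lin {u : ℂ → ℝ} {x : ℝ} {Φ : ℂ → ℂ} (h : RefAt u x Φ) {ε : ℝ} (hε : 0 < ε) :
    ∀ᶠ η : ℂ in 𝓝[upH] (x : ℂ), |u η - η.im * (deriv Φ x).re| ≤ ε * η.im := by
  obtain ⟨C, hC⟩ := h.quad
  have hc : ContinuousAt (fun η : ℂ => C * η.im + |(deriv Φ η.re).re - (deriv Φ x).re|) (x : ℂ) := by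
    have h1 : ContinuousAt (fun η : ℂ => deriv Φ η.re) (x : ℂ) :=
      ContinuousAt.comp (g := deriv Φ) (f := fun η : ℂ => ((η.re : ℝ) : ℂ)) (x := (x : ℂ))
        (by simpa using h.1.deriv.continuousAt) (Continuous.continuousAt (by fun_prop))
    have h2 : ContinuousAt (fun η : ℂ => (deriv Φ η.re).re) (x : ℂ) :=
      Complex.continuous_re.continuousAt.comp h1
    exact ContinuousAt.add (by fun_prop) (h2.sub continuousAt_const).abs
  have hlt := hc.eventually (gt_mem_nhds (show _ < ε by simpa using hε))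
  filter_upwards [hC, hlt.filter_mono nhdsWithin_le_nhds, self_mem_nhdsWithin] with η h1 h2 h3
  have h4 : 0 < η.im := h3
  have h5 : u η - η.im * (deriv Φ x).re = (u η - η.im * (deriv Φ η.re).re) +
      η.im * ((deriv Φ η.re).re - (deriv Φ x).re) := by ring
  rw [h5]
  refine (abs_add_le _ _).trans ?_
  rw [abs_mul, abs_of_pos h4]
  nlinarith

/-- The boundary point lemma of Hopf. -/
theorem RefAt.hopf {u : ℂ → ℝ} {x : ℝ} {Φ : ℂ → ℂ} (h : RefAt u x Φ)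
    (hp : ∀ᶠ η : ℂ in 𝓝[upH] (x : ℂ), 0 < u η) : 0 < (deriv Φ x).re := by
  have hh : ∀ᶠ η : ℂ in 𝓝[upH] (x : ℂ), HarmonicAt u η := by
    filter_upwards [har2_nhds h.2.2, h.1.eventually_analyticAt.filter_mono nhdsWithin_le_nhds]
      with η h1 h2
    exact (harmonicAt_congr_nhds (f₂ := fun y => (Φ y).im) h1).2 h2.harmonicAt_im
  obtain ⟨δ, hδ, hb⟩ := har2_ball (hh.and hp)
  obtain ⟨ρ, hρ, rfl⟩ : ∃ ρ : ℝ, 0 < ρ ∧ δ = 2 * ρ := ⟨δ / 2, half_pos hδ, by ring⟩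
  have hsub : ball ((x : ℂ) + ρ * I) ρ ⊆ ball (x : ℂ) (2 * ρ) ∩ upH := by
    intro z hz
    refine ⟨ball_subset_ball' ?_ hz, ?_⟩
    · have : dist ((x : ℂ) + ρ * I) x = ρ := by simp [dist_eq_norm, hρ.le]
      linarith
    · rw [mem_ball, dist_eq_norm] at hz
      have h1 := (Complex.abs_im_le_norm _).trans_lt hz
      have h2 : (z - ((x : ℂ) + ρ * I)).im = z.im - ρ := by simp
      rw [h2, abs_lt] at h1
      show 0 < z.im
      linarith [h1.1]
  have hc : 0 < u (x + ρ * I) := (hb _ (hsub (mem_ball_self hρ))).2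
  refine lt_of_lt_of_le (show 0 < u (x + ρ * I) / (2 * ρ) by positivity) ?_
  refine ge_of_tendsto h.tendsto_div ?_
  filter_upwards [Ioo_mem_nhdsGT hρ] with τ hτ
  have hn : ‖(x : ℂ) + τ * I - (x + ρ * I)‖ = ρ - τ := by
    have : (x : ℂ) + τ * I - (x + ρ * I) = ((τ - ρ : ℝ) : ℂ) * I := by
      push_cast
      ring
    rw [this, norm_mul, Complex.norm_I, mul_one, Complex.norm_real, Real.norm_eq_abs,
      abs_of_neg (by linarith [hτ.2])]
    ring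
  have := (harnack_ball (u := u) (c := x + ρ * I) (R := ρ) (fun z hz => (hb z (hsub hz)).1)
    (fun z hz => (hb z (hsub hz)).2.le) (z := x + τ * I)
    (by rw [mem_ball, dist_eq_norm, hn]; linarith [hτ.1])).1
  rw [hn] at this
  have h1 := hτ.1
  have h2 := hτ.2
  rw [le_div_iff₀ h1]
  refine le_trans ?_ this
  have h3 : τ / (2 * ρ) ≤ (ρ - (ρ - τ)) / (ρ + (ρ - τ)) := by
    rw [show ρ - (ρ - τ) = τ by ring]
    exact div_le_div_of_nonneg_left h1.le (by linarith) (by linarith)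
  calc u (x + ρ * I) / (2 * ρ) * τ = τ / (2 * ρ) * u (x + ρ * I) := by ring
    _ ≤ _ := mul_le_mul_of_nonneg_right h3 hc.le

theorem RefAt.nonneg {u : ℂ → ℝ} {x : ℝ} {Φ : ℂ → ℂ} (h : RefAt u x Φ) {C : ℝ}
    (hp : ∀ᶠ η : ℂ in 𝓝[upH] (x : ℂ), -C * η.im ^ 2 ≤ u η) :
    ∀ᶠ t : ℝ in 𝓝 x, 0 ≤ (deriv Φ t).re := by
  filter_upwards [h.eventually, eventually_upH hp] with t h1 h2
  have h3 : Tendsto (fun τ : ℝ => -C * τ) (𝓝[>] 0) (𝓝 0) := by
    have hc : Continuous (fun τ : ℝ => -C * τ) := by fun_prop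
    simpa using (hc.tendsto 0).mono_left nhdsWithin_le_nhds
  refine le_of_tendsto_of_tendsto h3 h1.tendsto_div ?_
  filter_upwards [(tendsto_vert t).eventually h2, self_mem_nhdsWithin] with τ h4 h5
  have h6 : 0 < τ := h5
  have h7 : ((t : ℂ) + τ * I).im = τ := by simp
  rw [h7] at h4
  rw [le_div_iff₀ h6]
  linarith

/-- Uniform form of the expansion at the boundary. -/
theorem quad_basic : ∃ C₀ : ℝ, 0 < C₀ ∧ ∀ (u : ℂ → ℝ) (x ρ M : ℝ), 0 < ρ →
    HarmonicOnNhd u (ball (x : ℂ) ρ ∩ upH) → (∀ η ∈ ball (x : ℂ) ρ ∩ upH, |u η| ≤ M) →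
    (∀ t : ℝ, |t - x| < ρ → Tendsto u (𝓝[upH] (t : ℂ)) (𝓝 0)) →
    ∃ n : ℝ, |n| ≤ C₀ * M / ρ ∧ Tendsto (fun τ : ℝ => u (x + τ * I) / τ) (𝓝[>] 0) (𝓝 n) ∧
      ∀ τ : ℝ, 0 < τ → τ < ρ / 4 → |u (x + τ * I) - n * τ| ≤ C₀ * M * τ ^ 2 / ρ ^ 2 := by
  refine ⟨64, by norm_num, fun u x ρ M hρ hu hM h0 => ?_⟩
  obtain ⟨Φ, h1, h2, h3, h4⟩ := reflect hρ hu h0
  have hmem : ∀ τ : ℝ, 0 < τ → τ < ρ → (x : ℂ) + τ * I ∈ ball (x : ℂ) ρ ∩ upH := by
    intro τ hτ hτρ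
    refine ⟨?_, by simpa [upH] using hτ⟩
    simpa [dist_eq_norm, abs_of_pos hτ] using hτρ
  have hM0 : 0 ≤ M := (abs_nonneg _).trans (hM _ (hmem (ρ / 2) (half_pos hρ) (half_lt_self hρ)))
  have hb : ∀ z ∈ ball (x : ℂ) ρ, |(Φ z).im| ≤ M := by
    intro z hz
    rcases lt_trichotomy z.im 0 with h | h | h
    · have h5 : conj z ∈ ball (x : ℂ) ρ ∩ upH := ⟨har2_conj_ball hz, by simpa [upH] using h⟩
      have h6 := hM _ h5
      rwa [h3 _ h5, h4 z hz, abs_neg] at h6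
    · obtain ⟨t, rfl⟩ : ∃ t : ℝ, z = t := ⟨z.re, by apply Complex.ext <;> simp [h]⟩
      rw [h2 t (har2_real_ball.1 hz), abs_zero]
      exact hM0
    · rw [← h3 z ⟨hz, h⟩]
      exact hM z ⟨hz, h⟩
  refine ⟨(deriv Φ x).re, ?_, (har2_refAt hρ h1 h2 h3).tendsto_div, fun τ hτ hτρ => ?_⟩
  · have hv : HarmonicOnNhd (fun z => (Φ z).im) (ball (x : ℂ) ρ) := fun z hz =>
      (h1.analyticAt (isOpen_ball.mem_nhds hz)).harmonicAt_im
    have h5 := grad_bound hρ hv hb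
    rw [grad_im (h1.differentiableAt (ball_mem_nhds _ hρ)), norm_mul, norm_neg, Complex.norm_I,
      one_mul] at h5
    refine (Complex.abs_re_le_norm _).trans (h5.trans ?_)
    exact div_le_div_of_nonneg_right (by linarith) hρ.le
  · rw [h3 _ (hmem τ hτ (by linarith))]
    exact har2_taylor hρ h1 hb (h2 x (by simpa using hρ)) hτ hτρ

end Pool.Agent.P.MP_3bd355_an
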