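import Pool.Agent.P.MP_3bd355_an.Har2

/-! The order of the normal derivative. -/

open Set Filter Metric Complex InnerProductSpace
open scoped Topology ComplexConjugate Real

namespace Pool.Agent.P.MP_3bd355_an

namespace Har3P

theorem ofReal_tendsto (x : ℝ) : Tendsto (fun t : ℝ => (t : ℂ)) (𝓝 x) (𝓝 (x : ℂ)) :=
  continuous_ofReal.continuousAt

theorem re_tendsto (x : ℝ) : Tendsto (fun η : ℂ => η.re) (𝓝 (x : ℂ)) (𝓝 x) := by
  have := (continuous_re.continuousAt (x := (x : ℂ))).tendsto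
  simpa using this

/-- The real part of the derivative on the line. -/
theorem re_formula {Φ V : ℂ → ℂ} {x t : ℝ} {j : ℕ}
    (h : deriv Φ t = ((t : ℂ) - x) ^ j * V t) : (deriv Φ t).re = (t - x) ^ j * (V t).re := by
  rw [h, ← ofReal_sub, ← ofReal_pow, re_ofReal_mul]

theorem V_pos {V : ℂ → ℂ} {x c : ℝ} (hV : AnalyticAt ℂ V x) (hc : 0 < c) (hx : V x = c) :
    ∀ᶠ t : ℝ in 𝓝 x, 0 < (V t).re := by
  have h1 : Tendsto (fun t : ℝ => (V t).re) (𝓝 x) (𝓝 (V x).re) :=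
    (continuous_re.tendsto _).comp (hV.continuousAt.tendsto.comp (ofReal_tendsto x))
  rw [hx, ofReal_re] at h1
  exact h1.eventually (lt_mem_nhds hc)

/-- The primitive estimate. -/
theorem prim {Φ V : ℂ → ℂ} {x c : ℂ} {j : ℕ} (hΦ : AnalyticAt ℂ Φ x) (hV : ContinuousAt V x)
    (hx : V x = c) (hd : ∀ᶠ η : ℂ in 𝓝 x, deriv Φ η = (η - x) ^ j * V η) {ε : ℝ} (hε : 0 < ε) :
    ∀ᶠ η : ℂ in 𝓝 x, ‖Φ η - Φ x - c / (j + 1) * (η - x) ^ (j + 1)‖ ≤ ε * ‖η - x‖ ^ (j + 1) := by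
  have h1 : ∀ᶠ η : ℂ in 𝓝 x, ‖V η - c‖ ≤ ε := by
    have := hV.tendsto
    rw [hx] at this
    filter_upwards [this.eventually (closedBall_mem_nhds c hε)] with η hη
    simpa [dist_eq_norm] using hη
  obtain ⟨δ, hδ, hb⟩ := Metric.eventually_nhds_iff_ball.1
    (hΦ.eventually_analyticAt.and (hd.and h1))
  filter_upwards [ball_mem_nhds x hδ] with η hη
  have hsub : closedBall x ‖η - x‖ ⊆ ball x δ :=
    closedBall_subset_ball (by simpa [dist_eq_norm] using hη)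
  have hj : ((j : ℂ) + 1) ≠ 0 := Nat.cast_add_one_ne_zero j
  have key := Convex.norm_image_sub_le_of_norm_hasDerivWithin_le (𝕜 := ℂ)
    (f := fun w => Φ w - c / (j + 1) * (w - x) ^ (j + 1))
    (f' := fun w => (w - x) ^ j * (V w - c)) (s := closedBall x ‖η - x‖) (x := x) (y := η)
    (C := ‖η - x‖ ^ j * ε) ?_ ?_ (convex_closedBall _ _) (mem_closedBall_self (norm_nonneg _))
    (by simp [dist_eq_norm])
  · have e : Φ η - c / (j + 1) * (η - x) ^ (j + 1) - (Φ x - c / (j + 1) * (x - x) ^ (j + 1)) =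
        Φ η - Φ x - c / (j + 1) * (η - x) ^ (j + 1) := by
      simp; ring
    rw [e] at key
    calc _ ≤ _ := key
      _ = _ := by ring
  · intro w hw
    obtain ⟨ha, hdw, -⟩ := hb w (hsub hw)
    have h2 : HasDerivAt (fun w : ℂ => c / (j + 1) * (w - x) ^ (j + 1))
        (c / (j + 1) * (((j + 1 : ℕ) : ℂ) * (w - x) ^ j * 1)) w := by
      have := (((hasDerivAt_id w).sub_const x).pow (j + 1)).const_mul (c / (j + 1))
      simpa using this
    have h3 := ha.differentiableAt.hasDerivAt.sub h2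
    rw [hdw] at h3
    refine (h3.congr_deriv ?_).hasDerivWithinAt
    push_cast
    field_simp
  · intro w hw
    obtain ⟨-, -, hw1⟩ := hb w (hsub hw)
    have hw2 : ‖w - x‖ ≤ ‖η - x‖ := by simpa [dist_eq_norm] using hw
    rw [norm_mul, norm_pow]
    gcongr

/-- The sign of the imaginary part. -/
theorem im_lin {χ : ℂ → ℂ} {x : ℝ} (ha : AnalyticAt ℂ χ x) (hr : ∀ᶠ t : ℝ in 𝓝 x, (χ t).im = 0)
    {ε : ℝ} (hε : 0 < ε) :
    ∀ᶠ η : ℂ in 𝓝 (x : ℂ), |(χ η).im - η.im * (deriv χ x).re| ≤ ε * |η.im| := by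
  have h1 := (hasStrictDerivAt_iff_hasStrictFDerivAt.1 ha.hasStrictDerivAt).isLittleO.def hε
  have h2 : Tendsto (fun η : ℂ => (η, ((η.re : ℝ) : ℂ))) (𝓝 (x : ℂ)) (𝓝 ((x : ℂ), (x : ℂ))) :=
    tendsto_id.prodMk_nhds ((ofReal_tendsto x).comp (re_tendsto x))
  filter_upwards [h2.eventually h1, (re_tendsto x).eventually hr] with η hη hη'
  have e1 : η - (η.re : ℂ) = η.im * I := by
    apply Complex.ext <;> simp
  simp only [ContinuousLinearMap.toSpanSingleton_apply, smul_eq_mul, e1] at hη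
  have e2 : (χ η).im - η.im * (deriv χ x).re =
      (χ η - χ η.re - η.im * I * deriv χ x).im := by
    simp [hη']
  rw [e2]
  refine (abs_im_le_norm _).trans (hη.trans ?_)
  simp

theorem arg_ge {w : ℂ} (hw : 0 < w.im) : w.im / ‖w‖ ≤ arg w ∧ w.im / ‖w‖ ≤ π - arg w := by
  rw [← sin_arg]
  refine ⟨Real.sin_le (arg_nonneg_iff.2 hw.le), ?_⟩
  rw [← Real.sin_pi_sub]
  exact Real.sin_le (sub_nonneg.2 (arg_le_pi w))

/-- The common part of the two jump estimates. -/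
theorem jump {w : ℂ → ℝ} {x B : ℝ} {Φ : ℂ → ℂ} (hB : 0 < B) (h : RefAt w x Φ) :
    ∀ᶠ η : ℂ in 𝓝[upH] (x : ℂ), 0 < η.im ∧
      η.im ≤ w η + B / π * ((η - x).im / ‖η - x‖) := by
  set d : ℝ := (deriv Φ x).re with hd
  have hπ := Real.pi_pos
  have hδ : 0 < B / π / (|d| + 2) := by positivity
  filter_upwards [h.lin one_pos, self_mem_nhdsWithin,
    mem_nhdsWithin_of_mem_nhds (ball_mem_nhds (x : ℂ) hδ)] with η h1 h2 h3
  have him : 0 < η.im := h2
  refine ⟨him, ?_⟩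
  have hne : η - x ≠ 0 := by
    intro h0
    have := congrArg im h0
    simp at this
    exact him.ne' this
  have hn : 0 < ‖η - x‖ := norm_pos_iff.2 hne
  have h4 : ‖η - x‖ < B / π / (|d| + 2) := by simpa [dist_eq_norm] using h3
  have h5 : |d| + 2 ≤ B / π / ‖η - x‖ := by
    rw [le_div_iff₀ hn]
    rw [lt_div_iff₀ (by positivity)] at h4
    linarith
  have e : B / π * ((η - x).im / ‖η - x‖) = η.im * (B / π / ‖η - x‖) := by
    simp; ring
  rw [e]
  have h6 := (abs_le.1 h1).1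
  have h7 : η.im * (|d| + 2) ≤ η.im * (B / π / ‖η - x‖) := by gcongr
  have h8 : -|d| ≤ d := neg_abs_le d
  nlinarith

end Har3P

open Har3P

theorem Ord.congr {u w : ℂ → ℝ} {x : ℝ} {j : ℕ} (h : Ord u x j)
    (he : ∀ᶠ η : ℂ in 𝓝[upH] (x : ℂ), w η = u η) : Ord w x j := by
  obtain ⟨Φ, V, c, hR, hV, hc, hx, hd⟩ := h
  exact ⟨Φ, V, c, hR.congr he, hV, hc, hx, hd⟩

theorem Ord.shift {u : ℂ → ℝ} {x a : ℝ} {j : ℕ} (h : Ord u (x + a) j) :
    Ord (fun η => u (η + a)) x j := by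
  obtain ⟨Φ, V, c, hR, hV, hc, hx, hd⟩ := h
  have ht : Tendsto (fun η : ℂ => η + a) (𝓝 (x : ℂ)) (𝓝 ((x + a : ℝ) : ℂ)) := by
    rw [ofReal_add]
    exact (continuous_id.add continuous_const).continuousAt
  refine ⟨fun η => Φ (η + a), fun η => V (η + a), c, hR.shift, ?_, hc, ?_, ?_⟩
  · rw [ofReal_add] at hV
    exact hV.comp_of_eq (f := fun η : ℂ => η + a) (analyticAt_id.add analyticAt_const) rfl
  · rw [ofReal_add] at hx
    exact hx
  · filter_upwards [ht.eventually hd] with η hη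
    rw [deriv_comp_add_const, hη]
    push_cast
    ring

theorem Ord.unique {u : ℂ → ℝ} {x : ℝ} {j k : ℕ} (h : Ord u x j) (h' : Ord u x k) : j = k := by
  obtain ⟨Φ, V, c, hR, hV, hc, hx, hd⟩ := h
  obtain ⟨Φ', V', c', hR', hV', hc', hx', hd'⟩ := h'
  refine AnalyticAt.unique_eventuallyEq_pow_smul_nonzero (f := deriv Φ) (z₀ := (x : ℂ))
    ⟨V, hV, ?_, ?_⟩ ⟨V', hV', ?_, ?_⟩
  · rw [hx]; exact ofReal_ne_zero.2 hc.ne'
  · simpa using hd
  · rw [hx']; exact ofReal_ne_zero.2 hc'.ne'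
  · filter_upwards [hd', hR.deriv_eq hR'] with η h1 h2
    rw [h2, h1, smul_eq_mul]

theorem RefAt.ord_zero {u : ℂ → ℝ} {x : ℝ} {Φ : ℂ → ℂ} (h : RefAt u x Φ)
    (hp : 0 < (deriv Φ x).re) : Ord u x 0 := by
  refine ⟨Φ, deriv Φ, (deriv Φ x).re, h, h.1.deriv, hp, ?_, by simp⟩
  apply Complex.ext
  · simp
  · simpa using h.deriv_im.self_of_nhds

theorem RefAt.exists_ord {u : ℂ → ℝ} {x : ℝ} {Φ : ℂ → ℂ} (h : RefAt u x Φ)
    (hp : ∀ᶠ t : ℝ in 𝓝 x, 0 ≤ (deriv Φ t).re) (hne : ∃ᶠ η : ℂ in 𝓝[upH] (x : ℂ), u η ≠ 0) :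
    ∃ j : ℕ, Even j ∧ Ord u x j := by
  have hnz : ¬∀ᶠ z in 𝓝 (x : ℂ), deriv Φ z = 0 := by
    intro h0
    obtain ⟨δ, hδ, hb⟩ := Metric.eventually_nhds_iff_ball.1 (h.1.eventually_analyticAt.and h0)
    have hc : ∀ z ∈ ball (x : ℂ) δ, Φ z = Φ x := fun z hz =>
      isOpen_ball.is_const_of_deriv_eq_zero (convex_ball _ _).isPreconnected
        (fun w hw => (hb w hw).1.differentiableAt.differentiableWithinAt)
        (fun w hw => (hb w hw).2) hz (mem_ball_self hδ)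
    refine hne ?_
    filter_upwards [h.2.2, mem_nhdsWithin_of_mem_nhds (ball_mem_nhds (x : ℂ) hδ)] with η h1 h2
    rw [not_not, h1, hc η h2]
    exact h.2.1.self_of_nhds
  obtain ⟨j, V, hV, hV0, hd⟩ := h.1.deriv.exists_eventuallyEq_pow_smul_nonzero_iff.2 hnz
  have hd' : ∀ᶠ η : ℂ in 𝓝 (x : ℂ), deriv Φ η = (η - x) ^ j * V η := by simpa using hd
  have hdr : ∀ᶠ t : ℝ in 𝓝 x, deriv Φ t = ((t : ℂ) - x) ^ j * V t :=
    (ofReal_tendsto x).eventually hd'
  have hVt : Tendsto (fun t : ℝ => V t) (𝓝[>] x) (𝓝 (V x)) :=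
    (hV.continuousAt.tendsto.comp (ofReal_tendsto x)).mono_left nhdsWithin_le_nhds
  have him : (V x).im = 0 := by
    have h1 : Tendsto (fun t : ℝ => (V t).im) (𝓝[>] x) (𝓝 (V x).im) :=
      (continuous_im.tendsto _).comp hVt
    refine tendsto_nhds_unique h1 (tendsto_const_nhds.congr' ?_)
    filter_upwards [nhdsWithin_le_nhds hdr, nhdsWithin_le_nhds h.deriv_im,
      self_mem_nhdsWithin] with t h2 h3 h4
    rw [h2, ← ofReal_sub, ← ofReal_pow, im_ofReal_mul] at h3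
    have h5 : (t - x) ^ j ≠ 0 := pow_ne_zero _ (sub_pos.2 h4).ne'
    exact ((mul_eq_zero.1 h3).resolve_left h5).symm
  have hre : 0 ≤ (V x).re := by
    have h1 : Tendsto (fun t : ℝ => (V t).re) (𝓝[>] x) (𝓝 (V x).re) :=
      (continuous_re.tendsto _).comp hVt
    refine ge_of_tendsto h1 ?_
    filter_upwards [nhdsWithin_le_nhds hdr, nhdsWithin_le_nhds hp,
      self_mem_nhdsWithin] with t h2 h3 h4
    rw [re_formula h2] at h3
    exact nonneg_of_mul_nonneg_right h3 (pow_pos (sub_pos.2 h4) j)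
  have hx : V x = ((V x).re : ℂ) := by
    apply Complex.ext <;> simp [him]
  have hpos : 0 < (V x).re := by
    refine lt_of_le_of_ne hre fun h0 => hV0 ?_
    rw [hx, ← h0, ofReal_zero]
  refine ⟨j, ?_, Φ, V, (V x).re, h, hV, hpos, hx, hd'⟩
  by_contra hodd
  rw [Nat.not_even_iff_odd] at hodd
  have h1 : ∀ᶠ t : ℝ in 𝓝[<] x, False := by
    filter_upwards [nhdsWithin_le_nhds hdr, nhdsWithin_le_nhds hp,
      nhdsWithin_le_nhds (V_pos hV hpos hx), self_mem_nhdsWithin] with t h2 h3 h4 h5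
    rw [re_formula h2] at h3
    have h6 : (t - x) ^ j < 0 := hodd.pow_neg (sub_neg.2 h5)
    nlinarith
  exact h1.exists.elim fun _ h => h

theorem Ord.isolated {u : ℂ → ℝ} {x : ℝ} {j : ℕ} (h : Ord u x j) (hj : Even j) :
    ∀ᶠ t : ℝ in 𝓝[≠] x, Ord u t 0 := by
  obtain ⟨Φ, V, c, hR, hV, hc, hx, hd⟩ := h
  filter_upwards [nhdsWithin_le_nhds ((ofReal_tendsto x).eventually hd),
    nhdsWithin_le_nhds (V_pos hV hc hx), nhdsWithin_le_nhds hR.eventually,
    self_mem_nhdsWithin] with t h1 h2 h3 h4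
  refine h3.ord_zero ?_
  rw [re_formula h1]
  exact mul_pos (hj.pow_pos (sub_ne_zero.2 h4)) h2

theorem Ord.zero_pos {u : ℂ → ℝ} {x : ℝ} (h : Ord u x 0) :
    ∃ c : ℝ, 0 < c ∧ ∀ᶠ η : ℂ in 𝓝[upH] (x : ℂ), c * η.im ≤ u η := by
  obtain ⟨Φ, V, c, hR, hV, hc, hx, hd⟩ := h
  have h1 : (deriv Φ x).re = c := by
    have := hd.self_of_nhds
    rw [this, hx]; simp
  refine ⟨c / 2, by positivity, ?_⟩
  filter_upwards [hR.lin (half_pos hc)] with η hη
  rw [h1] at hη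
  have := (abs_le.1 hη).1
  linarith

theorem Ord.asymp {u : ℂ → ℝ} {x : ℝ} {j : ℕ} (h : Ord u x j) :
    ∃ c : ℝ, 0 < c ∧ ∀ ε > 0, ∀ᶠ η : ℂ in 𝓝[upH] (x : ℂ),
      |u η - c * ((η - x) ^ (j + 1)).im| ≤ ε * ‖η - x‖ ^ (j + 1) := by
  obtain ⟨Φ, V, c, hR, hV, hc, hx, hd⟩ := h
  refine ⟨c / (j + 1), by positivity, fun ε hε => ?_⟩
  filter_upwards [nhdsWithin_le_nhds (prim hR.1 hV.continuousAt hx hd hε), hR.2.2] with η h1 h2
  refine le_trans ?_ h1
  refine le_trans (le_of_eq ?_) (abs_im_le_norm _)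
  have e : (c : ℂ) / (j + 1) = ((c / (j + 1) : ℝ) : ℂ) := by push_cast; rfl
  rw [e, sub_im, sub_im, im_ofReal_mul, hR.2.1.self_of_nhds, h2, sub_zero]

theorem Ord.freq_pos {u : ℂ → ℝ} {x : ℝ} {j : ℕ} (h : Ord u x j) :
    ∃ᶠ η : ℂ in 𝓝[upH] (x : ℂ), 0 < u η := by
  obtain ⟨c, hc, hε⟩ := h.asymp
  have hπ := Real.pi_pos
  set θ : ℝ := π / 2 / (j + 1) with hθ
  have hθ0 : 0 < θ := by positivity
  have hθ1 : θ < π := by
    have h1 : θ ≤ π / 2 := div_le_self (by positivity) (by simp)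
    linarith
  set ω : ℂ := exp (θ * I) with hω
  have hω1 : ‖ω‖ = 1 := by simp [hω]
  have hω2 : 0 < ω.im := by
    rw [hω, exp_ofReal_mul_I_im]
    exact Real.sin_pos_of_pos_of_lt_pi hθ0 hθ1
  have hω3 : ω ^ (j + 1) = I := by
    have : ((j : ℂ) + 1) ≠ 0 := Nat.cast_add_one_ne_zero j
    have e : ((j + 1 : ℕ) : ℂ) * (θ * I) = π / 2 * I := by
      rw [hθ]
      push_cast
      field_simp
    rw [hω, ← exp_nat_mul, e, exp_pi_div_two_mul_I]
  have ht : Tendsto (fun τ : ℝ => (x : ℂ) + τ * ω) (𝓝[>] 0) (𝓝[upH] (x : ℂ)) := by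
    refine tendsto_nhdsWithin_iff.2 ⟨?_, ?_⟩
    · have : Continuous fun τ : ℝ => (x : ℂ) + τ * ω := by fun_prop
      have h2 := this.tendsto 0
      simp only [ofReal_zero, zero_mul, add_zero] at h2
      exact h2.mono_left nhdsWithin_le_nhds
    · filter_upwards [self_mem_nhdsWithin] with τ hτ
      show 0 < ((x : ℂ) + τ * ω).im
      simpa using mul_pos hτ hω2
  refine ht.frequently (Eventually.frequently ?_)
  filter_upwards [ht.eventually (hε (c / 2) (half_pos hc)), self_mem_nhdsWithin] with τ h1 h2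
  have hτ : 0 < τ := h2
  rw [add_sub_cancel_left, mul_pow, hω3, ← ofReal_pow, norm_mul, hω1, mul_one, norm_real,
    Real.norm_of_nonneg hτ.le] at h1
  simp only [mul_im, ofReal_re, I_im, mul_one, ofReal_im, I_re, mul_zero, add_zero] at h1
  have h3 := (abs_le.1 h1).1
  have h4 : 0 < c * τ ^ (j + 1) := by positivity
  linarith

theorem Ord.lower {u : ℂ → ℝ} {x : ℝ} {j : ℕ} (h : Ord u x j) (hj : Even j) :
    ∃ C : ℝ, ∀ᶠ η : ℂ in 𝓝[upH] (x : ℂ), -C * η.im ^ 2 ≤ u η := by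
  obtain ⟨Φ, V, c, hR, hV, hc, hx, hd⟩ := h
  obtain ⟨C, hC⟩ := hR.quad
  have h1 : ∀ᶠ t : ℝ in 𝓝 x, 0 ≤ (deriv Φ t).re := by
    filter_upwards [(ofReal_tendsto x).eventually hd, V_pos hV hc hx] with t h1 h2
    rw [re_formula h1]
    exact mul_nonneg (hj.pow_nonneg _) h2.le
  refine ⟨C, ?_⟩
  filter_upwards [hC, nhdsWithin_le_nhds ((re_tendsto x).eventually h1), self_mem_nhdsWithin]
    with η h2 h3 h4
  have h5 : 0 < η.im := h4
  have h6 := (abs_le.1 h2).1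
  have h7 := mul_nonneg h5.le h3
  linarith

theorem Ord.two_neg {u : ℂ → ℝ} {x : ℝ} (h : Ord u x 2) :
    ∀ᶠ τ : ℝ in 𝓝[>] 0, u (x + τ * I) < 0 := by
  obtain ⟨c, hc, hε⟩ := h.asymp
  filter_upwards [(tendsto_vert x).eventually (hε (c / 2) (half_pos hc)), self_mem_nhdsWithin]
    with τ h1 h2
  have hτ : 0 < τ := h2
  have e1 : (((τ : ℂ) * I) ^ (2 + 1)).im = -τ ^ 3 := by
    rw [mul_pow, ← ofReal_pow, pow_succ I, I_sq]
    simp only [mul_im, ofReal_re, ofReal_im, neg_mul, one_mul, neg_im, I_im, neg_re, I_re]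
    ring
  rw [add_sub_cancel_left, e1, norm_mul, norm_I, mul_one, norm_real,
    Real.norm_of_nonneg hτ.le] at h1
  have h3 := (abs_le.1 h1).2
  have h4 : 0 < c * τ ^ 3 := by positivity
  norm_num at h3
  linarith

theorem Ord.two_bound {u : ℂ → ℝ} {x : ℝ} (h : Ord u x 2) :
    ∃ C : ℝ, ∀ᶠ η : ℂ in 𝓝[upH] (x : ℂ), |u η| ≤ C * ‖η - x‖ ^ 3 := by
  obtain ⟨c, hc, hε⟩ := h.asymp
  refine ⟨c + 1, ?_⟩
  filter_upwards [hε 1 one_pos] with η h1
  have h2 : |c * ((η - x) ^ (2 + 1)).im| ≤ c * ‖η - x‖ ^ 3 := by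
    rw [abs_mul, abs_of_pos hc, ← norm_pow]
    gcongr
    exact abs_im_le_norm _
  have h3 := abs_sub_abs_le_abs_sub (u η) (c * ((η - x) ^ (2 + 1)).im)
  norm_num at h1 h2 h3 ⊢
  linarith

/-- Positivity at a jump of the boundary values. -/
theorem RefAt.jump_right {u : ℂ → ℝ} {x B : ℝ} {Φ : ℂ → ℂ} (hB : 0 < B)
    (h : RefAt (fun η => u η - B / π * arg (η - x)) x Φ) :
    ∀ᶠ η : ℂ in 𝓝[upH] (x : ℂ), η.im ≤ u η := by
  filter_upwards [jump hB h] with η ⟨h1, h2⟩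
  have h3 := (arg_ge (w := η - x) (by simpa using h1)).1
  have hπ := Real.pi_pos
  have h4 : B / π * ((η - x).im / ‖η - x‖) ≤ B / π * arg (η - x) := by gcongr
  linarith

theorem RefAt.jump_left {u : ℂ → ℝ} {x B : ℝ} {Φ : ℂ → ℂ} (hB : 0 < B)
    (h : RefAt (fun η => u η - B + B / π * arg (η - x)) x Φ) :
    ∀ᶠ η : ℂ in 𝓝[upH] (x : ℂ), η.im ≤ u η := by
  filter_upwards [jump hB h] with η ⟨h1, h2⟩
  have h3 := (arg_ge (w := η - x) (by simpa using h1)).2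
  have hπ := Real.pi_pos
  have h4 : B / π * ((η - x).im / ‖η - x‖) ≤ B / π * (π - arg (η - x)) := by gcongr
  have h5 : B / π * (π - arg (η - x)) = B - B / π * arg (η - x) := by field_simp
  linarith

theorem RefAt.jump_right_ord {u : ℂ → ℝ} {x B : ℝ} {Φ : ℂ → ℂ} (hB : 0 < B)
    (h : RefAt (fun η => u η - B / π * arg (η - x)) x Φ) : ∀ᶠ t : ℝ in 𝓝[>] x, Ord u t 0 := by
  filter_upwards [nhdsWithin_le_nhds h.eventually,
    nhdsWithin_le_nhds (eventually_upH (h.jump_right hB)), self_mem_nhdsWithin] with t h1 h2 h3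
  have ht : 0 < t - x := sub_pos.2 h3
  have hR : RefAt u t (fun η => Φ η + ((B / π : ℝ) : ℂ) * log (η - x)) := by
    refine ⟨h1.1.add (analyticAt_const.mul ((analyticAt_id.sub analyticAt_const).clog ?_)),
      ?_, ?_⟩
    · left; simpa using ht
    · filter_upwards [h1.2.1, lt_mem_nhds (show x < t from h3)] with s h4 h5
      rw [add_im, h4, im_ofReal_mul, log_im, ← ofReal_sub,
        arg_ofReal_of_nonneg (sub_pos.2 h5).le]
      simp
    · filter_upwards [h1.2.2] with η h4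
      rw [add_im, ← h4, im_ofReal_mul, log_im]
      ring
  refine hR.ord_zero (hR.hopf ?_)
  filter_upwards [h2, self_mem_nhdsWithin] with η h4 h5
  exact lt_of_lt_of_le h5 h4

theorem RefAt.jump_left_ord {u : ℂ → ℝ} {x B : ℝ} {Φ : ℂ → ℂ} (hB : 0 < B)
    (h : RefAt (fun η => u η - B + B / π * arg (η - x)) x Φ) :
    ∀ᶠ t : ℝ in 𝓝[<] x, Ord u t 0 := by
  filter_upwards [nhdsWithin_le_nhds h.eventually,
    nhdsWithin_le_nhds (eventually_upH (h.jump_left hB)), self_mem_nhdsWithin] with t h1 h2 h3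
  have ht : 0 < x - t := sub_pos.2 h3
  have hπ := Real.pi_pos
  have hR : RefAt u t (fun η => Φ η - ((B / π : ℝ) : ℂ) * log (x - η)) := by
    refine ⟨h1.1.sub (analyticAt_const.mul ((analyticAt_const.sub analyticAt_id).clog ?_)),
      ?_, ?_⟩
    · left; simpa using ht
    · filter_upwards [h1.2.1, gt_mem_nhds (show t < x from h3)] with s h4 h5
      rw [sub_im, h4, im_ofReal_mul, log_im, ← ofReal_sub,
        arg_ofReal_of_nonneg (sub_pos.2 h5).le]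
      simp
    · filter_upwards [h1.2.2, self_mem_nhdsWithin] with η h4 h5
      have h6 : 0 < (η - x).im := by simpa using (show 0 < η.im from h5)
      rw [sub_im, ← h4, im_ofReal_mul, log_im, ← neg_sub η, arg_neg_eq_arg_sub_pi_of_im_pos h6]
      field_simp
      ring
  refine hR.ord_zero (hR.hopf ?_)
  filter_upwards [h2, self_mem_nhdsWithin] with η h4 h5
  exact lt_of_lt_of_le h5 h4

theorem RChart.map_upH {χ : ℂ → ℂ} {x : ℝ} (h : RChart χ x) :
    map χ (𝓝[upH] (x : ℂ)) = 𝓝[upH] 0 := by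
  have hd := h.dpos
  have hne : deriv χ x ≠ 0 := fun h0 => by simp [h0] at hd
  have h1 := h.ana.hasStrictDerivAt.map_nhds_eq hne
  rw [h.zero] at h1
  have h2 : 𝓝[upH] (x : ℂ) = 𝓝[χ ⁻¹' upH] (x : ℂ) := by
    rw [nhdsWithin_eq_iff_eventuallyEq]
    filter_upwards [im_lin h.ana h.real (half_pos hd)] with η hη
    apply propext
    show 0 < η.im ↔ 0 < (χ η).im
    obtain ⟨h3, h4⟩ := abs_le.1 hη
    constructor
    · intro h5
      rw [abs_of_pos h5] at h3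
      nlinarith
    · intro h5
      by_contra h6
      push Not at h6
      rw [abs_of_nonpos h6] at h4
      nlinarith
  rw [h2, nhdsWithin, map_inf_principal_preimage, h1, nhdsWithin]

theorem Har3P.re_lin {χ : ℂ → ℂ} {x : ℝ} (h : RChart χ x) :
    map (fun t : ℝ => (χ t).re) (𝓝 x) = 𝓝 0 ∧
      ∀ᶠ t : ℝ in 𝓝 x, |(χ t).re - (t - x) * (deriv χ x).re| ≤ (deriv χ x).re / 2 * |t - x| := by
  have hd := h.dpos
  have h1 := h.ana.hasStrictDerivAt.real_of_complex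
  have h2 := h1.map_nhds_eq hd.ne'
  simp only [h.zero, zero_re] at h2
  refine ⟨h2, ?_⟩
  filter_upwards [h1.hasDerivAt.isLittleO.def (half_pos hd)] with t ht
  simpa [h.zero] using ht

theorem RChart.map_right {χ : ℂ → ℂ} {x : ℝ} (h : RChart χ x) :
    map (fun t : ℝ => (χ t).re) (𝓝[>] x) = 𝓝[>] 0 := by
  have hd := h.dpos
  obtain ⟨h1, hl⟩ := Har3P.re_lin h
  have h2 : 𝓝[>] x = 𝓝[(fun t : ℝ => (χ t).re) ⁻¹' Ioi 0] x := by
    rw [nhdsWithin_eq_iff_eventuallyEq]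
    filter_upwards [hl] with t ht
    apply propext
    show x < t ↔ 0 < (χ t).re
    obtain ⟨h3, h4⟩ := abs_le.1 ht
    constructor
    · intro h5
      rw [abs_of_pos (sub_pos.2 h5)] at h3
      nlinarith
    · intro h5
      by_contra h6
      push Not at h6
      rw [abs_of_nonpos (sub_nonpos.2 h6)] at h4
      nlinarith
  rw [h2, nhdsWithin, map_inf_principal_preimage, h1, nhdsWithin]

theorem RChart.map_left {χ : ℂ → ℂ} {x : ℝ} (h : RChart χ x) :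
    map (fun t : ℝ => (χ t).re) (𝓝[<] x) = 𝓝[<] 0 := by
  have hd := h.dpos
  obtain ⟨h1, hl⟩ := Har3P.re_lin h
  have h2 : 𝓝[<] x = 𝓝[(fun t : ℝ => (χ t).re) ⁻¹' Iio 0] x := by
    rw [nhdsWithin_eq_iff_eventuallyEq]
    filter_upwards [hl] with t ht
    apply propext
    show t < x ↔ (χ t).re < 0
    obtain ⟨h3, h4⟩ := abs_le.1 ht
    constructor
    · intro h5
      rw [abs_of_neg (sub_neg.2 h5)] at h4
      nlinarith
    · intro h5
      by_contra h6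
      push Not at h6
      rw [abs_of_nonneg (sub_nonneg.2 h6)] at h3
      nlinarith
  rw [h2, nhdsWithin, map_inf_principal_preimage, h1, nhdsWithin]

end Pool.Agent.P.MP_3bd355_an
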