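import Pool.Agent.P.MP_3bd355_an.Defs

/-! Internal definitions for the proofs. -/

open Set Filter Metric Complex InnerProductSpace
open scoped Topology ComplexConjugate Real

namespace Pool.Agent.P.MP_3bd355_an

/-- Real valued subharmonic functions. -/
def Sub (u : ℂ → ℝ) (U : Set ℂ) : Prop :=
  UpperSemicontinuousOn u U ∧
    ∀ (c : ℂ) (ρ : ℝ), 0 < ρ → closedBall c ρ ⊆ U → ∀ h : ℂ → ℝ, HarmonicContOnCl h (ball c ρ) →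
      (∀ z ∈ sphere c ρ, u z ≤ h z) → ∀ z ∈ ball c ρ, u z ≤ h z

/-- `limsup u ≤ c` as `z → p` in `U`. -/
def LS (u : ℂ → ℝ) (U : Set ℂ) (p : ℂ) (c : ℝ) : Prop := ∀ ε > 0, ∀ᶠ z in 𝓝[U] p, u z < c + ε

/-- The closed annulus. -/
def cann (r : ℝ) : Set ℂ := {z | r ≤ ‖z‖ ∧ ‖z‖ ≤ 1}

/-- The upper half plane. -/
def upH : Set ℂ := {z | 0 < z.im}

/-- The strip of height `h`. -/
def St (h : ℝ) : Set ℂ := {z | 0 < z.im ∧ z.im < h}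

/-- A base point in the upper half of the annulus. -/
noncomputable def base (r : ℝ) : ℂ := I * (((1 + r) / 2 : ℝ) : ℂ)

/-- The component of `ann r \ L` containing the upper half annulus. -/
def main (r : ℝ) (L : Set ℂ) : Set ℂ := connectedComponentIn (ann r \ L) (base r)

/-- The exposed part of the inner circle. -/
def Ex (r : ℝ) (L : Set ℂ) : Set ℂ := {p | ‖p‖ = r ∧ p ∉ L ∧ p ∈ closure (main r L)}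

/-- A continuum in the lower half of the closed annulus. -/
structure Cont (r : ℝ) (L : Set ℂ) : Prop where
  r0 : 0 < r
  r1 : r < 1
  cpt : IsCompact L
  conn : IsPreconnected L
  nt : L.Nontrivial
  sub : L ⊆ cann r
  low : ∀ z ∈ L, z.im ≤ 0

/-- Compatibility of the data at the outer circle. -/
def OK (A : ℝ) (L : Set ℂ) : Prop := A = 0 ∨ ∀ p ∈ L, ‖p‖ < 1

/-- The bounded harmonic function on `main r L` with data `0` on `L`, `A` outside, `B` inside,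
extended by zero. -/
structure Sol (r A B : ℝ) (L : Set ℂ) (v : ℂ → ℝ) : Prop where
  harm : HarmonicOnNhd v (main r L)
  bdd : ∃ C : ℝ, ∀ z, |v z| ≤ C
  off : ∀ z, z ∉ main r L → v z = 0
  atL : ∀ p ∈ L, p ∉ closure (Ex r L) → Tendsto v (𝓝[main r L] p) (𝓝 0)
  atA : ∀ p : ℂ, ‖p‖ = 1 → p ∉ L → Tendsto v (𝓝[main r L] p) (𝓝 A)
  atB : ∀ p ∈ Ex r L, Tendsto v (𝓝[main r L] p) (𝓝 B)

/-- `v ≥ 0` near `L`. -/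
def Pos (r : ℝ) (L : Set ℂ) (v : ℂ → ℝ) : Prop := ∀ p ∈ L, ∀ᶠ z in 𝓝[main r L] p, 0 ≤ v z

/-- The closed form of `Pos`. -/
def NN (r : ℝ) (L : Set ℂ) (v : ℂ → ℝ) : Prop :=
  ∃ (ω : ℂ → ℝ) (C : ℝ), HarmonicOnNhd ω (main r L) ∧ (∀ z ∈ main r L, 0 ≤ ω z ∧ ω z ≤ 1) ∧
    (∀ p ∈ L, Tendsto ω (𝓝[main r L] p) (𝓝 0)) ∧ ∀ z ∈ main r L, -C * ω z ^ 2 ≤ v z

/-- Hausdorff convergence. -/
def HL (Ls : ℕ → Set ℂ) (L : Set ℂ) : Prop :=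
  ∀ ε > 0, ∀ᶠ k in atTop, Ls k ⊆ thickening ε L ∧ L ⊆ thickening ε (Ls k)

/-- Folding onto the lower half plane. -/
def fold (z : ℂ) : ℂ := ⟨z.re, -|z.im|⟩

/-- Generalised competitors: a continuum and a function. -/
structure GC (r A B : ℝ) (z₁ : ℂ) (K : Set ℂ) (w : ℂ → ℝ) : Prop where
  cpt : IsCompact K
  conn : IsPreconnected K
  sub : K ⊆ cann r
  mem : z₁ ∈ K
  out : ∃ p ∈ K, ‖p‖ = 1
  sh : Sub w (ann r)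
  le : ∀ z ∈ K, z ∈ ann r → w z ≤ 0
  outer : ∀ p : ℂ, ‖p‖ = 1 → LS w (ann r) p A
  inner : ∀ p : ℂ, ‖p‖ = r → LS w (ann r) p B
  hug : ∃ S : Set ℂ, S.Finite ∧ ∀ p ∈ K, ‖p‖ = r → p ∉ S → LS w (ann r) p 0

/-- `m` bounds the values of the generalised competitors. -/
def Bound (r A B : ℝ) (z₀ z₁ : ℂ) (m : ℝ) : Prop := ∀ K w, GC r A B z₁ K w → w z₀ ≤ m

/-- Generalised admissible pairs: the curve may touch the inner circle. -/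
structure GAdm (r A B : ℝ) (z₁ : ℂ) (u : ℂ → ℝ) (γ : ℝ → ℂ) : Prop where
  sh : Sub u (ann r)
  outer : ∀ p : ℂ, ‖p‖ = 1 → LS u (ann r) p A
  inner : ∀ p : ℂ, ‖p‖ = r → LS u (ann r) p B
  cont : ContinuousOn γ (Ico 0 1)
  start : γ 0 = z₁
  mem : ∀ t ∈ Ico (0 : ℝ) 1, r ≤ ‖γ t‖ ∧ ‖γ t‖ < 1
  lim : Tendsto (fun t => ‖γ t‖) (𝓝[<] 1) (𝓝 1)
  le : ∀ t ∈ Ico (0 : ℝ) 1, r < ‖γ t‖ → u (γ t) ≤ 0
  hug : ∃ S : Set ℂ, S.Finite ∧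
    ∀ t ∈ Ico (0 : ℝ) 1, ‖γ t‖ = r → γ t ∉ S → LS u (ann r) (γ t) 0

/-- The standard frame. -/
structure Hyp (r A B : ℝ) (z₀ z₁ : ℂ) : Prop where
  r0 : 0 < r
  r1 : r < 1
  m0 : z₀ ∈ ann r
  m1 : z₁ ∈ ann r
  A0 : A ≤ 0
  h1 : 0 < hf r A B z₁
  im0 : 0 ≤ z₀.im
  im1 : z₁.im ≤ 0

/-- `u` is at most zero on `L` up to reflection. -/
def FH (r : ℝ) (u : ℂ → ℝ) (L : Set ℂ) : Prop :=
  (∀ p ∈ L, p ∈ ann r → u p ≤ 0 ∨ u (conj p) ≤ 0) ∧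
    ∃ S : Set ℂ, S.Finite ∧
      ∀ p ∈ L, ‖p‖ = r → p ∉ S → LS u (ann r) p 0 ∨ LS u (ann r) (conj p) 0

/-- The closed class of configurations. -/
structure Cfg (r A B : ℝ) (z₁ : ℂ) (L : Set ℂ) (v : ℂ → ℝ) : Prop where
  cont : Cont r L
  m1 : z₁ ∈ ann r
  mem : z₁ ∈ L
  B0 : 0 < B
  sol : Sol r A B L v
  nn : NN r L v
  cases : (A = 0 ∧ ∃ p ∈ L, ‖p‖ = 1) ∨
    (A < 0 ∧ (∀ p ∈ L, ‖p‖ < 1) ∧ ∃ p ∈ L, ∃ᶠ z in 𝓝[main r L] p, v z ≤ 0)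

/-- Extremal configurations. -/
structure Ext (r A B : ℝ) (z₀ z₁ : ℂ) (m : ℝ) (L : Set ℂ) (v : ℂ → ℝ) : Prop where
  hyp : Hyp r A B z₀ z₁
  cfg : Cfg r A B z₁ L v
  bound : Bound r A B z₀ z₁ m
  ge : m ≤ v z₀
  m0 : z₀ ∈ main r L

/-- A strict connection of `L` to the outer circle. -/
structure SC (r : ℝ) (L : Set ℂ) (v : ℂ → ℝ) (K : Set ℂ) : Prop where
  cpt : IsCompact K
  conn : IsPreconnected K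
  sup : L ⊆ K
  sub : K ⊆ cann r
  low : ∀ z ∈ K, z.im ≤ 0
  out : ∃ p ∈ K, ‖p‖ = 1
  neg : ∀ z ∈ K, z ∉ L → ‖z‖ = 1 ∨ v z < 0

/-- The complement of `U` has no nonempty compact relatively open subset. -/
def NC (U : Set ℂ) : Prop := ∀ C O : Set ℂ, IsCompact C → IsOpen O → C = O \ U → C = ∅

/-- Every boundary point lies on a continuum in the complement. -/
def Reg (W : Set ℂ) : Prop :=
  ∀ p ∈ frontier W, ∃ K : Set ℂ, IsCompact K ∧ IsPreconnected K ∧ K.Nontrivial ∧ p ∈ K ∧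
    Disjoint K W

/-- `L` together with the closed inner disc or the closed exterior when `L` meets them. -/
def YS (r : ℝ) (L : Set ℂ) : Set ℂ :=
  L ∪ {z | ‖z‖ ≤ r ∧ ∃ p ∈ L, ‖p‖ = r} ∪ {z | 1 ≤ ‖z‖ ∧ ∃ p ∈ L, ‖p‖ = 1}

/-- The component of the complement of `YS r L` that contains `main r L`. -/
def Om (r : ℝ) (L : Set ℂ) : Set ℂ :=
  main r L ∪ {z | ‖z‖ ≤ r ∧ ∀ p ∈ L, ‖p‖ ≠ r} ∪ {z | 1 ≤ ‖z‖ ∧ ∀ p ∈ L, ‖p‖ ≠ 1}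

/-- The Riemann map of `Om r L` (with `∞ ↦ 0` when it is unbounded) and its inverse. -/
structure RMo (r : ℝ) (L : Set ℂ) (φ ψ : ℂ → ℂ) : Prop where
  dφ : DifferentiableOn ℂ φ (Om r L)
  inj : InjOn φ (Om r L)
  lt : ∀ z ∈ Om r L, ‖φ z‖ < 1
  dψ : DifferentiableOn ℂ ψ (ball 0 1 \ {0})
  inv : ∀ w ∈ ball (0 : ℂ) 1 \ {0}, ψ w ∈ Om r L ∧ φ (ψ w) = w
  bd : ∀ p ∈ frontier (Om r L), Tendsto (fun z => ‖φ z‖) (𝓝[Om r L] p) (𝓝 1)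
  inf : (∀ p ∈ L, ‖p‖ ≠ 1) → (∀ z ∈ Om r L, φ z ≠ 0) ∧
    ∃ c C : ℝ, 0 < c ∧ ∀ z : ℂ, 1 ≤ ‖z‖ → c ≤ ‖z‖ * ‖φ z‖ ∧ ‖z‖ * ‖φ z‖ ≤ C

/-- Uniformisation of a collar of `YS r L` in `main r L` by a strip. -/
structure Unif (r : ℝ) (L : Set ℂ) (φ F : ℂ → ℂ) (h : ℝ) : Prop where
  cont : Cont r L
  hpos : 0 < h
  dφ : DifferentiableOn ℂ φ (main r L)
  inj : InjOn φ (main r L)
  lt : ∀ z ∈ main r L, ‖φ z‖ < 1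
  ne : (∀ p ∈ L, ‖p‖ ≠ 1) → ∀ z ∈ main r L, φ z ≠ 0
  dF : DifferentiableOn ℂ F (St h)
  maps : ∀ η ∈ St h, F η ∈ main r L
  comp : ∀ η ∈ St h, φ (F η) = exp (I * η)
  bdY : ∀ p ∈ frontier (main r L), p ∈ YS r L →
    Tendsto (fun z => ‖φ z‖) (𝓝[main r L] p) (𝓝 1)
  bdO : ∀ p ∈ frontier (main r L), p ∉ YS r L →
    LS (fun z => ‖φ z‖) (main r L) p (Real.exp (-h))

/-- `u = Im Φ` above the real point `x`, with `Φ` analytic at `x` and real on the real line. -/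
def RefAt (u : ℂ → ℝ) (x : ℝ) (Φ : ℂ → ℂ) : Prop :=
  AnalyticAt ℂ Φ x ∧ (∀ᶠ t : ℝ in 𝓝 x, (Φ t).im = 0) ∧ ∀ᶠ η : ℂ in 𝓝[upH] (x : ℂ), u η = (Φ η).im

/-- The normal derivative of `u` on the real line has a zero of order `j` at `x`, with positive
leading coefficient. -/
def Ord (u : ℂ → ℝ) (x : ℝ) (j : ℕ) : Prop :=
  ∃ (Φ V : ℂ → ℂ) (c : ℝ), RefAt u x Φ ∧ AnalyticAt ℂ V x ∧ 0 < c ∧ V x = c ∧
    ∀ᶠ η : ℂ in 𝓝 (x : ℂ), deriv Φ η = (η - x) ^ j * V η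

/-- The open part of the real line that corresponds to `L` (and to the outer circle). -/
def Zo (s0 s1 : ℝ) : Set ℝ := {x | s1 = s0 + 2 * π ∨ ∃ k : ℤ, x - 2 * π * k ∈ Ioo s0 s1}

/-- The part of the real line that corresponds to the exposed arc. -/
def Eo (s0 s1 : ℝ) : Set ℝ := {x | ∃ k : ℤ, x - 2 * π * k ∈ Ioo s1 (s0 + 2 * π)}

/-- `L`, together with the outer circle when `L` meets it. -/
def LA (L : Set ℂ) : Set ℂ := L ∪ {z | ‖z‖ = 1 ∧ ∃ p ∈ L, ‖p‖ = 1}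

/-- The picture on the real line. -/
structure Pic (r : ℝ) (L : Set ℂ) (F : ℂ → ℂ) (s0 s1 : ℝ) : Prop where
  lt : s0 < s1
  le : s1 ≤ s0 + 2 * π
  touch : (∃ p ∈ L, ‖p‖ = r) ↔ s1 < s0 + 2 * π
  toEx : ∀ x ∈ Eo s0 s1, ∃ p ∈ Ex r L, Tendsto F (𝓝[upH] (x : ℂ)) (𝓝 p)
  clZ : ∀ x : ℝ, x ∉ Eo s0 s1 → ∀ O : Set ℂ, IsOpen O → LA L ⊆ O → ∀ᶠ η : ℂ in 𝓝[upH] (x : ℂ), F η ∈ O
  uz : ∀ (A B : ℝ) (v : ℂ → ℝ), OK A L → Sol r A B L v → ∀ x ∈ Zo s0 s1,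
    Tendsto (fun η : ℂ => v (F η)) (𝓝[upH] (x : ℂ)) (𝓝 0)

/-- Zeros of the normal derivative. -/
def Zer (v : ℂ → ℝ) (F : ℂ → ℂ) (s0 s1 : ℝ) : Set ℝ :=
  {x | x ∈ Zo s0 s1 ∧ ¬ Ord (fun η : ℂ => v (F η)) x 0}

/-- The picture of `v` on the real line. -/
structure PV (A B : ℝ) (v : ℂ → ℝ) (F : ℂ → ℂ) (s0 s1 : ℝ) : Prop where
  ord : ∀ x ∈ Zo s0 s1, ∃ j : ℕ, Even j ∧ Ord (fun η : ℂ => v (F η)) x j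
  nz : A = 0 → Zer v F s0 s1 = ∅
  fin : (Zer v F s0 s1 ∩ Icc s0 s1).Finite
  end0 : s1 < s0 + 2 * π → ∃ Φ, RefAt (fun η : ℂ => v (F η) - B / π * arg (η - s0)) s0 Φ
  end1 : s1 < s0 + 2 * π → ∃ Φ, RefAt (fun η : ℂ => v (F η) - B + B / π * arg (η - s1)) s1 Φ

/-- All zeros of the normal derivative are double. -/
def Tip (v : ℂ → ℝ) (F : ℂ → ℂ) (s0 s1 : ℝ) : Prop :=
  ∀ x ∈ Zer v F s0 s1, Ord (fun η : ℂ => v (F η)) x 2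

/-- A frame: a configuration with its uniformisation. -/
structure Fr (r A B : ℝ) (z₁ : ℂ) (L : Set ℂ) (v : ℂ → ℝ) (φ F : ℂ → ℂ) (h s0 s1 : ℝ) : Prop where
  cfg : Cfg r A B z₁ L v
  unif : Unif r L φ F h
  pic : Pic r L F s0 s1
  pv : PV A B v F s0 s1
  tip : Tip v F s0 s1

/-- Green function with regular part `H` and pole `ζ`. -/
noncomputable def gr (H : ℂ → ℂ → ℝ) (ζ z : ℂ) : ℝ := H z ζ - Real.log ‖z - ζ‖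

/-- The derivative of the Green function in the pole. -/
noncomputable def dp (H : ℂ → ℂ → ℝ) (β ζ z : ℂ) : ℝ := fderiv ℝ (H z) ζ β + (β / (z - ζ)).re

/-- `H` is the regular part of the Green function of `W`. -/
structure Grn (W : Set ℂ) (H : ℂ → ℂ → ℝ) : Prop where
  harm : ∀ ζ ∈ W, HarmonicOnNhd (fun z => H z ζ) W
  symm : ∀ z ∈ W, ∀ ζ ∈ W, H z ζ = H ζ z
  bd : ∀ ζ ∈ W, ∀ p ∈ frontier W, Tendsto (gr H ζ) (𝓝[W] p) (𝓝 0)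
  pos : ∀ ζ ∈ W, ∀ z ∈ W, z ≠ ζ → 0 < gr H ζ z
  dharm : ∀ ζ ∈ W, ∀ β : ℂ, HarmonicOnNhd (fun z => fderiv ℝ (H z) ζ β) W
  dbd : ∀ ζ ∈ W, ∀ β : ℂ, ∀ p ∈ frontier W, Tendsto (dp H β ζ) (𝓝[W] p) (𝓝 0)
  dgrad : ∀ ζ ∈ W, ∀ β : ℂ, ∀ z ∈ W, z ≠ ζ → dp H β ζ z = (β * grad (gr H z) ζ).re

/-- The Martin kernel at the real point `y`. -/
structure Mart (W : Set ℂ) (F : ℂ → ℂ) (H : ℂ → ℂ → ℝ) (y : ℝ) (k : ℂ → ℝ) : Prop where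
  harm : HarmonicOnNhd k W
  pos : ∀ z ∈ W, 0 < k z
  zero : ∀ x : ℝ, (∀ n : ℤ, x ≠ y + 2 * π * n) →
    Tendsto (fun η : ℂ => k (F η)) (𝓝[upH] (x : ℂ)) (𝓝 0)
  pole : ∃ Φ, RefAt (fun η : ℂ => k (F η) - (-2 / (η - y)).im) y Φ
  dlim : ∀ ζ ∈ W, ∀ β : ℂ,
    Tendsto (fun τ : ℝ => dp H β ζ (F (y + τ * I)) / τ) (𝓝[>] 0) (𝓝 (β * grad k ζ).re)

/-- The vector fields `z ρ(z)` of the variation. -/
noncomputable def rho (r : ℝ) (Z : Finset ℂ) (a : ℂ → ℂ) (c₀ : ℝ) (z : ℂ) : ℂ :=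
  I * c₀ + ∑ ζ ∈ Z, (a ζ * vk r (z / ζ) + conj (a ζ) * vk r (z * conj ζ))

/-- The dipole correction of the variation. -/
noncomputable def DD (H : ℂ → ℂ → ℝ) (v : ℂ → ℝ) (Z : Finset ℂ) (a : ℂ → ℂ) (z : ℂ) : ℝ :=
  -∑ ζ ∈ Z, dp H (2 * a ζ * ζ ^ 2 * grad v ζ) ζ z

/-- The multiplier rule. -/
structure LinOut (r : ℝ) (L : Set ℂ) (v : ℂ → ℝ) (F : ℂ → ℂ) (s0 s1 : ℝ) (z₀ z₁ : ℂ)
    (H : ℂ → ℂ → ℝ) (a b : ℂ) (c l0 : ℝ) (Y : Finset ℝ) (lam : ℝ → ℝ) (k : ℝ → ℂ → ℝ) : Prop where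
  sub : ∀ y ∈ Y, y ∈ Zer v F s0 s1 ∧ y ∈ Icc s0 s1 ∧ y < s0 + 2 * π
  mart : ∀ y ∈ Y, Mart (main r L) F H y (k y)
  l0n : 0 ≤ l0
  lamn : ∀ y ∈ Y, 0 ≤ lam y
  nz : 0 < l0 ∨ ∃ y ∈ Y, 0 < lam y
  bal : (a + b).im = 0
  iden : ∀ ζ ∈ main r L, ζ ≠ z₀ →
    grad v ζ * (l0 * grad (gr H z₀) ζ + ∑ y ∈ Y, (lam y : ℂ) * grad (k y) ζ) = QD r z₀ z₁ a b c ζ

/-- The pulled back quadratic differential has order `e` at `x` and is negative on the line. -/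
def Ed (Q F : ℂ → ℂ) (x : ℝ) (e : ℕ) : Prop :=
  ∃ E : ℂ → ℂ, AnalyticAt ℂ E x ∧ (∀ᶠ t : ℝ in 𝓝 x, (E t).im = 0) ∧ (E x).re < 0 ∧
    ∀ᶠ η : ℂ in 𝓝[upH] (x : ℂ), Q (F η) * deriv F η ^ 2 = (η - x) ^ e * E η

/-- The pulled back quadratic differential along the real line. -/
structure Edat (Q : ℂ → ℂ) (v : ℂ → ℝ) (F : ℂ → ℂ) (s0 s1 : ℝ) : Prop where
  ed : ∀ x ∈ Zo s0 s1, Ed Q F x 0 ∨ (x ∈ Zer v F s0 s1 ∧ Ed Q F x 2)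
  ends : s1 < s0 + 2 * π → ∀ s : ℝ, s = s0 ∨ s = s1 →
    ∃ C : ℝ, ∀ᶠ η : ℂ in 𝓝[upH] (s : ℂ), ‖η - s‖ * ‖Q (F η) * deriv F η ^ 2‖ ≤ C

/-- The quadratic differential is not identically zero. -/
def NZ (r : ℝ) (z₀ z₁ a b : ℂ) (c : ℝ) : Prop :=
  ∃ z ∈ ann r, z ≠ z₀ ∧ z ≠ z₁ ∧ QD r z₀ z₁ a b c z ≠ 0

/-- Boundary values of `F`. -/
structure Bd (F : ℂ → ℂ) (Fb : ℝ → ℂ) : Prop where
  cont : Continuous Fb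
  lim : ∀ x : ℝ, Tendsto F (𝓝[upH] (x : ℂ)) (𝓝 (Fb x))

/-- A natural chart: `Q dz² = ψ ^ (n - 2) dψ²`. -/
structure Chart (Q : ℂ → ℂ) (p : ℂ) (n : ℕ) (ψ : ℂ → ℂ) : Prop where
  ana : AnalyticAt ℂ ψ p
  zero : ψ p = 0
  dne : deriv ψ p ≠ 0
  pos : 1 ≤ n
  eq : ∀ᶠ z in 𝓝[≠] p, Q z * ψ z ^ 2 = ψ z ^ n * deriv ψ z ^ 2

/-- A chart of the upper half plane at the real point `x`. -/
structure RChart (χ : ℂ → ℂ) (x : ℝ) : Prop where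
  ana : AnalyticAt ℂ χ x
  zero : χ x = 0
  real : ∀ᶠ t : ℝ in 𝓝 x, (χ t).im = 0
  dpos : 0 < (deriv χ x).re

/-- The opening of the sector, divided by `π`. -/
noncomputable def th (n e : ℕ) : ℝ := ((e : ℝ) + 2) / n

/-- The local structure of `F` at the real point `x`. -/
structure Loc (Q ψ F : ℂ → ℂ) (Fb : ℝ → ℂ) (x : ℝ) (n e : ℕ) (κ : ℂ) : Prop where
  root : κ ^ n = -1
  img : ∀ᶠ η : ℂ in 𝓝[upH] (x : ℂ), ∃ s : ℝ, 0 < s ∧ ∃ ϑ ∈ Ioo (0 : ℝ) (π * th n e),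
    ψ (F η) = s * κ * exp (I * ϑ)
  cov : ∀ U ∈ 𝓝[upH] (x : ℂ), ∀ᶠ z in 𝓝 (Fb x),
    (∃ s : ℝ, 0 < s ∧ ∃ ϑ ∈ Ioo (0 : ℝ) (π * th n e), ψ z = s * κ * exp (I * ϑ)) → ∃ η ∈ U, F η = z
  rayR : ∀ᶠ t in 𝓝[>] x, ∃ s : ℝ, 0 < s ∧ ψ (Fb t) = s * κ
  rayL : ∀ᶠ t in 𝓝[<] x, ∃ s : ℝ, 0 < s ∧ ψ (Fb t) = s * κ * exp (I * (π * th n e : ℝ))
  covR : ∀ U ∈ 𝓝[>] x, ∀ᶠ z in 𝓝 (Fb x), (∃ s : ℝ, 0 < s ∧ ψ z = s * κ) → ∃ t ∈ U, Fb t = z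
  covL : ∀ U ∈ 𝓝[<] x, ∀ᶠ z in 𝓝 (Fb x),
    (∃ s : ℝ, 0 < s ∧ ψ z = s * κ * exp (I * (π * th n e : ℝ))) → ∃ t ∈ U, Fb t = z
  injR : ∃ τ > 0, InjOn Fb (Ico x (x + τ))
  ana : n = 2 → e = 0 → ContinuousAt Q (Fb x) →
    AnalyticAt ℝ Fb x ∧ ∃ ρ : ℝ, 0 < ρ ∧ Q (Fb x) * deriv Fb x ^ 2 = -(ρ : ℂ)
  low : ∃ c > 0, ∀ᶠ η : ℂ in 𝓝[upH] (x : ℂ), c * ‖η - x‖ ^ th n e ≤ ‖F η - Fb x‖

/-- Everything known after the variation and the boundary regularity. -/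
structure Reg2 (r A B : ℝ) (z₀ z₁ : ℂ) (L : Set ℂ) (v : ℂ → ℝ) (φ F : ℂ → ℂ) (h s0 s1 : ℝ)
    (a b : ℂ) (c : ℝ) (Fb : ℝ → ℂ) : Prop where
  fr : Fr r A B z₁ L v φ F h s0 s1
  m0 : z₀ ∈ main r L
  bal : (a + b).im = 0
  nz : NZ r z₀ z₁ a b c
  edat : Edat (QD r z₀ z₁ a b c) v F s0 s1
  bd : Bd F Fb

/-- Multiplicities of the boundary map outside a finite set. -/
structure Mult (r : ℝ) (L : Set ℂ) (Fb : ℝ → ℂ) (s0 s1 : ℝ) (G : Set ℂ) : Prop where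
  fin : G.Finite
  three : ∀ p, p ∉ G → ∀ x₁ x₂ x₃ : ℝ, s0 < x₁ → x₁ < x₂ → x₂ < x₃ → x₃ < s1 →
    Fb x₁ = p → Fb x₂ = p → Fb x₃ = p → False
  two : ∀ p, p ∉ G → ∀ x₁ ∈ Ioo s0 s1, ∀ x₂ ∈ Ioo s0 s1, x₁ ≠ x₂ → Fb x₁ = p → Fb x₂ = p →
    ∀ᶠ z in 𝓝 p, z ∈ main r L ∨ z ∈ Fb '' Icc s0 s1
  inf : ∀ x₁ x₂ : ℝ, s0 ≤ x₁ → x₁ < x₂ → x₂ ≤ s1 → (Fb '' Ioo x₁ x₂).Infinite

/-- Minimality: every continuum from `q` to `T` off `main r L` contains the free boundary. -/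
def SHp (r : ℝ) (L : Set ℂ) (Fb : ℝ → ℂ) (s0 s1 : ℝ) (q : ℂ) (T : Set ℂ) : Prop :=
  ∀ L' : Set ℂ, IsCompact L' → IsPreconnected L' →
    (∀ z ∈ L', z ∈ cann r ∧ z ∉ main r L ∧ z ∉ Ex r L ∧ z.im ≤ 0) → q ∈ L' → (L' ∩ T).Nonempty →
    ∀ x ∈ Icc s0 s1, ‖Fb x‖ ≠ 1 → Fb x ∈ L'

/-- The two kinds of targets. -/
def Tgt (L : Set ℂ) (Fb : ℝ → ℂ) (s0 s1 y : ℝ) (T : Set ℂ) : Prop :=
  (T = sphere 0 1 ∧ ∃ p ∈ L, ‖p‖ = 1) ∨ (T = {Fb y} ∧ y ∈ Icc s0 s1 ∧ ∀ p ∈ L, ‖p‖ < 1)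

/-- The free boundary is a simple arc. -/
structure Arc (r : ℝ) (L : Set ℂ) (Fb : ℝ → ℂ) (s0 s1 : ℝ) (q : ℂ) (T : Set ℂ) (y1 y0 : ℝ) :
    Prop where
  m1 : y1 ∈ Icc s0 s1
  m0 : y0 ∈ Icc s0 s1
  ne : y1 ≠ y0
  st : Fb y1 = q
  en : Fb y0 ∈ T
  inj : InjOn Fb (uIcc y1 y0)
  lt1 : ∀ x ∈ uIcc y1 y0, x ≠ y0 → ‖Fb x‖ < 1
  cover : ∀ x ∈ Icc s0 s1, ‖Fb x‖ ≠ 1 → Fb x ∈ Fb '' uIcc y1 y0
  compl : ann r \ Fb '' uIcc y1 y0 = main r L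

/-- The standing assumptions for critical configurations. -/
structure CH (r A B : ℝ) (z₀ z₁ : ℂ) : Prop where
  r0 : 0 < r
  r1 : r < 1
  m0 : z₀ ∈ ann r
  m1 : z₁ ∈ ann r
  A0 : A ≤ 0
  B0 : 0 < B

end Pool.Agent.P.MP_3bd355_an
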