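import Pool.Agent.P.MP_3bd355_an.Int

/-! The Villat kernel and the vector fields. -/

open Set Filter Metric Complex InnerProductSpace
open scoped Topology ComplexConjugate Real

namespace Pool.Agent.P.MP_3bd355_an

variable {r : ℝ}

/-- The regular part of the kernel. -/
noncomputable def vk0 (r : ℝ) (t : ℂ) : ℂ := vk r t - (1 + t) / (1 - t)

namespace Ker1P

theorem qn_le (h0 : 0 < r) (h1 : r < 1) (n : ℕ) : r ^ (2 * n + 2) ≤ r ^ 2 :=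
  pow_le_pow_of_le_one h0.le h1.le (by omega)

theorem norm_q (h0 : 0 < r) (n : ℕ) : ‖(r : ℂ) ^ (2 * n + 2)‖ = r ^ (2 * n + 2) := by
  simp [abs_of_pos h0]

theorem den_A (h0 : 0 < r) (h1 : r < 1) {t : ℂ} {b : ℝ} (ht : ‖t‖ ≤ b) (n : ℕ) :
    1 - r ^ 2 * b ≤ ‖1 - (r : ℂ) ^ (2 * n + 2) * t‖ := by
  have := norm_sub_norm_le (1 : ℂ) ((r : ℂ) ^ (2 * n + 2) * t)
  rw [norm_one, norm_mul, norm_q h0] at this
  linarith [mul_le_mul (qn_le h0 h1 n) ht (norm_nonneg t) (by positivity)]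

theorem den_B (h0 : 0 < r) (h1 : r < 1) {t : ℂ} {a : ℝ} (ht : a ≤ ‖t‖) (n : ℕ) :
    a - r ^ 2 ≤ ‖t - (r : ℂ) ^ (2 * n + 2)‖ := by
  have := norm_sub_norm_le t ((r : ℂ) ^ (2 * n + 2))
  rw [norm_q h0] at this
  linarith [qn_le h0 h1 n]

theorem bd_A (h0 : 0 < r) (h1 : r < 1) {t : ℂ} {b : ℝ} (ht : ‖t‖ ≤ b) (hb : r ^ 2 * b < 1) (n : ℕ) :
    ‖(r : ℂ) ^ (2 * n + 2) * t / (1 - (r : ℂ) ^ (2 * n + 2) * t)‖ ≤
      r ^ (2 * n + 2) * (b / (1 - r ^ 2 * b)) := by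
  rw [norm_div, norm_mul, norm_q h0, mul_div_assoc]
  have := den_A h0 h1 ht n
  have := (norm_nonneg t).trans ht
  have := sub_pos.2 hb
  gcongr

theorem bd_B (h0 : 0 < r) (h1 : r < 1) {t : ℂ} {a : ℝ} (ht : a ≤ ‖t‖) (ha : r ^ 2 < a) (n : ℕ) :
    ‖(r : ℂ) ^ (2 * n + 2) / (t - (r : ℂ) ^ (2 * n + 2))‖ ≤ r ^ (2 * n + 2) * (1 / (a - r ^ 2)) := by
  rw [norm_div, norm_q h0, mul_one_div]
  have := den_B h0 h1 ht n
  have := sub_pos.2 ha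
  gcongr

theorem sum_q (h0 : 0 < r) (h1 : r < 1) (C : ℝ) : Summable fun n : ℕ => r ^ (2 * n + 2) * C := by
  have := ((summable_geometric_of_lt_one (sq_nonneg r) (by nlinarith)).mul_right (r ^ 2)).mul_right C
  simpa only [pow_add, pow_mul] using this

theorem vk0_eq (r : ℝ) : vk0 r = fun t => 2 * ∑' n : ℕ,
    ((r : ℂ) ^ (2 * n + 2) * t / (1 - (r : ℂ) ^ (2 * n + 2) * t) -
      (r : ℂ) ^ (2 * n + 2) / (t - (r : ℂ) ^ (2 * n + 2))) := by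
  ext t; simp [vk0, vk]

theorem vk_eq (r : ℝ) (t : ℂ) : vk r t = vk0 r t + (1 + t) / (1 - t) := by simp [vk0]

theorem ring_pre {a b : ℝ} (ha : 0 ≤ a) : IsPreconnected {z : ℂ | a < ‖z‖ ∧ ‖z‖ < b} := by
  have : {z : ℂ | a < ‖z‖ ∧ ‖z‖ < b} =
      (fun p : ℝ × ℝ => (p.1 : ℂ) * exp (p.2 * I)) '' (Ioo a b ×ˢ univ) := by
    ext z
    constructor
    · intro hz
      exact ⟨(‖z‖, arg z), ⟨hz, trivial⟩, norm_mul_exp_arg_mul_I z⟩
    · rintro ⟨⟨s, t⟩, ⟨hs, -⟩, rfl⟩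
      simpa [abs_of_pos (ha.trans_lt hs.1)] using hs
  rw [this]
  exact (isPreconnected_Ioo.prod isPreconnected_univ).image _ (by fun_prop)

theorem ring_open (a b : ℝ) : IsOpen {z : ℂ | a < ‖z‖ ∧ ‖z‖ < b} :=
  isOpen_Ioo.preimage continuous_norm

theorem pole {z ζ : ℂ} (hζ : ζ ≠ 0) (hz : z ≠ ζ) : (1 + z / ζ) / (1 - z / ζ) = -(z + ζ) / (z - ζ) := by
  have h1 : z - ζ ≠ 0 := sub_ne_zero.2 hz
  have h2 : ζ - z ≠ 0 := sub_ne_zero.2 hz.symm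
  field_simp
  ring

end Ker1P

open Ker1P

theorem vk0_analytic (h0 : 0 < r) (h1 : r < 1) {t : ℂ} (ha : r ^ 2 < ‖t‖)
    (hb : r ^ 2 * ‖t‖ < 1) : AnalyticAt ℂ (vk0 r) t := by
  obtain ⟨a, a1, a2⟩ := exists_between ha
  have hr : 0 < r ^ 2 := by positivity
  obtain ⟨b, b1, b2⟩ := exists_between ((lt_div_iff₀' hr).2 hb)
  rw [lt_div_iff₀' hr] at b2
  have hd := differentiableOn_tsum_of_summable_norm (U := {z : ℂ | a < ‖z‖ ∧ ‖z‖ < b})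
    (F := fun (n : ℕ) t => (r : ℂ) ^ (2 * n + 2) * t / (1 - (r : ℂ) ^ (2 * n + 2) * t) -
      (r : ℂ) ^ (2 * n + 2) / (t - (r : ℂ) ^ (2 * n + 2)))
    ((sum_q h0 h1 (b / (1 - r ^ 2 * b))).add (sum_q h0 h1 (1 / (a - r ^ 2)))) (fun n z hz => by
      have e1 : 1 - (r : ℂ) ^ (2 * n + 2) * z ≠ 0 :=
        norm_pos_iff.1 ((sub_pos.2 b2).trans_le (den_A h0 h1 hz.2.le n))
      have e2 : z - (r : ℂ) ^ (2 * n + 2) ≠ 0 :=
        norm_pos_iff.1 ((sub_pos.2 a1).trans_le (den_B h0 h1 hz.1.le n))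
      exact DifferentiableAt.differentiableWithinAt (by fun_prop (disch := assumption)))
    (ring_open a b) fun n z hz => (norm_sub_le _ _).trans
      (add_le_add (bd_A h0 h1 hz.2.le b2 n) (bd_B h0 h1 hz.1.le a1 n))
  rw [vk0_eq]
  exact analyticAt_const.mul (hd.analyticAt ((ring_open a b).mem_nhds ⟨a2, b1⟩))

theorem vk_analytic (h0 : 0 < r) (h1 : r < 1) {t : ℂ} (ha : r ^ 2 < ‖t‖)
    (hb : r ^ 2 * ‖t‖ < 1) (ht : t ≠ 1) : AnalyticAt ℂ (vk r) t := by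
  rw [funext (vk_eq r)]
  exact (vk0_analytic h0 h1 ha hb).add ((analyticAt_const.add analyticAt_id).div
    (analyticAt_const.sub analyticAt_id) (sub_ne_zero.2 ht.symm))

theorem vk_inv (r : ℝ) {t : ℂ} (ht : t ≠ 0) : vk r t⁻¹ = -vk r t := by
  have e : ∀ q : ℂ, q * t⁻¹ / (1 - q * t⁻¹) = q / (t - q) := fun q => by
    rw [← mul_div_mul_right _ _ ht, sub_mul, mul_assoc, inv_mul_cancel₀ ht, mul_one, one_mul]
  have e' : ∀ q : ℂ, q / (t⁻¹ - q) = q * t / (1 - q * t) := fun q => by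
    rw [← mul_div_mul_right _ _ ht, sub_mul, inv_mul_cancel₀ ht]
  have e1 : (1 + t⁻¹) / (1 - t⁻¹) = -((1 + t) / (1 - t)) := by
    rw [← mul_div_mul_right _ _ ht, sub_mul, add_mul, inv_mul_cancel₀ ht, one_mul, ← div_neg,
      neg_sub, add_comm]
  simp only [vk, e, e', e1, neg_add, ← mul_neg, ← tsum_neg, neg_sub]

theorem vk_conj (r : ℝ) (t : ℂ) : vk r (conj t) = conj (vk r t) := by
  simp [vk, conj_tsum, conj_ofNat]

theorem vk_shift (h0 : 0 < r) (h1 : r < 1) {t : ℂ} (ha : 1 < ‖t‖) (hb : r ^ 2 * ‖t‖ < 1) :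
    vk r ((r : ℂ) ^ 2 * t) = vk r t + 2 := by
  have hr : (r : ℂ) ≠ 0 := by exact_mod_cast h0.ne'
  have ha' : r ^ 2 < ‖t‖ := by nlinarith
  have sA := Summable.of_norm_bounded (sum_q h0 h1 _) (bd_A h0 h1 le_rfl hb)
  have sB := Summable.of_norm_bounded (sum_q h0 h1 _) (bd_B h0 h1 le_rfl ha')
  have sA' := (summable_nat_add_iff 1).2 sA
  have sB' : Summable fun n : ℕ => (r : ℂ) ^ (2 * n) / (t - (r : ℂ) ^ (2 * n)) :=
    (summable_nat_add_iff 1).1 (by simpa only [mul_add, mul_one] using sB)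
  have e1 : ∀ n : ℕ, (r : ℂ) ^ (2 * n + 2) * ((r : ℂ) ^ 2 * t) = (r : ℂ) ^ (2 * (n + 1) + 2) * t :=
    fun n => by ring
  have e2 : ∀ n : ℕ, (r : ℂ) ^ (2 * n + 2) / ((r : ℂ) ^ 2 * t - (r : ℂ) ^ (2 * n + 2)) =
      (r : ℂ) ^ (2 * n) / (t - (r : ℂ) ^ (2 * n)) := fun n => by
    rw [← mul_div_mul_left ((r : ℂ) ^ (2 * n)) _ (pow_ne_zero 2 hr)]
    congr 1 <;> ring
  have d1 : 1 - (r : ℂ) ^ 2 * t ≠ 0 := by
    simpa using norm_pos_iff.1 ((sub_pos.2 hb).trans_le (den_A h0 h1 le_rfl 0))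
  have d2 : t - 1 ≠ 0 := sub_ne_zero.2 fun e => by simp [e] at ha
  have d3 : 1 - t ≠ 0 := sub_ne_zero.2 fun e => by simp [← e] at ha
  simp only [vk, e1, e2]
  rw [sA'.tsum_sub sB', sA.tsum_sub sB, sA.tsum_eq_zero_add, sB'.tsum_eq_zero_add]
  simp only [mul_add, mul_one, mul_zero, zero_add, pow_zero]
  have e3 : (1 + (r : ℂ) ^ 2 * t) / (1 - (r : ℂ) ^ 2 * t) =
      1 + 2 * ((r : ℂ) ^ 2 * t / (1 - (r : ℂ) ^ 2 * t)) := by field_simp; ring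
  have e4 : (1 + t) / (1 - t) = -1 - 2 * (1 / (t - 1)) := by field_simp; ring
  rw [e3, e4]
  ring

/-- The arguments of the kernel stay in its domain. -/
theorem ker_dom (h0 : 0 < r) (h1 : r < 1) {ζ : ℂ} (hζ : ζ ∈ ann r) :
    ∃ O : Set ℂ, IsOpen O ∧ IsPreconnected O ∧ cann r ⊆ O ∧ (0 : ℂ) ∉ O ∧ ∀ z ∈ O,
      AnalyticAt ℂ (fun y => vk0 r (y / ζ)) z ∧ AnalyticAt ℂ (fun y => vk r (y * conj ζ)) z ∧
      (z ≠ ζ → AnalyticAt ℂ (fun y => vk r (y / ζ)) z) := by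
  obtain ⟨z1, z2⟩ := hζ
  have zp : 0 < ‖ζ‖ := h0.trans z1
  have z0 : ζ ≠ 0 := norm_pos_iff.1 zp
  have hr : 0 < r ^ 2 := by positivity
  have hr1 : r ^ 2 < 1 := by nlinarith
  have c1 : r ^ 2 / ‖ζ‖ < r := by rw [div_lt_iff₀ zp]; nlinarith
  have c2 : 1 < ‖ζ‖ / r := (one_lt_div h0).2 z1
  have c3 : 1 < 1 / ‖ζ‖ := (one_lt_div zp).2 z2
  refine ⟨{z | r ^ 2 / ‖ζ‖ < ‖z‖ ∧ ‖z‖ < min (‖ζ‖ / r) (1 / ‖ζ‖)}, ring_open _ _,
    ring_pre (by positivity), fun z hz => ⟨c1.trans_le hz.1, hz.2.trans_lt (lt_min c2 c3)⟩,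
    fun h => absurd h.1 (by simp; positivity), fun z hz => ?_⟩
  obtain ⟨k1, k2⟩ := hz
  rw [lt_min_iff, lt_div_iff₀ h0, lt_div_iff₀ zp] at k2
  rw [div_lt_iff₀ zp] at k1
  have zz : 0 < ‖z‖ := pos_of_mul_pos_left (hr.trans k1) zp.le
  have m1 : r ^ 2 < ‖z / ζ‖ := by
    rw [norm_div, lt_div_iff₀ zp]
    nlinarith [mul_lt_mul_of_pos_left z2 hr, mul_lt_mul_of_pos_left z2 zz]
  have m2 : r ^ 2 * ‖z / ζ‖ < 1 := by
    rw [norm_div, ← mul_div_assoc, div_lt_one zp]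
    nlinarith [mul_lt_mul_of_pos_left h1 (mul_pos zz h0)]
  have m3 : ‖z * conj ζ‖ = ‖z‖ * ‖ζ‖ := by simp
  have a1 : AnalyticAt ℂ (fun y : ℂ => y / ζ) z := analyticAt_id.div analyticAt_const z0
  refine ⟨(vk0_analytic h0 h1 m1 m2).comp_of_eq a1 rfl,
    (vk_analytic h0 h1 (t := z * conj ζ) (m3 ▸ k1) (by rw [m3]; nlinarith) fun e => ?_).comp_of_eq
      (analyticAt_id.mul analyticAt_const) rfl,
    fun hz => (vk_analytic h0 h1 m1 m2 fun e => hz ((div_eq_one_iff_eq z0).1 e)).comp_of_eq a1 rfl⟩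
  rw [e, norm_one] at m3
  linarith [k2.2]

theorem vk_outer (h0 : 0 < r) {ζ z : ℂ} (hζ : ζ ∈ ann r) (hz : ‖z‖ = 1) :
    conj (vk r (z * conj ζ)) = -vk r (z / ζ) := by
  have z0 : ζ ≠ 0 := norm_pos_iff.1 (h0.trans hζ.1)
  have zz : z ≠ 0 := norm_pos_iff.1 (by rw [hz]; exact one_pos)
  rw [← vk_conj, ← vk_inv r (div_ne_zero zz z0), map_mul, conj_conj, ← inv_eq_conj hz]
  congr 1
  field_simp

theorem vk_inner (h0 : 0 < r) {ζ z : ℂ} (hζ : ζ ∈ ann r) (hz : ‖z‖ = r) :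
    conj (vk r (z * conj ζ)) = -vk r (z / ζ) + 2 := by
  have zp := h0.trans hζ.1
  have h1 := hζ.1.trans hζ.2
  have z0 : ζ ≠ 0 := norm_pos_iff.1 zp
  have zz : z ≠ 0 := norm_pos_iff.1 (by rw [hz]; exact h0)
  have e : conj z * ζ = (r : ℂ) ^ 2 * (ζ / z) := by
    rw [← hz, ← conj_mul']; field_simp
  rw [← vk_conj, ← vk_inv r (div_ne_zero zz z0), map_mul, conj_conj, e, inv_div]
  refine vk_shift h0 h1 ?_ ?_ <;> rw [norm_div, hz]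
  · exact (one_lt_div h0).2 hζ.1
  · rw [← mul_div_assoc, div_lt_one h0]
    nlinarith [mul_lt_mul_of_pos_left hζ.2 h0, mul_lt_mul_of_pos_left h1 (mul_pos h0 zp)]

theorem rho_analytic (h0 : 0 < r) (h1 : r < 1) {Z : Finset ℂ} (hZ : ∀ ζ ∈ Z, ζ ∈ ann r)
    (a : ℂ → ℂ) (c₀ : ℝ) : ∃ O : Set ℂ, IsOpen O ∧ cann r ⊆ O ∧
      ∀ z ∈ O, z ∉ Z → AnalyticAt ℂ (rho r Z a c₀) z := by
  choose! O h2 _ h4 _ h6 using fun ζ (hζ : ζ ∈ Z) => ker_dom h0 h1 (hZ ζ hζ)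
  refine ⟨⋂ ζ ∈ Z, O ζ, isOpen_biInter_finset h2, subset_iInter₂ h4, fun z hz hz' => ?_⟩
  refine analyticAt_const.add (Finset.analyticAt_fun_sum _ fun ζ hζ => ?_)
  obtain ⟨-, k1, k2⟩ := h6 ζ hζ z (mem_iInter₂.1 hz ζ hζ)
  exact (analyticAt_const.mul (k2 fun e => hz' (e ▸ hζ))).add (analyticAt_const.mul k1)

theorem rho_re (h0 : 0 < r) {Z : Finset ℂ} (hZ : ∀ ζ ∈ Z, ζ ∈ ann r) {a : ℂ → ℂ}
    (ha : ∑ ζ ∈ Z, (a ζ).re = 0) (c₀ : ℝ) {z : ℂ} (hz : ‖z‖ = r ∨ ‖z‖ = 1) :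
    (rho r Z a c₀ z).re = 0 := by
  have key : ∀ (A X Y : ℂ) (c : ℝ), conj Y = -X + c → (A * X + conj A * Y).re = c * A.re := by
    intro A X Y c h
    obtain rfl : Y = conj (-X + c) := by rw [← h, conj_conj]
    simp; ring
  rcases hz with hz | hz
  · have : ∀ ζ ∈ Z, (a ζ * vk r (z / ζ) + conj (a ζ) * vk r (z * conj ζ)).re = 2 * (a ζ).re :=
      fun ζ hζ => key _ _ _ 2 (by simpa using vk_inner h0 (hZ ζ hζ) hz)
    rw [rho, add_re, re_sum, Finset.sum_congr rfl this, ← Finset.mul_sum, ha]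
    simp
  · have : ∀ ζ ∈ Z, (a ζ * vk r (z / ζ) + conj (a ζ) * vk r (z * conj ζ)).re = 0 * (a ζ).re :=
      fun ζ hζ => key _ _ _ 0 (by simpa using vk_outer h0 (hZ ζ hζ) hz)
    rw [rho, add_re, re_sum, Finset.sum_congr rfl this]
    simp

theorem rho_pole (h0 : 0 < r) (h1 : r < 1) {Z : Finset ℂ} (hZ : ∀ ζ ∈ Z, ζ ∈ ann r)
    (a : ℂ → ℂ) (c₀ : ℝ) {ζ : ℂ} (hζ : ζ ∈ Z) : ∃ R : ℂ → ℂ, AnalyticAt ℂ R ζ ∧
      ∀ᶠ z in 𝓝[≠] ζ, z * rho r Z a c₀ z = -2 * a ζ * ζ ^ 2 / (z - ζ) + R z := by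
  classical
  have hc : ζ ∈ cann r := ⟨(hZ ζ hζ).1.le, (hZ ζ hζ).2.le⟩
  have z0 : ζ ≠ 0 := norm_pos_iff.1 (h0.trans (hZ ζ hζ).1)
  obtain ⟨O, -, h3, h4⟩ := rho_analytic h0 h1 (Z := Z.erase ζ)
    (fun y hy => hZ y (Finset.mem_of_mem_erase hy)) a c₀
  obtain ⟨O', -, -, h5, -, h6⟩ := ker_dom h0 h1 (hZ ζ hζ)
  obtain ⟨k1, k2, -⟩ := h6 ζ (h5 hc)
  refine ⟨fun z => z * (rho r (Z.erase ζ) a c₀ z + a ζ * vk0 r (z / ζ) +
    conj (a ζ) * vk r (z * conj ζ)) - a ζ * (z + 2 * ζ), ?_, ?_⟩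
  · exact (analyticAt_id.mul (((h4 ζ (h3 hc) (Finset.notMem_erase _ _)).add
      (analyticAt_const.mul k1)).add (analyticAt_const.mul k2))).sub
      (analyticAt_const.mul (analyticAt_id.add analyticAt_const))
  · filter_upwards [self_mem_nhdsWithin] with z hz
    have h7 : z - ζ ≠ 0 := sub_ne_zero.2 hz
    simp only [rho]
    rw [← Finset.add_sum_erase _ _ hζ, vk_eq r (z / ζ), pole z0 hz]
    field_simp
    ring

theorem re_field (r : ℝ) {z ζ : ℂ} (hz : z ≠ 0) (hζ : ζ ≠ 0) (X a : ℂ) :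
    (X * (a * vk r (z / ζ) + conj a * vk r (z * conj ζ))).re =
      (a * (-X * vk r (ζ / z) + conj X * vk r (ζ * conj z))).re := by
  have e1 : vk r (ζ / z) = -vk r (z / ζ) := by rw [← vk_inv r (div_ne_zero hz hζ), inv_div]
  have e2 : vk r (ζ * conj z) = conj (vk r (z * conj ζ)) := by
    rw [← vk_conj, map_mul, conj_conj, mul_comm]
  rw [e1, e2]
  simp
  ring

theorem QD_smul (r : ℝ) (z₀ z₁ a b : ℂ) (c l : ℝ) (z : ℂ) :
    QD r z₀ z₁ (l * a) (l * b) (l * c) z = l * QD r z₀ z₁ a b c z := by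
  simp only [QD, map_mul, conj_ofReal, ofReal_mul]
  ring

theorem QD_rot (r : ℝ) (z₀ z₁ a b : ℂ) (c : ℝ) {ω : ℂ} (hω : ‖ω‖ = 1) (z : ℂ) :
    QD r (ω * z₀) (ω * z₁) a b c (ω * z) = QD r z₀ z₁ a b c z / ω ^ 2 := by
  have w0 : ω ≠ 0 := norm_pos_iff.1 (by rw [hω]; exact one_pos)
  have e : ∀ y : ℂ, ω * z * conj (ω * y) = z * conj y := fun y => by
    rw [map_mul, ← inv_eq_conj hω]; field_simp
  simp only [QD, e, mul_div_mul_left _ _ w0, mul_pow, div_div, mul_comm (ω ^ 2)]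

theorem QD_analytic (h0 : 0 < r) (h1 : r < 1) {z₀ z₁ : ℂ} (m0 : z₀ ∈ ann r) (m1 : z₁ ∈ ann r)
    (a b : ℂ) (c : ℝ) {p : ℂ} (hp : p ∈ cann r) (hp0 : p ≠ z₀) (hp1 : p ≠ z₁ ∨ b = 0) :
    AnalyticAt ℂ (QD r z₀ z₁ a b c) p := by
  obtain ⟨O, -, -, h3, h4, h5⟩ := ker_dom h0 h1 m0
  obtain ⟨O', -, -, g3, -, g5⟩ := ker_dom h0 h1 m1
  obtain ⟨-, k1, k2⟩ := h5 p (h3 hp)
  obtain ⟨-, l1, l2⟩ := g5 p (g3 hp)
  have l3 : AnalyticAt ℂ (fun z => b * vk r (z / z₁)) p := by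
    rcases hp1 with e | e
    · exact analyticAt_const.mul (l2 e)
    · simpa [e] using analyticAt_const
  exact ((((analyticAt_const.add (analyticAt_const.mul (k2 hp0))).sub
    (analyticAt_const.mul k1)).add l3).sub (analyticAt_const.mul l1)).div (analyticAt_id.pow 2)
    (pow_ne_zero 2 fun e => h4 (e ▸ h3 hp))

theorem QD_real (h0 : 0 < r) {z₀ z₁ : ℂ} (m0 : z₀ ∈ ann r) (m1 : z₁ ∈ ann r) {a b : ℂ}
    (hab : (a + b).im = 0) (c : ℝ) {z : ℂ} (hz : ‖z‖ = r ∨ ‖z‖ = 1) :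
    (z ^ 2 * QD r z₀ z₁ a b c z).im = 0 := by
  have key : ∀ (A X Y : ℂ) (c : ℝ), conj Y = -X + c → (A * X - conj A * Y).im = c * A.im := by
    intro A X Y c h
    obtain rfl : Y = conj (-X + c) := by rw [← h, conj_conj]
    simp; ring
  have zz : z ≠ 0 := norm_pos_iff.1 (by rcases hz with e | e <;> rw [e] <;> positivity)
  have e : z ^ 2 * QD r z₀ z₁ a b c z = c + (a * vk r (z / z₀) - conj a * vk r (z * conj z₀)) +
      (b * vk r (z / z₁) - conj b * vk r (z * conj z₁)) := by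
    rw [QD]; field_simp; ring
  rw [add_im] at hab
  rw [e, add_im, add_im, ofReal_im]
  rcases hz with hz | hz
  · rw [key _ _ _ 2 (by simpa using vk_inner h0 m0 hz),
      key _ _ _ 2 (by simpa using vk_inner h0 m1 hz)]
    linarith
  · rw [key _ _ _ 0 (by simpa using vk_outer h0 m0 hz),
      key _ _ _ 0 (by simpa using vk_outer h0 m1 hz)]
    ring

theorem QD_num (h0 : 0 < r) (h1 : r < 1) {z₀ z₁ : ℂ} (m0 : z₀ ∈ ann r) (m1 : z₁ ∈ ann r)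
    (a b : ℂ) (c : ℝ) : ∃ (O : Set ℂ) (P : ℂ → ℂ), IsOpen O ∧ IsPreconnected O ∧ cann r ⊆ O ∧
      AnalyticOnNhd ℂ P O ∧
      ∀ z ∈ O, z ≠ z₀ → z ≠ z₁ → QD r z₀ z₁ a b c z = P z / ((z - z₀) * (z - z₁)) := by
  have zp0 : 0 < ‖z₀‖ := h0.trans m0.1
  have zp1 : 0 < ‖z₁‖ := h0.trans m1.1
  obtain ⟨O₀, a1, -, a3, a4, a5⟩ := ker_dom h0 h1 m0
  obtain ⟨O₁, b1, -, b3, -, b5⟩ := ker_dom h0 h1 m1
  have hK : IsCompact (cann r) :=
    (isCompact_closedBall (0 : ℂ) 1).of_isClosed_subset (isClosed_Icc.preimage continuous_norm)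
      fun z hz => mem_closedBall_zero_iff.2 hz.2
  obtain ⟨δ, δp, hδ⟩ := hK.exists_thickening_subset_open (a1.inter b1) (subset_inter a3 b3)
  obtain ⟨d, dp, d1, d2⟩ : ∃ d > 0, d ≤ δ ∧ d ≤ r := ⟨min δ r, lt_min δp h0, min_le_left _ _,
    min_le_right _ _⟩
  have hsub : {z : ℂ | r - d < ‖z‖ ∧ ‖z‖ < 1 + d} ⊆ O₀ ∩ O₁ := fun z hz => by
    have zp : 0 < ‖z‖ := by linarith [hz.1]
    have zc : (‖z‖ : ℂ) ≠ 0 := by exact_mod_cast zp.ne'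
    have key : ∀ s : ℝ, r ≤ s → s ≤ 1 → |‖z‖ - s| < δ → z ∈ O₀ ∩ O₁ := fun s s1 s2 s3 => by
      refine hδ (mem_thickening_iff.2 ⟨(s / ‖z‖ : ℝ) * z, ?_, ?_⟩)
      · have : ‖((s / ‖z‖ : ℝ) : ℂ) * z‖ = s := by
          rw [norm_mul, norm_real, Real.norm_eq_abs, abs_of_pos (div_pos (by linarith) zp)]
          field_simp
        exact ⟨this.ge.trans' s1, this.le.trans s2⟩
      · have : z - ((s / ‖z‖ : ℝ) : ℂ) * z = ((‖z‖ - s) / ‖z‖ : ℝ) * z := by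
          push_cast; field_simp
        rw [dist_eq_norm, this, norm_mul, norm_real, Real.norm_eq_abs, abs_div, abs_of_pos zp,
          div_mul_cancel₀ _ zp.ne']
        exact s3
    rcases le_total ‖z‖ r with e | e
    · exact key r le_rfl h1.le (by rw [abs_of_nonpos (by linarith)]; linarith [hz.1])
    rcases le_total ‖z‖ 1 with e' | e'
    · exact key _ e e' (by simpa using δp)
    · exact key 1 h1.le le_rfl (by rw [abs_of_nonneg (by linarith)]; linarith [hz.2])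
  refine ⟨_, fun z => ((c + a * vk0 r (z / z₀) - conj a * vk r (z * conj z₀) + b * vk0 r (z / z₁) -
    conj b * vk r (z * conj z₁)) * ((z - z₀) * (z - z₁)) - a * ((z + z₀) * (z - z₁)) -
    b * ((z + z₁) * (z - z₀))) / z ^ 2, ring_open (r - d) (1 + d), ring_pre (by linarith),
    fun z hz => ⟨by linarith [hz.1], by linarith [hz.2]⟩, fun z hz => ?_, fun z hz e0 e1 => ?_⟩
  · obtain ⟨k1, k2, -⟩ := a5 z (hsub hz).1
    obtain ⟨l1, l2, -⟩ := b5 z (hsub hz).2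
    exact (((((((analyticAt_const.add (analyticAt_const.mul k1)).sub (analyticAt_const.mul k2)).add
      (analyticAt_const.mul l1)).sub (analyticAt_const.mul l2)).mul (by fun_prop)).sub
      (by fun_prop)).sub (by fun_prop)).div (analyticAt_id.pow 2)
      (pow_ne_zero 2 fun e => a4 (e ▸ (hsub hz).1))
  · have h7 : z - z₀ ≠ 0 := sub_ne_zero.2 e0
    have h8 : z - z₁ ≠ 0 := sub_ne_zero.2 e1
    have h9 : z ≠ 0 := fun e => a4 (e ▸ (hsub hz).1)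
    rw [QD, vk_eq r (z / z₀), vk_eq r (z / z₁), pole (norm_pos_iff.1 zp0) e0,
      pole (norm_pos_iff.1 zp1) e1]
    field_simp
    ring

theorem QD_pole (h0 : 0 < r) (h1 : r < 1) {z₀ z₁ : ℂ} (m0 : z₀ ∈ ann r) (m1 : z₁ ∈ ann r)
    (hne : z₀ ≠ z₁) (a b : ℂ) (c : ℝ) :
    Tendsto (fun z => (z - z₀) * QD r z₀ z₁ a b c z) (𝓝[≠] z₀) (𝓝 (-2 * a / z₀)) := by
  have z0 : z₀ ≠ 0 := norm_pos_iff.1 (h0.trans m0.1)
  have hc : z₀ ∈ cann r := ⟨m0.1.le, m0.2.le⟩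
  obtain ⟨O₀, -, -, a3, -, a5⟩ := ker_dom h0 h1 m0
  obtain ⟨O₁, -, -, b3, -, b5⟩ := ker_dom h0 h1 m1
  obtain ⟨k1, k2, -⟩ := a5 z₀ (a3 hc)
  obtain ⟨-, l2, l3⟩ := b5 z₀ (b3 hc)
  have hA : ContinuousAt (fun z => ((c + a * vk0 r (z / z₀) - conj a * vk r (z * conj z₀) +
      b * vk r (z / z₁) - conj b * vk r (z * conj z₁)) * (z - z₀) - a * (z + z₀)) / z ^ 2) z₀ :=
    (((((((analyticAt_const.add (analyticAt_const.mul k1)).sub (analyticAt_const.mul k2)).add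
      (analyticAt_const.mul (l3 hne))).sub (analyticAt_const.mul l2)).mul (by fun_prop)).sub
      (by fun_prop)).div (analyticAt_id.pow 2) (pow_ne_zero 2 z0)).continuousAt
  have e : -2 * a / z₀ = ((c + a * vk0 r (z₀ / z₀) - conj a * vk r (z₀ * conj z₀) +
      b * vk r (z₀ / z₁) - conj b * vk r (z₀ * conj z₁)) * (z₀ - z₀) - a * (z₀ + z₀)) / z₀ ^ 2 := by
    rw [sub_self]; field_simp; ring
  rw [e]
  refine (hA.tendsto.mono_left nhdsWithin_le_nhds).congr' ?_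
  filter_upwards [self_mem_nhdsWithin] with z hz
  have h7 : z - z₀ ≠ 0 := sub_ne_zero.2 hz
  rw [QD, vk_eq r (z / z₀), pole z0 hz, ← mul_div_assoc]
  congr 1
  field_simp
  ring

end Pool.Agent.P.MP_3bd355_an
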