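import Pool.Agent.P.MP_3bd355_an.Ker1

/-! Natural charts of the quadratic differential. -/

open Set Filter Metric Complex InnerProductSpace
open scoped Topology ComplexConjugate Real

namespace Pool.Agent.P.MP_3bd355_an

variable {r : ℝ} {z₀ z₁ a b : ℂ} {c : ℝ}

namespace Ker2P

theorem cann_cpt (r : ℝ) : IsCompact (cann r) := by
  refine (isCompact_closedBall (0 : ℂ) 1).of_isClosed_subset ?_ ?_
  · exact (isClosed_le continuous_const continuous_norm).inter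
      (isClosed_le continuous_norm continuous_const)
  · intro z hz
    simpa using hz.2

theorem ann_sub (r : ℝ) : ann r ⊆ cann r := fun _ hz => ⟨hz.1.le, hz.2.le⟩

/-- The numerator does not vanish identically near any point. -/
theorem num_ne (h : NZ r z₀ z₁ a b c) {O : Set ℂ} {P : ℂ → ℂ} (hO : IsPreconnected O)
    (hs : cann r ⊆ O) (hP : AnalyticOnNhd ℂ P O)
    (hq : ∀ z ∈ O, z ≠ z₀ → z ≠ z₁ → QD r z₀ z₁ a b c z = P z / ((z - z₀) * (z - z₁)))
    {p : ℂ} (hp : p ∈ O) : ¬ ∃ᶠ z in 𝓝[≠] p, P z = 0 := by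
  intro hf
  have h0 := hP.eqOn_zero_of_preconnected_of_frequently_eq_zero hO hp hf
  obtain ⟨z, hz, hz0, hz1, hne⟩ := h
  have hzO := hs (ann_sub r hz)
  apply hne
  rw [hq z hzO hz0 hz1, h0 hzO]
  simp

/-- Analytic logarithm near a point. -/
theorem ex_log {f : ℂ → ℂ} {p : ℂ} (hf : AnalyticAt ℂ f p) (h0 : f p ≠ 0) :
    ∃ L : ℂ → ℂ, AnalyticAt ℂ L p ∧ ∀ᶠ z in 𝓝 p, exp (L z) = f z := by
  have h1 : AnalyticAt ℂ (fun z => f z / f p) p := hf.div analyticAt_const h0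
  have h2 : f p / f p ∈ slitPlane := by rw [div_self h0]; exact one_mem_slitPlane
  refine ⟨fun z => log (f z / f p) + log (f p), (h1.clog h2).add analyticAt_const, ?_⟩
  filter_upwards [hf.continuousAt.eventually_ne h0] with z hz
  rw [exp_add, exp_log (div_ne_zero hz h0), exp_log h0]
  field_simp

/-- Solution of `n β + 2 (z - p) β' = n s`. -/
theorem ex_ode {s : ℂ → ℂ} {p : ℂ} {n : ℕ} (hn : 1 ≤ n) (hs : AnalyticAt ℂ s p) :
    ∃ β : ℂ → ℂ, AnalyticAt ℂ β p ∧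
      ∀ᶠ z in 𝓝 p, n * β z + 2 * (z - p) * deriv β z = n * s z := by
  obtain ⟨P, R, hP⟩ := hs
  let P' : FormalMultilinearSeries ℂ ℂ ℂ := fun k => ((n : ℂ) / (2 * k + n)) • P k
  have hne : ∀ k : ℕ, (2 * (k : ℂ) + n) ≠ 0 := by
    intro k
    have : (2 * (k : ℂ) + n) = ((2 * k + n : ℕ) : ℂ) := by push_cast; ring
    rw [this]
    exact Nat.cast_ne_zero.2 (by omega)
  have hrad : P.radius ≤ P'.radius := by
    refine FormalMultilinearSeries.radius_le_of_le fun k => ?_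
    have h1 : ‖(n : ℂ) / (2 * k + n)‖ ≤ 1 := by
      have : (2 * (k : ℂ) + n) = ((2 * k + n : ℕ) : ℂ) := by push_cast; ring
      rw [this, norm_div, Complex.norm_natCast, Complex.norm_natCast]
      refine div_le_one_of_le₀ ?_ (by positivity)
      exact_mod_cast Nat.le_add_left n (2 * k)
    calc ‖P' k‖ ≤ ‖(n : ℂ) / (2 * k + n)‖ * ‖P k‖ := ContinuousMultilinearMap.opNorm_smul_le _ _
      _ ≤ 1 * ‖P k‖ := by gcongr
      _ = ‖P k‖ := one_mul _
  have hR : R ≤ P'.radius := hP.r_le.trans hrad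
  have h1 : HasFPowerSeriesOnBall (fun z => P'.sum (z - p)) P' p R := by
    have := ((P'.hasFPowerSeriesOnBall (hP.r_pos.trans_le hR)).mono hP.r_pos hR).comp_sub p
    simpa using this
  refine ⟨fun z => P'.sum (z - p), h1.analyticAt, ?_⟩
  have h2 := h1.fderiv
  filter_upwards [Metric.eball_mem_nhds p hP.r_pos] with z hz
  have hy : z - p ∈ Metric.eball (0 : ℂ) R := by
    simpa [edist_eq_enorm_sub] using hz
  have e1 := hP.hasSum hy
  have e2 := h1.hasSum hy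
  have e3 := (ContinuousLinearMap.apply ℂ ℂ (z - p)).hasSum (h2.hasSum hy)
  simp only [add_sub_cancel, ContinuousLinearMap.apply_apply,
    FormalMultilinearSeries.derivSeries_apply_diag] at e1 e2 e3
  have e4 : HasSum (fun k : ℕ => (k : ℂ) * P' k (fun _ => z - p))
      (fderiv ℂ (fun z => P'.sum (z - p)) z (z - p)) := by
    rw [← hasSum_nat_add_iff' 1]
    simpa [nsmul_eq_mul] using e3
  have e5 := (e2.mul_left (n : ℂ)).add (e4.mul_left 2)
  have e6 := e1.mul_left (n : ℂ)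
  have e7 : (fun k : ℕ => (n : ℂ) * P' k (fun _ => z - p) + 2 * ((k : ℂ) * P' k (fun _ => z - p)))
      = fun k : ℕ => (n : ℂ) * P k (fun _ => z - p) := by
    funext k
    have := hne k
    simp only [P', _root_.smul_apply, smul_eq_mul]
    field_simp
    ring
  rw [e7] at e5
  have e8 := e5.unique e6
  rw [← e8, fderiv_eq_smul_deriv, smul_eq_mul]
  ring

end Ker2P

open Ker2P

theorem NZ.finite (h0 : 0 < r) (h1 : r < 1) (m0 : z₀ ∈ ann r) (m1 : z₁ ∈ ann r)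
    (h : NZ r z₀ z₁ a b c) : ∃ S : Set ℂ, S.Finite ∧ z₀ ∈ S ∧ z₁ ∈ S ∧
      ∀ p ∈ cann r, p ∉ S → QD r z₀ z₁ a b c p ≠ 0 := by
  obtain ⟨O, P, -, hO, hs, hP, hq⟩ := QD_num h0 h1 m0 m1 a b c
  have hfin : {p | p ∈ cann r ∧ P p = 0}.Finite := by
    by_contra hinf
    obtain ⟨x, hx, hacc⟩ := Set.Infinite.exists_accPt_of_subset_isCompact hinf (cann_cpt r)
      (fun p hp => hp.1)
    rw [accPt_iff_frequently_nhdsNE] at hacc
    exact num_ne h hO hs hP hq (hs hx) (hacc.mono fun z hz => hz.2)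
  refine ⟨insert z₀ (insert z₁ {p | p ∈ cann r ∧ P p = 0}), (hfin.insert _).insert _,
    by simp, by simp, ?_⟩
  intro p hp hpS
  simp only [mem_insert_iff, mem_ofPred_eq, not_or, not_and] at hpS
  rw [hq p (hs hp) hpS.1 hpS.2.1]
  exact div_ne_zero (hpS.2.2 hp) (mul_ne_zero (sub_ne_zero.2 hpS.1) (sub_ne_zero.2 hpS.2.1))

/-- Charts for a function with a zero or a simple pole. -/
theorem chart_of_order {Q G : ℂ → ℂ} {p : ℂ} {n : ℕ} (hn : 1 ≤ n) (hG : AnalyticAt ℂ G p)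
    (hG0 : G p ≠ 0) (h : ∀ᶠ z in 𝓝[≠] p, Q z * (z - p) ^ 2 = (z - p) ^ n * G z) :
    ∃ ψ, Chart Q p n ψ := by
  obtain ⟨L, hL, hLe⟩ := ex_log hG hG0
  have hs : AnalyticAt ℂ (fun z => exp (L z / 2)) p := (hL.div analyticAt_const two_ne_zero).cexp
  obtain ⟨β, hβ, hβe⟩ := ex_ode hn hs
  have hn0 : (n : ℂ) ≠ 0 := Nat.cast_ne_zero.2 (by omega)
  have hβ0 : β p ≠ 0 := by
    have := hβe.self_of_nhds
    simp only [sub_self, mul_zero, zero_mul, add_zero] at this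
    rw [mul_left_cancel₀ hn0 this]
    exact exp_ne_zero _
  obtain ⟨M, hM, hMe⟩ := ex_log hβ hβ0
  have hu : AnalyticAt ℂ (fun z => exp (2 / n * M z)) p := (analyticAt_const.mul hM).cexp
  have hder : ∀ᶠ z in 𝓝 p, HasDerivAt (fun z => (z - p) * exp (2 / n * M z))
      (exp (2 / n * M z) * (1 + (z - p) * (2 / n * deriv M z))) z := by
    filter_upwards [hM.eventually_analyticAt] with z hz
    have h1 := hz.differentiableAt.hasDerivAt
    have h2 := ((hasDerivAt_id' z).sub_const p).fun_mul (h1.const_mul (2 / (n : ℂ))).cexp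
    refine h2.congr_deriv ?_
    ring
  have hdβ : ∀ᶠ z in 𝓝 p, deriv β z = β z * deriv M z := by
    filter_upwards [hM.eventually_analyticAt, hMe.eventually_nhds] with z hz hz'
    have h1 := hz.differentiableAt.hasDerivAt.cexp
    have h2 : (fun z => exp (M z)) =ᶠ[𝓝 z] β := hz'
    rw [← h2.deriv_eq, h1.deriv, hz'.self_of_nhds]
  refine ⟨fun z => (z - p) * exp (2 / n * M z), ?_, by simp, ?_, hn, ?_⟩
  · exact (analyticAt_id.sub analyticAt_const).mul hu
  · rw [hder.self_of_nhds.deriv]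
    simp
  · filter_upwards [h, nhdsWithin_le_nhds hder, nhdsWithin_le_nhds hdβ, nhdsWithin_le_nhds hβe,
      nhdsWithin_le_nhds hLe, nhdsWithin_le_nhds hMe] with z h1 h2 h3 h4 h5 h6
    rw [h2.deriv]
    have e1 : exp (2 / n * M z) ^ n = β z ^ 2 := by
      rw [← h6, ← exp_nat_mul, ← exp_nat_mul]
      congr 1
      field_simp
      push_cast
      ring
    have e2 : G z = exp (L z / 2) ^ 2 := by
      rw [← h5, ← exp_nat_mul]
      congr 1
      push_cast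
      ring
    have e3 : exp (L z / 2) = β z * (1 + (z - p) * (2 / n * deriv M z)) := by
      apply mul_left_cancel₀ hn0
      rw [← h4, h3]
      field_simp
    rw [mul_pow, ← mul_assoc, h1, mul_pow, e1, e2, e3]
    ring

theorem NZ.chart (h0 : 0 < r) (h1 : r < 1) (m0 : z₀ ∈ ann r) (m1 : z₁ ∈ ann r)
    (h : NZ r z₀ z₁ a b c) {p : ℂ} (hp : p ∈ cann r) (hp0 : p ≠ z₀) :
    ∃ (n : ℕ) (ψ : ℂ → ℂ), Chart (QD r z₀ z₁ a b c) p n ψ ∧ (n = 1 → p = z₁ ∧ b ≠ 0) ∧
      (p ≠ z₁ → (n = 2 ↔ QD r z₀ z₁ a b c p ≠ 0)) := by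
  obtain ⟨O, P, hOo, hO, hs, hP, hq⟩ := QD_num h0 h1 m0 m1 a b c
  have hne : ¬ ∀ᶠ z in 𝓝 p, P z = 0 := fun hz =>
    num_ne h hO hs hP hq (hs hp) (Eventually.frequently (nhdsWithin_le_nhds hz))
  obtain ⟨m, g, hg, hg0, hge⟩ := (hP p (hs hp)).exists_eventuallyEq_pow_smul_nonzero_iff.2 hne
  have hOn : ∀ᶠ z in 𝓝 p, z ∈ O := hOo.mem_nhds (hs hp)
  have hz0 : ∀ᶠ z in 𝓝 p, z ≠ z₀ := eventually_ne_nhds hp0
  have hp0' : p - z₀ ≠ 0 := sub_ne_zero.2 hp0
  by_cases hp1 : p = z₁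
  · subst hp1
    have hG : AnalyticAt ℂ (fun z => g z / (z - z₀)) p :=
      hg.div (analyticAt_id.sub analyticAt_const) hp0'
    have key : ∀ᶠ z in 𝓝[≠] p, QD r z₀ p a b c z * (z - p) = (z - p) ^ m * (g z / (z - z₀)) := by
      filter_upwards [nhdsWithin_le_nhds hOn, nhdsWithin_le_nhds hz0, nhdsWithin_le_nhds hge,
        self_mem_nhdsWithin] with z e1 e2 e3 e4
      have e4' : z ≠ p := e4
      have := sub_ne_zero.2 e2
      have := sub_ne_zero.2 e4'
      rw [hq z e1 e2 e4', e3, smul_eq_mul]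
      field_simp
    obtain ⟨ψ, hψ⟩ := chart_of_order (Q := QD r z₀ p a b c) (n := m + 1) (by omega) hG
      (div_ne_zero hg0 hp0') (by
        filter_upwards [key] with z hz
        rw [pow_two, ← mul_assoc, hz]
        ring)
    refine ⟨m + 1, ψ, hψ, fun hm => ⟨rfl, fun hb => ?_⟩, fun h => absurd rfl h⟩
    have hm0 : m = 0 := by omega
    subst hm0
    have hQ := (QD_analytic h0 h1 m0 m1 a b c hp hp0 (Or.inr hb)).continuousAt
    have t1 : Tendsto (fun z => QD r z₀ p a b c z * (z - p)) (𝓝[≠] p)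
        (𝓝 (QD r z₀ p a b c p * (p - p))) :=
      (hQ.mul (continuousAt_id.sub continuousAt_const)).tendsto.mono_left nhdsWithin_le_nhds
    have t2 : Tendsto (fun z => QD r z₀ p a b c z * (z - p)) (𝓝[≠] p) (𝓝 (g p / (p - z₀))) := by
      refine (hG.continuousAt.tendsto.mono_left nhdsWithin_le_nhds).congr' ?_
      filter_upwards [key] with z hz
      rw [hz]
      simp
    have := tendsto_nhds_unique t1 t2
    rw [sub_self, mul_zero] at this
    exact div_ne_zero hg0 hp0' this.symm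
  · have hp1' : p - z₁ ≠ 0 := sub_ne_zero.2 hp1
    have hG : AnalyticAt ℂ (fun z => g z / ((z - z₀) * (z - z₁))) p :=
      hg.div ((analyticAt_id.sub analyticAt_const).mul (analyticAt_id.sub analyticAt_const))
        (mul_ne_zero hp0' hp1')
    have hG0 : g p / ((p - z₀) * (p - z₁)) ≠ 0 := div_ne_zero hg0 (mul_ne_zero hp0' hp1')
    have key : ∀ᶠ z in 𝓝 p,
        QD r z₀ z₁ a b c z = (z - p) ^ m * (g z / ((z - z₀) * (z - z₁))) := by
      filter_upwards [hOn, hz0, hge, eventually_ne_nhds hp1] with z e1 e2 e3 e4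
      rw [hq z e1 e2 e4, e3, smul_eq_mul, mul_div_assoc]
    obtain ⟨ψ, hψ⟩ := chart_of_order (Q := QD r z₀ z₁ a b c) (n := m + 2) (by omega) hG hG0 (by
        filter_upwards [nhdsWithin_le_nhds key] with z hz
        rw [hz]
        ring)
    refine ⟨m + 2, ψ, hψ, fun hm => by omega, fun _ => ?_⟩
    rw [key.self_of_nhds, sub_self]
    rcases Nat.eq_zero_or_pos m with hm | hm
    · subst hm
      simpa using ⟨hg0, hp0', hp1'⟩
    · rw [zero_pow hm.ne', zero_mul]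
      simp only [ne_eq, not_true_eq_false, iff_false]
      omega

theorem Chart.inv {Q ψ : ℂ → ℂ} {p : ℂ} {n : ℕ} (h : Chart Q p n ψ) :
    ∃ g : ℂ → ℂ, AnalyticAt ℂ g 0 ∧ g 0 = p ∧ (∀ᶠ z in 𝓝 p, g (ψ z) = z) ∧
      ∀ᶠ w in 𝓝 0, ψ (g w) = w := by
  have h1 := h.ana.analyticAt_localInverse h.dne
  have h2 := h.ana.hasStrictDerivAt.eventually_left_inverse h.dne
  have h3 := h.ana.hasStrictDerivAt.eventually_right_inverse h.dne
  have h4 := h2.self_of_nhds
  rw [h.zero] at h1 h3 h4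
  exact ⟨_, h1, h4, h2, h3⟩

theorem Chart.inj {Q ψ : ℂ → ℂ} {p : ℂ} {n : ℕ} (h : Chart Q p n ψ) :
    ∃ U ∈ 𝓝 p, InjOn ψ U := by
  obtain ⟨g, -, -, hg, -⟩ := h.inv
  refine ⟨_, hg, fun x hx y hy hxy => ?_⟩
  have hx' : g (ψ x) = x := hx
  have hy' : g (ψ y) = y := hy
  rw [← hx', hxy, hy']

theorem Chart.map {Q ψ : ℂ → ℂ} {p : ℂ} {n : ℕ} (h : Chart Q p n ψ) :
    map ψ (𝓝 p) = 𝓝 0 := by
  rw [h.ana.hasStrictDerivAt.map_nhds_eq h.dne, h.zero]

theorem Chart.freq_ray {Q ψ : ℂ → ℂ} {p : ℂ} {n : ℕ} (h : Chart Q p n ψ) (κ : ℂ) (hκ : κ ≠ 0) :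
    ∃ᶠ z in 𝓝[≠] p, ∃ s : ℝ, 0 < s ∧ ψ z = s * κ := by
  obtain ⟨g, hg, hg0, -, hr⟩ := h.inv
  have t1 : Tendsto (fun s : ℝ => (s : ℂ) * κ) (𝓝[>] 0) (𝓝 0) := by
    have : Continuous fun s : ℝ => (s : ℂ) * κ := by fun_prop
    simpa using (this.tendsto 0).mono_left nhdsWithin_le_nhds
  have e1 : ∀ᶠ s : ℝ in 𝓝[>] 0, 0 < s ∧ ψ (g (s * κ)) = s * κ :=
    Eventually.and self_mem_nhdsWithin (t1.eventually hr)
  have t2 : Tendsto (fun s : ℝ => g (s * κ)) (𝓝[>] 0) (𝓝[≠] p) := by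
    refine tendsto_nhdsWithin_iff.2 ⟨hg0 ▸ hg.continuousAt.tendsto.comp t1, ?_⟩
    filter_upwards [e1] with s hs hp
    have hp' : g (s * κ) = p := hp
    have := hs.2
    rw [hp', h.zero] at this
    exact mul_ne_zero (ofReal_ne_zero.2 hs.1.ne') hκ this.symm
  exact t2.frequently (e1.frequently.mono fun s hs => ⟨s, hs.1, hs.2⟩)

namespace Ker2P

theorem roots {n : ℕ} (hn : 1 ≤ n) : ∃ f : ℕ → ℂ, (∀ j, f j ^ n = -1) ∧
    ∀ i j, i < n → j < n → f i = f j → i = j := by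
  have hn0 : n ≠ 0 := by omega
  have hz := Complex.isPrimitiveRoot_exp n hn0
  refine ⟨fun j => exp (π * I / n) * exp (2 * π * I / n) ^ j, fun j => ?_, ?_⟩
  · rw [mul_pow, ← pow_mul, mul_comm j n, pow_mul, hz.pow_eq_one, one_pow, mul_one,
      ← exp_nat_mul, mul_div_cancel₀ _ (Nat.cast_ne_zero.2 hn0), exp_pi_mul_I]
  · intro i j hi hj hij
    exact hz.pow_inj hi hj (mul_left_cancel₀ (exp_ne_zero _) hij)

theorem norm_root {n : ℕ} (hn : 1 ≤ n) {κ : ℂ} (h : κ ^ n = -1) : ‖κ‖ = 1 := by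
  have : ‖κ‖ ^ n = 1 := by rw [← norm_pow, h]; simp
  exact (pow_eq_one_iff_of_nonneg (norm_nonneg _) (by omega)).1 this

end Ker2P

theorem exists_root_ne {n : ℕ} (hn : 3 ≤ n) (κ₁ κ₂ : ℂ) :
    ∃ κ : ℂ, κ ^ n = -1 ∧ κ ≠ κ₁ ∧ κ ≠ κ₂ := by
  obtain ⟨f, hf, hi⟩ := roots (n := n) (by omega)
  by_contra hc
  have h : ∀ j, f j = κ₁ ∨ f j = κ₂ := fun j => by
    by_contra hh
    exact hc ⟨f j, hf j, fun e => hh (Or.inl e), fun e => hh (Or.inr e)⟩
  have h01 : f 0 ≠ f 1 := fun e => absurd (hi 0 1 (by omega) (by omega) e) (by omega)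
  have h02 : f 0 ≠ f 2 := fun e => absurd (hi 0 2 (by omega) (by omega) e) (by omega)
  have h12 : f 1 ≠ f 2 := fun e => absurd (hi 1 2 (by omega) (by omega) e) (by omega)
  rcases h 0 with e0 | e0 <;> rcases h 1 with e1 | e1 <;> rcases h 2 with e2 | e2 <;>
    first
    | exact h01 (e0.trans e1.symm)
    | exact h02 (e0.trans e2.symm)
    | exact h12 (e1.trans e2.symm)

theorem exists_root_ne' {n : ℕ} (hn : 2 ≤ n) (κ₁ : ℂ) : ∃ κ : ℂ, κ ^ n = -1 ∧ κ ≠ κ₁ := by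
  obtain ⟨f, hf, hi⟩ := roots (n := n) (by omega)
  have h01 : f 0 ≠ f 1 := fun e => absurd (hi 0 1 (by omega) (by omega) e) (by omega)
  by_cases e : f 0 = κ₁
  · exact ⟨f 1, hf 1, fun e' => h01 (e.trans e'.symm)⟩
  · exact ⟨f 0, hf 0, e⟩

theorem ray_eq {n : ℕ} (hn : 1 ≤ n) {κ₁ κ₂ : ℂ} (h₁ : κ₁ ^ n = -1) (h₂ : κ₂ ^ n = -1) {s t : ℝ}
    (hs : 0 < s) (ht : 0 < t) (h : (s : ℂ) * κ₁ = t * κ₂) : κ₁ = κ₂ := by
  have e := congrArg norm h
  rw [norm_mul, norm_mul, norm_root hn h₁, norm_root hn h₂, norm_real, norm_real,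
    Real.norm_of_nonneg hs.le, Real.norm_of_nonneg ht.le, mul_one, mul_one] at e
  subst e
  exact mul_left_cancel₀ (ofReal_ne_zero.2 hs.ne') h

theorem root_left {n e : ℕ} (hn : 1 ≤ n) (he : Even e) {κ : ℂ} (h : κ ^ n = -1) :
    (κ * exp (I * (π * th n e : ℝ))) ^ n = -1 := by
  obtain ⟨k, rfl⟩ := he
  have hn0 : (n : ℂ) ≠ 0 := Nat.cast_ne_zero.2 (by omega)
  have : (n : ℂ) * (I * (π * th n (k + k) : ℝ)) = ((k + 1 : ℕ) : ℂ) * (2 * π * I) := by
    simp only [th]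
    push_cast
    field_simp
    ring
  rw [mul_pow, h, ← exp_nat_mul, this, exp_nat_mul_two_pi_mul_I, mul_one]

/-- A trajectory through a regular point of a boundary circle that stays on one side of the
circle lies on the circle. -/
theorem bdry {Q ψ : ℂ → ℂ} {p κ : ℂ} {R : ℝ} (hR : 0 < R) (hp : ‖p‖ = R) (h : Chart Q p 2 ψ)
    (hQ : ContinuousAt Q p) (hre : ∀ z : ℂ, ‖z‖ = R → (z ^ 2 * Q z).im = 0) (hκ : κ ^ 2 = -1)
    (hside : (∀ᶠ z in 𝓝 p, (∃ s : ℝ, ψ z = s * κ) → R ≤ ‖z‖) ∨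
      ∀ᶠ z in 𝓝 p, (∃ s : ℝ, ψ z = s * κ) → ‖z‖ ≤ R) :
    ∀ᶠ z in 𝓝 p, (∃ s : ℝ, ψ z = s * κ) → ‖z‖ = R := by
  have hκ0 : κ ≠ 0 := by
    rintro rfl
    simp at hκ
  obtain ⟨U, hU, hinj⟩ := h.inj
  obtain ⟨g, hg, hg0, -, hr⟩ := h.inv
  have hψd : AnalyticAt ℂ (deriv ψ) p := h.ana.deriv
  -- `Q = ψ' ^ 2` near `p`
  have hQ1 : ∀ᶠ z in 𝓝[≠] p, Q z = deriv ψ z ^ 2 := by
    filter_upwards [h.eq, nhdsWithin_le_nhds hU, self_mem_nhdsWithin] with z e1 e2 e3
    have : ψ z ≠ 0 := fun e => e3 (hinj e2 (mem_of_mem_nhds hU) (e.trans h.zero.symm))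
    apply mul_left_cancel₀ (pow_ne_zero 2 this)
    linear_combination e1
  have hQ2 : ∀ᶠ z in 𝓝 p, Q z = deriv ψ z ^ 2 := by
    rw [← nhdsNE_sup_pure, eventually_sup, eventually_pure]
    refine ⟨hQ1, tendsto_nhds_unique (l := 𝓝[≠] p)
      (hQ.tendsto.mono_left nhdsWithin_le_nhds) ?_⟩
    exact ((hψd.continuousAt.pow 2).tendsto.mono_left nhdsWithin_le_nhds).congr'
      (hQ1.mono fun z hz => hz.symm)
  -- the trajectory is tangent to the circle
  have hdg : deriv ψ p * deriv g 0 = 1 := by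
    have e1 : HasDerivAt ψ (deriv ψ p) (g 0) := hg0 ▸ h.ana.differentiableAt.hasDerivAt
    have e2 := e1.comp 0 hg.differentiableAt.hasDerivAt
    have e3 : (ψ ∘ g) =ᶠ[𝓝 0] id := hr
    rw [← e2.deriv, e3.deriv_eq, deriv_id]
  have hγ : HasDerivAt (fun t : ℝ => g (t * κ)) (deriv g 0 * κ) 0 := by
    have e1 : HasDerivAt g (deriv g 0) ((fun w : ℂ => w * κ) ((0 : ℝ) : ℂ)) := by
      simpa using hg.differentiableAt.hasDerivAt
    have e2 := e1.comp ((0 : ℝ) : ℂ) ((hasDerivAt_id' ((0 : ℝ) : ℂ)).mul_const κ)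
    simpa using e2.comp_ofReal
  have hγ0 : g (((0 : ℝ) : ℂ) * κ) = p := by simpa using hg0
  have hγt : Tendsto (fun t : ℝ => g (t * κ)) (𝓝 0) (𝓝 p) := hγ0 ▸ hγ.continuousAt.tendsto
  have hγr : ∀ᶠ t : ℝ in 𝓝 0, ∃ s : ℝ, ψ (g (t * κ)) = s * κ := by
    have : Continuous fun s : ℝ => (s : ℂ) * κ := by fun_prop
    have t1 : Tendsto (fun s : ℝ => (s : ℂ) * κ) (𝓝 0) (𝓝 0) := by simpa using this.tendsto 0
    exact (t1.eventually hr).mono fun t ht => ⟨t, ht⟩
  have hN := hγ.norm_sq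
  rw [hγ0, Complex.inner] at hN
  have htan : (deriv g 0 * κ * conj p).re = 0 := by
    have : 2 * (deriv g 0 * κ * conj p).re = 0 := by
      rcases hside with hs | hs
      · refine IsLocalMin.hasDerivAt_eq_zero ?_ hN
        filter_upwards [hγt.eventually hs, hγr] with t e1 e2
        rw [hγ0, hp]
        exact pow_le_pow_left₀ hR.le (e1 e2) 2
      · refine IsLocalMax.hasDerivAt_eq_zero ?_ hN
        filter_upwards [hγt.eventually hs, hγr] with t e1 e2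
        rw [hγ0, hp]
        exact pow_le_pow_left₀ (norm_nonneg _) (e1 e2) 2
    linarith
  -- the circle in the chart
  let c : ℂ → ℂ := fun w => p * exp (w * I)
  have hc0 : c 0 = p := by simp [c]
  have hcn : ∀ s : ℝ, ‖c s‖ = R := fun s => by simp [c, norm_exp_ofReal_mul_I, hp]
  have hcd : ∀ w, HasDerivAt c (c w * I) w := fun w => by
    refine (((hasDerivAt_id' w).mul_const I).cexp.const_mul p).congr_deriv ?_
    simp only [c]
    ring
  have hca : AnalyticAt ℂ c 0 := by fun_prop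
  have hct : Tendsto (fun s : ℝ => c s) (𝓝 0) (𝓝 p) := by
    have : Continuous fun s : ℝ => c s := by fun_prop
    simpa [hc0] using this.tendsto 0
  let e : ℂ → ℂ := fun w => ψ (c w) / κ
  let e' : ℂ → ℂ := fun w => deriv ψ (c w) * (c w * I) / κ
  have he0 : e 0 = 0 := by simp [e, hc0, h.zero]
  have hed : ∀ᶠ s : ℝ in 𝓝 0, HasDerivAt e (e' s) s := by
    filter_upwards [hct.eventually h.ana.eventually_analyticAt] with s hs
    exact (hs.differentiableAt.hasDerivAt.comp (s : ℂ) (hcd s)).div_const κ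
  have hre0 : (e' 0).re ≠ 0 := by
    have e1 : e' 0 * (deriv g 0 * κ * conj p) = ((R ^ 2 : ℝ) : ℂ) * I := by
      have : p * conj p = ((R ^ 2 : ℝ) : ℂ) := by rw [mul_conj, normSq_eq_norm_sq, hp]
      rw [← this]
      simp only [e', hc0]
      field_simp
      linear_combination p * conj p * hdg
    have e2 := congrArg im e1
    rw [mul_im, htan, mul_I_im, ofReal_re] at e2
    intro e3
    rw [e3] at e2
    nlinarith
  have hret : ∀ᶠ s : ℝ in 𝓝 0, (e' s).re ≠ 0 := by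
    have t1 : Tendsto (fun s : ℝ => (e' s).re) (𝓝 0) (𝓝 (e' 0).re) := by
      refine (continuous_re.tendsto _).comp ?_
      simp only [e', hc0]
      exact ((hψd.continuousAt.tendsto.comp hct).mul (hct.mul_const I)).div_const κ
    exact t1.eventually_ne hre0
  have him : ∀ᶠ s : ℝ in 𝓝 0, HasDerivAt (fun s : ℝ => (e s).im) 0 s := by
    filter_upwards [hed, hret, hct.eventually hQ2] with s e1 e2 e3
    have e4 : e' s ^ 2 = c s ^ 2 * Q (c s) := by
      rw [e3]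
      simp only [e', div_pow, mul_pow, hκ, I_sq]
      ring
    have e5 := hre _ (hcn s)
    rw [← e4, pow_two, mul_im] at e5
    have e6 : (e' s).im = 0 := by
      apply mul_left_cancel₀ e2
      linarith
    have e7 := (e1.const_mul (-I)).real_of_complex
    simpa [e6] using e7
  have hz : ∀ᶠ s : ℝ in 𝓝 0, (e s).im = 0 := by
    obtain ⟨ε, hε, hb⟩ := Metric.eventually_nhds_iff_ball.1 him
    filter_upwards [ball_mem_nhds (0 : ℝ) hε] with s hs
    have := isOpen_ball.is_const_of_deriv_eq_zero (convex_ball (0 : ℝ) ε).isPreconnected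
      (f := fun s : ℝ => (e s).im) (fun x hx => (hb x hx).differentiableAt.differentiableWithinAt)
      (fun x hx => (hb x hx).deriv) hs (mem_ball_self hε)
    simpa [he0] using this
  have hst : HasStrictDerivAt (fun s : ℝ => (e s).re) (e' 0).re 0 := by
    have e1 : AnalyticAt ℂ e ((0 : ℝ) : ℂ) :=
      ((hc0 ▸ h.ana : AnalyticAt ℂ ψ (c 0)).comp hca).div analyticAt_const hκ0
    have e2 := e1.hasStrictDerivAt
    rw [hed.self_of_nhds.deriv] at e2
    exact e2.real_of_complex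
  have hmap := hst.map_nhds_eq hre0
  have hV : (fun s : ℝ => (e s).re) '' {s : ℝ | (e s).im = 0 ∧ c s ∈ U} ∈ 𝓝 (0 : ℝ) := by
    have := image_mem_map (m := fun s : ℝ => (e s).re) (hz.and (hct.eventually hU))
    rw [hmap, ofReal_zero, he0, zero_re] at this
    exact this
  have t2 : Tendsto (fun z => (ψ z / κ).re) (𝓝 p) (𝓝 0) := by
    have := (continuous_re.tendsto _).comp (h.ana.continuousAt.tendsto.div_const κ)
    rw [h.zero, zero_div, zero_re] at this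
    exact this
  filter_upwards [t2.eventually hV, hU] with z ⟨s, ⟨e1, e2⟩, e3⟩ hzU ⟨t, ht⟩
  have e4 : ψ z / κ = t := by rw [ht, mul_div_cancel_right₀ _ hκ0]
  have e5 : e s = ψ z / κ := by
    apply Complex.ext e3
    rw [e1, e4, ofReal_im]
  have e6 : ψ (c s) = ψ z := (div_left_inj' hκ0).1 e5
  rw [← hinj e2 hzU e6, hcn]

theorem Loc.neg {Q ψ F : ℂ → ℂ} {Fb : ℝ → ℂ} {x : ℝ} {n : ℕ} {κ : ℂ} (hn : 1 ≤ n)
    (h : Loc Q ψ F Fb x n 0 κ) :
    ∀ᶠ η : ℂ in 𝓝[upH] (x : ℂ), ∀ (s : ℝ) (κ' : ℂ), 0 < s → κ' ^ n = -1 → ψ (F η) ≠ s * κ' := by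
  filter_upwards [h.img] with η ⟨t, ht, ϑ, hϑ, he⟩ s κ' hs hκ' hh
  rw [he] at hh
  have hnr : (0 : ℝ) < n := by exact_mod_cast hn
  have e := congrArg norm hh
  rw [norm_mul, norm_mul, norm_mul, norm_root hn h.root, norm_root hn hκ', norm_real, norm_real,
    Real.norm_of_nonneg hs.le, Real.norm_of_nonneg ht.le, mul_comm I, norm_exp_ofReal_mul_I,
    mul_one, mul_one, mul_one] at e
  subst e
  rw [mul_assoc] at hh
  have e1 := mul_left_cancel₀ (ofReal_ne_zero.2 hs.ne') hh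
  have e2 : exp (n * (I * ϑ)) = 1 := by
    have := congrArg (· ^ n) e1
    simp only [mul_pow, h.root, hκ'] at this
    rw [exp_nat_mul]
    linear_combination -this
  obtain ⟨k, hk⟩ := exp_eq_one_iff.1 e2
  have e3 : (n : ℝ) * ϑ = k * (2 * π) := by
    have : ((n * ϑ : ℝ) : ℂ) = ((k * (2 * π) : ℝ) : ℂ) := by
      push_cast
      apply mul_right_cancel₀ I_ne_zero
      linear_combination hk
    exact_mod_cast this
  have e4 : (n : ℝ) * ϑ < 2 * π := by
    have := hϑ.2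
    simp only [th, Nat.cast_zero, zero_add] at this
    rw [← mul_div_assoc, lt_div_iff₀ hnr] at this
    linarith
  have e5 : 0 < (n : ℝ) * ϑ := mul_pos hnr hϑ.1
  have hπ : 0 < 2 * π := by positivity
  rw [e3] at e4 e5
  have k0 : (0 : ℝ) < k := (mul_pos_iff_of_pos_right hπ).1 e5
  have k1 : (k : ℝ) < 1 := by
    by_contra hk1
    nlinarith
  have k0' : (0 : ℤ) < k := by exact_mod_cast k0
  have k1' : k < (1 : ℤ) := by exact_mod_cast k1
  omega

end Pool.Agent.P.MP_3bd355_an
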