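import Mathlib
import Pool.Agent.P.MP_3bd355_an.AllX

namespace Pool.Agent.P.MP_3bd355_an.OppositeOld

open Set InnerProductSpace Pool.Agent.P.MP_3bd355_an

/-- The case `z₁ = x > 0`, `z₀ = -x₀ < 0`: explicit value (which is also the largest value of `M`
on the circle `|z₀| = x₀`), attainment and the unique extremal function. -/
theorem result (r A B x x₀ : ℝ) (hr : 0 < r) (hx : r < x) (hx1 : x < 1) (hy : r < x₀)
    (hy1 : x₀ < 1) (hA : A ≤ 0) (hh : 0 < hf r A B x) :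
    ∃ (κ R : ℝ) (v : ℂ → ℝ),
      (∀ κ' : ℝ, (κ' ≤ (Kc r x 1).re ∧ B * Jint r x κ' 1 x 1 = -A * Jint r x κ' 1 r x) ↔ κ' = κ) ∧
      0 < Jint r x κ 1 r x ∧
      Msup r A B (-x₀) x = ((A + B * Jint r x κ (-1) x₀ 1 / Jint r x κ 1 r x : ℝ) : EReal) ∧
      (∀ z : ℂ, ‖z‖ = x₀ → Msup r A B z x ≤ Msup r A B (-x₀) x) ∧
      x < R ∧ R ≤ 1 ∧ (Kc r x R).re = κ ∧ HarmonicOnNhd v (ann r \ seg x R) ∧
      (∀ z ∈ ann r, z ∈ seg x R → v z = 0) ∧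
      (∀ z ∈ ann r \ seg x R,
        (z * grad v z) ^ 2 = ((B / Jint r x κ 1 r x : ℝ) : ℂ) ^ 2 * (Kc r x z - κ)) ∧
      ∀ u : ℂ → EReal, (Adm r A B x u ∧ u (-x₀) = Msup r A B (-x₀) x) ↔
        ∀ z ∈ ann r, u z = (v z : EReal) := by
  obtain ⟨κ, R, v, h1, h2, h3, h4⟩ := all_X9 r A B x x₀ hr hx hx1 hy hy1 hA hh
  exact ⟨κ, R, v, h1, h2, h3, bound_opp hr hx hx1 hy hy1 hA hh, h4⟩

end Pool.Agent.P.MP_3bd355_an.OppositeOld
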