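import Pool.Agent.P.MP_3bd355_an.Top1

/-! The crossing lemma and the exposed arc. -/

open Set Filter Metric Complex InnerProductSpace
open scoped Topology ComplexConjugate Real

namespace Pool.Agent.P.MP_3bd355_an

namespace Top2P

/-- A continuous logarithm of `(γ 1 - a) / (γ 0 - a)` off the curve. -/
theorem exists_log {γ : ℝ → ℂ} (hγ : ContinuousOn γ (Icc 0 1)) :
    ∃ V : ℂ → ℂ, ContinuousOn V (γ '' Icc 0 1)ᶜ ∧
      ∀ a ∈ (γ '' Icc 0 1)ᶜ, exp (V a) = (γ 1 - a) / (γ 0 - a) := by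
  classical
  set A : Set ℂ := (γ '' Icc 0 1)ᶜ with hA
  have hne : ∀ (t : unitInterval) (a : A), γ t - (a : ℂ) ≠ 0 := fun t a h =>
    a.2 ⟨t, t.2, sub_eq_zero.mp h⟩
  have hne0 : ∀ a : A, γ 0 - (a : ℂ) ≠ 0 := fun a => hne 0 a
  have hc : Continuous fun t : unitInterval => γ t := hγ.domRestrict
  have hH : Continuous fun p : unitInterval × A => (γ p.1 - (p.2 : ℂ)) / (γ 0 - (p.2 : ℂ)) :=
    ((hc.comp continuous_fst).sub (continuous_subtype_val.comp continuous_snd)).div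
      (continuous_const.sub (continuous_subtype_val.comp continuous_snd)) fun p => hne0 p.2
  let H : C(unitInterval × A, {z : ℂ // z ≠ 0}) :=
    ⟨fun p => ⟨(γ p.1 - (p.2 : ℂ)) / (γ 0 - (p.2 : ℂ)), div_ne_zero (hne p.1 p.2) (hne0 p.2)⟩,
      hH.subtype_mk _⟩
  have H0 : ∀ a : A, H (0, a) = (fun z : ℂ => (⟨exp z, exp_ne_zero z⟩ : {z : ℂ // z ≠ 0}))
      ((ContinuousMap.const A (0 : ℂ)) a) := fun a => by
    apply Subtype.ext
    show (γ 0 - (a : ℂ)) / (γ 0 - (a : ℂ)) = exp 0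
    rw [div_self (hne0 a), exp_zero]
  let l := isCoveringMap_exp.liftHomotopy H (ContinuousMap.const A (0 : ℂ)) H0
  have hl : ∀ a : A, exp (l (1, a)) = (γ 1 - a) / (γ 0 - a) := fun a =>
    congrArg Subtype.val (congrFun
      (isCoveringMap_exp.liftHomotopy_lifts H (ContinuousMap.const A (0 : ℂ)) H0) (1, a))
  refine ⟨fun a => if h : a ∈ A then l (1, ⟨a, h⟩) else 0, ?_, fun a ha => ?_⟩
  · rw [continuousOn_iff_continuous_domRestrict]
    have : A.domRestrict (fun a => if h : a ∈ A then l (1, ⟨a, h⟩) else 0) =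
        fun a => l (1, a) := by
      funext a
      exact dif_pos a.2
    rw [this]
    exact l.continuous.comp (Continuous.prodMk_right _)
  · simp only [dif_pos ha]
    exact hl ⟨a, ha⟩

theorem const_of_exp {S : Set ℂ} (hS : IsPreconnected S) {f : ℂ → ℂ} (hf : ContinuousOn f S)
    {c : ℂ} (he : ∀ a ∈ S, exp (f a) = c) {a b : ℂ} (ha : a ∈ S) (hb : b ∈ S) : f a = f b := by
  haveI : PreconnectedSpace S := isPreconnected_iff_preconnectedSpace.mp hS
  have h := isCoveringMap_exp.const_of_comp (g := S.domRestrict f) hf.domRestrict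
    (fun x y => Subtype.ext (by
      show exp (f x) = exp (f y)
      rw [he x x.2, he y y.2])) ⟨a, ha⟩ ⟨b, hb⟩
  exact h

theorem chord {u w b : ℂ} {R s : ℝ} (hu : ‖u‖ = R) (hw : ‖w‖ = R) (h : w - b = s * (u - b)) :
    (1 - s) ^ 2 * (‖b‖ ^ 2 - R ^ 2) = s * ‖w - u‖ ^ 2 := by
  have h1 : u.re ^ 2 + u.im ^ 2 = R ^ 2 := by
    rw [← hu, Complex.sq_norm, normSq_apply]; ring
  have h2 : w.re ^ 2 + w.im ^ 2 = R ^ 2 := by
    rw [← hw, Complex.sq_norm, normSq_apply]; ring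
  have h3 := congrArg re h
  have h4 := congrArg im h
  simp only [sub_re, sub_im, mul_re, mul_im, ofReal_re, ofReal_im, zero_mul, sub_zero,
    add_zero] at h3 h4
  rw [Complex.sq_norm, Complex.sq_norm, normSq_apply, normSq_apply, sub_re, sub_im]
  have h5 : (1 - s) * b.re = w.re - s * u.re := by linarith
  have h6 : (1 - s) * b.im = w.im - s * u.im := by linarith
  have h7 : (1 - s) ^ 2 * (b.re * b.re + b.im * b.im) =
      (w.re - s * u.re) ^ 2 + (w.im - s * u.im) ^ 2 := by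
    rw [← h5, ← h6]; ring
  rw [mul_sub, h7]
  linear_combination (1 - s) * h2 + (s ^ 2 - s) * h1

theorem exp_sub_exp (a b : ℝ) : exp (I * a) - exp (I * b) =
    2 * I * (Real.sin ((a - b) / 2) : ℝ) * exp (I * (((a + b) / 2 : ℝ) : ℂ)) := by
  have h1 : exp (I * a) = exp (I * (((a - b) / 2 : ℝ) : ℂ)) * exp (I * (((a + b) / 2 : ℝ) : ℂ)) := by
    rw [← exp_add]; congr 1; push_cast; ring
  have h2 : exp (I * b) =
      exp (-(I * (((a - b) / 2 : ℝ) : ℂ))) * exp (I * (((a + b) / 2 : ℝ) : ℂ)) := by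
    rw [← exp_add]; congr 1; push_cast; ring
  rw [h1, h2, ofReal_sin, Complex.sin, ← sub_mul]
  congr 1
  rw [mul_comm I, neg_mul]
  have : I * I = -1 := I_mul_I
  linear_combination (-(exp (-((((a - b) / 2 : ℝ) : ℂ) * I)) -
    exp ((((a - b) / 2 : ℝ) : ℂ) * I))) * this

theorem q_im {c : ℂ} {R : ℝ} (hR : 0 < R) (θ₁ θ₃ θ : ℝ) (h : Real.sin ((θ₁ - θ) / 2) ≠ 0) :
    ((c + R * exp (I * θ₃) - (c + R * exp (I * θ))) /
      (c + R * exp (I * θ₁) - (c + R * exp (I * θ)))).im =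
      Real.sin ((θ₃ - θ) / 2) / Real.sin ((θ₁ - θ) / 2) * Real.sin ((θ₃ - θ₁) / 2) := by
  have h1 : (c + R * exp (I * θ₃) - (c + R * exp (I * θ))) /
      (c + R * exp (I * θ₁) - (c + R * exp (I * θ))) =
      ((Real.sin ((θ₃ - θ) / 2) / Real.sin ((θ₁ - θ) / 2) : ℝ) : ℂ) *
        exp ((((θ₃ - θ₁) / 2 : ℝ) : ℂ) * I) := by
    rw [add_sub_add_left_eq_sub, add_sub_add_left_eq_sub, ← mul_sub, ← mul_sub, exp_sub_exp,
      exp_sub_exp]
    have e1 : exp (I * (((θ₃ + θ) / 2 : ℝ) : ℂ)) =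
        exp ((((θ₃ - θ₁) / 2 : ℝ) : ℂ) * I) * exp (I * (((θ₁ + θ) / 2 : ℝ) : ℂ)) := by
      rw [← exp_add]; congr 1; push_cast; ring
    have e2 : ((Real.sin ((θ₁ - θ) / 2) : ℝ) : ℂ) ≠ 0 := ofReal_ne_zero.mpr h
    have e3 : (R : ℂ) ≠ 0 := ofReal_ne_zero.mpr hR.ne'
    have e4 := exp_ne_zero (I * (((θ₁ + θ) / 2 : ℝ) : ℂ))
    rw [e1, ofReal_div (Real.sin _)]
    field_simp
  rw [h1, im_ofReal_mul, exp_ofReal_mul_I_im]

theorem ne_of_sin {c : ℂ} {R : ℝ} (hR : 0 < R) {a b : ℝ} (h : Real.sin ((a - b) / 2) ≠ 0) :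
    c + R * exp (I * a) ≠ c + R * exp (I * b) := by
  intro h1
  have h2 : (R : ℂ) * (exp (I * a) - exp (I * b)) = 0 := by linear_combination h1
  rw [exp_sub_exp] at h2
  have e2 : ((Real.sin ((a - b) / 2) : ℝ) : ℂ) ≠ 0 := ofReal_ne_zero.mpr h
  have e3 : (R : ℂ) ≠ 0 := ofReal_ne_zero.mpr hR.ne'
  exact (mul_ne_zero e3 (mul_ne_zero (mul_ne_zero (mul_ne_zero two_ne_zero I_ne_zero) e2)
    (exp_ne_zero _))) h2

theorem norm_circ (c : ℂ) {R : ℝ} (hR : 0 ≤ R) (θ : ℝ) : ‖c + R * exp (I * θ) - c‖ = R := by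
  rw [add_sub_cancel_left, norm_mul, mul_comm I, norm_exp_ofReal_mul_I, mul_one, norm_real,
    Real.norm_of_nonneg hR]

theorem sin_pos' {a b : ℝ} (h1 : b < a) (h2 : a < b + 2 * π) : 0 < Real.sin ((a - b) / 2) :=
  Real.sin_pos_of_pos_of_lt_pi (by linarith) (by linarith)

theorem sin_neg' {a b : ℝ} (h1 : a < b) (h2 : b < a + 2 * π) : Real.sin ((a - b) / 2) < 0 := by
  have := sin_pos' h1 h2
  rw [show (a - b) / 2 = -((b - a) / 2) by ring, Real.sin_neg]
  linarith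

theorem norm_e {r : ℝ} (h0 : 0 ≤ r) (t : ℝ) : ‖(r * exp (I * t) : ℂ)‖ = r := by
  simpa using norm_circ 0 h0 t

theorem e_im (r t : ℝ) : (r * exp (I * t) : ℂ).im = r * Real.sin t := by
  rw [im_ofReal_mul, mul_comm I, exp_ofReal_mul_I_im]

theorem e_per (r t : ℝ) (k : ℤ) :
    (r * exp (I * ((t + k * (2 * π) : ℝ) : ℂ)) : ℂ) = r * exp (I * t) := by
  have : exp (I * ((t + k * (2 * π) : ℝ) : ℂ)) = exp (I * t) := by
    rw [exp_eq_exp_iff_exists_int]
    exact ⟨k, by push_cast; ring⟩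
  rw [this]

theorem exists_e {r : ℝ} {p : ℂ} (hp : ‖p‖ = r) (a : ℝ) :
    ∃ t ∈ Ioc a (a + 2 * π), (r * exp (I * t) : ℂ) = p := by
  refine ⟨toIocMod Real.two_pi_pos a (arg p), toIocMod_mem_Ioc _ _ _, ?_⟩
  have h1 : toIocMod Real.two_pi_pos a (arg p) =
      arg p + ((-toIocDiv Real.two_pi_pos a (arg p) : ℤ) : ℝ) * (2 * π) := by
    rw [toIocMod, zsmul_eq_mul]; push_cast; ring
  rw [h1, e_per, ← hp, mul_comm I, norm_mul_exp_arg_mul_I]

end Top2P

open Top2P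

/-- The crossing lemma in the exterior of a disc. -/
theorem cross {c : ℂ} {R : ℝ} (hR : 0 < R) {θ₁ θ₂ θ₃ θ₄ : ℝ} (h12 : θ₁ < θ₂) (h23 : θ₂ < θ₃)
    (h34 : θ₃ < θ₄) (h41 : θ₄ < θ₁ + 2 * π) {γ : ℝ → ℂ} (hγ : ContinuousOn γ (Icc 0 1))
    (h0 : γ 0 = c + R * exp (I * θ₁)) (h1 : γ 1 = c + R * exp (I * θ₃))
    (hout : ∀ t ∈ Ioo (0 : ℝ) 1, R < ‖γ t - c‖) {K : Set ℂ} (hK : IsPreconnected K)
    (hKo : ∀ z ∈ K, R ≤ ‖z - c‖) (h2 : c + R * exp (I * θ₂) ∈ K)
    (h4 : c + R * exp (I * θ₄) ∈ K) : ∃ t ∈ Icc (0 : ℝ) 1, γ t ∈ K := by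
  by_contra hcon
  push Not at hcon
  obtain ⟨V, hV, hVe⟩ := exists_log hγ
  set x₂ := c + R * exp (I * θ₂) with hx₂
  set x₄ := c + R * exp (I * θ₄) with hx₄
  set q : ℂ → ℂ := fun a => (γ 1 - a) / (γ 0 - a) with hq
  have n0 : ‖γ 0 - c‖ = R := by rw [h0]; exact norm_circ c hR.le _
  have n1 : ‖γ 1 - c‖ = R := by rw [h1]; exact norm_circ c hR.le _
  have ne01 : γ 1 - c - (γ 0 - c) ≠ 0 := by
    rw [sub_sub_sub_cancel_right, sub_ne_zero, h0, h1]
    exact ne_of_sin hR (sin_pos' (by linarith) (by linarith)).ne'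
  have npos : 0 < ‖γ 1 - c - (γ 0 - c)‖ ^ 2 := by positivity
  have hA0 : ∀ a ∈ (γ '' Icc 0 1)ᶜ, γ 0 - a ≠ 0 := fun a ha h =>
    ha ⟨0, by simp, sub_eq_zero.mp h⟩
  have hA1 : ∀ a ∈ (γ '' Icc 0 1)ᶜ, γ 1 - a ≠ 0 := fun a ha h =>
    ha ⟨1, by simp, sub_eq_zero.mp h⟩
  have hqc : ContinuousOn q (γ '' Icc 0 1)ᶜ :=
    (continuousOn_const.sub continuousOn_id).div (continuousOn_const.sub continuousOn_id) hA0
  have key : ∀ a ∈ (γ '' Icc 0 1)ᶜ, (q a).im = 0 → (q a).re ≠ 0 ∧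
      (1 - (q a).re) ^ 2 * (‖a - c‖ ^ 2 - R ^ 2) = (q a).re * ‖γ 1 - c - (γ 0 - c)‖ ^ 2 := by
    intro a ha him
    have e1 : q a = ((q a).re : ℂ) := Complex.ext (by simp) (by simp [him])
    refine ⟨fun h => ?_, chord n0 n1 ?_⟩
    · rw [h] at e1
      exact div_ne_zero (hA1 a ha) (hA0 a ha) (e1.trans ofReal_zero)
    · rw [← e1, sub_sub_sub_cancel_right, sub_sub_sub_cancel_right]
      exact (div_mul_cancel₀ _ (hA0 a ha)).symm
  have hKA : K ⊆ (γ '' Icc 0 1)ᶜ := by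
    rintro z hz ⟨t, ht, rfl⟩
    exact hcon t ht hz
  have sK : ∀ a ∈ K, q a ∈ slitPlane := by
    intro a ha
    by_cases him : (q a).im = 0
    · obtain ⟨k1, k2⟩ := key a (hKA ha) him
      left
      have k3 : 0 ≤ ‖a - c‖ ^ 2 - R ^ 2 := by nlinarith [hKo a ha]
      have k4 : 0 ≤ (q a).re * ‖γ 1 - c - (γ 0 - c)‖ ^ 2 := by rw [← k2]; positivity
      exact lt_of_le_of_ne (nonneg_of_mul_nonneg_left k4 npos) (Ne.symm k1)
    · exact Or.inr him
  set D : Set ℂ := ball c R ∪ {x₂, x₄} with hD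
  have hDc : D ⊆ closedBall c R := by
    rintro z (hz | rfl | rfl)
    · exact ball_subset_closedBall hz
    · rw [mem_closedBall, dist_eq_norm]; exact (norm_circ c hR.le _).le
    · rw [mem_closedBall, dist_eq_norm]; exact (norm_circ c hR.le _).le
  have hDp : IsPreconnected D :=
    (convex_ball c R).isPreconnected.subset_closure subset_union_left
      (by rw [closure_ball c hR.ne']; exact hDc)
  have hDA : D ⊆ (γ '' Icc 0 1)ᶜ := by
    rintro z (hz | rfl | rfl)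
    · rintro ⟨t, ht, rfl⟩
      rw [mem_ball, dist_eq_norm] at hz
      rcases eq_or_lt_of_le ht.1 with rfl | h
      · linarith
      rcases eq_or_lt_of_le ht.2 with rfl | h'
      · linarith
      linarith [hout t ⟨h, h'⟩]
    · exact hKA h2
    · exact hKA h4
  have sD : ∀ a ∈ D, -q a ∈ slitPlane := by
    intro a ha
    by_cases him : (q a).im = 0
    · obtain ⟨k1, k2⟩ := key a (hDA ha) him
      left
      have k0 : ‖a - c‖ ≤ R := by simpa [dist_eq_norm] using hDc ha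
      have k3 : ‖a - c‖ ^ 2 - R ^ 2 ≤ 0 := by nlinarith [norm_nonneg (a - c)]
      have k4 : (q a).re * ‖γ 1 - c - (γ 0 - c)‖ ^ 2 ≤ 0 := by
        rw [← k2]; exact mul_nonpos_of_nonneg_of_nonpos (sq_nonneg _) k3
      have k5 : (q a).re ≤ 0 := by
        by_contra h
        push Not at h
        nlinarith [mul_pos h npos]
      rw [neg_re]
      exact neg_pos.mpr (lt_of_le_of_ne k5 k1)
    · right
      simpa using him
  have c1 : V x₂ - log (q x₂) = V x₄ - log (q x₄) :=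
    const_of_exp (f := fun a => V a - log (q a)) (c := 1) hK
      ((hV.mono hKA).sub ((hqc.mono hKA).clog sK)) (fun a ha => by
        rw [exp_sub, hVe a (hKA ha), exp_log (slitPlane_ne_zero (sK a ha))]
        exact div_self (slitPlane_ne_zero (sK a ha))) h2 h4
  have c2 : V x₂ - log (-q x₂) = V x₄ - log (-q x₄) :=
    const_of_exp (f := fun a => V a - log (-q a)) (c := -1) hDp
      ((hV.mono hDA).sub ((hqc.mono hDA).neg.clog sD)) (fun a ha => by
        have hne := slitPlane_ne_zero (sD a ha)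
        rw [exp_sub, hVe a (hDA ha), exp_log hne, div_eq_iff hne]
        simp [hq]) (Or.inr (by simp)) (Or.inr (by simp))
  have i2 : (q x₂).im < 0 := by
    have s1 := sin_neg' h12 (by linarith)
    simp only [hq, h0, h1, hx₂]
    rw [q_im hR _ _ _ s1.ne]
    exact mul_neg_of_neg_of_pos (div_neg_of_pos_of_neg (sin_pos' h23 (by linarith)) s1)
      (sin_pos' (by linarith) (by linarith))
  have i4 : 0 < (q x₄).im := by
    have s1 : Real.sin ((θ₁ - θ₄) / 2) < 0 := sin_neg' (by linarith) h41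
    simp only [hq, h0, h1, hx₄]
    rw [q_im hR _ _ _ s1.ne]
    exact mul_pos (div_pos_of_neg_of_neg (sin_neg' h34 (by linarith)) s1)
      (sin_pos' (by linarith) (by linarith))
  have d1 := congrArg im c1
  have d2 := congrArg im c2
  simp only [sub_im, log_im] at d1 d2
  rw [arg_neg_eq_arg_add_pi_of_im_neg i2, arg_neg_eq_arg_sub_pi_of_im_pos i4] at d2
  linarith [Real.pi_pos]

variable {r : ℝ} {L : Set ℂ}

/-- A point of a boundary circle that sees only a connected open subset of the annulus can be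
joined to any of its points. -/
theorem path_to_bd (h0 : 0 < r) (h1 : r < 1) {V : Set ℂ} (hV : IsOpen V)
    (hc : IsPreconnected V) (hs : V ⊆ ann r) {p z : ℂ} (hp : ‖p‖ = r ∨ ‖p‖ = 1)
    (hpV : ∀ᶠ y in 𝓝[ann r] p, y ∈ V) (hz : z ∈ V) :
    ∃ γ : ℝ → ℂ, Continuous γ ∧ γ 0 = z ∧ γ 1 = p ∧ ∀ t ∈ Ico (0 : ℝ) 1, γ t ∈ V := by
  obtain ⟨σ, hσ⟩ : ∃ σ : ℝ, ∀ τ ∈ Ioo (0 : ℝ) 1, p * ((1 + σ * τ : ℝ) : ℂ) ∈ ann r := by
    rcases hp with hp | hp
    · refine ⟨1 - r, fun τ hτ => ?_⟩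
      have k1 : 0 < (1 - r) * τ := mul_pos (by linarith) hτ.1
      have k2 : (1 - r) * τ < 1 - r := by nlinarith [hτ.2]
      constructor <;> rw [norm_mul, hp, norm_real, Real.norm_of_nonneg (by linarith)] <;> nlinarith
    · refine ⟨r - 1, fun τ hτ => ?_⟩
      have k1 : 0 < (1 - r) * τ := mul_pos (by linarith) hτ.1
      have k2 : (1 - r) * τ < 1 - r := by nlinarith [hτ.2]
      constructor <;> rw [norm_mul, hp, norm_real, Real.norm_of_nonneg (by linarith)] <;> nlinarith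
  have ht : Tendsto (fun τ : ℝ => p * ((1 + σ * τ : ℝ) : ℂ)) (𝓝[>] 0) (𝓝[ann r] p) := by
    refine tendsto_nhdsWithin_iff.mpr ⟨?_, ?_⟩
    · have : Continuous fun τ : ℝ => p * ((1 + σ * τ : ℝ) : ℂ) := by fun_prop
      have h := this.tendsto 0
      simp only [mul_zero, add_zero, ofReal_one, mul_one] at h
      exact h.mono_left nhdsWithin_le_nhds
    · filter_upwards [Ioo_mem_nhdsGT (zero_lt_one' ℝ)] with τ hτ using hσ τ hτ
  obtain ⟨τ₀, hτ₀, hsub⟩ := mem_nhdsGT_iff_exists_Ioc_subset.mp (ht.eventually hpV)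
  have hτ₀' : 0 < τ₀ := hτ₀
  obtain ⟨g, hg, g0, g1, gV⟩ := path_of_open hV hc hz (hsub ⟨hτ₀', le_rfl⟩)
  refine ⟨fun t => g (min (2 * t) 1) - p * ((σ * τ₀ * max (2 * t - 1) 0 : ℝ) : ℂ), by fun_prop,
    by simp [g0], ?_, fun t ht => ?_⟩
  · simp only [mul_one]
    rw [min_eq_right (by norm_num), max_eq_left (by norm_num), g1]
    push_cast
    ring
  · rcases le_or_gt (2 * t) 1 with h | h
    · simp only [min_eq_left h, max_eq_right (sub_nonpos.mpr h)]
      simpa using gV _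
    · simp only [min_eq_right h.le, max_eq_left (sub_nonneg.mpr h.le), g1]
      have : p * ((1 + σ * (τ₀ * (2 - 2 * t)) : ℝ) : ℂ) ∈ V :=
        hsub (show τ₀ * (2 - 2 * t) ∈ Ioc 0 τ₀ from
          ⟨mul_pos hτ₀' (by linarith [ht.2]), by nlinarith⟩)
      convert this using 1
      push_cast
      ring

/-- The exposed set is one arc. -/
theorem Cont.exc (h : Cont r L) (ht : ∃ p ∈ L, ‖p‖ = r) :
    ∃ t₁ t₂ : ℝ, t₁ ≤ 0 ∧ π ≤ t₂ ∧ t₂ ≤ t₁ + 2 * π ∧ (r * exp (I * t₁) : ℂ) ∈ L ∧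
      (r * exp (I * t₂) : ℂ) ∈ L ∧
      Ex r L = (fun t : ℝ => (r * exp (I * t) : ℂ)) '' Ioo t₁ t₂ ∧
      closure (Ex r L) = (fun t : ℝ => (r * exp (I * t) : ℂ)) '' Icc t₁ t₂ ∧
      sphere 0 r \ Ex r L = (fun t : ℝ => (r * exp (I * t) : ℂ)) '' Icc t₂ (t₁ + 2 * π) := by
  have h0 := h.r0
  have hpi := Real.pi_pos
  set e : ℝ → ℂ := fun t : ℝ => (r * exp (I * t) : ℂ) with he
  have hec : Continuous e := by fun_prop
  have hen : ∀ t, ‖e t‖ = r := fun t => norm_e h0.le t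
  have hT : IsClosed (e ⁻¹' L) := h.cpt.isClosed.preimage hec
  have hup : ∀ t ∈ Ioo 0 π, e t ∉ L := fun t ht hL => by
    have k1 := h.low _ hL
    have k2 : (e t).im = r * Real.sin t := e_im r t
    have k3 := mul_pos h0 (Real.sin_pos_of_pos_of_lt_pi ht.1 ht.2)
    linarith
  have hper : ∀ t, e (t + 2 * π) = e t := fun t => by
    have := e_per r t 1
    simpa [he] using this
  obtain ⟨p, hpL, hpr⟩ := ht
  obtain ⟨s, hs, hsp⟩ := exists_e hpr (π / 2 - 2 * π)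
  have hsL : e s ∈ L := by simp only [he]; rw [hsp]; exact hpL
  have hs1 : s ∈ e ⁻¹' L ∩ Iic (π / 2) := ⟨hsL, by simp only [mem_Iic]; linarith [hs.2]⟩
  have hb1 : BddAbove (e ⁻¹' L ∩ Iic (π / 2)) := ⟨π / 2, fun x hx => hx.2⟩
  have hb2 : BddBelow (e ⁻¹' L ∩ Ici (π / 2)) := ⟨π / 2, fun x hx => hx.2⟩
  set t₁ := sSup (e ⁻¹' L ∩ Iic (π / 2)) with ht₁
  set t₂ := sInf (e ⁻¹' L ∩ Ici (π / 2)) with ht₂
  have m1 : t₁ ∈ e ⁻¹' L ∩ Iic (π / 2) := (hT.inter isClosed_Iic).csSup_mem ⟨s, hs1⟩ hb1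
  have l1 : s ≤ t₁ := le_csSup hb1 hs1
  have m1' : t₁ + 2 * π ∈ e ⁻¹' L ∩ Ici (π / 2) :=
    ⟨by rw [mem_preimage, hper]; exact m1.1, by simp only [mem_Ici]; linarith [hs.1]⟩
  have m2 : t₂ ∈ e ⁻¹' L ∩ Ici (π / 2) := (hT.inter isClosed_Ici).csInf_mem ⟨_, m1'⟩ hb2
  have b1 : t₁ ≤ 0 := by
    by_contra hh
    push Not at hh
    exact hup t₁ ⟨hh, by linarith [mem_Iic.mp m1.2]⟩ m1.1
  have b2 : π ≤ t₂ := by
    by_contra hh
    push Not at hh
    exact hup t₂ ⟨by linarith [mem_Ici.mp m2.2], hh⟩ m2.1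
  have b3 : t₂ ≤ t₁ + 2 * π := csInf_le hb2 m1'
  have free : ∀ t ∈ Ioo t₁ t₂, e t ∉ L := fun t ht hL => by
    rcases le_total t (π / 2) with k | k
    · exact absurd (le_csSup hb1 ⟨hL, k⟩) (not_le.mpr ht.1)
    · exact absurd (csInf_le hb2 ⟨hL, k⟩) (not_le.mpr ht.2)
  have hI : e (π / 2) ∈ Ex r L := h.upper_Ex (hen _) (by
    have k2 : (e (π / 2)).im = r * Real.sin (π / 2) := e_im r _
    rw [k2, Real.sin_pi_div_two]; linarith)
  have sup : Ioo t₁ t₂ ⊆ e ⁻¹' Ex r L := by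
    have ho : IsOpen (e ⁻¹' Ex r L) := isOpen_iff_mem_nhds.mpr fun t ht => by
      filter_upwards [(hec.tendsto t).eventually (h.Ex_nhds ht)] with x hx using hx (hen x)
    refine isPreconnected_Ioo.subset_of_closure_inter_subset ho
      ⟨π / 2, ⟨by linarith, by linarith⟩, hI⟩ fun t ht => ?_
    have k1 : e t ∈ closure (Ex r L) := hec.closure_preimage_subset _ ht.1
    exact ((h.closure_Ex k1).2).resolve_right (free t ht.2)
  have hEx : Ex r L = e '' Ioo t₁ t₂ := by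
    refine Subset.antisymm (fun p hp => ?_) (image_subset_iff.mpr sup)
    obtain ⟨t, htm, htp⟩ := exists_e hp.1 t₁
    have htp' : e t = p := htp
    by_contra hcon
    have k1 : t₂ < t := by
      rcases lt_trichotomy t t₂ with k | k | k
      · exact absurd ⟨t, ⟨htm.1, k⟩, htp'⟩ hcon
      · exact absurd (by rw [← htp', k]; exact m2.1) hp.2.1
      · exact k
    have k2 : t < t₁ + 2 * π := lt_of_le_of_ne htm.2 fun k =>
      hp.2.1 (by rw [← htp', k]; exact m1'.1)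
    have hb : base r ∈ main r L := h.upper_sub (base_mem h0 h.r1)
    have hms : main r L ⊆ ann r := fun z hz => (main_sub r L hz).1
    obtain ⟨ga, ca, a0, a1, aV⟩ := path_to_bd h0 h.r1 h.isOpen_main (preconn_main r L) hms
      (Or.inl hI.1) (h.ev_main hI.2.2 hI.2.1) hb
    obtain ⟨gb, cb, b0, b1', bV⟩ := path_to_bd h0 h.r1 h.isOpen_main (preconn_main r L) hms
      (Or.inl hp.1) (h.ev_main hp.2.2 hp.2.1) hb
    set γ : ℝ → ℂ := fun s => ga (max (1 - 2 * s) 0) + gb (max (2 * s - 1) 0) - base r with hγ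
    have g0 : γ 0 = e (π / 2) := by
      simp only [hγ]
      rw [max_eq_left (by norm_num), max_eq_right (by norm_num), b0]
      simp [a1]
    have g1 : γ 1 = p := by
      simp only [hγ]
      rw [max_eq_right (by norm_num), max_eq_left (by norm_num), a0]
      norm_num [b1']
    have gm : ∀ s ∈ Ioo (0 : ℝ) 1, γ s ∈ main r L := fun s hs => by
      simp only [hγ]
      rcases le_total (2 * s) 1 with k | k
      · rw [max_eq_left (by linarith), max_eq_right (by linarith), b0, add_sub_cancel_right]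
        exact aV _ ⟨by linarith, by linarith [hs.1]⟩
      · rw [max_eq_right (by linarith), max_eq_left (by linarith), a0, add_sub_cancel_left]
        exact bV _ ⟨by linarith, by linarith [hs.2]⟩
    obtain ⟨s, hs, hsL⟩ := cross (c := 0) h0 (θ₁ := π / 2) (θ₂ := t₂) (θ₃ := t)
      (θ₄ := t₁ + 2 * π) (by linarith) k1 k2 (by linarith) (γ := γ)
      (by apply Continuous.continuousOn; fun_prop) (by rw [g0, zero_add])
      (by rw [g1, zero_add, htp]) (fun s hs => by simpa using (hms (gm s hs)).1) h.conn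
      (fun z hz => by simpa using (h.sub hz).1) (by rw [zero_add]; exact m2.1)
      (by rw [zero_add]; exact m1'.1)
    rcases eq_or_lt_of_le hs.1 with rfl | k3
    · exact hI.2.1 (g0 ▸ hsL)
    rcases eq_or_lt_of_le hs.2 with rfl | k4
    · exact hp.2.1 (g1 ▸ hsL)
    exact (main_sub r L (gm s ⟨k3, k4⟩)).2 hsL
  refine ⟨t₁, t₂, b1, b2, b3, m1.1, m2.1, hEx, ?_, ?_⟩
  · rw [hEx]
    refine Subset.antisymm (closure_minimal (image_mono Ioo_subset_Icc_self)
      (isCompact_Icc.image hec).isClosed) ?_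
    rw [← closure_Ioo (by linarith : t₁ ≠ t₂)]
    exact image_closure_subset_closure_image hec
  · rw [hEx]
    refine Subset.antisymm (fun p hp => ?_) ?_
    · obtain ⟨t, htm, htp⟩ := exists_e (mem_sphere_zero_iff_norm.mp hp.1) t₁
      refine ⟨t, ⟨?_, htm.2⟩, htp⟩
      by_contra k
      push Not at k
      exact hp.2 ⟨t, ⟨htm.1, k⟩, htp⟩
    · rintro _ ⟨t, ht, rfl⟩
      refine ⟨mem_sphere_zero_iff_norm.mpr (hen t), ?_⟩
      rintro ⟨s, hs, hst⟩
      have := ne_of_sin (c := 0) h0 (a := s) (b := t)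
        (sin_neg' (by linarith [hs.2, ht.1]) (by linarith [hs.1, ht.2])).ne
      exact this (by rw [zero_add, zero_add]; exact hst)

theorem Cont.exc_finite (h : Cont r L) : (closure (Ex r L) \ Ex r L).Finite := by
  by_cases ht : ∃ p ∈ L, ‖p‖ = r
  · obtain ⟨t₁, t₂, -, -, -, -, -, h1, h2, -⟩ := h.exc ht
    refine (toFinite {(r * exp (I * t₁) : ℂ), (r * exp (I * t₂) : ℂ)}).subset ?_
    rw [h2, h1]
    rintro _ ⟨⟨t, ht, rfl⟩, hn⟩
    rcases eq_or_lt_of_le ht.1 with rfl | k3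
    · simp
    rcases eq_or_lt_of_le ht.2 with rfl | k4
    · simp
    exact absurd ⟨t, ⟨k3, k4⟩, rfl⟩ hn
  · refine finite_empty.subset fun p hp => ?_
    obtain ⟨k1, k2 | k2⟩ := h.closure_Ex hp.1
    · exact hp.2 k2
    · exact ht ⟨p, k2, k1⟩

theorem Cont.preconn_Ex (h : Cont r L) : IsPreconnected (Ex r L) := by
  have hec : Continuous fun t : ℝ => (r * exp (I * t) : ℂ) := by fun_prop
  by_cases ht : ∃ p ∈ L, ‖p‖ = r
  · obtain ⟨t₁, t₂, -, -, -, -, -, h1, -, -⟩ := h.exc ht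
    rw [h1]
    exact isPreconnected_Ioo.image _ hec.continuousOn
  · push Not at ht
    have : Ex r L = (fun t : ℝ => (r * exp (I * t) : ℂ)) '' univ := by
      refine Subset.antisymm (fun p hp => ?_) ?_
      · obtain ⟨t, -, htp⟩ := exists_e hp.1 0
        exact ⟨t, trivial, htp⟩
      · rintro _ ⟨t, -, rfl⟩
        exact h.Ex_all ht (norm_e h.r0.le t)
    rw [this]
    exact isPreconnected_univ.image _ hec.continuousOn

theorem Top2P.hid_empty (h : Cont r L) (ht : ¬ ∃ p ∈ L, ‖p‖ = r) : sphere 0 r \ Ex r L = ∅ := by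
  push Not at ht
  exact sdiff_eq_empty.mpr fun p hp => h.Ex_all ht (mem_sphere_zero_iff_norm.mp hp)

theorem Cont.preconn_hid (h : Cont r L) : IsPreconnected (sphere 0 r \ Ex r L) := by
  have hec : Continuous fun t : ℝ => (r * exp (I * t) : ℂ) := by fun_prop
  by_cases ht : ∃ p ∈ L, ‖p‖ = r
  · obtain ⟨t₁, t₂, -, -, -, -, -, -, -, h1⟩ := h.exc ht
    rw [h1]
    exact isPreconnected_Icc.image _ hec.continuousOn
  · rw [hid_empty h ht]
    exact isPreconnected_empty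

theorem Cont.compact_hid (h : Cont r L) : IsCompact (sphere 0 r \ Ex r L) := by
  have hec : Continuous fun t : ℝ => (r * exp (I * t) : ℂ) := by fun_prop
  by_cases ht : ∃ p ∈ L, ‖p‖ = r
  · obtain ⟨t₁, t₂, -, -, -, -, -, -, -, h1⟩ := h.exc ht
    rw [h1]
    exact isCompact_Icc.image hec
  · rw [hid_empty h ht]
    exact isCompact_empty

theorem Cont.exists_hidden (h : Cont r L) :
    ∃ p ∈ L, p ∈ frontier (main r L) ∧ p ∉ closure (Ex r L) := by
  by_contra hcon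
  push Not at hcon
  have hb := base_mem h.r0 h.r1
  have hW : ann r ⊆ main r L := by
    refine (preconn_ann h.r0).subset_of_closure_inter_subset h.isOpen_main
      ⟨base r, hb.1, h.upper_sub hb⟩ fun p hp => ?_
    by_contra hn
    have hf : p ∈ frontier (main r L) := by
      rw [h.isOpen_main.frontier_eq]
      exact ⟨hp.1, hn⟩
    rcases (h.frontier_sub hf).2.2 with k | k | k
    · exact hp.2.1.ne' (h.closure_Ex (hcon p k hf)).1
    · exact hp.2.1.ne' k.1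
    · exact hp.2.2.ne k
  refine h.infinite (h.exc_finite.subset fun p hp => ⟨hcon p hp ?_, fun k => k.2.1 hp⟩)
  rw [h.isOpen_main.frontier_eq]
  refine ⟨closure_mono hW ?_, fun k => (main_sub r L k).2 hp⟩
  rw [closure_ann h.r0 h.r1]
  exact h.sub hp

/-- A connected subset of a circle has at most two end points. -/
theorem circle_arc {R : ℝ} {J : Set ℂ} (hJ : IsPreconnected J) (hs : J ⊆ sphere 0 R) :
    (J ∩ closure (sphere 0 R \ J)).Finite := by
  rcases (sphere (0 : ℂ) R \ J).eq_empty_or_nonempty with he | ⟨q, hq⟩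
  · simp [he]
  have hqn : ‖q‖ = R := mem_sphere_zero_iff_norm.mp hq.1
  by_cases hq0 : q = 0
  · refine (finite_singleton (0 : ℂ)).subset fun z hz => ?_
    have := mem_sphere_zero_iff_norm.mp (hs hz.1)
    rw [← hqn, hq0, norm_zero, norm_eq_zero] at this
    exact this
  have hR : R ≠ 0 := by rw [← hqn]; exact norm_ne_zero_iff.mpr hq0
  set τ : ℂ → ℝ := fun z => arg (-z / q) with hτ
  have hn : ∀ z ∈ sphere (0 : ℂ) R, ‖-z / q‖ = 1 := fun z hz => by
    rw [norm_div, norm_neg, mem_sphere_zero_iff_norm.mp hz, hqn, div_self hR]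
  have hinj : InjOn τ (sphere 0 R) := fun z hz w hw hzw => by
    have k : -z / q = -w / q := ext_norm_arg ((hn z hz).trans (hn w hw).symm) hzw
    simpa [hq0] using k
  have hc : ∀ z ∈ J, ContinuousAt τ z := fun z hz => by
    refine (continuousAt_arg ?_).comp (f := fun z : ℂ => -z / q) (by fun_prop)
    by_contra k
    rw [mem_slitPlane_iff_arg] at k
    push Not at k
    have k1 := hn z (hs hz)
    have k2 : arg (-z / q) = π := by
      by_contra k3
      rw [k k3, norm_zero] at k1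
      exact zero_ne_one k1
    have k3 : -z / q = -1 := ext_norm_arg (by rw [k1, norm_neg, norm_one]) (by rw [k2, arg_neg_one])
    rw [div_eq_iff hq0] at k3
    have k4 : z = q := by linear_combination -k3
    exact hq.2 (k4 ▸ hz)
  have hO : (τ '' J).OrdConnected :=
    (hJ.image τ fun z hz => (hc z hz).continuousWithinAt).ordConnected
  have s1 : {z ∈ J | ∀ w ∈ J, τ z ≤ τ w}.Subsingleton := fun z hz w hw =>
    hinj (hs hz.1) (hs hw.1) (le_antisymm (hz.2 w hw.1) (hw.2 z hz.1))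
  have s2 : {z ∈ J | ∀ w ∈ J, τ w ≤ τ z}.Subsingleton := fun z hz w hw =>
    hinj (hs hz.1) (hs hw.1) (le_antisymm (hw.2 z hz.1) (hz.2 w hw.1))
  refine (s1.finite.union s2.finite).subset fun z hz => ?_
  by_contra k
  simp only [mem_union, mem_ofPred_eq, not_or, not_and, not_forall, not_le] at k
  obtain ⟨a, ha, ha'⟩ := k.1 hz.1
  obtain ⟨b, hb, hb'⟩ := k.2 hz.1
  obtain ⟨w, hw1, hw2⟩ := mem_closure_iff_nhds.mp hz.2 _
    ((hc z hz.1).preimage_mem_nhds (Ioo_mem_nhds ha' hb'))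
  obtain ⟨w', hw', e'⟩ := hO.out ⟨a, ha, rfl⟩ ⟨b, hb, rfl⟩ (Ioo_subset_Icc_self hw1)
  exact hw2.2 (hinj (hs hw') hw2.1 e' ▸ hw')

end Pool.Agent.P.MP_3bd355_an
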