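import Pool.Agent.P.MP_3bd355_an.Sub2
import Pool.Agent.P.MP_3bd355_an.Top2

/-! Properties of the solutions. -/

open Set Filter Metric Complex InnerProductSpace
open scoped Topology ComplexConjugate Real

namespace Pool.Agent.P.MP_3bd355_an

variable {r A B : ℝ} {L : Set ℂ} {v : ℂ → ℝ}

namespace SolFP

theorem ev_of_off {W : Set ℂ} {p : ℂ} {q : ℂ → Prop} (hoff : ∀ z, z ∉ W → q z)
    (h : ∀ᶠ z in 𝓝[W] p, q z) : ∀ᶠ z in 𝓝 p, q z :=
  (eventually_nhdsWithin_iff.1 h).mono fun z hz => by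
    by_cases hW : z ∈ W
    · exact hz hW
    · exact hoff z hW

theorem tz {W : Set ℂ} {p : ℂ} {f : ℂ → ℝ} (hoff : ∀ z, z ∉ W → f z = 0)
    (h : Tendsto f (𝓝[W] p) (𝓝 0)) : Tendsto f (𝓝 p) (𝓝 0) := fun _ hO =>
  ev_of_off (fun z hz => by rw [hoff z hz]; exact mem_of_mem_nhds hO) (h hO)

theorem bot_of_ann (hL : Cont r L) {p : ℂ} (hp : p ∈ ann r) (hW : p ∉ main r L) (hpL : p ∉ L) :
    𝓝[main r L] p = ⊥ :=
  notMem_closure_iff_nhdsWithin_eq_bot.1 fun hc =>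
    hW ((hL.ev_main hc hpL).self_of_nhdsWithin hp)

theorem not_cl (hL : Cont r L) {p : ℂ} (hp : ‖p‖ ≠ r) : p ∉ closure (Ex r L) :=
  fun hc => hp (hL.closure_Ex hc).1

theorem tz_ann (hL : Cont r L) {f : ℂ → ℝ} (hoff : ∀ z, z ∉ main r L → f z = 0)
    (h0 : ∀ p ∈ L, p ∈ ann r → Tendsto f (𝓝[main r L] p) (𝓝 0)) {p : ℂ} (hp : p ∈ ann r)
    (hW : p ∉ main r L) : ContinuousAt f p := by
  rw [ContinuousAt, hoff p hW]
  refine tz hoff ?_
  by_cases hpL : p ∈ L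
  · exact h0 p hpL hp
  · rw [bot_of_ann hL hp hW hpL]
    exact tendsto_bot

theorem atL_ann (hL : Cont r L) (h : Sol r A B L v) (p : ℂ) (hp : p ∈ L) (ha : p ∈ ann r) :
    Tendsto v (𝓝[main r L] p) (𝓝 0) := h.atL p hp (not_cl hL ha.1.ne')

theorem neg (h : Sol r A B L v) : Sol r (-A) (-B) L fun z => -v z where
  harm := fun z hz => (h.harm z hz).neg
  bdd := h.bdd.imp fun _ hC z => by rw [abs_neg]; exact hC z
  off := fun z hz => by rw [h.off z hz, neg_zero]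
  atL := fun p hp hE => by simpa using (h.atL p hp hE).neg
  atA := fun p hp hE => (h.atA p hp hE).neg
  atB := fun p hp => (h.atB p hp).neg

theorem hf_nonneg (h0 : 0 < r) (hA : 0 ≤ A) {z : ℂ} (hz : z ∈ ann r) : 0 ≤ hf r A 0 z := by
  have h1 : Real.log r < 0 := Real.log_neg h0 (hz.1.trans hz.2)
  have h2 : Real.log ‖z‖ / Real.log r ≤ 1 :=
    (div_le_one_of_neg h1).2 (Real.log_le_log h0 hz.1.le)
  rw [hf, mul_div_assoc]
  nlinarith

theorem sub_curve {γ : ℝ → ℂ} (hc : ContinuousOn γ (Ico 0 1))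
    (hl : Tendsto (fun t => ‖γ t‖) (𝓝[<] 1) (𝓝 1)) {z : ℂ} (hz : z ∈ closure (γ '' Ico 0 1))
    (h1 : ‖z‖ < 1) : z ∈ γ '' Ico 0 1 := by
  obtain ⟨c, hc1, hc2⟩ := exists_between h1
  obtain ⟨t, ht, hsub⟩ := mem_nhdsLT_iff_exists_Ioo_subset.1 (hl.eventually (lt_mem_nhds hc2))
  have hI : Icc 0 t ⊆ Ico (0 : ℝ) 1 := Icc_subset_Ico_right ht
  have hcl : IsClosed (γ '' Icc 0 t ∪ {y | c ≤ ‖y‖}) :=
    (isCompact_Icc.image_of_continuousOn (hc.mono hI)).isClosed.union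
      (isClosed_le continuous_const continuous_norm)
  have hs : γ '' Ico 0 1 ⊆ γ '' Icc 0 t ∪ {y | c ≤ ‖y‖} := by
    rintro _ ⟨s, hs, rfl⟩
    rcases le_or_gt s t with h | h
    · exact Or.inl ⟨s, ⟨hs.1, h⟩, rfl⟩
    · exact Or.inr (show c ≤ ‖γ s‖ from le_of_lt (hsub ⟨h, hs.2⟩))
  rcases closure_minimal hs hcl hz with h | h
  · exact image_mono hI h
  · exact absurd h hc1.not_ge

end SolFP

open SolFP

theorem Sol.contOn (hL : Cont r L) (h : Sol r A B L v) : ContinuousOn v (ann r) := by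
  intro p hp
  by_cases hW : p ∈ main r L
  · exact (harm_diff (h.harm p hW)).continuousAt.continuousWithinAt
  · exact (tz_ann hL h.off (atL_ann hL h) hp hW).continuousWithinAt

theorem Sol.zero (h : Sol r A B L v) {p : ℂ} (hp : p ∈ L) : v p = 0 := by
  exact h.off p fun hW => (main_sub r L hW).2 hp

theorem Sol.mem_main (h : Sol r A B L v) {z : ℂ} (hz : v z ≠ 0) : z ∈ main r L := by
  by_contra hW
  exact hz (h.off z hW)

theorem Sol.harm_diff (hL : Cont r L) (h : Sol r A B L v) : HarmonicOnNhd v (ann r \ L) := by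
  intro p hp
  by_cases hW : p ∈ main r L
  · exact h.harm p hW
  · have e : v =ᶠ[𝓝 p] fun _ => 0 :=
      ev_of_off h.off (by rw [bot_of_ann hL hp.1 hW hp.2]; exact eventually_bot)
    exact (harmonicAt_congr_nhds e).2 (harmonicAt_const 0)

theorem Sol.outer (hL : Cont r L) (hA : OK A L) (h : Sol r A B L v) {p : ℂ} (hp : ‖p‖ = 1) :
    Tendsto v (𝓝[ann r] p) (𝓝 A) := by
  rcases hA with rfl | hA
  · refine (tz h.off ?_).mono_left nhdsWithin_le_nhds
    by_cases hpL : p ∈ L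
    · exact h.atL p hpL (not_cl hL (by rw [hp]; exact hL.r1.ne'))
    · exact h.atA p hp hpL
  · have hpL : p ∉ L := fun hpL => (hA p hpL).ne hp
    rw [← hL.nhds_eq (hL.outer_closure hA hp) hpL]
    exact h.atA p hp hpL

theorem Sol.inner (hL : Cont r L) (h : Sol r A B L v) {p : ℂ} (hp : p ∈ Ex r L) :
    Tendsto v (𝓝[ann r] p) (𝓝 B) := by
  rw [← hL.nhds_eq hp.2.2 hp.2.1]
  exact h.atB p hp

theorem Sol.hug (hL : Cont r L) (h : Sol r A B L v) {p : ℂ} (hp : ‖p‖ = r)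
    (hE : p ∉ closure (Ex r L)) : Tendsto v (𝓝[ann r] p) (𝓝 0) := by
  refine (tz h.off ?_).mono_left nhdsWithin_le_nhds
  by_cases hpL : p ∈ L
  · exact h.atL p hpL hE
  · rw [notMem_closure_iff_nhdsWithin_eq_bot.1 fun hc => hE (subset_closure ⟨hp, hpL, hc⟩)]
    exact tendsto_bot

/-- Comparison from below. -/
theorem Sol.ge (hL : Cont r L) (h : Sol r A B L v) {w : ℂ → ℝ} (hw : Sub w (main r L))
    (hb : ∃ M : ℝ, ∀ z ∈ main r L, w z ≤ M) {S : Set ℂ} (hS : S.Finite)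
    (h0 : ∀ p ∈ L, p ∉ S → LS w (main r L) p 0)
    (hA : ∀ p : ℂ, ‖p‖ = 1 → p ∉ L → LS w (main r L) p A)
    (hB : ∀ p ∈ Ex r L, LS w (main r L) p B) : ∀ z ∈ main r L, w z ≤ v z := by
  obtain ⟨M, hM⟩ := hb
  obtain ⟨C, hC⟩ := h.bdd
  intro z hz
  refine sub_nonpos.1 ((hw.sub_harm h.harm).mpx hL.isOpen_main (bdd_main r L)
    ⟨M + C, fun y hy => by linarith [hM y hy, neg_abs_le (v y), hC y]⟩ (hS.union hL.exc_finite)
    (c := 0) (fun p hp hpS => ?_) z hz)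
  by_cases hpL : p ∈ L
  · have hE : p ∉ closure (Ex r L) := fun hc => hpS (Or.inr ⟨hc, fun he => he.2.1 hpL⟩)
    exact ((h0 p hpL fun hs => hpS (Or.inl hs)).sub_tendsto (h.atL p hpL hE)).le (sub_self _).le
  · rcases (hL.frontier_sub hp).2.2 with h1 | h1 | h1
    · exact absurd h1 hpL
    · exact ((hB p h1).sub_tendsto (h.atB p h1)).le (sub_self _).le
    · exact ((hA p h1 hpL).sub_tendsto (h.atA p h1 hpL)).le (sub_self _).le

/-- Comparison from above. -/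
theorem Sol.le (hL : Cont r L) (h : Sol r A B L v) {w : ℂ → ℝ}
    (hw : Sub (fun z => -w z) (main r L))
    (hb : ∃ M : ℝ, ∀ z ∈ main r L, M ≤ w z) {S : Set ℂ} (hS : S.Finite)
    (h0 : ∀ p ∈ L, p ∉ S → LS (fun z => -w z) (main r L) p 0)
    (hA : ∀ p : ℂ, ‖p‖ = 1 → p ∉ L → LS (fun z => -w z) (main r L) p (-A))
    (hB : ∀ p ∈ Ex r L, LS (fun z => -w z) (main r L) p (-B)) : ∀ z ∈ main r L, v z ≤ w z := by
  obtain ⟨M, hM⟩ := hb
  exact fun z hz => neg_le_neg_iff.1 (Sol.ge hL (neg h) hw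
    ⟨-M, fun y hy => neg_le_neg (hM y hy)⟩ hS h0 hA hB z hz)

theorem Sol.unique (hL : Cont r L) (h : Sol r A B L v) {w : ℂ → ℝ} (h' : Sol r A B L w) :
    v = w := by
  have key : ∀ {v w : ℂ → ℝ}, Sol r A B L v → Sol r A B L w → ∀ z ∈ main r L, w z ≤ v z :=
    fun h h' => Sol.ge hL h (Sub.of_harm h'.harm)
      (h'.bdd.imp fun _ hC z _ => (le_abs_self _).trans (hC z)) hL.exc_finite
      (fun p hp hS => LS.of_tendsto (h'.atL p hp fun hc => hS ⟨hc, fun he => he.2.1 hp⟩) le_rfl)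
      (fun p hp hpL => LS.of_tendsto (h'.atA p hp hpL) le_rfl)
      fun p hp => LS.of_tendsto (h'.atB p hp) le_rfl
  funext z
  by_cases hW : z ∈ main r L
  · exact le_antisymm (key h' h z hW) (key h h' z hW)
  · rw [h.off z hW, h'.off z hW]

theorem Sol.bounds (hL : Cont r L) (h : Sol r A B L v) {lo hi : ℝ} (h1 : lo ≤ 0) (h2 : lo ≤ A)
    (h3 : lo ≤ B) (h4 : 0 ≤ hi) (h5 : A ≤ hi) (h6 : B ≤ hi) (z : ℂ) : lo ≤ v z ∧ v z ≤ hi := by
  have key : ∀ {A B lo : ℝ} {v : ℂ → ℝ}, Sol r A B L v → lo ≤ 0 → lo ≤ A → lo ≤ B → lo ≤ v z := by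
    intro A B lo v h h1 h2 h3
    by_cases hW : z ∈ main r L
    · exact Sol.ge hL h (Sub.const lo _) ⟨lo, fun _ _ => le_rfl⟩ finite_empty
        (fun _ _ _ => LS.of_tendsto tendsto_const_nhds h1)
        (fun _ _ _ => LS.of_tendsto tendsto_const_nhds h2)
        (fun _ _ => LS.of_tendsto tendsto_const_nhds h3) z hW
    · rw [h.off z hW]
      exact h1
  exact ⟨key h h1 h2 h3, neg_le_neg_iff.1
    (key (neg h) (neg_nonpos.2 h4) (neg_le_neg h5) (neg_le_neg h6))⟩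

theorem Sol.abs_le (hL : Cont r L) (h : Sol r A B L v) (z : ℂ) : |v z| ≤ max |A| |B| := by
  have a := le_max_left |A| |B|
  have b := le_max_right |A| |B|
  have a0 := abs_nonneg A
  exact _root_.abs_le.2 (Sol.bounds hL h (by linarith) (by linarith [neg_abs_le A])
    (by linarith [neg_abs_le B]) (by linarith) (by linarith [le_abs_self A])
    (by linarith [le_abs_self B]) z)

theorem Sol.lin (hL : Cont r L) (h : Sol r A B L v) {A' B' : ℝ} {w : ℂ → ℝ}
    (h' : Sol r A' B' L w) (s t : ℝ) :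
    Sol r (s * A + t * A') (s * B + t * B') L (fun z => s * v z + t * w z) := by
  obtain ⟨C, hC⟩ := h.bdd
  obtain ⟨D, hD⟩ := h'.bdd
  refine ⟨fun z hz => (harm_const_mul (h.harm z hz) s).add (harm_const_mul (h'.harm z hz) t),
    ⟨|s| * C + |t| * D, fun z => (abs_add_le _ _).trans ?_⟩,
    fun z hz => by rw [h.off z hz, h'.off z hz]; simp, fun p hp hE => ?_,
    fun p hp hE => ((h.atA p hp hE).const_mul s).add ((h'.atA p hp hE).const_mul t),
    fun p hp => ((h.atB p hp).const_mul s).add ((h'.atB p hp).const_mul t)⟩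
  · rw [abs_mul, abs_mul]
    gcongr
    exacts [hC z, hD z]
  · simpa using ((h.atL p hp hE).const_mul s).add ((h'.atL p hp hE).const_mul t)

/-- With `B = 0` there are no exceptional points. -/
theorem Sol.zeroB (hL : Cont r L) (hL1 : ∀ p ∈ L, ‖p‖ < 1) (h : Sol r A 0 L v) {p : ℂ}
    (hp : p ∈ L) : Tendsto v (𝓝[main r L] p) (𝓝 0) := by
  by_cases hE : p ∈ closure (Ex r L)
  swap
  · exact h.atL p hp hE
  have hr := (hL.closure_Ex hE).1
  have hc : ∀ q : ℂ, 0 < ‖q‖ → Tendsto (hf r |A| 0) (𝓝[main r L] q) (𝓝 (hf r |A| 0 q)) :=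
    fun q hq => (MP_3bd355_an.harm_diff (hf_harm r |A| 0 (norm_pos_iff.1 hq))).continuousAt.tendsto.mono_left
      nhdsWithin_le_nhds
  have hn : ∀ z ∈ main r L, -hf r |A| 0 z ≤ 0 := fun z hz =>
    neg_nonpos.2 (hf_nonneg hL.r0 (abs_nonneg A) (main_sub r L hz).1)
  have key : ∀ {A' : ℝ} {v : ℂ → ℝ}, Sol r A' 0 L v → -|A| ≤ A' →
      ∀ z ∈ main r L, -hf r |A| 0 z ≤ v z := fun h hA =>
    Sol.ge hL h (Sub.of_harm fun z hz => (hf_harm r |A| 0
        (norm_pos_iff.1 (hL.r0.trans (main_sub r L hz).1.1))).neg) ⟨0, hn⟩ finite_empty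
      (fun _ _ _ => LS.of_eventually (eventually_nhdsWithin_of_forall hn))
      (fun q hq _ => LS.of_tendsto (hc q (by rw [hq]; exact one_pos)).neg
        (by rwa [hf_outer r |A| 0 hq]))
      fun _ _ => LS.of_eventually (eventually_nhdsWithin_of_forall hn)
  have h0 := hc p (by rw [hr]; exact hL.r0)
  rw [hf_inner hL.r0 hL.r1 _ _ hr] at h0
  have h1 := neg h
  rw [neg_zero] at h1
  refine tendsto_of_tendsto_of_tendsto_of_le_of_le' (by simpa using h0.neg) h0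
    (eventually_nhdsWithin_of_forall (key h (neg_abs_le A)))
    (eventually_nhdsWithin_of_forall fun z hz => neg_le_neg_iff.1 ?_)
  exact key h1 (neg_le_neg (le_abs_self A)) z hz

theorem Sol.nontouch (hL : Cont r L) (hn : ∀ p ∈ L, ‖p‖ ≠ r) (h : Sol r A B L v) {p : ℂ}
    (hp : p ∈ L) : Tendsto v (𝓝[main r L] p) (𝓝 0) := by
  exact h.atL p hp (not_cl hL (hn p hp))

theorem Sol.not_const (hL : Cont r L) (h : Sol r A B L v) (hB : 0 < B) :
    ∃ z ∈ main r L, 0 < v z := by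
  have hp : (I * r : ℂ) ∈ Ex r L :=
    hL.upper_Ex (by simp [abs_of_pos hL.r0]) (by simpa using hL.r0)
  have := mem_closure_iff_nhdsWithin_neBot.1 hp.2.2
  exact (eventually_mem_nhdsWithin.and ((h.atB _ hp).eventually (lt_mem_nhds hB)) :
    ∀ᶠ z in 𝓝[main r L] (I * r : ℂ), z ∈ main r L ∧ 0 < v z).exists

theorem Sol.pos_of_zero (hL : Cont r L) (h : Sol r 0 B L v) (hB : 0 < B) :
    ∀ z ∈ main r L, 0 < v z := by
  have h0 : ∀ z, 0 ≤ v z := fun z =>
    (Sol.bounds hL h le_rfl le_rfl hB.le hB.le hB.le le_rfl z).1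
  intro z hz
  refine (h0 z).lt_of_ne fun e => ?_
  obtain ⟨y, hy, hv⟩ := Sol.not_const hL h hB
  exact hv.ne' (harm_zero_of_min hL.isOpen_main (preconn_main r L) h.harm (fun y _ => h0 y) hz
    e.symm y hy)

/-- A function that is harmonic in the main component off a finite set, vanishes outside, tends
to zero and is nonnegative at `L`, is subharmonic. -/
theorem sub_of_pos (hL : Cont r L) {f : ℂ → ℝ} {Z : Set ℂ} (hZ : IsClosed Z)
    (hf : HarmonicOnNhd f (main r L \ Z)) (hoff : ∀ z, z ∉ main r L → f z = 0)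
    (h0 : ∀ p ∈ L, p ∈ ann r → Tendsto f (𝓝[main r L] p) (𝓝 0)) (hp : Pos r L f) :
    Sub f (ann r \ Z) ∧ ContinuousOn f (ann r \ Z) := by
  have hc : ContinuousOn f (ann r \ Z) := fun p hp => by
    by_cases hW : p ∈ main r L
    · exact (harm_diff (hf p ⟨hW, hp.2⟩)).continuousAt.continuousWithinAt
    · exact (tz_ann hL hoff h0 hp.1 hW).continuousWithinAt
  refine ⟨Sub.of_locmin ((isOpen_ann r).sdiff hZ) hc.upperSemicontinuousOn fun z hz => ?_, hc⟩
  by_cases hW : z ∈ main r L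
  · exact Or.inl ⟨_, (hL.isOpen_main.sdiff hZ).mem_nhds ⟨hW, hz.2⟩, Sub.of_harm hf⟩
  · refine Or.inr ?_
    change ∀ᶠ y in 𝓝 z, f z ≤ f y
    rw [hoff z hW]
    refine ev_of_off (fun y hy => (hoff y hy).ge) ?_
    by_cases hzL : z ∈ L
    · exact hp z hzL
    · rw [bot_of_ann hL hz.1 hW hzL]
      exact eventually_bot

theorem Pos.sub (hL : Cont r L) (h : Sol r A B L v) (hp : Pos r L v) : Sub v (ann r) := by
  simpa using (sub_of_pos hL isClosed_empty (by simpa using h.harm) h.off (atL_ann hL h) hp).1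

theorem NN.sub (hL : Cont r L) (h : Sol r A B L v) (hp : NN r L v) : Sub v (ann r) := by
  obtain ⟨ω, C, h1, h2, h3, h4⟩ := hp
  refine Sub.lim (Sol.contOn hL h).upperSemicontinuousOn fun ε hε => ?_
  set f : ℂ → ℝ := (main r L).indicator fun z => v z + ε * ω z with hfd
  have e : ∀ z ∈ main r L, f z = v z + ε * ω z := fun z hz => indicator_of_mem hz _
  have e' : ∀ p, f =ᶠ[𝓝[main r L] p] fun z => v z + ε * ω z := fun p =>
    eventually_nhdsWithin_of_forall e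
  refine ⟨f, ?_, fun z _ => ?_⟩
  · have := (sub_of_pos hL isClosed_empty (f := f) (fun z hz => ?_)
      (fun z hz => indicator_of_notMem hz _) (fun p hp ha => ?_) fun p hp => ?_).1
    · simpa using this
    · refine (harmonicAt_congr_nhds (eventually_of_mem (hL.isOpen_main.mem_nhds hz.1) e)).2 ?_
      exact (h.harm z hz.1).add (harm_const_mul (h1 z hz.1) ε)
    · refine Tendsto.congr' (e' p).symm ?_
      simpa using (atL_ann hL h p hp ha).add ((h3 p hp).const_mul ε)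
    · have h5 : Tendsto (fun z => C * ω z) (𝓝[main r L] p) (𝓝 0) := by
        simpa using (h3 p hp).const_mul C
      filter_upwards [h5.eventually (gt_mem_nhds hε), self_mem_nhdsWithin] with z a1 a2
      rw [e z a2]
      nlinarith [h4 z a2, mul_nonneg (h2 z a2).1 (sub_nonneg.2 a1.le)]
  · by_cases hW : z ∈ main r L
    · rw [e z hW, add_sub_cancel_left, abs_of_nonneg (mul_nonneg hε.le (h2 z hW).1)]
      exact mul_le_of_le_one_right hε.le (h2 z hW).2
    · rw [h.off z hW, hfd, indicator_of_notMem hW]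
      simpa using hε.le

theorem Pos.hf_nonneg (hL : Cont r L) (hA : OK A L) (hB : 0 ≤ B) (hA0 : A ≤ 0)
    (h : Sol r A B L v) (hp : Pos r L v) : ∀ p ∈ L, 0 ≤ hf r A B p := by
  intro p hpL
  have hc := hL.sub hpL
  rcases hc.1.eq_or_lt with h1 | h1
  · rwa [hf_inner hL.r0 hL.r1 _ _ h1.symm]
  rcases hc.2.eq_or_lt with h2 | h2
  · rw [hf_outer _ _ _ h2]
    rcases hA with hA | hA
    · exact hA.ge
    · exact absurd h2 (hA p hpL).ne
  rw [← Sol.zero h hpL]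
  exact ((Pos.sub hL h hp).le_hf hL.r0 hL.r1
    (fun q hq => LS.of_tendsto (Sol.outer hL hA h hq) le_rfl)
    (fun q _ => LS.of_eventually (Eventually.of_forall fun z =>
      (Sol.bounds hL h hA0 le_rfl (hA0.trans hB) hB (hA0.trans hB) le_rfl z).2)) p ⟨h1, h2⟩).1

theorem nn_zero (hL : Cont r L) (h : Sol r 0 B L v) (hB : 0 ≤ B) : NN r L v := by
  exact ⟨fun _ => 0, 0, fun _ _ => harmonicAt_const 0, fun _ _ => ⟨le_rfl, zero_le_one⟩,
    fun _ _ => tendsto_const_nhds, fun z _ => by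
      simpa using (Sol.bounds hL h le_rfl le_rfl hB hB hB le_rfl z).1⟩

theorem Cfg.ok {z₁ : ℂ} (h : Cfg r A B z₁ L v) : OK A L := by
  exact h.cases.imp And.left fun h => h.2.1

theorem Cfg.A0 {z₁ : ℂ} (h : Cfg r A B z₁ L v) : A ≤ 0 := by
  exact h.cases.elim (fun h => h.1.le) fun h => h.1.le

theorem Cfg.sub {z₁ : ℂ} (h : Cfg r A B z₁ L v) : Sub v (ann r) := by
  exact NN.sub h.cont h.sol h.nn

theorem Cfg.sc_zero {z₁ : ℂ} (h : Cfg r A B z₁ L v) (hA : A = 0) : SC r L v L := by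
  exact ⟨h.cont.cpt, h.cont.conn, subset_rfl, h.cont.sub, h.cont.low,
    h.cases.elim And.right fun h => absurd hA h.1.ne, fun _ h1 h2 => absurd h1 h2⟩

theorem SC.gc {z₁ : ℂ} {K : Set ℂ} (h : Cfg r A B z₁ L v) (hK : SC r L v K) :
    GC r A B z₁ K v := by
  have hL := h.cont
  refine ⟨hK.cpt, hK.conn, hK.sub, hK.sup h.mem, hK.out, h.sub, fun z hz ha => ?_,
    fun p hp => LS.of_tendsto (Sol.outer hL h.ok h.sol hp) le_rfl,
    fun p _ => LS.of_eventually (Eventually.of_forall fun z => (Sol.bounds hL h.sol h.A0 le_rfl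
      (h.A0.trans h.B0.le) h.B0.le (h.A0.trans h.B0.le) le_rfl z).2),
    _, hL.exc_finite, fun p hp hr hS => LS.of_tendsto (Sol.hug hL h.sol hr fun hc => ?_) le_rfl⟩
  · by_cases hzL : z ∈ L
    · exact (Sol.zero h.sol hzL).le
    · exact (hK.neg z hz hzL).elim (fun h1 => absurd h1 ha.2.ne) le_of_lt
  · have hE : p ∈ Ex r L := by
      by_contra hE
      exact hS ⟨hc, hE⟩
    rcases hK.neg p hp hE.2.1 with h1 | h1
    · exact hL.r1.ne (hr.symm.trans h1)
    · exact h1.ne (h.sol.off p fun hW => (main_sub r L hW).1.1.ne' hr)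

theorem GAdm.gc (h0 : 0 < r) (h1 : r < 1) {z₁ : ℂ} {u : ℂ → ℝ} {γ : ℝ → ℂ}
    (h : GAdm r A B z₁ u γ) : GC r A B z₁ (closure (γ '' Ico 0 1)) u := by
  have hs : closure (γ '' Ico 0 1) ⊆ cann r := by
    refine closure_minimal ?_ (isCompact_cann r).isClosed
    rintro _ ⟨t, ht, rfl⟩
    exact ⟨(h.mem t ht).1, (h.mem t ht).2.le⟩
  have hK : IsCompact (closure (γ '' Ico 0 1)) :=
    (isCompact_cann r).of_isClosed_subset isClosed_closure hs
  have hm : z₁ ∈ closure (γ '' Ico 0 1) := subset_closure ⟨0, ⟨le_rfl, one_pos⟩, h.start⟩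
  obtain ⟨S, hS, hh⟩ := h.hug
  refine ⟨hK, (isPreconnected_Ico.image γ h.cont).closure, hs, hm, ?_, h.sh, fun z hz ha => ?_,
    h.outer, h.inner, S, hS, fun p hp hr hpS => ?_⟩
  · obtain ⟨p, hp, hmax⟩ := hK.exists_isMaxOn ⟨_, hm⟩ continuous_norm.continuousOn
    refine ⟨p, hp, le_antisymm (hs hp).2 (le_of_tendsto h.lim ?_)⟩
    filter_upwards [Ico_mem_nhdsLT one_pos] with t ht
    exact hmax (subset_closure ⟨t, ht, rfl⟩)
  · obtain ⟨t, ht, rfl⟩ := sub_curve h.cont h.lim hz ha.2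
    exact h.le t ht ha.1
  · obtain ⟨t, ht, rfl⟩ := sub_curve h.cont h.lim hp (hr.trans_lt h1)
    exact hh t ht hr hpS

theorem Hyp.B0 {z₀ z₁ : ℂ} (h : Hyp r A B z₀ z₁) : 0 < B := by
  exact B_pos h.r0 h.m1 h.A0 h.h1

theorem Hyp.ch {z₀ z₁ : ℂ} (h : Hyp r A B z₀ z₁) : CH r A B z₀ z₁ := by
  exact ⟨h.r0, h.r1, h.m0, h.m1, h.A0, h.B0⟩

theorem Ext.mem0 {z₀ z₁ : ℂ} {m : ℝ} (h : Ext r A B z₀ z₁ m L v) : z₀ ∈ main r L := by
  exact h.m0

end Pool.Agent.P.MP_3bd355_an
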