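import Pool.Agent.P.MP_3bd355_an.UniF
import Pool.Agent.P.MP_3bd355_an.SolF
import Pool.Agent.P.MP_3bd355_an.Ker2

/-! The statements of the packages. -/

open Set Filter Metric Complex InnerProductSpace
open scoped Topology ComplexConjugate Real

namespace Pool.Agent.P.MP_3bd355_an

theorem Ext.im_nonneg {r A B m : ℝ} {z₀ z₁ : ℂ} {L : Set ℂ} {v : ℂ → ℝ}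
    (h : Ext r A B z₀ z₁ m L v) : 0 ≤ z₀.im := h.hyp.im0

/-! ### Potential theory -/

def S_LOG : Prop := ∀ (U : Set ℂ) (f : ℂ → ℂ), IsOpen U → NC U → DifferentiableOn ℂ f U →
  (∀ z ∈ U, f z ≠ 0) → ∃ g : ℂ → ℂ, DifferentiableOn ℂ g U ∧ ∀ z ∈ U, exp (g z) = f z

def S_RM : Prop := ∀ (U : Set ℂ) (q : ℂ), IsOpen U → IsPreconnected U → NC U → U ≠ univ → q ∈ U →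
  ∃ φ : ℂ → ℂ, DifferentiableOn ℂ φ U ∧ InjOn φ U ∧ φ '' U = ball 0 1 ∧ φ q = 0 ∧
    ∀ z ∈ U, deriv φ z ≠ 0

def S_RMO : Prop := ∀ (r : ℝ) (L : Set ℂ), Cont r L → ∃ φ ψ, RMo r L φ ψ

def S_BL : Prop := ∀ ε > 0, ∃ δ : ℝ, 0 < δ ∧ δ < 1 ∧
  ∀ (p : ℂ) (ρ : ℝ) (K W S : Set ℂ) (u : ℂ → ℝ), 0 < ρ → IsCompact K → IsPreconnected K → p ∈ K →
    ¬ K ⊆ ball p ρ → IsOpen W → Disjoint K W → S.Finite → Sub u W → (∀ z ∈ W, u z ≤ 1) →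
    (∀ q ∈ frontier W, q ∈ ball p ρ → q ∉ S → LS u W q 0) →
    ∀ z ∈ W, z ∈ ball p (δ * ρ) → u z ≤ ε

def S_DIR : Prop := ∀ (W : Set ℂ) (f : ℂ → ℝ) (a b : ℝ), IsOpen W → Bornology.IsBounded W →
  Reg W → (∀ p ∈ frontier W, a ≤ f p ∧ f p ≤ b) →
  ∃ u : ℂ → ℝ, HarmonicOnNhd u W ∧ (∀ z ∈ W, a ≤ u z ∧ u z ≤ b) ∧
    (∀ p ∈ frontier W, ∀ c : ℝ, (∀ᶠ q in 𝓝[frontier W] p, f q ≤ c) → LS u W p c) ∧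
    (∀ p ∈ frontier W, ∀ c : ℝ, (∀ᶠ q in 𝓝[frontier W] p, c ≤ f q) →
      LS (fun z => -u z) W p (-c)) ∧
    ∀ p ∈ frontier W, ContinuousWithinAt f (frontier W) p → Tendsto u (𝓝[W] p) (𝓝 (f p))

def S_SOLEX : Prop := ∀ (r A B : ℝ) (L : Set ℂ), Cont r L → OK A L → ∃ v, Sol r A B L v

def S_GREEN : Prop := ∀ W : Set ℂ, IsOpen W → Bornology.IsBounded W → IsPreconnected W → Reg W →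
  ∃ H, Grn W H

/-! ### Existence of extremal configurations -/

def S_LIM : Prop := ∀ (r A B : ℝ) (Ls : ℕ → Set ℂ) (L : Set ℂ) (vs : ℕ → ℂ → ℝ) (v : ℂ → ℝ),
  Cont r L → (∀ k, Cont r (Ls k)) → HL Ls L → OK A L → (∀ k, OK A (Ls k)) →
  (∀ k, Sol r A B (Ls k) (vs k)) → Sol r A B L v →
  TendstoLocallyUniformlyOn vs v atTop (main r L) ∧
    ∀ p ∈ Ex r L, ∀ ε > 0, ∃ ρ > 0, ∀ᶠ k in atTop, ∀ z ∈ ball p ρ ∩ ann r, |vs k z - B| ≤ ε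

def S_SMALL : Prop := ∀ (r A B : ℝ) (z₁ : ℂ), 0 < r → z₁ ∈ ann r → A ≤ 0 → 0 < hf r A B z₁ →
  ∃ d > 0, closedBall z₁ d ⊆ ann r ∧ ∀ (L : Set ℂ) (v : ℂ → ℝ), Cont r L → z₁ ∈ L →
    L ⊆ closedBall z₁ d → Sol r A B L v → Pos r L v

/-- The local structure at an exposed point. -/
def S_PICa : Prop := ∀ (r : ℝ) (L : Set ℂ) (φ F : ℂ → ℂ) (h : ℝ), Unif r L φ F h →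
  (∃ p ∈ L, ‖p‖ = r) → ∀ p ∈ Ex r L, ∃ x : ℝ,
    Tendsto φ (𝓝[main r L] p) (𝓝 (exp (I * x))) ∧ Tendsto F (𝓝[upH] (x : ℂ)) (𝓝 p) ∧
    (∀ᶠ t : ℝ in 𝓝 x, ∃ q ∈ Ex r L, Tendsto F (𝓝[upH] (t : ℂ)) (𝓝 q)) ∧
    ∀ U ∈ 𝓝 x, ∀ᶠ q in 𝓝[Ex r L] p, ∃ t ∈ U, Tendsto F (𝓝[upH] (t : ℂ)) (𝓝 q)

def S_PICb : Prop := ∀ (r : ℝ) (L : Set ℂ) (φ F : ℂ → ℂ) (h s0 s1 : ℝ), Unif r L φ F h →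
  s0 < s1 → s1 < s0 + 2 * π → (∃ p ∈ L, ‖p‖ = r) →
  (∀ p ∈ Ex r L, ∃ x ∈ Eo s0 s1, Tendsto φ (𝓝[main r L] p) (𝓝 (exp (I * x)))) →
  ∀ (A B : ℝ) (v : ℂ → ℝ), OK A L → Sol r A B L v → ∀ x ∈ Zo s0 s1,
    Tendsto (fun η => v (F η)) (𝓝[upH] (x : ℂ)) (𝓝 0)

def S_PIC : Prop := ∀ (r : ℝ) (L : Set ℂ) (φ F : ℂ → ℂ) (h : ℝ), Unif r L φ F h →
  ∃ s0 s1, Pic r L F s0 s1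

def S_PV : Prop := ∀ (r A B : ℝ) (z₁ : ℂ) (L : Set ℂ) (v : ℂ → ℝ) (φ F : ℂ → ℂ) (h s0 s1 : ℝ),
  Cfg r A B z₁ L v → Unif r L φ F h → Pic r L F s0 s1 → PV A B v F s0 s1

def S_QUADn : Prop := ∀ r δ A B : ℝ, 0 < r → r < 1 → 0 < δ → A ≤ 0 → 0 ≤ B → ∃ C : ℝ,
  ∀ (L : Set ℂ) (v ω : ℂ → ℝ), Cont r L → (∀ p ∈ L, r + δ ≤ ‖p‖ ∧ ‖p‖ ≤ 1 - δ) →
    Sol r A B L v → Sol r 1 1 L ω → Pos r L v → ∀ z ∈ main r L, -C * ω z ^ 2 ≤ v z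

/-- Uniform data for the touching case. -/
def S_QUADa : Prop := ∀ r δ : ℝ, 0 < r → r < 1 → 0 < δ → ∃ h ℓ c : ℝ, 0 < h ∧ 0 < ℓ ∧ 0 < c ∧
  ∀ L : Set ℂ, Cont r L → (∃ p ∈ L, ‖p‖ = r) → (∀ p ∈ L, ‖p‖ ≤ 1 - δ) →
    ∃ (φ F : ℂ → ℂ) (s0 s1 : ℝ), Unif r L φ F h ∧ Pic r L F s0 s1 ∧ s1 + ℓ ≤ s0 + 2 * π ∧
      ∀ ω : ℂ → ℝ, Sol r 1 0 L ω → ∀ z ∈ main r L,
        -c * Real.log ‖φ z‖ ≤ ω z ∧ h * ω z ≤ -Real.log ‖φ z‖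

def S_QUADt : Prop := ∀ r δ A B : ℝ, 0 < r → r < 1 → 0 < δ → A ≤ 0 → 0 < B → ∃ C : ℝ,
  ∀ (L : Set ℂ) (v ω : ℂ → ℝ), Cont r L → (∃ p ∈ L, ‖p‖ = r) → (∀ p ∈ L, ‖p‖ ≤ 1 - δ) →
    Sol r A B L v → Sol r 1 0 L ω → Pos r L v → ∀ z ∈ main r L, -C * ω z ^ 2 ≤ v z

def S_CLOSED : Prop := ∀ (r A B : ℝ) (Ls : ℕ → Set ℂ) (L : Set ℂ) (vs : ℕ → ℂ → ℝ) (v : ℂ → ℝ),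
  A ≤ 0 → 0 < B → Cont r L → (∀ k, Cont r (Ls k)) → HL Ls L → (∀ p ∈ L, ‖p‖ < 1) →
  (∀ k, ∀ p ∈ Ls k, ‖p‖ < 1) → (∀ k, Sol r A B (Ls k) (vs k)) → Sol r A B L v →
  (∀ k, Pos r (Ls k) (vs k)) → NN r L v

def S_PN : Prop := ∀ (r A B : ℝ) (L : Set ℂ) (v : ℂ → ℝ), Cont r L → Sol r A B L v → A ≤ 0 →
  0 < B → IsPreconnected {z | 0 < v z} ∧
    (A < 0 → (∀ p ∈ L, ‖p‖ < 1) → IsPreconnected {z | v z < 0} ∧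
      ∃ δ > 0, ∀ z ∈ ann r, 1 - δ < ‖z‖ → v z < 0)

def S_OPEN : Prop := ∀ (r A B : ℝ) (Ls : ℕ → Set ℂ) (L : Set ℂ) (vs : ℕ → ℂ → ℝ) (v : ℂ → ℝ),
  A < 0 → 0 < B → Cont r L → (∀ k, Cont r (Ls k)) → HL Ls L → (∀ p ∈ L, ‖p‖ < 1) →
  (∀ k, ∀ p ∈ Ls k, ‖p‖ < 1) → (∀ k, Sol r A B (Ls k) (vs k)) → Sol r A B L v →
  (∀ k, ¬ Pos r (Ls k) (vs k)) → ∃ p ∈ L, ∃ᶠ z in 𝓝[main r L] p, v z ≤ 0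

def S_FOLD1 : Prop := ∀ (r A B : ℝ) (L : Set ℂ) (u v : ℂ → ℝ), Cont r L → OK A L → 0 ≤ B →
  Sol r A B L v → Sub u (ann r) → (∀ p : ℂ, ‖p‖ = 1 → LS u (ann r) p A) →
  (∀ p : ℂ, ‖p‖ = r → LS u (ann r) p B) → FH r u L →
  ∀ z ∈ ann r, 0 ≤ z.im → u z ≤ v z ∧ u (conj z) ≤ v z

def S_FOLD2 : Prop := ∀ (r A B : ℝ) (L : Set ℂ) (u v : ℂ → ℝ) (z₀ : ℂ), Cont r L → OK A L →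
  0 ≤ B → Sol r A B L v → Sub u (ann r) → (∀ p : ℂ, ‖p‖ = 1 → LS u (ann r) p A) →
  (∀ p : ℂ, ‖p‖ = r → LS u (ann r) p B) → FH r u L → z₀ ∈ ann r → 0 < z₀.im → v z₀ ≤ u z₀ →
  (∀ z ∈ ann r, 0 < z.im → u z = v z) ∧
    ((∀ p ∈ L, ‖p‖ ≠ r) → ∀ z ∈ ann r, z ∈ closure (main r L) → u z = v z)

/-- The equality case at a real point. -/
def S_FOLD3 : Prop := ∀ (r A B : ℝ) (L : Set ℂ) (u v : ℂ → ℝ) (z₀ : ℂ), Cont r L → OK A L →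
  0 ≤ B → Sol r A B L v → Sub u (ann r) → (∀ p : ℂ, ‖p‖ = 1 → LS u (ann r) p A) →
  (∀ p : ℂ, ‖p‖ = r → LS u (ann r) p B) → FH r u L → (∀ p ∈ L, ‖p‖ ≠ r) → z₀ ∈ ann r →
  z₀.im = 0 → z₀ ∉ L → v z₀ ≤ u z₀ →
  (∀ z ∈ ann r, 0 < z.im → u z = v z) ∨ ∀ z ∈ ann r, 0 < z.im → u (conj z) = v z

def S_LIM3 : Prop := ∀ (r A B : ℝ) (Ls : ℕ → Set ℂ) (L : Set ℂ) (vs : ℕ → ℂ → ℝ) (p : ℂ),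
  Cont r L → (∀ k, Cont r (Ls k)) → HL Ls L → (∀ k, Sol r A B (Ls k) (vs k)) → p ∈ L →
  p ∈ ann r → Tendsto (fun k => vs k p) atTop (𝓝 0)

def S_MPOS : Prop := ∀ (r B : ℝ) (z₀ z₁ : ℂ), 0 < r → z₀ ∈ ann r → z₁ ∈ ann r → 0 < B →
  0 ≤ z₀.im → z₁.im ≤ 0 → z₀ ≠ z₁ →
  ∃ (L : Set ℂ) (v : ℂ → ℝ), Cfg r 0 B z₁ L v ∧ 0 < v z₀

/-- The first exit time. -/
def S_STEP : Prop := ∀ (r A B : ℝ) (z₀ z₁ : ℂ), Hyp r A B z₀ z₁ → A < 0 → ∃ d > 0,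
  ∀ (u : ℂ → ℝ) (γ : ℝ → ℂ), GAdm r A B z₁ u γ → ∃ t₀ ∈ Ioo (0 : ℝ) 1, ∀ η > 0,
    ∃ t ∈ Ioc (0 : ℝ) t₀, ∃ t' ∈ Ico t₀ 1, t₀ - η < t ∧ t' < t₀ + η ∧
      (∃ s ∈ Icc (0 : ℝ) t, d ≤ dist (fold (γ s)) z₁) ∧
      Cont r ((fun s => fold (γ s)) '' Icc 0 t) ∧ Cont r ((fun s => fold (γ s)) '' Icc 0 t') ∧
      (∀ v, Sol r A B ((fun s => fold (γ s)) '' Icc 0 t) v →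
        Pos r ((fun s => fold (γ s)) '' Icc 0 t) v) ∧
      ∀ v, Sol r A B ((fun s => fold (γ s)) '' Icc 0 t') v →
        ¬ Pos r ((fun s => fold (γ s)) '' Icc 0 t') v

def S_E1 : Prop := ∀ (r A B : ℝ) (z₀ z₁ : ℂ) (u : ℂ → ℝ) (γ : ℝ → ℂ), Hyp r A B z₀ z₁ →
  GAdm r A B z₁ u γ → ∃ (L : Set ℂ) (v : ℂ → ℝ), Cfg r A B z₁ L v ∧ FH r u L ∧
    ((∀ t ∈ Ico (0 : ℝ) 1, r < ‖γ t‖) → ∀ p ∈ L, ‖p‖ ≠ r)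

def S_E2 : Prop := ∀ (r A B : ℝ) (z₀ z₁ : ℂ) (m : ℝ), Hyp r A B z₀ z₁ →
  (∀ η > 0, ∃ u γ, GAdm r A B z₁ u γ ∧ m - η < u z₀) →
  ∃ (L : Set ℂ) (v : ℂ → ℝ), Cfg r A B z₁ L v ∧ m ≤ v z₀

def S_GEN : Prop := ∀ (r A B : ℝ) (z₀ z₁ : ℂ) (K : Set ℂ) (w : ℂ → ℝ), 0 < r → z₀ ∈ ann r →
  z₁ ∈ ann r → A ≤ 0 → GC r A B z₁ K w → (w z₀ : EReal) ≤ Msup r A B z₀ z₁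

def S_BR : Prop := ∀ (r A B : ℝ) (z₁ : ℂ) (u : ℂ → EReal), 0 < r → r < 1 → A ≤ 0 → 0 ≤ B →
  Adm r A B z₁ u → ∃ (w : ℂ → ℝ) (γ : ℝ → ℂ), GAdm r A B z₁ w γ ∧
    (∀ t ∈ Ico (0 : ℝ) 1, r < ‖γ t‖) ∧
    ∀ z ∈ ann r, (w z : EReal) = max (u z) ((A - 1 : ℝ) : EReal)

/-- The supremum is a real number. -/
def S_MREAL : Prop := ∀ (r A B : ℝ) (z₀ z₁ : ℂ), CH r A B z₀ z₁ → ∃ m : ℝ,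
  Msup r A B z₀ z₁ = m ∧ A ≤ m ∧ Bound r A B z₀ z₁ m ∧
    ∀ η > 0, ∃ u γ, GAdm r A B z₁ u γ ∧ m - η < u z₀

/-! ### The frame -/

def S_REFL : Prop := ∀ (r A B : ℝ) (L : Set ℂ) (v : ℂ → ℝ), Cont r L → OK A L → A ≤ 0 → 0 ≤ B →
  Sol r A B L v → Sub v (ann r) → ∀ z ∈ ann r, v (fold z) ≤ v z

def S_TIP : Prop := ∀ (r A B : ℝ) (z₁ : ℂ) (L : Set ℂ) (v : ℂ → ℝ) (φ F : ℂ → ℂ) (h s0 s1 : ℝ),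
  Cfg r A B z₁ L v → Unif r L φ F h → PV A B v F s0 s1 → Tip v F s0 s1

def S_FR : Prop := ∀ (r A B : ℝ) (z₁ : ℂ) (L : Set ℂ) (v : ℂ → ℝ), Cfg r A B z₁ L v →
  ∃ φ F h s0 s1, Fr r A B z₁ L v φ F h s0 s1

def S_ZEX : Prop := ∀ (r A B : ℝ) (z₁ : ℂ) (L : Set ℂ) (v : ℂ → ℝ) (φ F : ℂ → ℂ) (h s0 s1 : ℝ),
  Fr r A B z₁ L v φ F h s0 s1 → A < 0 → ∃ y ∈ Icc s0 s1, y ∈ Zer v F s0 s1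

def S_TPATH : Prop := ∀ (r A B : ℝ) (z₁ : ℂ) (L : Set ℂ) (v : ℂ → ℝ) (φ F : ℂ → ℂ)
  (h s0 s1 y : ℝ) (q : ℂ), Fr r A B z₁ L v φ F h s0 s1 → y ∈ Zer v F s0 s1 → q ∈ main r L →
  0 ≤ q.im → ∃ T : ℝ → ℂ, ContinuousOn T (Ioc 0 1) ∧ ‖T 1‖ = 1 ∧
    (∀ t ∈ Ioc (0 : ℝ) 1, (T t).im ≤ 0 ∧ T t ≠ q) ∧
    (∀ t ∈ Ioo (0 : ℝ) 1, v (T t) < 0) ∧ (∀ᶠ t : ℝ in 𝓝[>] 0, T t = fold (F (y + t * I))) ∧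
    SC r L v (L ∪ T '' Ioc 0 1)

def S_SC : Prop := ∀ (r A B : ℝ) (z₁ : ℂ) (L : Set ℂ) (v : ℂ → ℝ), Cfg r A B z₁ L v →
  ∃ K, SC r L v K

/-! ### The variation -/

def S_MART : Prop := ∀ (r : ℝ) (L : Set ℂ) (φ F : ℂ → ℂ) (h : ℝ) (H : ℂ → ℂ → ℝ) (y : ℝ),
  Unif r L φ F h → Grn (main r L) H → ∃ k, Mart (main r L) F H y k

/-- The closed annulus without discs around the points of `Z`. -/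
def Rg (r : ℝ) (Z : Finset ℂ) (δ : ℝ) : Set ℂ := {z | z ∈ cann r ∧ ∀ ζ ∈ Z, δ ≤ dist z ζ}

def S_VARA : Prop := ∀ (r : ℝ) (Z : Finset ℂ) (ρ : ℂ → ℂ) (O : Set ℂ) (δ : ℝ), 0 < r → r < 1 →
  IsOpen O → cann r ⊆ O → (∀ z ∈ O, z ∉ Z → AnalyticAt ℂ ρ z) →
  (∀ z : ℂ, ‖z‖ = r ∨ ‖z‖ = 1 → (ρ z).re = 0) → 0 < δ → (∀ ζ ∈ Z, closedBall ζ (2 * δ) ⊆ ann r) →
  ∃ C ε₀ : ℝ, 0 < ε₀ ∧ ∀ ε ∈ Ioo (0 : ℝ) ε₀, ∃ Θ : ℂ → ℂ,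
    (∀ z ∈ Rg r Z δ, AnalyticAt ℂ Θ z ∧ deriv Θ z ≠ 0 ∧ Θ z ∈ Rg r Z (δ / 2) ∧
      (‖Θ z‖ = r ↔ ‖z‖ = r) ∧ (‖Θ z‖ = 1 ↔ ‖z‖ = 1) ∧
      ‖Θ z - (z - ε * z * ρ z)‖ ≤ C * ε ^ 2) ∧
    ∀ y ∈ Rg r Z (2 * δ), y * exp (ε * ρ y) ∈ Rg r Z δ ∧ Θ (y * exp (ε * ρ y)) = y

def S_POSV : Prop := ∀ (r A B : ℝ) (z₁ : ℂ) (L : Set ℂ) (v D : ℂ → ℝ) (φ F : ℂ → ℂ)
  (h s0 s1 : ℝ) (Z : Finset ℂ), Fr r A B z₁ L v φ F h s0 s1 → (∀ ζ ∈ Z, ζ ∈ main r L) →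
  HarmonicOnNhd D (main r L \ Z) →
  (∀ p ∈ frontier (main r L), Tendsto D (𝓝[main r L] p) (𝓝 0)) →
  (∀ y ∈ Zer v F s0 s1, y ∈ Icc s0 s1 → y < s0 + 2 * π → ∃ d > 0,
    Tendsto (fun τ : ℝ => D (F (y + τ * I)) / τ) (𝓝[>] 0) (𝓝 d)) →
  ∃ ε₀ > 0, ∀ ε ∈ Ioo (0 : ℝ) ε₀, Pos r L (fun z => v z + ε * D z)

/-- The perturbed subharmonic function. -/
def S_VARG : Prop := ∀ (r : ℝ) (Z : Finset ℂ) (ρ : ℂ → ℂ) (O : Set ℂ) (v D : ℂ → ℝ) (δ₀ : ℝ),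
  0 < r → r < 1 → IsOpen O → cann r ⊆ O → (∀ z ∈ O, z ∉ Z → AnalyticAt ℂ ρ z) →
  (∀ z : ℂ, ‖z‖ = r ∨ ‖z‖ = 1 → (ρ z).re = 0) → 0 < δ₀ →
  (∀ ζ ∈ Z, ζ ∈ ann r ∧ HarmonicAt v ζ ∧ (∀ᶠ z in 𝓝[≠] ζ, HarmonicAt D z) ∧
    ∃ R : ℂ → ℝ, HarmonicAt R ζ ∧
      ∀ᶠ z in 𝓝[≠] ζ, D z - (grad v z * z * ρ z).re = R z) →
  (∃ ε₀ > 0, ∀ ε ∈ Ioo (0 : ℝ) ε₀, Sub (fun z => v z + ε * D z) (ann r \ Z)) →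
  ∃ δ C ε₀ : ℝ, 0 < δ ∧ δ ≤ δ₀ ∧ 0 ≤ C ∧ 0 < ε₀ ∧ (∀ ζ ∈ Z, closedBall ζ (2 * δ) ⊆ ann r) ∧
    ∀ ε ∈ Ioo (0 : ℝ) ε₀, ∃ (Θ : ℂ → ℂ) (w : ℂ → ℝ), Sub w (ann r) ∧
      (∀ z ∈ Rg r Z δ, ContinuousAt Θ z ∧ Θ z ∈ Rg r Z (δ / 2) ∧
        (‖Θ z‖ = r ↔ ‖z‖ = r) ∧ (‖Θ z‖ = 1 ↔ ‖z‖ = 1) ∧
        ‖Θ z - (z - ε * z * ρ z)‖ ≤ C * ε ^ 2) ∧
      (∀ y ∈ Rg r Z (2 * δ), y * exp (ε * ρ y) ∈ Rg r Z δ ∧ Θ (y * exp (ε * ρ y)) = y) ∧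
      ∀ z ∈ Rg r Z δ, z ∈ ann r → v (Θ z) + ε * D (Θ z) - C * ε ^ 2 ≤ w z ∧
        w z ≤ v (Θ z) + ε * D (Θ z)

def S_VARB : Prop := ∀ (r A B : ℝ) (z₀ z₁ : ℂ) (m : ℝ) (L K : Set ℂ) (v : ℂ → ℝ)
  (H : ℂ → ℂ → ℝ) (Z : Finset ℂ) (a : ℂ → ℂ) (c₀ : ℝ), Ext r A B z₀ z₁ m L v → SC r L v K →
  Grn (main r L) H → (∀ ζ ∈ Z, ζ ∈ main r L ∧ ζ ∉ K ∧ ζ ≠ z₀) → ∑ ζ ∈ Z, (a ζ).re = 0 →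
  rho r Z a c₀ z₁ = 0 →
  (∃ ε₀ > 0, ∀ ε ∈ Ioo (0 : ℝ) ε₀, Pos r L (fun z => v z + ε * DD H v Z a z)) →
  DD H v Z a z₀ ≤ (grad v z₀ * z₀ * rho r Z a c₀ z₀).re

def S_GORDAN : Prop := ∀ (V : Type) [AddCommGroup V] [Module ℝ V] (ι κ : Type) [Fintype ι]
  [Fintype κ] (f : ι → V →ₗ[ℝ] ℝ) (g : κ → V →ₗ[ℝ] ℝ),
  (∀ x : V, (∀ j, g j x = 0) → ∃ i, f i x ≤ 0) →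
  ∃ (l : ι → ℝ) (μ : κ → ℝ), (∀ i, 0 ≤ l i) ∧ (∃ i, 0 < l i) ∧
    ∀ x : V, ∑ i, l i * f i x = ∑ j, μ j * g j x

def S_LIN : Prop := ∀ (r A B : ℝ) (z₀ z₁ : ℂ) (m : ℝ) (L : Set ℂ) (v : ℂ → ℝ) (φ F : ℂ → ℂ)
  (h s0 s1 : ℝ) (H : ℂ → ℂ → ℝ), Ext r A B z₀ z₁ m L v → Fr r A B z₁ L v φ F h s0 s1 →
  Grn (main r L) H → ∃ a b c l0 Y lam k, LinOut r L v F s0 s1 z₀ z₁ H a b c l0 Y lam k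

def S_EDAT : Prop := ∀ (r A B : ℝ) (z₀ z₁ : ℂ) (L : Set ℂ) (v : ℂ → ℝ) (φ F : ℂ → ℂ)
  (h s0 s1 : ℝ) (H : ℂ → ℂ → ℝ) (a b : ℂ) (c l0 : ℝ) (Y : Finset ℝ) (lam : ℝ → ℝ)
  (k : ℝ → ℂ → ℝ), Fr r A B z₁ L v φ F h s0 s1 → z₀ ∈ main r L → Grn (main r L) H →
  LinOut r L v F s0 s1 z₀ z₁ H a b c l0 Y lam k →
  Edat (QD r z₀ z₁ a b c) v F s0 s1 ∧ ∀ y ∈ Y, 0 < lam y → Ed (QD r z₀ z₁ a b c) F y 0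

/-! ### Regularity of the free boundary -/

def S_REG0 : Prop := ∀ (Q f : ℂ → ℂ) (K S V : Set ℂ) (x : ℂ) (C : ℝ), IsCompact K → S.Finite →
  (∀ p ∈ K, p ∉ S → ContinuousAt Q p ∧ Q p ≠ 0) → IsOpen V → Convex ℝ V → x ∈ closure V →
  DifferentiableOn ℂ f V → MapsTo f V K → (∀ η ∈ V, ‖Q (f η) * deriv f η ^ 2‖ ≤ C) →
  ∃ p, Tendsto f (𝓝[V] x) (𝓝 p)

def S_REG : Prop := ∀ (r A B : ℝ) (z₀ z₁ : ℂ) (L : Set ℂ) (v : ℂ → ℝ) (φ F : ℂ → ℂ)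
  (h s0 s1 : ℝ) (a b : ℂ) (c : ℝ), Fr r A B z₁ L v φ F h s0 s1 → z₀ ∈ main r L →
  Edat (QD r z₀ z₁ a b c) v F s0 s1 → NZ r z₀ z₁ a b c ∧ ∃ Fb, Bd F Fb

def S_LOC1 : Prop := ∀ (Q ψ F : ℂ → ℂ) (p : ℂ) (x : ℝ) (n e : ℕ), Even e → Chart Q p n ψ →
  Ed Q F x e → (∀ᶠ η : ℂ in 𝓝[upH] (x : ℂ), AnalyticAt ℂ F η ∧ F η ≠ p) →
  Tendsto F (𝓝[upH] (x : ℂ)) (𝓝 p) →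
  ∃ (κ : ℂ) (χ : ℂ → ℂ), κ ^ n = -1 ∧ RChart χ x ∧
    ∀ᶠ η : ℂ in 𝓝[upH] (x : ℂ), ψ (F η) = κ * χ η ^ (th n e : ℂ)

def S_LOC2 : Prop := ∀ (Q ψ F : ℂ → ℂ) (Fb : ℝ → ℂ) (x : ℝ) (n e : ℕ) (κ : ℂ) (χ : ℂ → ℂ),
  Chart Q (Fb x) n ψ → Bd F Fb → κ ^ n = -1 → RChart χ x →
  (∀ᶠ η : ℂ in 𝓝[upH] (x : ℂ), ψ (F η) = κ * χ η ^ (th n e : ℂ)) → Loc Q ψ F Fb x n e κ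

def S_LOC : Prop := ∀ (r : ℝ) (L : Set ℂ) (φ F : ℂ → ℂ) (h : ℝ) (Fb : ℝ → ℂ) (Q ψ : ℂ → ℂ)
  (x : ℝ) (n e : ℕ), Unif r L φ F h → Bd F Fb → Even e → Chart Q (Fb x) n ψ → Ed Q F x e →
  ∃ κ, Loc Q ψ F Fb x n e κ

def S_MULT : Prop := ∀ (r A B : ℝ) (z₀ z₁ : ℂ) (L : Set ℂ) (v : ℂ → ℝ) (φ F : ℂ → ℂ)
  (h s0 s1 : ℝ) (a b : ℂ) (c : ℝ) (Fb : ℝ → ℂ), Reg2 r A B z₀ z₁ L v φ F h s0 s1 a b c Fb →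
  ∃ G, Mult r L Fb s0 s1 G

def S_SHR : Prop := ∀ (r A B : ℝ) (z₀ z₁ : ℂ) (m : ℝ) (L K : Set ℂ) (v : ℂ → ℝ),
  Ext r A B z₀ z₁ m L v → Cont r K → z₁ ∈ K → (∃ p ∈ K, ‖p‖ = 1) →
  (∀ z ∈ K, z ∈ ann r → v z ≤ 0) → Disjoint K (Ex r L) → z₀ ∈ main r K →
  HarmonicOnNhd v (main r K) ∧ ∀ p ∈ Ex r K, Tendsto v (𝓝[ann r] p) (𝓝 B)

/-- Nonnegativity of `v` at the points that are not images of zeros. -/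
def S_POSAT : Prop := ∀ (r A B : ℝ) (z₁ : ℂ) (L : Set ℂ) (v : ℂ → ℝ) (φ F : ℂ → ℂ)
  (h s0 s1 : ℝ) (Fb : ℝ → ℂ) (x : ℝ), Fr r A B z₁ L v φ F h s0 s1 → Bd F Fb → x ∈ Icc s0 s1 →
  Fb x ∈ ann r → (∀ y ∈ Zer v F s0 s1, y ∈ Icc s0 s1 → Fb y ≠ Fb x) →
  (∀ᶠ z in 𝓝 (Fb x), 0 ≤ v z) ∧ ¬ HarmonicAt v (Fb x)

def S_SH : Prop := ∀ (r A B : ℝ) (z₀ z₁ : ℂ) (m : ℝ) (L : Set ℂ) (v : ℂ → ℝ) (φ F : ℂ → ℂ)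
  (h s0 s1 : ℝ) (Fb : ℝ → ℂ) (G : Set ℂ), Ext r A B z₀ z₁ m L v → Fr r A B z₁ L v φ F h s0 s1 →
  Bd F Fb → Mult r L Fb s0 s1 G →
  (A = 0 → SHp r L Fb s0 s1 z₁ (sphere 0 1)) ∧
    ∀ y ∈ Zer v F s0 s1, SHp r L Fb s0 s1 z₁ {Fb y}

def S_ARC1 : Prop := ∀ (r : ℝ) (L : Set ℂ) (φ F : ℂ → ℂ) (h s0 s1 : ℝ) (Fb : ℝ → ℂ)
  (G T : Set ℂ) (y y1 : ℝ), Unif r L φ F h → Pic r L F s0 s1 → Bd F Fb → Mult r L Fb s0 s1 G →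
  Tgt L Fb s0 s1 y T → y1 ∈ Icc s0 s1 → Fb y1 ∈ ann r → SHp r L Fb s0 s1 (Fb y1) T →
  ∃ y0, Arc r L Fb s0 s1 (Fb y1) T y1 y0 ∧ ((∀ p ∈ L, ‖p‖ < 1) → y0 = y)

def S_ARC2 : Prop := ∀ (r : ℝ) (L : Set ℂ) (φ F : ℂ → ℂ) (h s0 s1 : ℝ) (Fb : ℝ → ℂ)
  (G T : Set ℂ) (y : ℝ) (q : ℂ), Unif r L φ F h → Pic r L F s0 s1 → Bd F Fb →
  Mult r L Fb s0 s1 G → Tgt L Fb s0 s1 y T → q ∈ ann r → q ∈ L → SHp r L Fb s0 s1 q T →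
  ∃ y1 ∈ Icc s0 s1, Fb y1 = q

def S_ARCa : Prop := ∀ (r A B : ℝ) (z₀ z₁ : ℂ) (L : Set ℂ) (v : ℂ → ℝ) (φ F : ℂ → ℂ)
  (h s0 s1 : ℝ) (a b : ℂ) (c : ℝ) (Fb : ℝ → ℂ) (T : Set ℂ) (y1 y0 : ℝ),
  Reg2 r A B z₀ z₁ L v φ F h s0 s1 a b c Fb → Arc r L Fb s0 s1 z₁ T y1 y0 →
  (∀ y ∈ Zer v F s0 s1, y ∈ Icc s0 s1 → Fb y = Fb y0) →
  b ≠ 0 ∧ ∀ x ∈ uIoo y1 y0, r < ‖Fb x‖ → AnalyticAt ℝ Fb x ∧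
    ∃ ρ : ℝ, 0 < ρ ∧ QD r z₀ z₁ a b c (Fb x) * deriv Fb x ^ 2 = -(ρ : ℂ)

def S_ARCb : Prop := ∀ (r A B : ℝ) (z₀ z₁ : ℂ) (L : Set ℂ) (v : ℂ → ℝ) (φ F : ℂ → ℂ)
  (h s0 s1 : ℝ) (a b : ℂ) (c : ℝ) (Fb : ℝ → ℂ) (T : Set ℂ) (y1 y0 : ℝ),
  Reg2 r A B z₀ z₁ L v φ F h s0 s1 a b c Fb → Arc r L Fb s0 s1 z₁ T y1 y0 →
  (∀ y ∈ Zer v F s0 s1, y ∈ Icc s0 s1 → Fb y = Fb y0) → ‖Fb y0‖ ≠ r →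
  sphere 0 r \ Fb '' uIcc y1 y0 = Ex r L ∧
    (‖Fb y0‖ = 1 → QD r z₀ z₁ a b c (Fb y0) = 0) ∧
    ((∀ x ∈ uIcc y1 y0, r < ‖Fb x‖) ∨ ∃ x₁ ∈ uIoo y1 y0, ∃ x₂ ∈ uIoo y1 y0, x₁ ≤ x₂ ∧
      (∀ x ∈ uIcc y1 y0, ‖Fb x‖ = r ↔ x ∈ Icc x₁ x₂) ∧
      QD r z₀ z₁ a b c (Fb x₁) = 0 ∧ QD r z₀ z₁ a b c (Fb x₂) = 0)

def S_ARCc : Prop := ∀ (r A B : ℝ) (z₀ z₁ : ℂ) (L : Set ℂ) (v : ℂ → ℝ) (φ F : ℂ → ℂ)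
  (h s0 s1 : ℝ) (a b : ℂ) (c : ℝ) (Fb : ℝ → ℂ) (y1 y0 : ℝ),
  Reg2 r A B z₀ z₁ L v φ F h s0 s1 a b c Fb → Arc r L Fb s0 s1 z₁ {Fb y0} y1 y0 → A < 0 →
  y0 ∈ Zer v F s0 s1 → (∀ y ∈ Zer v F s0 s1, SHp r L Fb s0 s1 z₁ {Fb y}) →
  Fb y0 ∈ ann r ∧ QD r z₀ z₁ a b c (Fb y0) ≠ 0 ∧
    (∀ y ∈ Zer v F s0 s1, y ∈ Icc s0 s1 → Fb y = Fb y0 ∧ ¬ Ed (QD r z₀ z₁ a b c) F y 0) ∧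
    ∃ C : ℝ, ∀ᶠ z in 𝓝 (Fb y0), |v z| ≤ C * ‖z - Fb y0‖ ^ (3 / 2 : ℝ)

def S_CORE : Prop := ∀ (r A B : ℝ) (z₀ z₁ : ℂ) (m : ℝ) (L : Set ℂ) (v : ℂ → ℝ),
  Ext r A B z₀ z₁ m L v → ∃ a b c κ g, Crit r A B z₀ z₁ a b c κ v g ∧
    ann r ⊆ closure (main r L) ∧ ((∀ p ∈ L, ‖p‖ ≠ r) → ∀ t ∈ Icc (0 : ℝ) 1, r < ‖κ t‖)

/-! ### Critical configurations -/

def S_CRIT1 : Prop := ∀ (r A B : ℝ) (z₀ z₁ a b : ℂ) (c : ℝ) (κ : ℝ → ℂ) (v g : ℂ → ℝ),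
  CH r A B z₀ z₁ → Crit r A B z₀ z₁ a b c κ v g →
  Sub v (ann r) ∧ (∀ z ∈ ann r, A ≤ v z ∧ v z ≤ B) ∧ (∀ t ∈ Icc (0 : ℝ) 1, κ t ∈ cann r) ∧
    (∃ S : Set ℂ, S.Finite ∧ ∀ t ∈ Icc (0 : ℝ) 1, ‖κ t‖ = r → κ t ∉ S →
      Tendsto v (𝓝[ann r] (κ t)) (𝓝 0)) ∧
    (∃ γ, GAdm r A B z₁ v γ) ∧
    ((∀ t ∈ Icc (0 : ℝ) 1, r < ‖κ t‖) → Adm r A B z₁ (fun z => (v z : EReal)))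

def S_CRIT2 : Prop := ∀ (r A B : ℝ) (z₀ z₁ a b : ℂ) (c : ℝ) (κ : ℝ → ℂ) (v g : ℂ → ℝ),
  CH r A B z₀ z₁ → Crit r A B z₀ z₁ a b c κ v g →
  (∀ t ∈ Ioo (0 : ℝ) 1, r < ‖κ t‖ → ¬ HarmonicAt v (κ t)) ∧
    (∀ z ∈ ann r \ κ '' Icc 0 1, z ≠ z₀ → 0 ≤ g z ∧ g z ≤ Real.log (2 / ‖z - z₀‖)) ∧
    a = z₀ * grad v z₀ / 2 ∧
    ((∀ t ∈ Icc (0 : ℝ) 1, r < ‖κ t‖) →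
      ∀ p : ℂ, ‖p‖ = r → (p ^ 2 * QD r z₀ z₁ a b c p).re ≤ 0)

def S_ROT : Prop := ∀ (r A B : ℝ) (z₀ z₁ ω : ℂ), ‖ω‖ = 1 →
  (∀ u : ℂ → EReal, Adm r A B z₁ u → Adm r A B (ω * z₁) (fun z => u (conj ω * z))) ∧
  Msup r A B (ω * z₀) (ω * z₁) = Msup r A B z₀ z₁ ∧
  ∀ (a b : ℂ) (c : ℝ) (κ : ℝ → ℂ) (v g : ℂ → ℝ), Crit r A B z₀ z₁ a b c κ v g →
    Crit r A B (ω * z₀) (ω * z₁) a b c (fun t => ω * κ t) (fun z => v (conj ω * z))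
      (fun z => g (conj ω * z))

def S_ROTc : Prop := ∀ (r A B : ℝ) (z₀ z₁ a b : ℂ) (c : ℝ) (κ : ℝ → ℂ) (v g : ℂ → ℝ),
  Crit r A B z₀ z₁ a b c κ v g →
    Crit r A B (conj z₀) (conj z₁) (conj a) (conj b) c (fun t => conj (κ t))
      (fun z => v (conj z)) (fun z => g (conj z))

/-- Confinement in the standard frame. -/
def S_CONF : Prop := ∀ (r A B : ℝ) (z₀ z₁ a b : ℂ) (c : ℝ) (κ : ℝ → ℂ) (v g : ℂ → ℝ),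
  Hyp r A B z₀ z₁ → 0 < z₀.im → Crit r A B z₀ z₁ a b c κ v g →
  (v z₀ : EReal) = Msup r A B z₀ z₁ → ∀ t ∈ Icc (0 : ℝ) 1, (κ t).im ≤ 0

/-- The structure theorem. -/
def S_MAIN : Prop := ∀ (r A B : ℝ) (z₀ z₁ : ℂ), 0 < r → z₀ ∈ ann r → z₁ ∈ ann r → A ≤ 0 →
  0 < hf r A B z₁ → (∀ t : ℝ, 0 < t → z₀ ≠ t * z₁) →
  (∃ a b c κ v g, Crit r A B z₀ z₁ a b c κ v g ∧ (v z₀ : EReal) = Msup r A B z₀ z₁) ∧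
  (∀ a b c κ v g, Crit r A B z₀ z₁ a b c κ v g →
    (v z₀ : EReal) ≤ Msup r A B z₀ z₁ ∧
    ((∀ t ∈ Icc (0 : ℝ) 1, r < ‖κ t‖) → Adm r A B z₁ (fun z => (v z : EReal))) ∧
    ((v z₀ : EReal) = Msup r A B z₀ z₁ → ∀ ω : ℂ, 0 < (ω * z₀).im → (ω * z₁).im ≤ 0 →
      ∀ t ∈ Icc (0 : ℝ) 1, (ω * κ t).im ≤ 0)) ∧
  ∀ u, Adm r A B z₁ u → u z₀ = Msup r A B z₀ z₁ →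
    ∃ a b c κ v g, Crit r A B z₀ z₁ a b c κ v g ∧ (∀ t ∈ Icc (0 : ℝ) 1, r < ‖κ t‖) ∧
      ∀ z ∈ ann r, u z = (v z : EReal)

/-- The structure theorem, including most positions on a common ray. -/
def S_MAIN2 : Prop := ∀ (r A B : ℝ) (z₀ z₁ : ℂ), 0 < r → z₀ ∈ ann r → z₁ ∈ ann r → A ≤ 0 →
  0 < hf r A B z₁ →
  ((∀ t : ℝ, 0 < t → z₀ ≠ t * z₁) ∨ (A = 0 ∧ z₀ ≠ z₁) ∨ Msup r A B z₀ z₁ ≠ 0) →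
  (∃ a b c κ v g, Crit r A B z₀ z₁ a b c κ v g ∧ (v z₀ : EReal) = Msup r A B z₀ z₁) ∧
  (∀ a b c κ v g, Crit r A B z₀ z₁ a b c κ v g →
    (v z₀ : EReal) ≤ Msup r A B z₀ z₁ ∧
    ((∀ t ∈ Icc (0 : ℝ) 1, r < ‖κ t‖) → Adm r A B z₁ (fun z => (v z : EReal))) ∧
    ((v z₀ : EReal) = Msup r A B z₀ z₁ → ∀ ω : ℂ, 0 < (ω * z₀).im → (ω * z₁).im ≤ 0 →
      ∀ t ∈ Icc (0 : ℝ) 1, (ω * κ t).im ≤ 0)) ∧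
  ∀ u, Adm r A B z₁ u → u z₀ = Msup r A B z₀ z₁ →
    ∃ a b c κ v g, Crit r A B z₀ z₁ a b c κ v g ∧ (∀ t ∈ Icc (0 : ℝ) 1, r < ‖κ t‖) ∧
      ∀ z ∈ ann r, u z = (v z : EReal)

/-! ### Non-attainment -/

def S_NA0 : Prop := ∀ (r A B : ℝ) (b₀ : ℂ), 0 < r → r < 1 → A ≤ 0 → 0 < B → ‖b₀‖ = r →
  ∃ ρ > 0, ∀ (z₀ z₁ a b : ℂ) (c : ℝ) (κ : ℝ → ℂ) (v g : ℂ → ℝ), CH r A B z₀ z₁ →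
    Crit r A B z₀ z₁ a b c κ v g → ¬ κ '' Icc 0 1 ⊆ ball b₀ ρ

/-- A uniform boundary point lemma. -/
def S_NA1 : Prop := ∀ (r : ℝ) (x₀ q : ℂ) (s c : ℝ), 0 < r → x₀ ∈ ann r → x₀.im = 0 → 0 < s →
  closedBall q s ⊆ ann r ∩ upH → 0 < c → ∃ c' > 0, ∀ f : ℂ → ℝ,
    Sub (fun z => -f z) (ann r ∩ upH) → (∀ z ∈ ann r ∩ upH, 0 ≤ f z) →
    (∀ z ∈ closedBall q s, c ≤ f z) → ∀ᶠ τ : ℝ in 𝓝[>] 0, c' * τ ≤ f (x₀ + τ * I)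

def S_NA2 : Prop := ∀ (r A B : ℝ) (z₀ b₀ : ℂ), 0 < r → z₀ ∈ ann r → z₀.im = 0 → A ≤ 0 → 0 < B →
  ‖b₀‖ = r → b₀.im < 0 → ∃ c₀ > 0, ∃ d > 0, ∀ (z₁ a b : ℂ) (c : ℝ) (κ : ℝ → ℂ) (v g : ℂ → ℝ),
    z₁ ∈ ann r → dist z₁ b₀ < d → Crit r A B z₀ z₁ a b c κ v g →
    (∀ t ∈ Icc (0 : ℝ) 1, r < ‖κ t‖) → (∀ t ∈ Icc (0 : ℝ) 1, (κ t).im ≤ 0) → c₀ ≤ |a.im|

/-- The quadratic differential has an approximate double pole at the point `r`. -/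
def S_NA3 : Prop := ∀ (r : ℝ) (z₀ : ℂ) (σ c₀ C₀ ρ : ℝ) (M : ℂ → ℝ), 0 < r → z₀ ∈ ann r →
  (σ = 1 ∨ σ = -1) → 0 < c₀ → 0 < ρ → ∃ ρ₁ ρ₂ d : ℝ, 0 < d ∧ 0 < ρ₁ ∧ Real.exp 7 * ρ₁ ≤ ρ₂ ∧
    ρ₂ ≤ ρ ∧ ρ₂ ≤ r ∧ r * d ≤ ρ₁ ∧ r * (1 + d) < 1 ∧ ∀ s ∈ Ioo (1 : ℝ) (1 + d), ∀ (a b : ℂ) (c : ℝ),
      (a + b).im = 0 → c₀ ≤ |a.im| → ‖a‖ ≤ C₀ →
      (∀ z ∈ ann r, 0 < σ * z.im → z ≠ z₀ → ‖QD r z₀ (s * r) a b c z‖ ≤ M z) →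
      (∀ p : ℂ, ‖p‖ = r → (p ^ 2 * QD r z₀ (s * r) a b c p).re ≤ 0) →
      ∀ z ∈ cann r, ρ₁ ≤ ‖z - r‖ → ‖z - r‖ ≤ ρ₂ →
        0 ≤ ((z - r) ^ 2 * QD r z₀ (s * r) a b c z).re

/-- The cone lemma. -/
def S_NA4 : Prop := ∀ (r ρ₁ ρ₂ : ℝ) (Q : ℂ → ℂ) (κ : ℝ → ℂ), 0 < r → 0 < ρ₁ →
  Real.exp 7 * ρ₁ ≤ ρ₂ → ρ₂ ≤ r → ContinuousOn κ (Icc 0 1) → ‖κ 0 - r‖ ≤ ρ₁ →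
  (∀ t ∈ Icc (0 : ℝ) 1, r < ‖κ t‖) →
  (∀ t ∈ Ioo (0 : ℝ) 1, AnalyticAt ℝ κ t ∧
    ∃ ρ : ℝ, 0 < ρ ∧ Q (κ t) * deriv κ t ^ 2 = -(ρ : ℂ)) →
  (∀ t ∈ Ioo (0 : ℝ) 1, ρ₁ ≤ ‖κ t - r‖ → ‖κ t - r‖ ≤ ρ₂ →
    0 ≤ ((κ t - r) ^ 2 * Q (κ t)).re) →
  κ '' Icc 0 1 ⊆ ball (r : ℂ) ρ₂

def S_NA : Prop := ∀ (r A B : ℝ) (z₀ b₀ : ℂ), 0 < r → z₀ ∈ ann r → A ≤ 0 → 0 < B → ‖b₀‖ = r →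
  (z₀ / b₀).im ≠ 0 → ∃ d > 0, ∀ s ∈ Ioo (1 : ℝ) (1 + d),
    s * b₀ ∈ ann r ∧ 0 < hf r A B (s * b₀) ∧
      ∀ u, Adm r A B (s * b₀) u → u z₀ < Msup r A B z₀ (s * b₀)

/-! ### Opposite points -/

/-- The radial slit. -/
def slit (z₁ : ℂ) (R : ℝ) : Set ℂ := {z | ∃ s : ℝ, 1 ≤ s ∧ s * ‖z₁‖ ≤ R ∧ z = s * z₁}

def S_RAD1 : Prop := ∀ (r A B : ℝ) (z₀ z₁ a b : ℂ) (c : ℝ) (κ : ℝ → ℂ) (v g : ℂ → ℝ),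
  CH r A B z₀ z₁ → Crit r A B z₀ z₁ a b c κ v g →
  (∀ t ∈ Icc (0 : ℝ) 1, ∃ s : ℝ, 0 ≤ s ∧ κ t = s * z₁) →
  (∀ t ∈ Icc (0 : ℝ) 1, r < ‖κ t‖) ∧ ‖z₁‖ < ‖κ 1‖ ∧ κ '' Icc 0 1 = slit z₁ ‖κ 1‖ ∧
    κ 1 = (‖κ 1‖ / ‖z₁‖ : ℝ) * z₁

def S_RAD : Prop := ∀ (r A B : ℝ) (z₁ : ℂ) (t : ℝ), 0 < r → 0 < t → -(t * z₁) ∈ ann r →
  z₁ ∈ ann r → A ≤ 0 → 0 < hf r A B z₁ →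
  ∃ (R : ℝ) (v : ℂ → ℝ), ‖z₁‖ < R ∧ R ≤ 1 ∧ (R = 1 ↔ A = 0) ∧
    HarmonicOnNhd v (ann r \ slit z₁ R) ∧ ContinuousOn v (ann r) ∧
    (∀ z ∈ ann r, z ∈ slit z₁ R → v z = 0) ∧
    (A < 0 → ∃ C : ℝ, ∀ᶠ z in 𝓝 ((R / ‖z₁‖ : ℝ) * z₁),
      |v z| ≤ C * ‖z - (R / ‖z₁‖ : ℝ) * z₁‖ ^ (3 / 2 : ℝ)) ∧
    Adm r A B z₁ (fun z => (v z : EReal)) ∧
    (v (-(t * z₁)) : EReal) = Msup r A B (-(t * z₁)) z₁ ∧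
    ∀ u, Adm r A B z₁ u → u (-(t * z₁)) = Msup r A B (-(t * z₁)) z₁ →
      ∀ z ∈ ann r, u z = (v z : EReal)

end Pool.Agent.P.MP_3bd355_an
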