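import Pool.Agent.P.MP_3bd355_an.Stmts
import Pool.Agent.P.MP_3bd355_an.Defs2

/-! Statements of the packages for the explicit formula. -/

open Set Filter Metric Complex InnerProductSpace
open scoped Topology ComplexConjugate Real

namespace Pool.Agent.P.MP_3bd355_an

/-- The radial solution. -/
structure RS (r A B x R : ℝ) (v : ℂ → ℝ) : Prop where
  r0 : 0 < r
  rx : r < x
  xR : x < R
  R1 : R ≤ 1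
  A0 : A ≤ 0
  B0 : 0 < B
  RA : R = 1 ↔ A = 0
  harm : HarmonicOnNhd v (ann r \ seg x R)
  cont : ContinuousOn v (ann r)
  zero : ∀ z ∈ ann r, z ∈ seg x R → v z = 0
  outer : ∀ p : ℂ, ‖p‖ = 1 → Tendsto v (𝓝[ann r] p) (𝓝 A)
  inner : ∀ p : ℂ, ‖p‖ = r → Tendsto v (𝓝[ann r] p) (𝓝 B)
  bnd : ∀ z ∈ ann r, A ≤ v z ∧ v z ≤ B
  pos : ∀ᶠ z in 𝓝 (x : ℂ), 0 ≤ v z
  tip : R < 1 → ∃ C : ℝ, ∀ᶠ z in 𝓝 (R : ℂ), |v z| ≤ C * ‖z - R‖ ^ (3 / 2 : ℝ)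
  symm : ∀ z ∈ ann r, v (conj z) = v z

/-- The logarithmic gradient. -/
noncomputable def LGr (v : ℂ → ℝ) (z : ℂ) : ℂ := z * grad v z

/-- Existence of the radial solution. -/
def S_X0 : Prop := ∀ r A B x x₀ : ℝ, 0 < r → r < x → x < 1 → r < x₀ → x₀ < 1 → A ≤ 0 →
  0 < hf r A B x → ∃ (R : ℝ) (v : ℂ → ℝ), RS r A B x R v ∧
    Adm r A B x (fun z => (v z : EReal)) ∧ (v (-x₀) : EReal) = Msup r A B (-x₀) x ∧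
    ∀ u, Adm r A B x u → u (-x₀) = Msup r A B (-x₀) x → ∀ z ∈ ann r, u z = (v z : EReal)

/-- Points of the two circles. -/
def S_X1 : Prop := ∀ (r A B x R : ℝ) (v : ℂ → ℝ) (p : ℂ), RS r A B x R v →
  (‖p‖ = r ∨ ‖p‖ = 1) → p ∉ seg x R → ∃ c : ℝ, c ≤ 0 ∧ Tendsto (LGr v) (𝓝[ann r] p) (𝓝 (c : ℂ))

/-- Interior points of the slit. -/
def S_X2 : Prop := ∀ (r A B x R : ℝ) (v : ℂ → ℝ) (t : ℝ), RS r A B x R v → x < t → t < R →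
  ∃ β : ℝ, Tendsto (fun z => LGr v z ^ 2) (𝓝[ann r \ seg x R] (t : ℂ)) (𝓝 ((-β ^ 2 : ℝ) : ℂ)) ∧
    Tendsto (fun z => (LGr v z).re) (𝓝[ann r \ seg x R] (t : ℂ)) (𝓝 0)

/-- The end of the slit. -/
def S_X3 : Prop := ∀ (r A B x R : ℝ) (v : ℂ → ℝ), RS r A B x R v →
  ∃ C : ℝ, ∀ᶠ z in 𝓝[ann r \ seg x R] (R : ℂ), ‖LGr v z‖ ≤ C

/-- The pole. -/
def S_X4 : Prop := ∀ (r A B x R : ℝ) (v : ℂ → ℝ), RS r A B x R v →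
  ∃ b C : ℝ, 0 ≤ b ∧ ∀ᶠ z in 𝓝[ann r \ seg x R] (x : ℂ),
    ‖LGr v z ^ 2 - b * Kc r x z‖ ≤ C ∧ (LGr v z).re ≤ C

/-- The differential equation. -/
def S_X5 : Prop := ∀ (r A B x R : ℝ) (v : ℂ → ℝ), RS r A B x R v → ∃ b : ℝ, 0 < b ∧
  (∀ z ∈ ann r \ seg x R, LGr v z ^ 2 = b * (Kc r x z - (Kc r x R).re) ∧ (LGr v z).re < 0) ∧
    ∀ t ∈ Ioo x R, (Kc r x t).re ≤ (Kc r x R).re

/-- The integrals. -/
def S_X6 : Prop := ∀ (r A B x R b : ℝ) (v : ℂ → ℝ), RS r A B x R v → 0 < b →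
  (∀ z ∈ ann r \ seg x R, LGr v z ^ 2 = b * (Kc r x z - (Kc r x R).re) ∧ (LGr v z).re < 0) →
  (∀ t ∈ Ioo x R, (Kc r x t).re ≤ (Kc r x R).re) →
  IntervalIntegrable (fun s : ℝ => √(max ((Kc r x ((1 * s : ℝ) : ℂ)).re - (Kc r x R).re) 0) / s)
      MeasureTheory.volume r x ∧
    (∀ t ∈ Ioo r x, (Kc r x R).re < (Kc r x t).re) ∧
    B = √b * Jint r x (Kc r x R).re 1 r x ∧ -A = √b * Jint r x (Kc r x R).re 1 x 1 ∧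
    ∀ x₀ ∈ Ioo r 1, v (-(x₀ : ℝ)) = A + √b * Jint r x (Kc r x R).re (-1) x₀ 1

/-- Uniqueness of the parameter. -/
def S_X7 : Prop := ∀ r A B x κ κ' : ℝ, 0 < r → r < x → x < 1 → A ≤ 0 → 0 < B →
  IntervalIntegrable (fun s : ℝ => √(max ((Kc r x ((1 * s : ℝ) : ℂ)).re - (Kc r x 1).re) 0) / s)
      MeasureTheory.volume r x →
  (∀ t ∈ Ioo r x, (Kc r x 1).re < (Kc r x t).re) →
  (∀ t ∈ Ioo x 1, (Kc r x t).re ≤ (Kc r x 1).re) →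
  κ ≤ (Kc r x 1).re → κ' ≤ (Kc r x 1).re →
  B * Jint r x κ 1 x 1 = -A * Jint r x κ 1 r x → B * Jint r x κ' 1 x 1 = -A * Jint r x κ' 1 r x →
  κ = κ'

/-- Monotonicity in the angle. -/
def S_X8 : Prop := ∀ (r A B : ℝ) (z z' z₁ : ℂ), 0 < r → z ∈ ann r → z₁ ∈ ann r → A ≤ 0 →
  0 < hf r A B z₁ → ‖z'‖ = ‖z‖ → ‖z' - z₁‖ ≤ ‖z - z₁‖ → Msup r A B z' z₁ ≤ Msup r A B z z₁

end Pool.Agent.P.MP_3bd355_an
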