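import Mathlib
import Pool.Agent.P.MP_3bd355_an.Fin

namespace Pool.Agent.P.MP_3bd355_an.StructureOld

open Set Pool.Agent.P.MP_3bd355_an

/-- `M` is the largest value of a critical configuration, and the extremal functions are exactly
the functions of the maximal critical configurations whose arc avoids the inner circle. -/
theorem result (r A B : ℝ) (z₀ z₁ : ℂ) (hr : 0 < r) (h₀ : z₀ ∈ ann r) (h₁ : z₁ ∈ ann r)
    (hA : A ≤ 0) (hh : 0 < hf r A B z₁)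
    (hp : (∀ t : ℝ, 0 < t → z₀ ≠ t * z₁) ∨ (A = 0 ∧ z₀ ≠ z₁) ∨ Msup r A B z₀ z₁ ≠ 0) :
    IsGreatest {x : EReal | ∃ (a b : ℂ) (c : ℝ) (κ : ℝ → ℂ) (v g : ℂ → ℝ),
        Crit r A B z₀ z₁ a b c κ v g ∧ x = (v z₀ : EReal)} (Msup r A B z₀ z₁) ∧
      ∀ u : ℂ → EReal, (Adm r A B z₁ u ∧ u z₀ = Msup r A B z₀ z₁) ↔
        ∃ (a b : ℂ) (c : ℝ) (κ : ℝ → ℂ) (v g : ℂ → ℝ), Crit r A B z₀ z₁ a b c κ v g ∧
          (∀ t ∈ Icc (0 : ℝ) 1, r < ‖κ t‖) ∧ (v z₀ : EReal) = Msup r A B z₀ z₁ ∧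
          ∀ z ∈ ann r, u z = (v z : EReal) :=
  structure_thm r A B z₀ z₁ hr h₀ h₁ hA hh hp

end Pool.Agent.P.MP_3bd355_an.StructureOld
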