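import Pool.Agent.P.MP_3bd355_an.Grad

/-! Subharmonic functions: local characterisation, operations, maximum principles. -/

open Set Filter Metric Complex InnerProductSpace
open scoped Topology ComplexConjugate Real

namespace Pool.Agent.P.MP_3bd355_an

namespace Sub1P

/-- The weak maximum principle on a compact set. -/
theorem weak {w : ℂ → ℝ} {K : Set ℂ} (hK : IsCompact K) (hw : UpperSemicontinuousOn w K) {m : ℝ}
    (h : ∀ c ∈ K, m < w c → ∃ ρ > 0, closedBall c ρ ⊆ K ∧ ∀ g : ℂ → ℝ,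
      HarmonicContOnCl g (ball c ρ) → (∀ z ∈ sphere c ρ, w z ≤ g z) → w c ≤ g c) :
    ∀ z ∈ K, w z ≤ m := by
  intro z hz
  obtain ⟨a, ha, hmax⟩ := hw.exists_isMaxOn ⟨z, hz⟩ hK
  obtain ⟨c, ⟨hcK, hc⟩, hfar⟩ := (hw.isCompact_inter_preimage_Ici hK (w a)).exists_isMaxOn
    ⟨a, ha, (le_rfl : w a ≤ w a)⟩ continuous_norm.continuousOn
  by_contra hm
  have hc' : w a ≤ w c := hc
  obtain ⟨ρ, hρ, hb, hg⟩ := h c hcK ((not_le.1 hm).trans_le ((hmax hz).trans hc'))
  set l : ℂ → ℝ := fun y => ρ ^ 2 / 2 + 2 * ((y - c) * conj c).re with hl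
  have cl : Continuous l := by simp only [hl]; fun_prop
  have hsK : sphere c ρ ⊆ K := sphere_subset_closedBall.trans hb
  obtain ⟨ε, hε, h1⟩ : ∃ ε > 0, ∀ y ∈ sphere c ρ, 0 ≤ l y → w y ≤ w a - ε * l y := by
    have hA : IsCompact (sphere c ρ ∩ l ⁻¹' Ici 0) :=
      (isCompact_sphere c ρ).inter_right (isClosed_Ici.preimage cl)
    rcases (sphere c ρ ∩ l ⁻¹' Ici 0).eq_empty_or_nonempty with h0 | h0
    · exact ⟨1, one_pos, fun y h1 h2 => absurd h0 (Nonempty.ne_empty ⟨y, h1, h2⟩)⟩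
    obtain ⟨b, hb1, hb2⟩ := (hw.mono (inter_subset_left.trans hsK)).exists_isMaxOn h0 hA
    obtain ⟨B, hB⟩ := (isCompact_sphere c ρ).exists_bound_of_continuousOn cl.continuousOn
    have hB0 : 0 ≤ B := (norm_nonneg _).trans (hB b hb1.1)
    have hlt : w b < w a := by
      by_contra h2
      have h3 : ‖b‖ ≤ ‖c‖ := hfar ⟨hsK hb1.1, not_lt.1 h2⟩
      have h4 : ‖b‖ ^ 2 = ρ ^ 2 + ‖c‖ ^ 2 + 2 * ((b - c) * conj c).re := by
        rw [← mem_sphere_iff_norm.1 hb1.1, ← normSq_eq_norm_sq, ← normSq_eq_norm_sq,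
          ← normSq_eq_norm_sq, ← normSq_add, sub_add_cancel]
      have h5 : 0 ≤ l b := hb1.2
      simp only [hl] at h5
      nlinarith [norm_nonneg b, pow_pos hρ 2]
    refine ⟨(w a - w b) / (B + 1), div_pos (by linarith) (by linarith), fun y h1 h2 => ?_⟩
    have h3 : w y ≤ w b := hb2 ⟨h1, h2⟩
    have h4 : l y ≤ B + 1 := by linarith [le_abs_self (l y), (Real.norm_eq_abs _).ge.trans (hB y h1)]
    have h5 : (w a - w b) / (B + 1) * l y ≤ w a - w b := by
      rw [div_mul_eq_mul_div, div_le_iff₀ (by linarith)]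
      exact mul_le_mul_of_nonneg_left h4 (by linarith)
    linarith
  have h2 := hg (fun y => w a - ε * l y) (HarmonicOnNhd.harmonicContOnCl fun y _ => ?_)
    fun y hy => ?_
  · simp only [hl, sub_self, zero_mul, zero_re] at h2
    nlinarith [mul_pos hε (pow_pos hρ 2)]
  · have : AnalyticAt ℂ (fun y : ℂ => (w a : ℂ) - (ε : ℂ) * (((ρ ^ 2 / 2 : ℝ) : ℂ) +
        ((2 : ℝ) : ℂ) * ((y - c) * conj c))) y := by fun_prop
    refine (harmonicAt_congr_nhds (Eventually.of_forall fun y => ?_)).1 this.harmonicAt_re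
    simp only [hl, add_re, ofReal_re, re_ofReal_mul, sub_re]
  · rcases le_total 0 (l y) with h3 | h3
    · exact h1 y hy h3
    · have : w y ≤ w a := hmax (hsK hy)
      nlinarith

theorem ev_closedBall {U : Set ℂ} {c : ℂ} (h : U ∈ 𝓝 c) :
    ∀ᶠ ρ in 𝓝[>] (0 : ℝ), 0 < ρ ∧ closedBall c ρ ⊆ U :=
  (eventually_mem_nhdsWithin.and ((eventually_closedBall_subset h).filter_mono nhdsWithin_le_nhds))

theorem harm_ball {g : ℂ → ℝ} {U : Set ℂ} (hg : HarmonicOnNhd g U) {c : ℂ} {ρ : ℝ}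
    (h : closedBall c ρ ⊆ U) : HarmonicContOnCl g (ball c ρ) :=
  HarmonicOnNhd.harmonicContOnCl (hg.mono (closure_ball_subset_closedBall.trans h))

theorem center_eq {g : ℂ → ℝ} {c : ℂ} {ρ : ℝ} (hρ : 0 < ρ) (hg : HarmonicContOnCl g (ball c ρ)) :
    Real.circleAverage g c ρ = g c :=
  InnerProductSpace.HarmonicContOnCl.circleAverage_eq (by rwa [abs_of_pos hρ])

theorem center_pos {g : ℂ → ℝ} {c y : ℂ} {ρ : ℝ} (hρ : 0 < ρ) (hg : HarmonicContOnCl g (ball c ρ))
    (h0 : ∀ z ∈ sphere c ρ, 0 ≤ g z) (hy : y ∈ sphere c ρ) (h1 : 0 < g y) : 0 < g c := by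
  rw [← center_eq hρ hg, Real.circleAverage_def, smul_eq_mul]
  have hs : ∀ θ, circleMap c ρ θ ∈ sphere c ρ := circleMap_mem_sphere c hρ.le
  refine mul_pos (by positivity) (intervalIntegral.integral_pos Real.two_pi_pos
    ((hg.continuousOn_ball.mono sphere_subset_closedBall).comp_continuous
      (continuous_circleMap c ρ) hs).continuousOn (fun θ _ => h0 _ (hs θ)) ?_)
  rw [← abs_of_pos hρ, ← image_circleMap_Ioc] at hy
  obtain ⟨θ, h2, rfl⟩ := hy
  exact ⟨θ, Ioc_subset_Icc_self h2, h1⟩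

theorem le_of_eps {a b d : ℝ} (h : ∀ ε > 0, a ≤ b + ε * d) : a ≤ b := by
  have : Tendsto (fun ε : ℝ => b + ε * d) (𝓝[>] 0) (𝓝 (b + 0 * d)) :=
    (Continuous.tendsto (by fun_prop) 0).mono_left nhdsWithin_le_nhds
  rw [zero_mul, add_zero] at this
  exact ge_of_tendsto this (eventually_mem_nhdsWithin.mono h)

end Sub1P

open Sub1P

/-- The local criterion. -/
theorem Sub.of_center {u : ℂ → ℝ} {U : Set ℂ} (hU : IsOpen U) (hu : UpperSemicontinuousOn u U)
    (h : ∀ c ∈ U, ∃ᶠ ρ in 𝓝[>] (0 : ℝ), ∀ g : ℂ → ℝ, HarmonicContOnCl g (ball c ρ) →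
      (∀ z ∈ sphere c ρ, u z ≤ g z) → u c ≤ g c) : Sub u U := by
  refine ⟨hu, fun c ρ hρ hb g hg h1 z hz => ?_⟩
  have := weak (w := fun y => u y + -g y) (isCompact_closedBall c ρ)
    ((hu.mono hb).add hg.continuousOn_ball.neg.upperSemicontinuousOn) (m := 0) ?_ z
    (ball_subset_closedBall hz)
  · linarith
  intro a ha h2
  have ha' : a ∈ ball c ρ := by
    rw [← ball_union_sphere] at ha
    exact ha.resolve_right fun h3 => by linarith [h1 a h3]
  obtain ⟨r, h3, h4, h5⟩ :=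
    ((h a (hb ha)).and_eventually (ev_closedBall (isOpen_ball.mem_nhds ha'))).exists
  refine ⟨r, h4, h5.trans ball_subset_closedBall, fun k hk h6 => ?_⟩
  have := h3 (fun y => k y + g y) (hk.add (hg.mono (ball_subset_closedBall.trans h5)))
    fun y hy => by linarith [h6 y hy]
  linarith

theorem Sub.mono {u : ℂ → ℝ} {U V : Set ℂ} (hu : Sub u U) (h : V ⊆ U) : Sub u V :=
  ⟨hu.1.mono h, fun c ρ hρ hb => hu.2 c ρ hρ (hb.trans h)⟩

theorem Sub.of_harm {u : ℂ → ℝ} {U : Set ℂ} (hu : HarmonicOnNhd u U) : Sub u U := by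
  have h0 : HarmonicOnNhd u {x | HarmonicAt u x} := fun _ h => h
  refine (Sub.of_center (isOpen_setOfPred_harmonicAt (f := u))
    h0.continuousOn.upperSemicontinuousOn fun c hc => ?_).mono hu
  refine Eventually.frequently ?_
  filter_upwards [ev_closedBall ((isOpen_setOfPred_harmonicAt (f := u)).mem_nhds hc)] with ρ h g hg h1
  have h2 := center_eq h.1 (hg.sub (harm_ball h0 h.2))
  have h3 := Real.circleAverage_nonneg_of_nonneg (c := c) (R := ρ) (f := g - u) fun x hx => by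
    rw [abs_of_pos h.1] at hx
    exact sub_nonneg.2 (h1 x hx)
  rw [h2] at h3
  exact sub_nonneg.1 h3

theorem Sub.const (c : ℝ) (U : Set ℂ) : Sub (fun _ => c) U :=
  Sub.of_harm (harmonicOnNhd_const c)

theorem Sub.congr {u w : ℂ → ℝ} {U : Set ℂ} (hu : Sub u U) (h : EqOn w u U) : Sub w U := by
  refine ⟨fun z hz => UpperSemicontinuousWithinAt.congr_of_eventuallyEq (hu.1 z hz) hz
    (eventually_mem_nhdsWithin.mono fun y hy => (h hy).symm), fun c ρ hρ hb g hg h1 z hz => ?_⟩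
  rw [h (hb (ball_subset_closedBall hz))]
  exact hu.2 c ρ hρ hb g hg (fun y hy => h (hb (sphere_subset_closedBall hy)) ▸ h1 y hy) z hz

theorem Sub.of_local {u : ℂ → ℝ} {U : Set ℂ} (hU : IsOpen U)
    (h : ∀ z ∈ U, ∃ V ∈ 𝓝 z, Sub u V) : Sub u U := by
  refine Sub.of_center hU (fun z hz y hy => ?_) fun c hc => ?_
  · obtain ⟨V, h1, h2⟩ := h z hz
    have := h2.1 z (mem_of_mem_nhds h1) y hy
    rw [nhdsWithin_eq_nhds.2 h1] at this
    exact this.filter_mono nhdsWithin_le_nhds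
  · obtain ⟨V, h1, h2⟩ := h c hc
    refine Eventually.frequently ?_
    filter_upwards [ev_closedBall h1] with ρ h3 g hg h4
    exact h2.2 c ρ h3.1 h3.2 g hg h4 c (mem_ball_self h3.1)

theorem Sub.add_harm {u g : ℂ → ℝ} {U : Set ℂ} (hu : Sub u U) (hg : HarmonicOnNhd g U) :
    Sub (fun z => u z + g z) U := by
  refine ⟨hu.1.add hg.continuousOn.upperSemicontinuousOn, fun c ρ hρ hb k hk h1 z hz => ?_⟩
  have := hu.2 c ρ hρ hb (fun y => k y - g y) (hk.sub (harm_ball hg hb))
    (fun y hy => by linarith [h1 y hy]) z hz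
  linarith

theorem Sub.sub_harm {u g : ℂ → ℝ} {U : Set ℂ} (hu : Sub u U) (hg : HarmonicOnNhd g U) :
    Sub (fun z => u z - g z) U := by
  simpa only [sub_eq_add_neg] using hu.add_harm (g := fun z => -g z) hg.neg

theorem Sub.const_mul {u : ℂ → ℝ} {U : Set ℂ} (hu : Sub u U) {c : ℝ} (hc : 0 ≤ c) :
    Sub (fun z => c * u z) U := by
  rcases hc.eq_or_lt with rfl | hc'
  · simpa only [zero_mul] using Sub.const 0 U
  refine ⟨(continuous_const_mul c).comp_upperSemicontinuousOn hu.1 (monotone_mul_left_of_nonneg hc),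
    fun a ρ hρ hb k hk h1 z hz => ?_⟩
  have := hu.2 a ρ hρ hb (fun y => c⁻¹ * k y) (hk.const_smul c⁻¹)
    (fun y hy => (le_inv_mul_iff₀ hc').2 (h1 y hy)) z hz
  exact (le_inv_mul_iff₀ hc').1 this

theorem Sub.max {u w : ℂ → ℝ} {U : Set ℂ} (hu : Sub u U) (hw : Sub w U) :
    Sub (fun z => max (u z) (w z)) U :=
  ⟨hu.1.sup hw.1, fun c ρ hρ hb k hk h1 z hz => max_le
    (hu.2 c ρ hρ hb k hk (fun y hy => (le_max_left _ _).trans (h1 y hy)) z hz)
    (hw.2 c ρ hρ hb k hk (fun y hy => (le_max_right _ _).trans (h1 y hy)) z hz)⟩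

theorem Sub.add {u w : ℂ → ℝ} {U : Set ℂ} (hu : Sub u U) (hw : Sub w U) :
    Sub (fun z => u z + w z) U := by
  refine ⟨hu.1.add hw.1, fun c ρ hρ hb k hk h1 z hz => le_of_eps (d := 3) fun ε hε => ?_⟩
  have hs : sphere c ρ ⊆ U := sphere_subset_closedBall.trans hb
  obtain ⟨f, hf⟩ := exists_continuous_forall_mem_convex_of_local_const
    (t := fun x : ℂ => ⋂ _ : x ∈ sphere c ρ, Icc (u x) (k x - w x + ε * 3))
    (fun x => convex_iInter fun _ => convex_Icc _ _) fun x => by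
      refine ⟨u x + ε, ?_⟩
      simp only [mem_iInter]
      by_cases hx : x ∈ sphere c ρ
      · rw [← eventually_nhdsWithin_iff]
        filter_upwards [(hu.1.mono hs) x hx (u x + ε) (by linarith),
          (hw.1.mono hs) x hx (w x + ε) (by linarith),
          (hk.continuousOn_ball.mono sphere_subset_closedBall x hx).eventually
            (lt_mem_nhds (show k x - ε < k x by linarith))] with y a1 a2 a3
        exact ⟨a1.le, by linarith [h1 x hx]⟩
      · filter_upwards [isClosed_sphere.isOpen_compl.mem_nhds hx] with y a1 a2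
        exact absurd a2 a1
  simp only [mem_iInter] at hf
  obtain ⟨P, h2, h3⟩ := exists_poisson (c := c) hρ f.continuous.continuousOn
  have h4 := hu.2 c ρ hρ hb P h2 (fun y hy => h3 hy ▸ (hf y hy).1) z hz
  have h5 := hw.2 c ρ hρ hb (fun y => k y - P y + ε * 3) ((hk.sub h2).add_const _)
    (fun y hy => by linarith [(hf y hy).2, h3 hy]) z hz
  linarith

/-- The strong maximum principle. -/
theorem Sub.strong {u : ℂ → ℝ} {U : Set ℂ} (hu : Sub u U) (hU : IsOpen U) (hc : IsPreconnected U)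
    {z : ℂ} (hz : z ∈ U) (hmax : ∀ y ∈ U, u y ≤ u z) : ∀ y ∈ U, u y = u z := by
  have hlt : ∀ y ∈ U, ∀ m, u y < m → ∀ᶠ x in 𝓝 y, u x < m := fun y hy m h => by
    have := hu.1 y hy m h
    rwa [hU.nhdsWithin_eq hy] at this
  have key : ∀ a ∈ U, u a = u z → ∀ᶠ y in 𝓝 a, u y = u z := by
    intro a ha h1
    obtain ⟨ρ, hρ, hb⟩ := nhds_basis_closedBall.mem_iff.1 (hU.mem_nhds ha)
    filter_upwards [closedBall_mem_nhds a hρ] with y hy
    by_contra h2
    have h3 : u y < u z := (hmax y (hb hy)).lt_of_ne h2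
    have hr : 0 < dist y a := dist_pos.2 fun h => h2 (h ▸ h1)
    obtain ⟨δ, hδ, h4⟩ := Metric.eventually_nhds_iff.1
      (hlt y (hb hy) ((u y + u z) / 2) (by linarith))
    obtain ⟨P, h5, h6⟩ := exists_poisson (c := a) hr
      (f := fun x => (u z - u y) / 2 * Max.max 0 (1 - dist x y / δ)) (by fun_prop)
    have hb' : closedBall a (dist y a) ⊆ U := (closedBall_subset_closedBall hy).trans hb
    have h7 := center_pos hr h5 (fun x hx => by rw [h6 hx]; exact mul_nonneg (by linarith) (le_max_left _ _))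
      (y := y) rfl (by rw [h6 rfl]; simp; linarith)
    have h8 := hu.2 a _ hr hb' (fun x => u z - P x) (h5.const_sub _) (fun x hx => ?_) a
      (mem_ball_self hr)
    · linarith
    rw [h6 hx]
    beta_reduce
    by_cases h9 : dist x y < δ
    · have := h4 h9
      have h10 : Max.max 0 (1 - dist x y / δ) ≤ 1 :=
        max_le zero_le_one (sub_le_self _ (by positivity))
      nlinarith
    · rw [max_eq_left (sub_nonpos.2 ((one_le_div hδ).2 (not_lt.1 h9)))]
      linarith [hmax x (hb' (sphere_subset_closedBall hx))]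
  have := hc.subset_left_of_subset_union (u := {a | ∀ᶠ y in 𝓝 a, u y = u z})
    (v := {a | ∀ᶠ y in 𝓝 a, u y < u z}) isOpen_setOfPred_eventually_nhds
    isOpen_setOfPred_eventually_nhds
    (disjoint_left.2 fun a h1 h2 => h2.self_of_nhds.ne h1.self_of_nhds)
    (fun a ha => (hmax a ha).eq_or_lt.imp (key a ha) (hlt a ha _)) ⟨z, hz, key z hz rfl⟩
  exact fun y hy => (this hy).self_of_nhds

/-- The maximum principle. -/
theorem Sub.mp0 {u : ℂ → ℝ} {U : Set ℂ} (hu : Sub u U) (hU : IsOpen U)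
    (hb : Bornology.IsBounded U) {c : ℝ} (h : ∀ p ∈ frontier U, LS u U p c) :
    ∀ z ∈ U, u z ≤ c := by
  classical
  have hv : Sub (fun z => if z ∈ U then Max.max (u z) c else c) U :=
    (hu.max (Sub.const c U)).congr fun z hz => if_pos hz
  intro z hz
  have := weak (w := fun z => if z ∈ U then Max.max (u z) c else c) hb.isCompact_closure
    (fun p hp y hy => ?_) (m := c) (fun a _ h1 => ?_) z (subset_closure hz)
  · rw [if_pos hz] at this
    exact (le_max_left _ _).trans this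
  · by_cases hpU : p ∈ U
    · have := hv.1 p hpU y hy
      rw [hU.nhdsWithin_eq hpU] at this
      exact this.filter_mono nhdsWithin_le_nhds
    · simp only [if_neg hpU] at hy
      have := h p (hU.frontier_eq ▸ ⟨hp, hpU⟩) (y - c) (sub_pos.2 hy)
      rw [eventually_nhdsWithin_iff] at this
      filter_upwards [this.filter_mono nhdsWithin_le_nhds] with x hx
      split_ifs with h2
      · exact max_lt (by linarith [hx h2]) hy
      · exact hy
  · have haU : a ∈ U := by
      by_contra h2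
      rw [if_neg h2] at h1
      exact h1.false
    obtain ⟨ρ, hρ, h2⟩ := nhds_basis_closedBall.mem_iff.1 (hU.mem_nhds haU)
    exact ⟨ρ, hρ, h2.trans subset_closure, fun g hg h3 =>
      hv.2 a ρ hρ h2 g hg h3 a (mem_ball_self hρ)⟩

/-- The maximum principle with a finite exceptional set. -/
theorem Sub.mpx {u : ℂ → ℝ} {U : Set ℂ} (hu : Sub u U) (hU : IsOpen U)
    (hb : Bornology.IsBounded U) (hM : ∃ M : ℝ, ∀ z ∈ U, u z ≤ M) {S : Set ℂ} (hS : S.Finite)
    {c : ℝ} (h : ∀ p ∈ frontier U, p ∉ S → LS u U p c) : ∀ z ∈ U, u z ≤ c := by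
  obtain ⟨M, hM⟩ := hM
  lift S to Finset ℂ using hS
  obtain ⟨D, hD⟩ := Metric.isBounded_iff.1 (hb.union S.finite_toSet.isBounded)
  have hc : IsClosed (S : Set ℂ) := S.finite_toSet.isClosed
  set g : ℂ → ℂ → ℝ := fun s z => Real.log ‖z - s‖ - Real.log D with hg
  have g0 : ∀ z ∈ U \ S, ∀ s ∈ S, g s z ≤ 0 := fun z hz s hs =>
    sub_nonpos.2 (Real.log_le_log (norm_pos_iff.2 (sub_ne_zero.2 fun e => hz.2 (e ▸ hs)))
      ((dist_eq_norm z s).ge.trans (hD (Or.inl hz.1) (Or.inr hs))))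
  have h1 : ∀ z ∈ U \ S, u z ≤ c := fun z hz => le_of_eps (d := -∑ s ∈ S, g s z) fun ε hε => by
    have := ((hu.mono sdiff_subset).add_harm (g := fun z => ε * ∑ s ∈ S, g s z)
      fun y hy => harm_const_mul (harm_sum S fun s hs =>
        (harm_log fun e => hy.2 (e ▸ hs)).sub (harmonicAt_const _)) ε).mp0 (hU.sdiff hc)
      (hb.subset sdiff_subset) (c := c) (fun p hp => ?_) z hz
    · linarith
    by_cases hpS : p ∈ S
    · refine LS.of_eventually ?_
      have h2 : Tendsto (fun z => Real.log ‖z - p‖) (𝓝[U \ S] p) atBot :=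
        Real.tendsto_log_nhdsNE_zero.comp ((tendsto_norm_sub_self_nhdsNE p).mono_right
          (nhdsWithin_mono _ fun _ hx => ne_of_gt hx) |>.mono_left
          (nhdsWithin_mono _ fun x hx e => hx.2 ((mem_singleton_iff.1 e) ▸ hpS)))
      filter_upwards [h2.eventually_le_atBot ((c - M) / ε + Real.log D), self_mem_nhdsWithin]
        with x h3 hx
      have h4 : ∑ s ∈ S, g s x ≤ g p x := by
        simpa only [Finset.sum_neg_distrib, neg_le_neg_iff] using Finset.single_le_sum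
          (f := fun s => -g s x) (fun s hs => neg_nonneg.2 (g0 x hx s hs)) hpS
      have h5 : g p x ≤ (c - M) / ε := by simp only [hg]; linarith
      have h6 := (le_div_iff₀ hε).1 (h4.trans h5)
      linarith [hM x hx.1]
    · have h2 : p ∈ frontier U := by
        rcases frontier_inter_subset U (S : Set ℂ)ᶜ hp with h3 | h3
        · exact h3.1
        · rw [frontier_compl] at h3
          exact absurd (hc.frontier_subset h3.2) hpS
      refine ((h p h2 hpS).mono sdiff_subset).of_le (eventually_mem_nhdsWithin.mono fun x hx => ?_)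
      nlinarith [Finset.sum_nonpos (g0 x hx)]
  intro z hz
  obtain ⟨ρ, hρ, h2⟩ := nhds_basis_closedBall.mem_iff.1 (inter_mem (hU.mem_nhds hz)
    ((S.finite_toSet.subset (sdiff_subset (t := {z}))).isClosed.isOpen_compl.mem_nhds
      fun h => h.2 rfl))
  refine hu.2 z ρ hρ (h2.trans inter_subset_left) (fun _ => c) harmonicContOnCl_const
    (fun y hy => ?_) z (mem_ball_self hρ)
  have h3 := h2 (sphere_subset_closedBall hy)
  refine h1 y ⟨h3.1, fun h4 => h3.2 ⟨h4, fun e => ?_⟩⟩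
  rw [mem_singleton_iff.1 e, mem_sphere, dist_self] at hy
  exact hρ.ne hy

/-- The maximum principle in an unbounded domain that omits a disc. -/
theorem Sub.mpx_unb {u : ℂ → ℝ} {U : Set ℂ} (hu : Sub u U) (hU : IsOpen U) {a : ℂ} {ρ : ℝ}
    (hρ : 0 < ρ) (ha : Disjoint (ball a ρ) U) (hM : ∃ M : ℝ, ∀ z ∈ U, u z ≤ M) {S : Set ℂ}
    (hS : S.Finite) {c : ℝ} (h : ∀ p ∈ frontier U, p ∉ S → LS u U p c) : ∀ z ∈ U, u z ≤ c := by
  obtain ⟨M, hM⟩ := hM
  have h0 : ∀ z ∈ U, ρ ≤ ‖z - a‖ := fun z hz =>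
    not_lt.1 fun h1 => disjoint_left.1 ha (mem_ball_iff_norm.2 h1) hz
  have hne : ∀ z ∈ U, z ≠ a := fun z hz e => by
    have := h0 z hz
    rw [e, sub_self, norm_zero] at this
    linarith
  have g0 : ∀ z ∈ U, 0 ≤ Real.log ‖z - a‖ - Real.log ρ := fun z hz =>
    sub_nonneg.2 (Real.log_le_log hρ (h0 z hz))
  intro z hz
  refine le_of_eps (d := Real.log ‖z - a‖ - Real.log ρ) fun ε hε => ?_
  obtain ⟨R, hR1, hR2⟩ := ((eventually_gt_atTop ‖z - a‖).and
    (Real.tendsto_log_atTop.eventually_ge_atTop ((M - c) / ε + Real.log ρ))).exists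
  have hR : 0 < R := (norm_nonneg _).trans_lt hR1
  have := ((hu.mono inter_subset_left).sub_harm
    (g := fun z => ε * (Real.log ‖z - a‖ - Real.log ρ)) fun y hy =>
      harm_const_mul ((harm_log (hne y hy.1)).sub (harmonicAt_const _)) ε).mpx
    (hU.inter (isOpen_ball (x := a) (ε := R))) (isBounded_ball.subset inter_subset_right)
    ⟨M, fun y hy => by nlinarith [hM y hy.1, g0 y hy.1]⟩ hS (c := c) (fun p hp hpS => ?_) z
    ⟨hz, mem_ball_iff_norm.2 hR1⟩
  · linarith
  rcases frontier_inter_subset _ _ hp with h3 | h3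
  · refine ((h p h3.1 hpS).mono inter_subset_left).of_le
      (eventually_mem_nhdsWithin.mono fun x hx => ?_)
    nlinarith [g0 x hx.1]
  · have h4 : ‖p - a‖ = R := mem_sphere_iff_norm.1 (frontier_ball_subset_sphere h3.2)
    have h5 : ContinuousAt (fun x => M - ε * (Real.log ‖x - a‖ - Real.log ρ)) p :=
      continuousAt_const.sub (continuousAt_const.mul ((ContinuousAt.log (by fun_prop)
        (h4 ▸ hR.ne')).sub continuousAt_const))
    refine (LS.of_tendsto (h5.tendsto.mono_left nhdsWithin_le_nhds) ?_).of_le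
      (eventually_mem_nhdsWithin.mono fun x hx => by linarith [hM x hx.1])
    have := (div_le_iff₀ hε).1 (le_sub_iff_add_le.2 hR2)
    rw [h4]
    linarith

end Pool.Agent.P.MP_3bd355_an
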