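import Pool.Agent.P.MP_3bd355_an.Sub1

/-! Subharmonic functions: gluing, removable points, composition, limits. -/

open Set Filter Metric Complex InnerProductSpace
open scoped Topology ComplexConjugate Real

namespace Pool.Agent.P.MP_3bd355_an

namespace Sub2P

theorem ev_ball {c : ℂ} {V : Set ℂ} (hV : V ∈ 𝓝 c) :
    ∀ᶠ ρ in 𝓝[>] (0 : ℝ), 0 < ρ ∧ closedBall c ρ ⊆ V :=
  (eventually_mem_nhdsWithin).and (nhdsWithin_le_nhds (eventually_closedBall_subset hV))

theorem ex_ball {c : ℂ} {V : Set ℂ} (hV : V ∈ 𝓝 c) : ∃ ρ : ℝ, 0 < ρ ∧ closedBall c ρ ⊆ V :=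
  (ev_ball hV).exists

/-- Comparison with a harmonic function that is continuous up to the boundary. -/
theorem cmp {u g : ℂ → ℝ} {W : Set ℂ} (hu : Sub u W) (hW : IsOpen W)
    (hb : Bornology.IsBounded W) (hg : HarmonicOnNhd g W) (hc : ContinuousOn g (closure W))
    (h : ∀ p ∈ frontier W, LS u W p (g p)) : ∀ z ∈ W, u z ≤ g z := by
  intro z hz
  have h0 := (hu.sub_harm hg).mp0 hW hb (c := 0) (fun p hp => by
    have ht : Tendsto g (𝓝[W] p) (𝓝 (g p)) :=
      (hc p (frontier_subset_closure hp)).mono subset_closure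
    simpa using (h p hp).sub_tendsto ht) z hz
  linarith

theorem center {u : ℂ → ℝ} {V : Set ℂ} {c : ℂ} (hV : V ∈ 𝓝 c) (hu : Sub u V) :
    ∃ᶠ ρ in 𝓝[>] (0 : ℝ), ∀ g : ℂ → ℝ, HarmonicContOnCl g (ball c ρ) →
      (∀ z ∈ sphere c ρ, u z ≤ g z) → u c ≤ g c :=
  ((ev_ball hV).mono fun ρ hρ g hg hs =>
    hu.2 c ρ hρ.1 hρ.2 g hg hs c (mem_ball_self hρ.1)).frequently

theorem neg_harm {u : ℂ → ℝ} {U : Set ℂ} (hu : HarmonicOnNhd u U) :
    HarmonicOnNhd (fun z => -u z) U := hu.neg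

end Sub2P

open Sub2P

/-- At each point `u` is subharmonic nearby or has a local minimum. -/
theorem Sub.of_locmin {u : ℂ → ℝ} {U : Set ℂ} (hU : IsOpen U) (hu : UpperSemicontinuousOn u U)
    (h : ∀ z ∈ U, (∃ V ∈ 𝓝 z, Sub u V) ∨ IsLocalMin u z) : Sub u U := by
  refine Sub.of_center hU hu fun c hc => ?_
  rcases h c hc with ⟨V, hV, hs⟩ | hm
  · exact center hV hs
  · refine ((ev_ball hm).mono fun ρ hρ g hg hs => ?_).frequently
    refine (Sub.const (u c) univ).2 c ρ hρ.1 (subset_univ _) g hg (fun z hz => ?_) c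
      (mem_ball_self hρ.1)
    exact le_trans (hρ.2 (sphere_subset_closedBall hz)) (hs z hz)

/-- Gluing. -/
theorem Sub.glue {u w f : ℂ → ℝ} {U V : Set ℂ} (hU : IsOpen U) (hV : IsOpen V) (hVU : V ⊆ U)
    (hu : Sub u U) (hw : Sub w V) (hb : ∀ p ∈ frontier V, p ∈ U → LS w V p (u p))
    (h1 : ∀ z ∈ V, f z = Max.max (u z) (w z)) (h2 : ∀ z ∈ U, z ∉ V → f z = u z) : Sub f U := by
  have hfV : Sub f V := ((hu.mono hVU).max hw).congr h1
  have hle : ∀ z ∈ U, u z ≤ f z := by
    intro z hz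
    by_cases hzV : z ∈ V
    · rw [h1 z hzV]; exact le_max_left _ _
    · rw [h2 z hz hzV]
  refine Sub.of_center hU ?_ fun c hc => ?_
  · rw [upperSemicontinuousOn_iff]
    intro z hz
    rw [upperSemicontinuousWithinAt_iff]
    intro y hy
    by_cases hzV : z ∈ V
    · have := upperSemicontinuousWithinAt_iff.1 (upperSemicontinuousOn_iff.1 hfV.1 z hzV) y hy
      rw [hV.nhdsWithin_eq hzV] at this
      exact nhdsWithin_le_nhds this
    · rw [h2 z hz hzV] at hy
      have ha := upperSemicontinuousWithinAt_iff.1 (upperSemicontinuousOn_iff.1 hu.1 z hz) y hy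
      have hb' : ∀ᶠ x in 𝓝[V] z, w x < y := by
        by_cases hcl : z ∈ closure V
        · have hfr : z ∈ frontier V := by
            rw [hV.frontier_eq]; exact ⟨hcl, hzV⟩
          have := hb z hfr hz (y - u z) (by linarith)
          simpa using this
        · rw [mem_closure_iff_nhdsWithin_neBot, not_neBot] at hcl
          rw [hcl]; exact eventually_bot
      rw [eventually_nhdsWithin_iff] at hb'
      filter_upwards [ha, nhdsWithin_le_nhds hb', self_mem_nhdsWithin] with x hx1 hx2 hx3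
      by_cases hxV : x ∈ V
      · rw [h1 x hxV]; exact max_lt hx1 (hx2 hxV)
      · rw [h2 x hx3 hxV]; exact hx1
  · by_cases hcV : c ∈ V
    · exact center (hV.mem_nhds hcV) hfV
    · refine ((ev_ball (hU.mem_nhds hc)).mono fun ρ hρ g hg hs => ?_).frequently
      rw [h2 c hc hcV]
      refine hu.2 c ρ hρ.1 hρ.2 g hg (fun z hz => ?_) c (mem_ball_self hρ.1)
      exact (hle z (hρ.2 (sphere_subset_closedBall hz))).trans (hs z hz)

theorem Sub.removable {u : ℂ → ℝ} {U S : Set ℂ} (hU : IsOpen U) (hS : S.Finite)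
    (hc : ContinuousOn u U) (hu : Sub u (U \ S)) : Sub u U := by
  refine ⟨hc.upperSemicontinuousOn, fun c ρ hρ hsub h hh hs z hz => ?_⟩
  have hWo : IsOpen (ball c ρ \ S) := isOpen_ball.sdiff hS.isClosed
  have hWU : ball c ρ \ S ⊆ U \ S :=
    sdiff_subset_sdiff_left (ball_subset_closedBall.trans hsub)
  have hcont : ContinuousOn (fun y => u y - h y) (closedBall c ρ) :=
    (hc.mono hsub).sub hh.continuousOn_ball
  have hWc : ball c ρ \ S ⊆ closedBall c ρ := sdiff_subset.trans ball_subset_closedBall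
  have hle : ∀ y ∈ ball c ρ \ S, u y - h y ≤ 0 := by
    refine ((hu.mono hWU).sub_harm (hh.1.mono sdiff_subset)).mpx hWo
      (isBounded_ball.subset sdiff_subset) ?_ hS fun p hp hpS => ?_
    · obtain ⟨M, hM⟩ := (isCompact_closedBall c ρ).bddAbove_image hcont
      exact ⟨M, fun y hy => hM (mem_image_of_mem _ (hWc hy))⟩
    · rw [hWo.frontier_eq] at hp
      have hp1 : p ∈ closedBall c ρ := closure_minimal hWc isClosed_closedBall hp.1
      have hp2 : p ∈ sphere c ρ := by
        have : p ∉ ball c ρ := fun hb => hp.2 ⟨hb, hpS⟩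
        rw [mem_ball, not_lt] at this
        exact le_antisymm hp1 this
      exact LS.of_tendsto ((hcont p hp1).mono hWc) (sub_nonpos.2 (hs p hp2))
  have hzc : z ∈ closure (ball c ρ \ S) :=
    (hS.countable.dense_compl ℝ).open_subset_closure_inter isOpen_ball hz
  have := ContinuousWithinAt.closure_le hzc ((hcont z (ball_subset_closedBall hz)).mono hWc)
    continuousWithinAt_const hle
  linarith

theorem harm_of_sub {u : ℂ → ℝ} {U : Set ℂ} (hU : IsOpen U) (h1 : Sub u U)
    (h2 : Sub (fun z => -u z) U) : HarmonicOnNhd u U := by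
  have hc : ContinuousOn u U := fun p hp =>
    tendsto_of_LS (LS.of_usc h1.1 hp subset_rfl) (LS.of_usc h2.1 hp subset_rfl)
  intro z hz
  obtain ⟨ρ, hρ, hsub⟩ := ex_ball (hU.mem_nhds hz)
  obtain ⟨h, hh, he⟩ := exists_poisson hρ (hc.mono (sphere_subset_closedBall.trans hsub))
  have ha := h1.2 z ρ hρ hsub h hh (fun y hy => (he hy).ge)
  have hb := h2.2 z ρ hρ hsub (-h) hh.neg (fun y hy => by simp [he hy])
  refine (harmonicAt_congr_nhds ?_).2 (hh.1 z (mem_ball_self hρ))
  filter_upwards [ball_mem_nhds z hρ] with y hy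
  have h3 := ha y hy
  have h4 := hb y hy
  simp only [Pi.neg_apply] at h4
  linarith

/-- Two sided form of the maximum principle. -/
theorem harm_abs_le {u : ℂ → ℝ} {U : Set ℂ} (hu : HarmonicOnNhd u U) (hU : IsOpen U)
    (hb : Bornology.IsBounded U) (hM : ∃ M : ℝ, ∀ z ∈ U, |u z| ≤ M) {S : Set ℂ} (hS : S.Finite)
    {c : ℝ} (h : ∀ p ∈ frontier U, p ∉ S → LS (fun z => |u z|) U p c) : ∀ z ∈ U, |u z| ≤ c := by
  obtain ⟨M, hM⟩ := hM
  intro z hz
  have h1 := (Sub.of_harm hu).mpx hU hb ⟨M, fun y hy => (le_abs_self _).trans (hM y hy)⟩ hS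
    (fun p hp hpS => (h p hp hpS).of_le (Eventually.of_forall fun y => le_abs_self _)) z hz
  have h2 := (Sub.of_harm (neg_harm hu)).mpx hU hb
    ⟨M, fun y hy => (neg_le_abs _).trans (hM y hy)⟩ hS
    (fun p hp hpS => (h p hp hpS).of_le (Eventually.of_forall fun y => neg_le_abs _)) z hz
  exact abs_le.2 ⟨by linarith, h1⟩

theorem harm_removable {u : ℂ → ℝ} {p : ℂ} (hu : ∀ᶠ z in 𝓝[≠] p, HarmonicAt u z)
    (hb : ∃ M : ℝ, ∀ᶠ z in 𝓝[≠] p, |u z| ≤ M) :
    ∃ g : ℂ → ℝ, HarmonicAt g p ∧ ∀ᶠ z in 𝓝[≠] p, u z = g z := by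
  obtain ⟨M, hM⟩ := hb
  obtain ⟨ρ, hρ, hsub⟩ := ex_ball (eventually_nhdsWithin_iff.1 (hu.and hM))
  have hsp : ∀ q ∈ sphere p ρ, HarmonicAt u q := by
    intro q hq
    refine (hsub (sphere_subset_closedBall hq) ?_).1
    rintro rfl
    simp only [mem_sphere, dist_self] at hq
    exact hρ.ne hq
  obtain ⟨h, hh, he⟩ := exists_poisson hρ (f := u)
    (fun q hq => (hsp q hq).1.continuousAt.continuousWithinAt)
  refine ⟨h, hh.1 p (mem_ball_self hρ), ?_⟩
  have hWo : IsOpen (ball p ρ \ {p}) := isOpen_ball.sdiff isClosed_singleton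
  have hWc : ball p ρ \ {p} ⊆ closedBall p ρ := sdiff_subset.trans ball_subset_closedBall
  obtain ⟨N, hN⟩ := (isCompact_closedBall p ρ).bddAbove_image hh.continuousOn_ball.abs
  have key := harm_abs_le (u := fun y => u y - h y) (U := ball p ρ \ {p}) (c := 0)
    (fun y hy => (hsub (hWc hy) hy.2).1.sub (hh.1 y hy.1)) hWo
    (isBounded_ball.subset sdiff_subset)
    ⟨M + N, fun y hy => (abs_sub _ _).trans
      (add_le_add (hsub (hWc hy) hy.2).2 (hN (mem_image_of_mem _ (hWc hy))))⟩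
    (finite_singleton p) (fun q hq hqp => by
      rw [hWo.frontier_eq] at hq
      have hq1 : q ∈ closedBall p ρ := closure_minimal hWc isClosed_closedBall hq.1
      have hq2 : q ∈ sphere p ρ := by
        have : q ∉ ball p ρ := fun hb => hq.2 ⟨hb, hqp⟩
        rw [mem_ball, not_lt] at this
        exact le_antisymm hq1 this
      have ht : ContinuousWithinAt (fun y => |u y - h y|) (ball p ρ \ {p}) q :=
        ((hsp q hq2).1.continuousAt.continuousWithinAt.sub
          ((hh.continuousOn_ball q hq1).mono hWc)).abs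
      exact LS.of_tendsto ht (by simp [he hq2]))
  filter_upwards [nhdsWithin_le_nhds (ball_mem_nhds p hρ), self_mem_nhdsWithin] with y hy hyp
  have := key y ⟨hy, hyp⟩
  exact sub_eq_zero.1 (abs_nonpos_iff.1 this)

theorem Sub.comp {u : ℂ → ℝ} {f : ℂ → ℂ} {U V : Set ℂ} (hu : Sub u U) (hU : IsOpen U)
    (hV : IsOpen V) (hf : DifferentiableOn ℂ f V) (hd : ∀ z ∈ V, deriv f z ≠ 0)
    (hm : MapsTo f V U) : Sub (fun z => u (f z)) V := by
  refine Sub.of_center hV (hu.1.comp hf.continuousOn hm) fun c hc => ?_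
  have han : AnalyticOnNhd ℂ f V := hf.analyticOnNhd hV
  have hst : HasStrictDerivAt f (deriv f c) c := (han c hc).hasStrictDerivAt
  let e := (hst.hasStrictFDerivAt_equiv (hd c hc)).toOpenPartialHomeomorph f
  have he : (e : ℂ → ℂ) = f := rfl
  have hce : c ∈ e.source :=
    (hst.hasStrictFDerivAt_equiv (hd c hc)).mem_toOpenPartialHomeomorph_source
  refine ((ev_ball (inter_mem (hV.mem_nhds hc) (e.open_source.mem_nhds hce))).mono
    fun ρ hρ g hg hs => ?_).frequently
  have hV' : closedBall c ρ ⊆ V := fun y hy => (hρ.2 hy).1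
  have hS' : closedBall c ρ ⊆ e.source := fun y hy => (hρ.2 hy).2
  have hinv : ∀ y ∈ closedBall c ρ, e.symm (f y) = y := fun y hy => e.left_inv (hS' hy)
  have htar : ∀ y ∈ closedBall c ρ, f y ∈ e.target := fun y hy => e.map_source (hS' hy)
  have hWo : IsOpen (f '' ball c ρ) :=
    e.isOpen_image_of_subset_source isOpen_ball (ball_subset_closedBall.trans hS')
  have hK : IsCompact (f '' closedBall c ρ) :=
    (isCompact_closedBall c ρ).image_of_continuousOn (hf.continuousOn.mono hV')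
  have hWK : f '' ball c ρ ⊆ f '' closedBall c ρ := image_mono ball_subset_closedBall
  have hcl : closure (f '' ball c ρ) ⊆ f '' closedBall c ρ := closure_minimal hWK hK.isClosed
  have hKU : f '' closedBall c ρ ⊆ U := by
    rintro _ ⟨y, hy, rfl⟩
    exact hm (hV' hy)
  have hdi : DifferentiableOn ℂ e.symm (f '' ball c ρ) := by
    rintro _ ⟨y, hy, rfl⟩
    have hy' := ball_subset_closedBall hy
    refine (e.hasDerivAt_symm (htar y hy') (hd y (hV' hy')) ?_).differentiableAt.differentiableWithinAt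
    rw [hinv y hy']
    exact (han y (hV' hy')).differentiableAt.hasDerivAt
  have key := cmp (g := fun w => g (e.symm w)) (hu.mono (hWK.trans hKU)) hWo
    (hK.isBounded.subset hWK) ?_ ?_ ?_ (f c) (mem_image_of_mem _ (mem_ball_self hρ.1))
  · simpa [hinv c (mem_closedBall_self hρ.1.le)] using key
  · rintro _ ⟨y, hy, rfl⟩
    refine harm_comp ?_ (hdi.analyticOnNhd hWo _ (mem_image_of_mem _ hy))
    rw [hinv y (ball_subset_closedBall hy)]
    exact hg.1 y hy
  · refine ContinuousOn.mono ?_ hcl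
    refine hg.continuousOn_ball.comp (e.continuousOn_symm.mono ?_) ?_
    · rintro _ ⟨y, hy, rfl⟩
      exact htar y hy
    · rintro _ ⟨y, hy, rfl⟩
      rw [hinv y hy]
      exact hy
  · intro p hp
    rw [hWo.frontier_eq] at hp
    obtain ⟨y, hy, rfl⟩ := hcl hp.1
    have hy2 : y ∈ sphere c ρ := by
      have : y ∉ ball c ρ := fun hb => hp.2 (mem_image_of_mem _ hb)
      rw [mem_ball, not_lt] at this
      exact le_antisymm hy this
    refine (LS.of_usc hu.1 (hm (hV' hy)) (hWK.trans hKU)).le ?_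
    simpa [hinv y hy] using hs y hy2

theorem Sub.comp_conj {u : ℂ → ℝ} {U V : Set ℂ} (hu : Sub u U) (hm : ∀ z ∈ V, conj z ∈ U) :
    Sub (fun z => u (conj z)) V := by
  have hd : ∀ a b : ℂ, dist (conj a) (conj b) = dist a b := fun a b => dist_conj_conj a b
  have hd' : ∀ a b : ℂ, dist (conj a) b = dist a (conj b) := fun a b => by
    rw [← hd (conj a) b, conj_conj]
  refine ⟨hu.1.comp continuous_conj.continuousOn hm, fun c ρ hρ hsub h hh hs z hz => ?_⟩
  have key := hu.2 (conj c) ρ hρ ?_ (fun y => h (conj y)) ?_ ?_ (conj z) ?_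
  · simpa using key
  · intro y hy
    have : conj y ∈ closedBall c ρ := by
      rw [mem_closedBall, hd']; exact hy
    simpa using hm _ (hsub this)
  · refine HarmonicContOnCl.mk_ball (fun y hy => harm_conj (hh.1 _ ?_)) ?_
    · rw [mem_ball, hd']; exact hy
    · refine hh.continuousOn_ball.comp continuous_conj.continuousOn fun y hy => ?_
      rw [mem_closedBall, hd']; exact hy
  · intro y hy
    have : conj y ∈ sphere c ρ := by
      rw [mem_sphere, hd']; exact hy
    simpa using hs _ this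
  · rw [mem_ball, hd]; exact hz

theorem Sub.lim {u : ℂ → ℝ} {U : Set ℂ} (hc : UpperSemicontinuousOn u U)
    (h : ∀ ε > 0, ∃ w : ℂ → ℝ, Sub w U ∧ ∀ z ∈ U, |w z - u z| ≤ ε) : Sub u U := by
  refine ⟨hc, fun c ρ hρ hsub g hg hs z hz => ?_⟩
  refine le_of_forall_pos_le_add fun ε hε => ?_
  obtain ⟨w, hw, hwu⟩ := h (ε / 2) (by linarith)
  have key := hw.2 c ρ hρ hsub (fun y => g y + ε / 2) (hg.add_const (ε / 2)) (fun y hy => by
    have h1 := abs_le.1 (hwu y (hsub (sphere_subset_closedBall hy)))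
    have h2 := hs y hy
    linarith [h1.2]) z hz
  have h1 := abs_le.1 (hwu z (hsub (ball_subset_closedBall hz)))
  linarith [h1.1]

theorem Sub.norm_sub (a : ℂ) (U : Set ℂ) : Sub (fun z => ‖z - a‖) U := by
  refine ⟨(continuous_id.sub continuous_const).norm.continuousOn.upperSemicontinuousOn,
    fun c ρ hρ _ g hg hs z hz => ?_⟩
  obtain ⟨w, hw1, hw2⟩ : ∃ w : ℂ, ‖w‖ ≤ 1 ∧ (w * (z - a)).re = ‖z - a‖ := by
    by_cases h0 : z - a = 0
    · exact ⟨0, by simp, by simp [h0]⟩
    · refine ⟨(‖z - a‖ : ℂ) / (z - a), ?_, ?_⟩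
      · rw [norm_div, norm_real, norm_norm, div_self (norm_ne_zero_iff.2 h0)]
      · rw [div_mul_cancel₀ _ h0, ofReal_re]
  have hh : HarmonicOnNhd (fun y : ℂ => (w * (y - a)).re) univ := fun y _ =>
    AnalyticAt.harmonicAt_re (f := fun y : ℂ => w * (y - a)) (by fun_prop)
  have key := (Sub.of_harm hh).2 c ρ hρ (subset_univ _) g hg (fun y hy => by
    refine le_trans ?_ (hs y hy)
    refine (re_le_norm _).trans ?_
    rw [norm_mul]
    exact mul_le_of_le_one_left (norm_nonneg _) hw1) z hz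
  simpa [hw2] using key

theorem harm_log_norm {f : ℂ → ℂ} {U : Set ℂ} (hU : IsOpen U) (hf : DifferentiableOn ℂ f U)
    (h0 : ∀ z ∈ U, f z ≠ 0) : HarmonicOnNhd (fun z => Real.log ‖f z‖) U :=
  fun z hz => (hf.analyticOnNhd hU z hz).harmonicAt_log_norm (h0 z hz)

/-- Poisson modification. -/
theorem Sub.modify {u : ℂ → ℝ} {U : Set ℂ} (hU : IsOpen U) (hu : Sub u U)
    (hc : ContinuousOn u U) {c : ℂ} {ρ : ℝ} (hρ : 0 < ρ) (hb : closedBall c ρ ⊆ U) :
    ∃ w : ℂ → ℝ, Sub w U ∧ ContinuousOn w U ∧ HarmonicOnNhd w (ball c ρ) ∧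
      (∀ z ∈ U, u z ≤ w z) ∧ ∀ z, z ∉ ball c ρ → w z = u z := by
  classical
  obtain ⟨h, hh, he⟩ := exists_poisson hρ (hc.mono (sphere_subset_closedBall.trans hb))
  have hle := hu.2 c ρ hρ hb h hh (fun y hy => (he hy).ge)
  have h1 : ∀ z ∈ ball c ρ, (ball c ρ).piecewise h u z = h z :=
    fun z hz => piecewise_eq_of_mem _ _ _ hz
  have h2 : ∀ z, z ∉ ball c ρ → (ball c ρ).piecewise h u z = u z :=
    fun z hz => piecewise_eq_of_notMem _ _ _ hz
  refine ⟨(ball c ρ).piecewise h u, ?_, ?_, ?_, ?_, h2⟩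
  · refine Sub.glue hU isOpen_ball (ball_subset_closedBall.trans hb) hu (Sub.of_harm hh.1)
      (fun p hp _ => ?_) (fun z hz => ?_) (fun z _ hz => h2 z hz)
    · rw [frontier_ball c hρ.ne'] at hp
      exact LS.of_tendsto ((hh.continuousOn_ball p (sphere_subset_closedBall hp)).mono
        ball_subset_closedBall) (he hp).le
    · rw [h1 z hz, max_eq_right (hle z hz)]
  · refine ContinuousOn.piecewise (fun a ha => ?_) (hh.2.mono inter_subset_right)
      (hc.mono inter_subset_left)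
    have := ha.2
    rw [frontier_ball c hρ.ne'] at this
    exact he this
  · intro z hz
    refine (harmonicAt_congr_nhds ?_).2 (hh.1 z hz)
    filter_upwards [isOpen_ball.mem_nhds hz] with y hy
    exact h1 y hy
  · intro z _
    by_cases hz : z ∈ ball c ρ
    · rw [h1 z hz]; exact hle z hz
    · rw [h2 z hz]

theorem Sub.le_hf {r A B : ℝ} (h0 : 0 < r) (h1 : r < 1) {u : ℂ → ℝ} (hu : Sub u (ann r))
    (hA : ∀ p : ℂ, ‖p‖ = 1 → LS u (ann r) p A) (hB : ∀ p : ℂ, ‖p‖ = r → LS u (ann r) p B) :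
    ∀ z ∈ ann r, u z ≤ hf r A B z ∧ u z ≤ Max.max A B := by
  have ho : IsOpen (ann r) :=
    (isOpen_lt continuous_const continuous_norm).inter (isOpen_lt continuous_norm continuous_const)
  have hbd : Bornology.IsBounded (ann r) :=
    (isBounded_ball (x := (0 : ℂ)) (r := 1)).subset fun z hz => mem_ball_zero_iff.2 hz.2
  have hcl : ∀ p ∈ closure (ann r), r ≤ ‖p‖ ∧ ‖p‖ ≤ 1 := by
    have hc : IsClosed {p : ℂ | r ≤ ‖p‖ ∧ ‖p‖ ≤ 1} :=
      (isClosed_le continuous_const continuous_norm).inter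
        (isClosed_le continuous_norm continuous_const)
    have hs : ann r ⊆ {p : ℂ | r ≤ ‖p‖ ∧ ‖p‖ ≤ 1} := fun z hz => ⟨hz.1.le, hz.2.le⟩
    exact fun p hp => closure_minimal hs hc hp
  have hne : ∀ p ∈ closure (ann r), p ≠ 0 := fun p hp =>
    norm_pos_iff.1 (h0.trans_le (hcl p hp).1)
  have hfr : ∀ p ∈ frontier (ann r), ‖p‖ = 1 ∨ ‖p‖ = r := by
    intro p hp
    rw [ho.frontier_eq] at hp
    obtain ⟨ha, hb⟩ := hcl p hp.1
    by_contra hn
    rw [not_or] at hn
    exact hp.2 ⟨lt_of_le_of_ne ha (Ne.symm hn.2), lt_of_le_of_ne hb hn.1⟩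
  intro z hz
  refine ⟨cmp hu ho hbd (fun p hp => hf_harm r A B (hne p (subset_closure hp)))
    (fun p hp => (hf_harm r A B (hne p hp)).1.continuousAt.continuousWithinAt)
    (fun p hp => ?_) z hz, hu.mp0 ho hbd (fun p hp => ?_) z hz⟩
  · rcases hfr p hp with h | h
    · rw [hf_outer r A B h]; exact hA p h
    · rw [hf_inner h0 h1 A B h]; exact hB p h
  · rcases hfr p hp with h | h
    · exact (hA p h).le (le_max_left _ _)
    · exact (hB p h).le (le_max_right _ _)

/-- A nonnegative harmonic function that vanishes at a point vanishes identically. -/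
theorem harm_zero_of_min {u : ℂ → ℝ} {U : Set ℂ} (hU : IsOpen U) (hc : IsPreconnected U)
    (hu : HarmonicOnNhd u U) (h0 : ∀ z ∈ U, 0 ≤ u z) {z : ℂ} (hz : z ∈ U) (hz0 : u z = 0) :
    ∀ y ∈ U, u y = 0 := by
  intro y hy
  have := (Sub.of_harm (neg_harm hu)).strong hU hc hz (fun x hx => by
    have := h0 x hx
    linarith) y hy
  linarith

theorem harm_const_of_locmin {u : ℂ → ℝ} {z : ℂ} (hu : HarmonicAt u z) (hm : IsLocalMin u z) :
    ∀ᶠ y in 𝓝 z, u y = u z := by
  obtain ⟨ρ, hρ, hsub⟩ := ex_ball (hu.eventually.and hm)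
  have hh : HarmonicOnNhd u (ball z ρ) := fun y hy => (hsub (ball_subset_closedBall hy)).1
  have := (Sub.of_harm (neg_harm hh)).strong isOpen_ball (convex_ball z ρ).isPreconnected
    (mem_ball_self hρ) (fun x hx => neg_le_neg (hsub (ball_subset_closedBall hx)).2)
  filter_upwards [ball_mem_nhds z hρ] with y hy
  exact neg_injective (this y hy)

end Pool.Agent.P.MP_3bd355_an
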