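import Pool.Agent.P.MP_3bd355_an.Int

/-! Topology of the annulus and of the main component. -/

open Set Filter Metric Complex InnerProductSpace
open scoped Topology ComplexConjugate Real

namespace Pool.Agent.P.MP_3bd355_an

theorem isOpen_ann (r : ℝ) : IsOpen (ann r) :=
  (isOpen_lt continuous_const continuous_norm).inter (isOpen_lt continuous_norm continuous_const)

namespace Top1P

theorem isClosed_cann (r : ℝ) : IsClosed (cann r) :=
  (isClosed_le continuous_const continuous_norm).inter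
    (isClosed_le continuous_norm continuous_const)

theorem isOpen_upH : IsOpen upH := isOpen_lt continuous_const continuous_im

/-- Polar coordinates. -/
noncomputable def pol (q : ℝ × ℝ) : ℂ := (q.1 : ℂ) * exp (q.2 * I)

theorem continuous_pol : Continuous pol := by
  unfold pol
  fun_prop

theorem norm_pol (q : ℝ × ℝ) (h : 0 ≤ q.1) : ‖pol q‖ = q.1 := by
  unfold pol
  rw [norm_mul, norm_exp_ofReal_mul_I, mul_one, norm_real, Real.norm_of_nonneg h]

theorem pol_arg (z : ℂ) : pol (‖z‖, arg z) = z := by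
  unfold pol
  exact norm_mul_exp_arg_mul_I z

theorem norm_I_mul {s : ℝ} (hs : 0 ≤ s) : ‖I * (s : ℂ)‖ = s := by
  rw [norm_mul, norm_I, one_mul, norm_real, Real.norm_of_nonneg hs]

theorem rank_two : 1 < Module.rank ℝ ℂ := by
  rw [rank_real_complex]
  exact Nat.one_lt_ofNat

theorem sphere_nt {s : ℝ} (hs : 0 < s) : (sphere (0 : ℂ) s).Nontrivial := by
  refine ⟨(s : ℂ), ?_, -(s : ℂ), ?_, ?_⟩
  · simp [abs_of_pos hs]
  · simp [abs_of_pos hs]
  · intro h
    have h2 := congrArg Complex.re h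
    simp only [ofReal_re, neg_re] at h2
    linarith

end Top1P

open Top1P

theorem isCompact_cann (r : ℝ) : IsCompact (cann r) :=
  (isCompact_closedBall (0 : ℂ) 1).of_isClosed_subset (isClosed_cann r)
    (fun z hz => by simpa using hz.2)

theorem ann_sub_cann (r : ℝ) : ann r ⊆ cann r := fun _ hz => ⟨hz.1.le, hz.2.le⟩

theorem bdd_ann (r : ℝ) : Bornology.IsBounded (ann r) :=
  (isCompact_cann r).isBounded.subset (ann_sub_cann r)

theorem closure_ann {r : ℝ} (h0 : 0 < r) (h1 : r < 1) : closure (ann r) = cann r := by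
  refine Subset.antisymm ((isClosed_cann r).closure_subset_iff.2 (ann_sub_cann r)) ?_
  intro p hp
  have hc : Continuous fun s : ℝ => pol (s, arg p) := continuous_pol.comp (by fun_prop)
  have hm : ‖p‖ ∈ closure (Ioo r 1) := by
    rw [closure_Ioo h1.ne]
    exact hp
  have := map_mem_closure (t := ann r) hc hm (fun s hs => by
    have e : ‖pol (s, arg p)‖ = s := norm_pol _ (h0.trans hs.1).le
    exact ⟨by rw [e]; exact hs.1, by rw [e]; exact hs.2⟩)
  rwa [pol_arg] at this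

theorem frontier_ann {r : ℝ} (h0 : 0 < r) (h1 : r < 1) :
    frontier (ann r) = {z | ‖z‖ = r ∨ ‖z‖ = 1} := by
  rw [(isOpen_ann r).frontier_eq, closure_ann h0 h1]
  ext z
  simp only [cann, ann, Set.mem_sdiff, mem_ofPred_eq, not_and, not_lt]
  constructor
  · rintro ⟨⟨a, b⟩, c⟩
    rcases a.eq_or_lt with e | e
    · exact Or.inl e.symm
    · exact Or.inr (le_antisymm b (c e))
  · rintro (e | e)
    · exact ⟨⟨e.ge, by linarith⟩, fun c => by linarith⟩
    · exact ⟨⟨by linarith, e.le⟩, fun _ => e.ge⟩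

theorem mem_ann_of_nhds {r : ℝ} (h0 : 0 < r) {p : ℂ} (h : ∀ᶠ z in 𝓝 p, z ∈ cann r) :
    p ∈ ann r := by
  have hp : p ∈ cann r := h.self_of_nhds
  have hp0 : 0 < ‖p‖ := h0.trans_le hp.1
  have hc : Tendsto (fun s : ℝ => pol (s, arg p)) (𝓝 ‖p‖) (𝓝 p) := by
    have hc : Continuous fun s : ℝ => pol (s, arg p) := continuous_pol.comp (by fun_prop)
    have := hc.tendsto ‖p‖
    rwa [pol_arg] at this
  have he := hc.eventually h
  have hpos : ∀ᶠ s : ℝ in 𝓝 ‖p‖, 0 < s := lt_mem_nhds hp0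
  constructor
  · obtain ⟨s, ⟨hs, hs0⟩, hlt⟩ := (((he.and hpos).filter_mono (nhdsWithin_le_nhds (s := Iio ‖p‖))).and
      self_mem_nhdsWithin).exists
    have e : ‖pol (s, arg p)‖ = s := norm_pol _ hs0.le
    have h1 := hs.1
    rw [e] at h1
    exact h1.trans_lt hlt
  · obtain ⟨s, ⟨hs, hs0⟩, hlt⟩ := (((he.and hpos).filter_mono (nhdsWithin_le_nhds (s := Ioi ‖p‖))).and
      self_mem_nhdsWithin).exists
    have e : ‖pol (s, arg p)‖ = s := norm_pol _ hs0.le
    have h1 := hs.2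
    rw [e] at h1
    exact lt_of_lt_of_le hlt h1

theorem conj_mem_ann {r : ℝ} {z : ℂ} : conj z ∈ ann r ↔ z ∈ ann r := by
  simp [ann]

theorem preconn_ann_gen {a b : ℝ} (ha : 0 ≤ a) : IsPreconnected {z : ℂ | a < ‖z‖ ∧ ‖z‖ < b} := by
  have e : {z : ℂ | a < ‖z‖ ∧ ‖z‖ < b} = pol '' (Ioo a b ×ˢ univ) := by
    ext z
    constructor
    · intro hz
      exact ⟨(‖z‖, arg z), ⟨hz, mem_univ _⟩, pol_arg z⟩
    · rintro ⟨q, hq, rfl⟩
      have e : ‖pol q‖ = q.1 := norm_pol _ (ha.trans hq.1.1.le)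
      exact ⟨by rw [e]; exact hq.1.1, by rw [e]; exact hq.1.2⟩
  rw [e]
  exact (isPreconnected_Ioo.prod isPreconnected_univ).image _ continuous_pol.continuousOn

theorem preconn_ann {r : ℝ} (h0 : 0 < r) : IsPreconnected (ann r) := preconn_ann_gen h0.le

theorem preconn_upper {r : ℝ} (h0 : 0 < r) : IsPreconnected (ann r ∩ upH) := by
  have e : ann r ∩ upH = pol '' (Ioo r 1 ×ˢ Ioo 0 π) := by
    ext z
    constructor
    · intro hz
      have hi : 0 < z.im := hz.2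
      refine ⟨(‖z‖, arg z), ⟨hz.1, ?_, ?_⟩, pol_arg z⟩
      · refine lt_of_le_of_ne (arg_nonneg_iff.2 hi.le) ?_
        intro h
        have := (arg_eq_zero_iff.1 h.symm).2
        linarith
      · exact arg_lt_pi_iff.2 (Or.inr hi.ne')
    · rintro ⟨q, hq, rfl⟩
      have hq0 : 0 < q.1 := h0.trans hq.1.1
      have e : ‖pol q‖ = q.1 := norm_pol _ hq0.le
      refine ⟨⟨by rw [e]; exact hq.1.1, by rw [e]; exact hq.1.2⟩, ?_⟩
      have hs : 0 < Real.sin q.2 := Real.sin_pos_of_pos_of_lt_pi hq.2.1 hq.2.2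
      show 0 < (pol q).im
      unfold pol
      rw [im_ofReal_mul, exp_ofReal_mul_I_im]
      exact mul_pos hq0 hs
  rw [e]
  exact (isPreconnected_Ioo.prod isPreconnected_Ioo).image _ continuous_pol.continuousOn

namespace Top1P

theorem preconn_punct (s : ℂ) (ε : ℝ) : IsPreconnected (ball s ε \ {s}) := by
  have e : ball s ε \ {s} = (fun z => z + s) '' {z : ℂ | 0 < ‖z‖ ∧ ‖z‖ < ε} := by
    ext z
    constructor
    · rintro ⟨h1, h2⟩
      refine ⟨z - s, ⟨norm_pos_iff.2 (sub_ne_zero.2 h2), ?_⟩, by simp⟩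
      rwa [mem_ball, dist_eq_norm] at h1
    · rintro ⟨w, hw, rfl⟩
      refine ⟨?_, ?_⟩
      · rw [mem_ball, dist_eq_norm]
        simpa using hw.2
      · have := norm_pos_iff.1 hw.1
        simpa using this
  rw [e]
  exact (preconn_ann_gen le_rfl).image _ (by fun_prop)

theorem diff_single_aux {U u v : Set ℂ} {s : ℂ} {ε : ℝ} (hc : IsPreconnected U) (hε : 0 < ε)
    (hu : IsOpen u) (hv : IsOpen v) (hcov : U \ {s} ⊆ u ∪ v) (hd : (U \ {s}) ∩ (u ∩ v) = ∅)
    (hP : ball s ε \ {s} ⊆ u) : U \ {s} ⊆ u ∨ U \ {s} ⊆ v := by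
  have key := isPreconnected_iff_subset_of_disjoint.1 hc (u ∪ ball s ε) (v \ {s})
    (hu.union isOpen_ball) (hv.sdiff isClosed_singleton) ?_ ?_
  · rcases key with k | k
    · left
      intro z hz
      rcases k hz.1 with a | a
      · exact a
      · exact hP ⟨a, hz.2⟩
    · right
      exact fun z hz => (k hz.1).1
  · intro z hz
    by_cases e : z = s
    · left
      right
      rw [e]
      exact mem_ball_self hε
    · rcases hcov ⟨hz, e⟩ with a | a
      · exact Or.inl (Or.inl a)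
      · exact Or.inr ⟨a, e⟩
  · rw [eq_empty_iff_forall_notMem] at hd ⊢
    rintro z ⟨hz, a, b, e⟩
    refine hd z ⟨⟨hz, e⟩, ?_, b⟩
    rcases a with a | a
    · exact a
    · exact hP ⟨a, e⟩

theorem diff_single {U : Set ℂ} (hU : IsOpen U) (hc : IsPreconnected U) (s : ℂ) :
    IsPreconnected (U \ {s}) := by
  by_cases hs : s ∈ U
  · obtain ⟨ε, hε, hb⟩ := Metric.isOpen_iff.1 hU s hs
    rw [isPreconnected_iff_subset_of_disjoint]
    intro u v hu hv hcov hd
    have hsub : ball s ε \ {s} ⊆ U \ {s} := sdiff_subset_sdiff_left hb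
    have := isPreconnected_iff_subset_of_disjoint.1 (preconn_punct s ε) u v hu hv
      (hsub.trans hcov) (by
        rw [eq_empty_iff_forall_notMem] at hd ⊢
        exact fun z hz => hd z ⟨hsub hz.1, hz.2⟩)
    rcases this with a | a
    · exact diff_single_aux hc hε hu hv hcov hd a
    · exact (diff_single_aux hc hε hv hu (by rwa [union_comm]) (by rwa [inter_comm v u]) a).symm
  · rwa [sdiff_singleton_eq_self hs]

end Top1P

theorem preconn_diff_finite {U S : Set ℂ} (hU : IsOpen U) (hc : IsPreconnected U)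
    (hS : S.Finite) : IsPreconnected (U \ S) := by
  induction S, hS using Set.Finite.induction_on with
  | empty => simpa using hc
  | @insert a S _ hS ih =>
    have e : U \ insert a S = (U \ S) \ {a} := by
      ext z
      simp only [Set.mem_sdiff, mem_insert_iff, mem_singleton_iff]
      tauto
    rw [e]
    exact diff_single (hU.sdiff hS.isClosed) ih a

/-- The annulus is locally connected at the points of its closure. -/
theorem loc_conn {r : ℝ} (h0 : 0 < r) (h1 : r < 1) {p : ℂ} (hp : p ∈ cann r) {O : Set ℂ}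
    (hO : O ∈ 𝓝 p) : ∃ V : Set ℂ, IsOpen V ∧ p ∈ V ∧ V ⊆ O ∧ IsPreconnected (V ∩ ann r) ∧
      IsPreconnected (V ∩ cann r) ∧ (V ∩ ann r).Nonempty := by
  have hp0 : p ≠ 0 := norm_pos_iff.1 (h0.trans_le hp.1)
  have he : exp (log p) = p := exp_log hp0
  have hO' : exp ⁻¹' O ∈ 𝓝 (log p) := continuous_exp.continuousAt.preimage_mem_nhds (by rwa [he])
  obtain ⟨δ, hδ, hb⟩ := Metric.mem_nhds_iff.1 hO'
  have hV : IsOpen (exp '' ball (log p) δ) := isOpenMap_exp _ isOpen_ball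
  have hpV : p ∈ exp '' ball (log p) δ := ⟨log p, mem_ball_self hδ, he⟩
  have e1 : exp ⁻¹' ann r = {w : ℂ | Real.log r < w.re} ∩ {w : ℂ | w.re < 0} := by
    ext w
    simp only [ann, mem_preimage, mem_ofPred_eq, norm_exp, mem_inter_iff, Real.exp_lt_one_iff,
      Real.log_lt_iff_lt_exp h0]
  have e2 : exp ⁻¹' cann r = {w : ℂ | Real.log r ≤ w.re} ∩ {w : ℂ | w.re ≤ 0} := by
    ext w
    simp only [cann, mem_preimage, mem_ofPred_eq, norm_exp, mem_inter_iff, Real.exp_le_one_iff,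
      Real.log_le_iff_le_exp h0]
  refine ⟨exp '' ball (log p) δ, hV, hpV, image_subset_iff.2 hb, ?_, ?_, ?_⟩
  · rw [← image_inter_preimage, e1]
    exact ((convex_ball _ _).inter ((convex_halfSpace_re_gt _).inter
      (convex_halfSpace_re_lt _))).isPreconnected.image _ continuous_exp.continuousOn
  · rw [← image_inter_preimage, e2]
    exact ((convex_ball _ _).inter ((convex_halfSpace_re_ge _).inter
      (convex_halfSpace_re_le _))).isPreconnected.image _ continuous_exp.continuousOn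
  · rw [← closure_ann h0 h1] at hp
    exact mem_closure_iff.1 hp _ hV hpV

theorem path_of_open {U : Set ℂ} (hU : IsOpen U) (hc : IsPreconnected U) {x y : ℂ} (hx : x ∈ U)
    (hy : y ∈ U) : ∃ γ : ℝ → ℂ, Continuous γ ∧ γ 0 = x ∧ γ 1 = y ∧ ∀ t, γ t ∈ U := by
  have hp : IsPathConnected U := hU.isConnected_iff_isPathConnected.1 ⟨⟨x, hx⟩, hc⟩
  obtain ⟨γ, hγ⟩ := hp.joinedIn x hx y hy
  refine ⟨γ.extend, γ.continuous_extend, γ.extend_zero, γ.extend_one, fun t => ?_⟩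
  have : γ.extend t ∈ range γ.extend := mem_range_self t
  rw [γ.extend_range] at this
  obtain ⟨s, hs⟩ := this
  rw [← hs]
  exact hγ s

/-- Concatenation of two curves. -/
theorem concat {γ₁ γ₂ : ℝ → ℂ} (h₁ : ContinuousOn γ₁ (Icc 0 1)) (h₂ : ContinuousOn γ₂ (Ico 0 1))
    (h : γ₁ 1 = γ₂ 0) : ∃ γ : ℝ → ℂ, ContinuousOn γ (Ico 0 1) ∧ γ 0 = γ₁ 0 ∧
      (∀ t ∈ Ico (0 : ℝ) 1, (∃ s ∈ Icc (0 : ℝ) 1, γ t = γ₁ s) ∨ ∃ s ∈ Ioo (0 : ℝ) 1, γ t = γ₂ s) ∧
      ∀ t ∈ Ico (1 / 2 : ℝ) 1, γ t = γ₂ (2 * t - 1) := by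
  classical
  let γ : ℝ → ℂ := fun t => if t ≤ 1 / 2 then γ₁ (2 * t) else γ₂ (2 * t - 1)
  have eA : ∀ t ∈ Icc (0 : ℝ) (1 / 2), γ t = γ₁ (2 * t) := fun t ht => if_pos ht.2
  have eB : ∀ t ∈ Ico (1 / 2 : ℝ) 1, γ t = γ₂ (2 * t - 1) := by
    intro t ht
    rcases ht.1.eq_or_lt with e | e
    · subst e
      rw [eA _ ⟨by norm_num, le_rfl⟩]
      norm_num [h]
    · exact if_neg (not_le.2 e)
  have cA : ContinuousOn γ (Icc 0 (1 / 2)) := by
    refine ContinuousOn.congr (f := fun t => γ₁ (2 * t)) ?_ eA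
    refine h₁.comp (f := fun t : ℝ => 2 * t) (by fun_prop) ?_
    intro t ht
    exact ⟨by linarith [ht.1], by linarith [ht.2]⟩
  have cB : ContinuousOn γ (Ico (1 / 2) 1) := by
    refine ContinuousOn.congr (f := fun t => γ₂ (2 * t - 1)) ?_ eB
    refine h₂.comp (f := fun t : ℝ => 2 * t - 1) (by fun_prop) ?_
    intro t ht
    exact ⟨by linarith [ht.1], by linarith [ht.2]⟩
  refine ⟨γ, ?_, ?_, ?_, eB⟩
  · intro t ht
    have hU : Ico (0 : ℝ) 1 ⊆ Icc 0 (1 / 2) ∪ Ico (1 / 2) 1 := by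
      intro s hs
      rcases le_total s (1 / 2) with a | a
      · exact Or.inl ⟨hs.1, a⟩
      · exact Or.inr ⟨a, hs.2⟩
    refine ContinuousWithinAt.mono (ContinuousWithinAt.union ?_ ?_) hU
    · by_cases a : t ∈ Icc (0 : ℝ) (1 / 2)
      · exact cA t a
      · exact continuousWithinAt_of_notMem_closure (by rwa [closure_Icc])
    · by_cases a : t ∈ Ico (1 / 2 : ℝ) 1
      · exact cB t a
      · refine continuousWithinAt_of_notMem_closure fun b => a ⟨?_, ht.2⟩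
        exact (closure_minimal Ico_subset_Icc_self isClosed_Icc b).1
  · rw [eA 0 ⟨le_rfl, by norm_num⟩, mul_zero]
  · intro t ht
    rcases le_or_gt t (1 / 2) with a | a
    · exact Or.inl ⟨2 * t, ⟨by linarith [ht.1], by linarith⟩, eA t ⟨ht.1, a⟩⟩
    · exact Or.inr ⟨2 * t - 1, ⟨by linarith, by linarith [ht.2]⟩, eB t ⟨a.le, ht.2⟩⟩

namespace Top1P

theorem I_mul_mem {r s : ℝ} (h0 : 0 < r) (h1 : r < s) (h2 : s < 1) :
    I * (s : ℂ) ∈ ann r ∩ upH := by
  have e := norm_I_mul (h0.trans h1).le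
  refine ⟨⟨by rw [e]; exact h1, by rw [e]; exact h2⟩, ?_⟩
  show 0 < (I * (s : ℂ)).im
  simpa using h0.trans h1

end Top1P

theorem base_mem {r : ℝ} (h0 : 0 < r) (h1 : r < 1) : base r ∈ ann r ∩ upH :=
  I_mul_mem h0 (by linarith) (by linarith)

theorem main_sub (r : ℝ) (L : Set ℂ) : main r L ⊆ ann r \ L := connectedComponentIn_subset _ _

theorem preconn_main (r : ℝ) (L : Set ℂ) : IsPreconnected (main r L) :=
  isPreconnected_connectedComponentIn

theorem bdd_main (r : ℝ) (L : Set ℂ) : Bornology.IsBounded (main r L) :=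
  (bdd_ann r).subset ((main_sub r L).trans sdiff_subset)

theorem sub_main {r : ℝ} {L V : Set ℂ} (hV : IsPreconnected V) (h : V ⊆ ann r \ L)
    (hne : (V ∩ main r L).Nonempty) : V ⊆ main r L := by
  obtain ⟨x, hx, hm⟩ := hne
  have e : main r L = connectedComponentIn (ann r \ L) x := connectedComponentIn_eq hm
  rw [e]
  exact hV.subset_connectedComponentIn hx h

theorem main_anti {r : ℝ} {L L' : Set ℂ} (h : L ⊆ L') : main r L' ⊆ main r L :=
  connectedComponentIn_mono _ (sdiff_subset_sdiff_right h)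

variable {r : ℝ} {L : Set ℂ}

theorem Cont.isOpen_main (h : Cont r L) : IsOpen (main r L) :=
  ((isOpen_ann r).sdiff h.cpt.isClosed).connectedComponentIn

theorem Cont.upper_sub (h : Cont r L) : ann r ∩ upH ⊆ main r L :=
  (preconn_upper h.r0).subset_connectedComponentIn (base_mem h.r0 h.r1)
    (fun z hz => ⟨hz.1, fun hL => absurd (h.low z hL) (not_le.2 hz.2)⟩)

theorem Cont.mem_main (h : Cont r L) {z : ℂ} (hz : z ∈ ann r) (hi : 0 ≤ z.im) (hL : z ∉ L) :
    z ∈ main r L := by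
  obtain ⟨ε, hε, hb⟩ := Metric.isOpen_iff.1 ((isOpen_ann r).sdiff h.cpt.isClosed) z ⟨hz, hL⟩
  have hm : z + I * ((ε / 2 : ℝ) : ℂ) ∈ ball z ε := by
    rw [mem_ball, dist_eq_norm, add_sub_cancel_left, norm_I_mul (by linarith)]
    linarith
  refine sub_main (convex_ball z ε).isPreconnected hb ⟨_, hm, h.upper_sub ⟨(hb hm).1, ?_⟩⟩
    (mem_ball_self hε)
  show 0 < (z + I * ((ε / 2 : ℝ) : ℂ)).im
  have : (z + I * ((ε / 2 : ℝ) : ℂ)).im = z.im + ε / 2 := by simp
  rw [this]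
  linarith

theorem Cont.infinite (h : Cont r L) : L.Infinite := h.conn.infinite_of_nontrivial h.nt

namespace Top1P

theorem closure_main_sub (r : ℝ) (L : Set ℂ) : closure (main r L) ⊆ cann r :=
  closure_minimal (((main_sub r L).trans sdiff_subset).trans (ann_sub_cann r)) (isClosed_cann r)

theorem exists_V (h : Cont r L) {p : ℂ} (hp : p ∈ closure (main r L)) (hL : p ∉ L) :
    ∃ V : Set ℂ, IsOpen V ∧ p ∈ V ∧ V ⊆ Lᶜ ∧ V ∩ ann r ⊆ main r L := by
  obtain ⟨V, hV, hpV, hsub, hc, -, -⟩ := loc_conn h.r0 h.r1 (closure_main_sub r L hp)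
    (h.cpt.isClosed.isOpen_compl.mem_nhds hL)
  refine ⟨V, hV, hpV, hsub, sub_main hc (fun z hz => ⟨hz.2, hsub hz.1⟩) ?_⟩
  obtain ⟨x, hx, hm⟩ := mem_closure_iff.1 hp V hV hpV
  exact ⟨x, ⟨hx, (main_sub r L hm).1⟩, hm⟩

theorem mem_closure_of (h : Cont r L) {V : Set ℂ} (hV : IsOpen V) (hs : V ∩ ann r ⊆ main r L)
    {p : ℂ} (hpV : p ∈ V) (hp : p ∈ cann r) : p ∈ closure (main r L) := by
  rw [← closure_ann h.r0 h.r1] at hp
  exact closure_mono hs (hV.inter_closure ⟨hpV, hp⟩)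

theorem reg_aux (h : Cont r L) {W : Set ℂ} (hW : W ⊆ ann r \ L) {p : ℂ}
    (hp : p ∈ L ∨ ‖p‖ = r ∨ ‖p‖ = 1) : ∃ K : Set ℂ, IsCompact K ∧ IsPreconnected K ∧
      K.Nontrivial ∧ p ∈ K ∧ Disjoint K W := by
  rcases hp with a | a | a
  · exact ⟨L, h.cpt, h.conn, h.nt, a, disjoint_left.2 fun z hz hw => (hW hw).2 hz⟩
  · refine ⟨sphere 0 r, isCompact_sphere _ _, isPreconnected_sphere rank_two _ _, sphere_nt h.r0,
      by simpa using a, disjoint_left.2 fun z hz hw => ?_⟩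
    have e : ‖z‖ = r := by simpa using hz
    exact absurd (hW hw).1.1 (by rw [e]; exact lt_irrefl _)
  · refine ⟨sphere 0 1, isCompact_sphere _ _, isPreconnected_sphere rank_two _ _,
      sphere_nt one_pos, by simpa using a, disjoint_left.2 fun z hz hw => ?_⟩
    have e : ‖z‖ = 1 := by simpa using hz
    exact absurd (hW hw).1.2 (by rw [e]; exact lt_irrefl _)

theorem ring_sub (h : Cont r L) {a b : ℝ} (ha : r ≤ a) (hab : a < b) (hb : b ≤ 1)
    (hL : ∀ p ∈ L, ‖p‖ ≤ a ∨ b ≤ ‖p‖) : {z : ℂ | a < ‖z‖ ∧ ‖z‖ < b} ⊆ main r L := by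
  have h0 := h.r0
  refine sub_main (preconn_ann_gen (by linarith)) ?_ ⟨I * (((a + b) / 2 : ℝ) : ℂ), ?_,
    h.upper_sub (I_mul_mem h0 (by linarith) (by linarith))⟩
  · intro z hz
    refine ⟨⟨ha.trans_lt hz.1, hz.2.trans_le hb⟩, fun hz' => ?_⟩
    rcases hL z hz' with c | c
    · exact absurd hz.1 (not_lt.2 c)
    · exact absurd hz.2 (not_lt.2 c)
  · have e : ‖I * (((a + b) / 2 : ℝ) : ℂ)‖ = (a + b) / 2 := norm_I_mul (by linarith)
    exact ⟨by rw [e]; linarith, by rw [e]; linarith⟩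

end Top1P

/-- Off `L`, a point in the closure of the main component sees only the main component. -/
theorem Cont.ev_main (h : Cont r L) {p : ℂ} (hp : p ∈ closure (main r L)) (hL : p ∉ L) :
    ∀ᶠ z in 𝓝[ann r] p, z ∈ main r L := by
  obtain ⟨V, hV, hpV, -, hs⟩ := exists_V h hp hL
  filter_upwards [self_mem_nhdsWithin, mem_nhdsWithin_of_mem_nhds (hV.mem_nhds hpV)] with z a b
  exact hs ⟨b, a⟩

theorem Cont.nhds_eq (h : Cont r L) {p : ℂ} (hp : p ∈ closure (main r L)) (hL : p ∉ L) :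
    𝓝[main r L] p = 𝓝[ann r] p :=
  le_antisymm (nhdsWithin_mono _ ((main_sub r L).trans sdiff_subset))
    (nhdsWithin_le_iff.2 (h.ev_main hp hL))

theorem Cont.frontier_sub (h : Cont r L) {p : ℂ} (hp : p ∈ frontier (main r L)) :
    p ∈ cann r ∧ p ∉ main r L ∧ (p ∈ L ∨ p ∈ Ex r L ∨ ‖p‖ = 1) := by
  rw [h.isOpen_main.frontier_eq] at hp
  have hc := closure_main_sub r L hp.1
  refine ⟨hc, hp.2, ?_⟩
  by_cases hL : p ∈ L
  · exact Or.inl hL
  · right
    rcases hc.1.eq_or_lt with a | a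
    · exact Or.inl ⟨a.symm, hL, hp.1⟩
    · rcases hc.2.eq_or_lt with b | b
      · exact Or.inr b
      · exact absurd ((h.ev_main hp.1 hL).self_of_nhdsWithin ⟨a, b⟩) hp.2

theorem Cont.reg (h : Cont r L) : Reg (main r L) := by
  intro p hp
  refine reg_aux h (main_sub r L) ?_
  rcases (h.frontier_sub hp).2.2 with a | a | a
  · exact Or.inl a
  · exact Or.inr (Or.inl a.1)
  · exact Or.inr (Or.inr a)

theorem Cont.reg_diff (h : Cont r L) : Reg (ann r \ L) := by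
  intro p hp
  refine reg_aux h Subset.rfl ?_
  rw [((isOpen_ann r).sdiff h.cpt.isClosed).frontier_eq] at hp
  have hc : p ∈ cann r :=
    closure_minimal (sdiff_subset.trans (ann_sub_cann r)) (isClosed_cann r) hp.1
  by_cases hL : p ∈ L
  · exact Or.inl hL
  · right
    rcases hc.1.eq_or_lt with a | a
    · exact Or.inl a.symm
    · rcases hc.2.eq_or_lt with b | b
      · exact Or.inr b
      · exact absurd ⟨⟨a, b⟩, hL⟩ hp.2

theorem Cont.collar (h : Cont r L) (hL : ∀ p ∈ L, ‖p‖ < 1) :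
    ∃ δ > 0, (∀ p ∈ L, ‖p‖ ≤ 1 - δ) ∧ ∀ z ∈ ann r, 1 - δ < ‖z‖ → z ∈ main r L := by
  obtain ⟨q, hq, hmax⟩ := h.cpt.exists_isMaxOn h.nt.nonempty continuous_norm.continuousOn
  have hq1 := hL q hq
  refine ⟨1 - ‖q‖, by linarith, fun p hp => ?_, fun z hz hlt => ?_⟩
  · have : ‖p‖ ≤ ‖q‖ := hmax hp
    linarith
  · exact ring_sub h (h.sub hq).1 hq1 le_rfl (fun p hp => Or.inl (hmax hp))
      ⟨by linarith, hz.2⟩

theorem Cont.outer_closure (h : Cont r L) (hL : ∀ p ∈ L, ‖p‖ < 1) {p : ℂ} (hp : ‖p‖ = 1) :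
    p ∈ closure (main r L) := by
  obtain ⟨δ, hδ, -, hm⟩ := h.collar hL
  refine mem_closure_of h (V := {z | 1 - δ < ‖z‖}) (isOpen_lt continuous_const continuous_norm)
    (fun z hz => hm z hz.2 hz.1) ?_ ⟨by rw [hp]; exact h.r1.le, hp.le⟩
  show 1 - δ < ‖p‖
  linarith

theorem Cont.upper_Ex (h : Cont r L) {p : ℂ} (hp : ‖p‖ = r) (hi : 0 < p.im) : p ∈ Ex r L :=
  ⟨hp, fun hL => absurd (h.low p hL) (not_le.2 hi), mem_closure_of h isOpen_upH
    (fun z hz => h.upper_sub ⟨hz.2, hz.1⟩) hi ⟨hp.ge, by rw [hp]; exact h.r1.le⟩⟩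

theorem Cont.Ex_nhds (h : Cont r L) {p : ℂ} (hp : p ∈ Ex r L) :
    ∀ᶠ q in 𝓝 p, ‖q‖ = r → q ∈ Ex r L := by
  obtain ⟨V, hV, hpV, hc, hs⟩ := exists_V h hp.2.2 hp.2.1
  filter_upwards [hV.mem_nhds hpV] with q hq hn
  exact ⟨hn, hc hq, mem_closure_of h hV hs hq ⟨hn.ge, by rw [hn]; exact h.r1.le⟩⟩

theorem Cont.Ex_all (h : Cont r L) (hL : ∀ p ∈ L, ‖p‖ ≠ r) {p : ℂ} (hp : ‖p‖ = r) :
    p ∈ Ex r L := by
  obtain ⟨q, hq, hmin⟩ := h.cpt.exists_isMinOn h.nt.nonempty continuous_norm.continuousOn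
  have hq1 : r < ‖q‖ := lt_of_le_of_ne (h.sub hq).1 (hL q hq).symm
  refine ⟨hp, fun a => hL p a hp, mem_closure_of h (V := {z | ‖z‖ < ‖q‖})
    (isOpen_lt continuous_norm continuous_const) (fun z hz => ?_) ?_
    ⟨hp.ge, by rw [hp]; exact h.r1.le⟩⟩
  · exact ring_sub h le_rfl hq1 (h.sub hq).2 (fun p hp => Or.inr (hmin hp)) ⟨hz.2.1, hz.1⟩
  · show ‖p‖ < ‖q‖
    linarith

theorem Cont.closure_Ex (h : Cont r L) {p : ℂ} (hp : p ∈ closure (Ex r L)) :
    ‖p‖ = r ∧ (p ∈ Ex r L ∨ p ∈ L) := by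
  have _ := h.r0
  have h1 : ‖p‖ = r :=
    closure_minimal (t := {z : ℂ | ‖z‖ = r}) (fun z hz => hz.1)
      (isClosed_eq continuous_norm continuous_const) hp
  have h2 : p ∈ closure (main r L) := closure_minimal (fun z hz => hz.2.2) isClosed_closure hp
  refine ⟨h1, ?_⟩
  by_cases hL : p ∈ L
  · exact Or.inr hL
  · exact Or.inl ⟨h1, hL, h2⟩

theorem continuous_fold : Continuous fold := by
  have e : fold = fun z : ℂ => (z.re : ℂ) + ((-|z.im| : ℝ) : ℂ) * I := by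
    funext z
    apply Complex.ext <;> simp [fold]
  rw [e]
  fun_prop

theorem fold_im (z : ℂ) : (fold z).im ≤ 0 := neg_nonpos.2 (abs_nonneg _)

theorem fold_of_nonpos {z : ℂ} (h : z.im ≤ 0) : fold z = z := by
  apply Complex.ext <;> simp [fold, abs_of_nonpos h]

theorem fold_of_nonneg {z : ℂ} (h : 0 ≤ z.im) : fold z = conj z := by
  apply Complex.ext <;> simp [fold, abs_of_nonneg h]

theorem norm_fold (z : ℂ) : ‖fold z‖ = ‖z‖ := by
  rcases le_total z.im 0 with h | h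
  · rw [fold_of_nonpos h]
  · rw [fold_of_nonneg h, norm_conj]

theorem inj_local {f : ℝ → ℂ} {J : Set ℝ} (hJ : IsCompact J) (hf : ContinuousOn f J)
    (hi : InjOn f J) {x : ℝ} (hx : x ∈ J) {U : Set ℝ} (hU : U ∈ 𝓝 x) :
    ∀ᶠ z in 𝓝 (f x), z ∈ f '' J → z ∈ f '' (U ∩ J) := by
  obtain ⟨U', hsub, hU', hxU⟩ := _root_.mem_nhds_iff.1 hU
  have hK : IsCompact (f '' (J \ U')) := (hJ.diff hU').image_of_continuousOn (hf.mono sdiff_subset)
  have hn : f x ∉ f '' (J \ U') := by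
    rintro ⟨y, hy, e⟩
    exact hy.2 (by rw [hi hy.1 hx e]; exact hxU)
  filter_upwards [hK.isClosed.isOpen_compl.mem_nhds hn] with z hz
  rintro ⟨y, hy, rfl⟩
  by_cases a : y ∈ U'
  · exact ⟨y, ⟨hsub a, hy⟩, rfl⟩
  · exact absurd ⟨y, ⟨hy, a⟩, rfl⟩ hz

theorem arc_interior {f : ℝ → ℂ} {a b : ℝ} (hf : ContinuousOn f (Icc a b))
    (hi : InjOn f (Icc a b)) : interior (f '' Icc a b) = ∅ := by
  rw [eq_empty_iff_forall_notMem]
  intro z hz
  obtain ⟨ε, hε, hb⟩ := Metric.mem_nhds_iff.1 (mem_interior_iff_mem_nhds.1 hz)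
  have hinf : (ball z ε).Infinite := infinite_of_mem_nhds z (ball_mem_nhds z hε)
  obtain ⟨w, hw, hwn⟩ := (hinf.sdiff (toFinite ({f a, f b} : Set ℂ))).nonempty
  obtain ⟨c, hc, rfl⟩ := hb hw
  have hac : a < c := lt_of_le_of_ne hc.1 (fun e => hwn (by rw [← e]; simp))
  have hcb : c < b := lt_of_le_of_ne hc.2 (fun e => hwn (by rw [e]; simp))
  have s1 : Icc a c ⊆ Icc a b := Icc_subset_Icc_right hc.2
  have s2 : Icc c b ⊆ Icc a b := Icc_subset_Icc_left hc.1
  have k1 : IsClosed (f '' Icc a c) := (isCompact_Icc.image_of_continuousOn (hf.mono s1)).isClosed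
  have k2 : IsClosed (f '' Icc c b) := (isCompact_Icc.image_of_continuousOn (hf.mono s2)).isClosed
  have hB := diff_single isOpen_ball (convex_ball z ε).isPreconnected (f c)
  have hev : ∀ᶠ t in 𝓝 c, f t ∈ ball z ε :=
    (hf.continuousAt (Icc_mem_nhds hac hcb)).eventually (isOpen_ball.mem_nhds hw)
  have key := isPreconnected_iff_subset_of_disjoint_closed.1 hB _ _ k1 k2 ?_ ?_
  · rcases key with k | k
    · obtain ⟨t, ht, htm⟩ := ((hev.filter_mono nhdsWithin_le_nhds).and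
        (Ioo_mem_nhdsGT hcb)).exists
      have htI : t ∈ Icc a b := ⟨by linarith [htm.1], htm.2.le⟩
      obtain ⟨s, hs, e⟩ := k ⟨ht, fun e => htm.1.ne' (hi htI hc e)⟩
      have := hi (s1 hs) htI e
      linarith [hs.2, htm.1]
    · obtain ⟨t, ht, htm⟩ := ((hev.filter_mono nhdsWithin_le_nhds).and
        (Ioo_mem_nhdsLT hac)).exists
      have htI : t ∈ Icc a b := ⟨htm.1.le, by linarith [htm.2]⟩
      obtain ⟨s, hs, e⟩ := k ⟨ht, fun e => htm.2.ne (hi htI hc e)⟩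
      have := hi (s2 hs) htI e
      linarith [hs.1, htm.2]
  · rintro y ⟨hy, -⟩
    obtain ⟨t, ht, rfl⟩ := hb hy
    rcases le_total t c with u | u
    · exact Or.inl ⟨t, ⟨ht.1, u⟩, rfl⟩
    · exact Or.inr ⟨t, ⟨u, ht.2⟩, rfl⟩
  · rw [eq_empty_iff_forall_notMem]
    rintro y ⟨⟨-, hy⟩, ⟨s, hs, rfl⟩, t, ht, e⟩
    have e2 := hi (s2 ht) (s1 hs) e
    have : s = c := le_antisymm hs.2 (e2 ▸ ht.1)
    exact hy (by rw [this]; rfl)

end Pool.Agent.P.MP_3bd355_an
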