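import Pool.Agent.P.MP_3bd355_an.Top1

/-! Hausdorff limits, and the domain of the Riemann map. -/

open Set Filter Metric Complex InnerProductSpace
open scoped Topology ComplexConjugate Real

namespace Pool.Agent.P.MP_3bd355_an

variable {r : ℝ} {L : Set ℂ} {Ls : ℕ → Set ℂ}

namespace Top3P

theorem preconn_lim (h : HL Ls L) (hL : IsCompact L) (hc : ∀ k, IsPreconnected (Ls k)) :
    IsPreconnected L := by
  intro u v hu hv huv ⟨a, haL, hau⟩ ⟨b, hbL, hbv⟩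
  by_contra hne
  have hne' : ∀ x ∈ L, x ∈ u → x ∉ v := fun x hx h1 h2 => hne ⟨x, hx, h1, h2⟩
  have hd : Disjoint (L \ v) (L \ u) := by
    rw [disjoint_left]
    rintro x ⟨hx, h1⟩ ⟨-, h2⟩
    rcases huv hx with h3 | h3
    · exact h2 h3
    · exact h1 h3
  obtain ⟨δ, hδ, hdis⟩ := hd.exists_thickenings (hL.diff hv) (hL.diff hu).isClosed
  obtain ⟨k, h1, h2⟩ := (h δ hδ).exists
  have hcov : Ls k ⊆ thickening δ (L \ v) ∪ thickening δ (L \ u) := by
    intro x hx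
    obtain ⟨y, hy, hxy⟩ := mem_thickening_iff.1 (h1 hx)
    by_cases hyv : y ∈ v
    · exact Or.inr (mem_thickening_iff.2 ⟨y, ⟨hy, fun h' => hne' y hy h' hyv⟩, hxy⟩)
    · exact Or.inl (mem_thickening_iff.2 ⟨y, ⟨hy, hyv⟩, hxy⟩)
  obtain ⟨a', ha', haa⟩ := mem_thickening_iff.1 (h2 haL)
  obtain ⟨b', hb', hbb⟩ := mem_thickening_iff.1 (h2 hbL)
  obtain ⟨x, -, hx1, hx2⟩ := hc k _ _ isOpen_thickening isOpen_thickening hcov
    ⟨a', ha', mem_thickening_iff.2 ⟨a, ⟨haL, hne' a haL hau⟩, by rwa [dist_comm]⟩⟩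
    ⟨b', hb', mem_thickening_iff.2 ⟨b, ⟨hbL, fun h' => hne' b hbL h' hbv⟩, by rwa [dist_comm]⟩⟩
  exact disjoint_left.1 hdis hx1 hx2

theorem preconn_ext (p : ℂ) (ρ : ℝ) : IsPreconnected (ball p ρ)ᶜ := by
  rcases le_or_gt ρ 0 with hρ | hρ
  · rw [ball_eq_empty.2 hρ, compl_empty]
    exact isPreconnected_univ
  have h1 : IsPreconnected (Ici ρ ×ˢ sphere (0 : ℂ) 1) :=
    isPreconnected_Ici.prod (isPreconnected_sphere (by simp) 0 1)
  have h2 := h1.image (fun x : ℝ × ℂ => p + (x.1 : ℂ) * x.2) (by fun_prop)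
  convert h2 using 1
  ext z
  simp only [mem_compl_iff, mem_ball, not_lt, dist_eq_norm]
  constructor
  · intro hz
    have h0 : (‖z - p‖ : ℂ) ≠ 0 := by
      exact_mod_cast (lt_of_lt_of_le hρ hz).ne'
    have h0' : ‖z - p‖ ≠ 0 := (lt_of_lt_of_le hρ hz).ne'
    refine ⟨(‖z - p‖, (z - p) / ‖z - p‖), ⟨hz, ?_⟩, ?_⟩
    · simp [h0']
    · simp only
      field_simp
      ring
  · rintro ⟨⟨t, w⟩, ⟨ht, hw⟩, rfl⟩
    have ht' : ρ ≤ t := ht
    have hw' : ‖w‖ = 1 := by simpa using hw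
    simp [hw', abs_of_pos (lt_of_lt_of_le hρ ht'), ht']

theorem exists_far {C : Set ℂ} (hC : IsCompact C) (p : ℂ) (ρ : ℝ) :
    ∃ a, a ∉ C ∧ a ∉ ball p ρ := by
  by_contra hc
  push Not at hc
  have : Bornology.IsBounded (univ : Set ℂ) :=
    (hC.isBounded.union (isBounded_ball (x := p) (r := ρ))).subset fun a _ => by
      by_cases h1 : a ∈ C
      · exact Or.inl h1
      · exact Or.inr (hc a h1)
  exact NormedSpace.unbounded_univ ℝ ℂ this

theorem clopen {Y C O : Set ℂ} (hY : IsPreconnected Y) (hC : IsClosed C) (hO : IsOpen O)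
    (h1 : ∀ x ∈ C, x ∈ O) (h2 : ∀ x ∈ O, x ∈ Y → x ∈ C) {a z : ℂ} (ha : a ∈ Y) (haC : a ∉ C)
    (hz : z ∈ C) (hzY : z ∈ Y) : False := by
  obtain ⟨x, hxY, hxO, hxC⟩ := hY O Cᶜ hO hC.isOpen_compl
    (fun x _ => by
      by_cases hx : x ∈ C
      · exact Or.inl (h1 x hx)
      · exact Or.inr hx) ⟨z, hzY, h1 z hz⟩ ⟨a, ha, haC⟩
  exact hxC (h2 x hxO hxY)

end Top3P

theorem blaschke {d : ℝ} (hd : 0 < d) (h : ∀ k, Cont r (Ls k))
    (hdiam : ∀ k, ∃ x ∈ Ls k, ∃ y ∈ Ls k, d ≤ dist x y) :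
    ∃ (σ : ℕ → ℕ) (L : Set ℂ), StrictMono σ ∧ Cont r L ∧ HL (fun k => Ls (σ k)) L := by
  have hne : ∀ k, (Ls k).Nonempty := fun k => (h k).nt.nonempty
  let X : ℕ → TopologicalSpace.NonemptyCompacts ℂ := fun k => ⟨⟨Ls k, (h k).cpt⟩, hne k⟩
  have hK := TopologicalSpace.NonemptyCompacts.isCompact_subsets_of_isCompact (isCompact_cann r)
  obtain ⟨Y, hY, σ, hσ, hlim⟩ := hK.tendsto_subseq (x := X) (fun k => (h k).sub)
  have hHL : HL (fun k => Ls (σ k)) (Y : Set ℂ) := by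
    intro ε hε
    have h1 : ∀ᶠ k in atTop, edist (X (σ k)) Y < ENNReal.ofReal ε :=
      (EMetric.tendsto_nhds.1 hlim) _ (by simpa using hε)
    filter_upwards [h1] with k hk
    have hk' : hausdorffEDist (Ls (σ k)) (Y : Set ℂ) < ENNReal.ofReal ε := hk
    constructor
    · intro x hx
      obtain ⟨y, hy, hxy⟩ := exists_edist_lt_of_hausdorffEDist_lt hx hk'
      exact mem_thickening_iff.2 ⟨y, hy, edist_lt_ofReal.1 hxy⟩
    · intro x hx
      rw [hausdorffEDist_comm] at hk'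
      obtain ⟨y, hy, hxy⟩ := exists_edist_lt_of_hausdorffEDist_lt hx hk'
      exact mem_thickening_iff.2 ⟨y, hy, edist_lt_ofReal.1 hxy⟩
  refine ⟨σ, Y, hσ, ⟨(h 0).r0, (h 0).r1, Y.isCompact, ?_, ?_, hY, ?_⟩, hHL⟩
  · exact Top3P.preconn_lim hHL Y.isCompact fun k => (h (σ k)).conn
  · obtain ⟨k, hk, -⟩ := (hHL (d / 2) (by positivity)).exists
    obtain ⟨x, hx, y, hy, hxy⟩ := hdiam (σ k)
    obtain ⟨x', hx', h1⟩ := mem_thickening_iff.1 (hk hx)
    obtain ⟨y', hy', h2⟩ := mem_thickening_iff.1 (hk hy)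
    refine ⟨x', hx', y', hy', fun he => ?_⟩
    subst he
    have := dist_triangle_right x y x'
    linarith
  · intro z hz
    by_contra hc
    push Not at hc
    obtain ⟨k, -, hk⟩ := (hHL z.im hc).exists
    obtain ⟨y, hy, h1⟩ := mem_thickening_iff.1 (hk hz)
    have h2 := (h (σ k)).low y hy
    have h3 : |(z - y).im| ≤ ‖z - y‖ := abs_im_le_norm _
    rw [dist_eq_norm] at h1
    have h4 := (abs_le.1 h3).2
    simp only [sub_im] at h4
    linarith

theorem HL.mem (h : HL Ls L) (hL : IsClosed L) {z : ℂ}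
    (hz : ∀ ε > 0, ∃ᶠ k in atTop, ∃ y ∈ Ls k, dist y z < ε) : z ∈ L := by
  rw [← hL.closure_eq, Metric.mem_closure_iff]
  intro ε hε
  obtain ⟨k, ⟨y, hy, h1⟩, hk, -⟩ :=
    ((hz (ε / 2) (by positivity)).and_eventually (h (ε / 2) (by positivity))).exists
  obtain ⟨x, hx, h2⟩ := mem_thickening_iff.1 (hk hy)
  refine ⟨x, hx, ?_⟩
  have := dist_triangle_left z x y
  linarith

theorem HL.near (h : HL Ls L) {p : ℂ} (hp : p ∈ L) {ε : ℝ} (hε : 0 < ε) :
    ∀ᶠ k in atTop, ∃ y ∈ Ls k, dist y p < ε := by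
  filter_upwards [h ε hε] with k hk
  obtain ⟨y, hy, h1⟩ := mem_thickening_iff.1 (hk.2 hp)
  exact ⟨y, hy, by rwa [dist_comm]⟩

theorem HL.sub_open (h : HL Ls L) (hL : IsCompact L) {O : Set ℂ} (hO : IsOpen O) (hLO : L ⊆ O) :
    ∀ᶠ k in atTop, Ls k ⊆ O := by
  obtain ⟨δ, hδ, h1⟩ := hL.exists_thickening_subset_open hO hLO
  filter_upwards [h δ hδ] with k hk using hk.1.trans h1

theorem HL.subseq (h : HL Ls L) {σ : ℕ → ℕ} (hσ : Tendsto σ atTop atTop) :
    HL (fun k => Ls (σ k)) L := by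
  intro ε hε
  exact hσ.eventually (h ε hε)

theorem HL.diam (h : HL Ls L) (hL : L.Nontrivial) :
    ∃ d > 0, ∀ᶠ k in atTop, ∃ x ∈ Ls k, ∃ y ∈ Ls k, d ≤ dist x y := by
  obtain ⟨x, hx, y, hy, hxy⟩ := hL
  have hd : 0 < dist x y := dist_pos.2 hxy
  refine ⟨dist x y / 3, by positivity, ?_⟩
  filter_upwards [h.near hx (ε := dist x y / 3) (by positivity),
    h.near hy (ε := dist x y / 3) (by positivity)] with k ⟨x', hx', h1⟩ ⟨y', hy', h2⟩
  refine ⟨x', hx', y', hy', ?_⟩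
  have h3 := dist_triangle4 x x' y' y
  rw [dist_comm x x'] at h3
  linarith

theorem HL.of_close {Ls' : ℕ → Set ℂ} (h : HL Ls L)
    (h' : ∀ ε > 0, ∀ᶠ k in atTop, Ls' k ⊆ thickening ε (Ls k) ∧ Ls k ⊆ thickening ε (Ls' k)) :
    HL Ls' L := by
  intro ε hε
  filter_upwards [h (ε / 2) (by positivity), h' (ε / 2) (by positivity)] with k hk hk'
  constructor
  · intro x hx
    obtain ⟨y, hy, h1⟩ := mem_thickening_iff.1 (hk'.1 hx)
    obtain ⟨z, hz, h2⟩ := mem_thickening_iff.1 (hk.1 hy)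
    exact mem_thickening_iff.2 ⟨z, hz, by have := dist_triangle x y z; linarith⟩
  · intro x hx
    obtain ⟨y, hy, h1⟩ := mem_thickening_iff.1 (hk.2 hx)
    obtain ⟨z, hz, h2⟩ := mem_thickening_iff.1 (hk'.2 hy)
    exact mem_thickening_iff.2 ⟨z, hz, by have := dist_triangle x y z; linarith⟩

theorem HL.kern (h : HL Ls L) (hL : Cont r L) {C : Set ℂ} (hC : IsCompact C)
    (hs : C ⊆ main r L) : ∀ᶠ k in atTop, C ⊆ main r (Ls k) := by
  have hb : base r ∈ main r L := hL.upper_sub (base_mem hL.r0 hL.r1)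
  refine hC.induction_on (p := fun S => ∀ᶠ k in atTop, S ⊆ main r (Ls k)) ?_ ?_ ?_ ?_
  · exact Eventually.of_forall fun k => empty_subset _
  · intro S T hST hT
    filter_upwards [hT] with k hk using hST.trans hk
  · intro S T hS hT
    filter_upwards [hS, hT] with k h1 h2 using union_subset h1 h2
  · intro z hz
    obtain ⟨γ, hγ, h0, h1, hm⟩ := path_of_open hL.isOpen_main (preconn_main r L) hb (hs hz)
    obtain ⟨ρ, hρ, hball⟩ := nhds_basis_closedBall.mem_iff.1 (hL.isOpen_main.mem_nhds (hs hz))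
    set K : Set ℂ := γ '' Icc 0 1 ∪ closedBall z ρ with hKdef
    have hKc : IsCompact K := (isCompact_Icc.image hγ).union (isCompact_closedBall z ρ)
    have hKp : IsPreconnected K :=
      IsPreconnected.union z ⟨1, by simp, h1⟩ (mem_closedBall_self hρ.le)
        (isPreconnected_Icc.image γ hγ.continuousOn) (convex_closedBall z ρ).isPreconnected
    have hKs : K ⊆ main r L := union_subset (by rintro _ ⟨t, -, rfl⟩; exact hm t) hball
    have hbK : base r ∈ K := Or.inl ⟨0, by simp, h0⟩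
    refine ⟨closedBall z ρ, mem_nhdsWithin_of_mem_nhds (closedBall_mem_nhds z hρ), ?_⟩
    filter_upwards [h.sub_open hL.cpt hKc.isClosed.isOpen_compl
      (fun x hx hxK => (main_sub r L (hKs hxK)).2 hx)] with k hk
    have hsub : K ⊆ ann r \ Ls k := fun x hx => ⟨(main_sub r L (hKs hx)).1, fun h' => hk h' hx⟩
    exact subset_union_right.trans (hKp.subset_connectedComponentIn hbK hsub)

/-- Near a point of the circles off `L` and in the closure of the main component, the main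
components of the approximating continua contain a fixed neighbourhood. -/
theorem HL.kern_bd (h : HL Ls L) (hL : Cont r L) {p : ℂ} (hp : p ∈ closure (main r L))
    (hpL : p ∉ L) : ∃ ρ > 0, ∀ᶠ k in atTop, Disjoint (ball p ρ) (Ls k) ∧
      ball p ρ ∩ ann r ⊆ main r (Ls k) := by
  obtain ⟨ρ₀, hρ₀, hball⟩ :=
    nhds_basis_closedBall.mem_iff.1 (hL.cpt.isClosed.isOpen_compl.mem_nhds hpL)
  have hpc : p ∈ cann r := by
    rw [← closure_ann hL.r0 hL.r1]
    exact closure_mono (fun x hx => (main_sub r L hx).1) hp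
  obtain ⟨V, hV, hpV, hVO, hc, -, -⟩ := loc_conn hL.r0 hL.r1 hpc (ball_mem_nhds p hρ₀)
  obtain ⟨z, hzV, hz⟩ := _root_.mem_closure_iff.1 hp V hV hpV
  obtain ⟨ρ, hρ, hb⟩ := Metric.isOpen_iff.1 hV p hpV
  refine ⟨ρ, hρ, ?_⟩
  filter_upwards [h.kern hL isCompact_singleton (singleton_subset_iff.2 hz),
    h.sub_open hL.cpt (isClosed_closedBall (x := p) (ε := ρ₀)).isOpen_compl
      (fun x hx hxb => hball hxb hx)] with k h1 h2
  have h3 : ∀ x ∈ V, x ∉ Ls k := fun x hx hx' => h2 hx' (ball_subset_closedBall (hVO hx))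
  refine ⟨disjoint_left.2 fun x hx => h3 x (hb hx), ?_⟩
  have h4 : V ∩ ann r ⊆ main r (Ls k) :=
    sub_main hc (fun x hx => ⟨hx.2, h3 x hx.1⟩)
      ⟨z, ⟨hzV, (main_sub r L hz).1⟩, h1 (mem_singleton z)⟩
  exact fun x hx => h4 ⟨hb hx.1, hx.2⟩

theorem Cont.isOpen_Om (h : Cont r L) : IsOpen (Om r L) := by
  rw [isOpen_iff_mem_nhds]
  have hlt : ∀ (z : ℂ) (a : ℝ), ‖z‖ < a → ∀ᶠ y in 𝓝 z, ‖y‖ < a := fun z a hz =>
    (isOpen_lt continuous_norm continuous_const).mem_nhds hz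
  have hgt : ∀ (z : ℂ) (a : ℝ), a < ‖z‖ → ∀ᶠ y in 𝓝 z, a < ‖y‖ := fun z a hz =>
    (isOpen_lt continuous_const continuous_norm).mem_nhds hz
  rintro z ((hz | ⟨hz, hL⟩) | ⟨hz, hL⟩)
  · filter_upwards [h.isOpen_main.mem_nhds hz] with y hy using Or.inl (Or.inl hy)
  · rcases hz.lt_or_eq with h1 | h1
    · filter_upwards [hlt z r h1] with y hy using Or.inl (Or.inr ⟨hy.le, hL⟩)
    · have hE := h.Ex_all hL h1
      have h2 := eventually_nhdsWithin_iff.1 (h.ev_main hE.2.2 hE.2.1)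
      filter_upwards [h2, hlt z 1 (h1 ▸ h.r1)] with y hy hy1
      by_cases hyr : ‖y‖ ≤ r
      · exact Or.inl (Or.inr ⟨hyr, hL⟩)
      · exact Or.inl (Or.inl (hy ⟨not_le.1 hyr, hy1⟩))
  · rcases hz.lt_or_eq with h1 | h1
    · filter_upwards [hgt z 1 h1] with y hy using Or.inr ⟨hy.le, hL⟩
    · have hL' : ∀ p ∈ L, ‖p‖ < 1 := fun p hp => lt_of_le_of_ne (h.sub hp).2 (hL p hp)
      have h2 := eventually_nhdsWithin_iff.1
        (h.ev_main (h.outer_closure hL' h1.symm) fun hz' => hL z hz' h1.symm)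
      filter_upwards [h2, hgt z r (h1 ▸ h.r1)] with y hy hy1
      by_cases hyr : 1 ≤ ‖y‖
      · exact Or.inr ⟨hyr, hL⟩
      · exact Or.inl (Or.inl (hy ⟨hy1, not_le.1 hyr⟩))

theorem Cont.preconn_Om (h : Cont r L) : IsPreconnected (Om r L) := by
  have hb : base r ∈ main r L := h.upper_sub (base_mem h.r0 h.r1)
  have hadd : ∀ (S T : Set ℂ) (q : ℂ), IsPreconnected S → main r L ⊆ S → IsPreconnected T →
      q ∈ T → q ∈ closure (main r L) → IsPreconnected (S ∪ T) := by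
    intro S T q hS hm hT hq hqc
    have h1 : IsPreconnected (S ∪ {q}) :=
      hS.subset_closure subset_union_left
        (union_subset subset_closure (singleton_subset_iff.2 (closure_mono hm hqc)))
    have h2 := IsPreconnected.union q (Or.inr rfl) hq h1 hT
    have h3 : S ∪ {q} ∪ T = S ∪ T := by
      rw [union_assoc, union_eq_self_of_subset_left (singleton_subset_iff.2 hq)]
    rwa [h3] at h2
  have h1 : IsPreconnected (main r L ∪ {z | ‖z‖ ≤ r ∧ ∀ p ∈ L, ‖p‖ ≠ r}) := by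
    by_cases hL : ∀ p ∈ L, ‖p‖ ≠ r
    · have hr : ‖(r : ℂ)‖ = r := by simp [abs_of_pos h.r0]
      refine hadd _ _ (r : ℂ) (preconn_main r L) Subset.rfl ?_ ⟨hr.le, hL⟩ (h.Ex_all hL hr).2.2
      have : {z : ℂ | ‖z‖ ≤ r ∧ ∀ p ∈ L, ‖p‖ ≠ r} = closedBall 0 r := by
        ext z
        simp only [mem_ofPred_eq, mem_closedBall_zero_iff]
        exact ⟨fun h => h.1, fun h => ⟨h, hL⟩⟩
      rw [this]
      exact (convex_closedBall _ _).isPreconnected
    · have : {z : ℂ | ‖z‖ ≤ r ∧ ∀ p ∈ L, ‖p‖ ≠ r} = ∅ :=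
        eq_empty_of_forall_notMem fun z hz => hL hz.2
      rw [this, union_empty]
      exact preconn_main r L
  unfold Om
  by_cases hL : ∀ p ∈ L, ‖p‖ ≠ 1
  · have hL' : ∀ p ∈ L, ‖p‖ < 1 := fun p hp => lt_of_le_of_ne (h.sub hp).2 (hL p hp)
    refine hadd _ _ (1 : ℂ) h1 subset_union_left ?_ ⟨by simp, hL⟩ (h.outer_closure hL' (by simp))
    have : {z : ℂ | 1 ≤ ‖z‖ ∧ ∀ p ∈ L, ‖p‖ ≠ 1} = (ball 0 1)ᶜ := by
      ext z
      simp only [mem_ofPred_eq, mem_compl_iff, mem_ball_zero_iff, not_lt]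
      exact ⟨fun h => h.1, fun h => ⟨h, hL⟩⟩
    rw [this]
    exact Top3P.preconn_ext 0 1
  · have : {z : ℂ | 1 ≤ ‖z‖ ∧ ∀ p ∈ L, ‖p‖ ≠ 1} = ∅ :=
      eq_empty_of_forall_notMem fun z hz => hL hz.2
    rw [this, union_empty]
    exact h1

theorem Cont.Om_inter (h : Cont r L) : Om r L ∩ ann r = main r L := by
  ext z
  constructor
  · rintro ⟨(hz | hz) | hz, ha⟩
    · exact hz
    · exact absurd ha.1 (not_lt.2 hz.1)
    · exact absurd ha.2 (not_lt.2 hz.1)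
  · exact fun hz => ⟨Or.inl (Or.inl hz), (main_sub r L hz).1⟩

theorem Cont.Om_disjoint (h : Cont r L) : Disjoint (Om r L) (YS r L) := by
  rw [disjoint_left]
  have h1 := h.r1
  rintro z ((hz | ⟨hz, hL⟩) | ⟨hz, hL⟩) ((hy | ⟨hy, p, hp, hp'⟩) | ⟨hy, p, hp, hp'⟩)
  · exact (main_sub r L hz).2 hy
  · exact absurd (main_sub r L hz).1.1 (not_lt.2 hy)
  · exact absurd (main_sub r L hz).1.2 (not_lt.2 hy)
  · exact hL z hy (le_antisymm hz (h.sub hy).1)
  · exact hL p hp hp'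
  · linarith
  · exact hL z hy (le_antisymm (h.sub hy).2 hz)
  · linarith
  · exact hL p hp hp'

theorem Cont.closed_YS (h : Cont r L) : IsClosed (YS r L) := by
  refine (h.cpt.isClosed.union ?_).union ?_
  · exact (isClosed_le continuous_norm continuous_const).inter isClosed_const
  · exact (isClosed_le continuous_const continuous_norm).inter isClosed_const

theorem Cont.preconn_YS (h : Cont r L) : IsPreconnected (YS r L) := by
  have h1 : IsPreconnected (L ∪ {z | ‖z‖ ≤ r ∧ ∃ p ∈ L, ‖p‖ = r}) := by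
    by_cases hL : ∃ p ∈ L, ‖p‖ = r
    · have : {z : ℂ | ‖z‖ ≤ r ∧ ∃ p ∈ L, ‖p‖ = r} = closedBall 0 r := by
        ext z
        simp only [mem_ofPred_eq, mem_closedBall_zero_iff]
        exact ⟨fun h => h.1, fun h => ⟨h, hL⟩⟩
      rw [this]
      obtain ⟨p, hp, hp'⟩ := hL
      exact IsPreconnected.union p hp (by simp [hp']) h.conn (convex_closedBall _ _).isPreconnected
    · have : {z : ℂ | ‖z‖ ≤ r ∧ ∃ p ∈ L, ‖p‖ = r} = ∅ :=
        eq_empty_of_forall_notMem fun z hz => hL hz.2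
      rw [this, union_empty]
      exact h.conn
  unfold YS
  by_cases hL : ∃ p ∈ L, ‖p‖ = 1
  · have : {z : ℂ | 1 ≤ ‖z‖ ∧ ∃ p ∈ L, ‖p‖ = 1} = (ball 0 1)ᶜ := by
      ext z
      simp only [mem_ofPred_eq, mem_compl_iff, mem_ball_zero_iff, not_lt]
      exact ⟨fun h => h.1, fun h => ⟨h, hL⟩⟩
    rw [this]
    obtain ⟨p, hp, hp'⟩ := hL
    exact IsPreconnected.union p (Or.inl hp) (by simp [hp']) h1 (Top3P.preconn_ext 0 1)
  · have : {z : ℂ | 1 ≤ ‖z‖ ∧ ∃ p ∈ L, ‖p‖ = 1} = ∅ :=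
      eq_empty_of_forall_notMem fun z hz => hL hz.2
    rw [this, union_empty]
    exact h1

theorem Cont.frontier_Om (h : Cont r L) : frontier (Om r L) = frontier (main r L) ∩ YS r L := by
  rw [h.isOpen_Om.frontier_eq]
  ext p
  constructor
  · rintro ⟨hp, hn⟩
    have hc1 : IsClosed {z : ℂ | ‖z‖ ≤ r ∧ ∀ p ∈ L, ‖p‖ ≠ r} :=
      (isClosed_le continuous_norm continuous_const).inter isClosed_const
    have hc2 : IsClosed {z : ℂ | 1 ≤ ‖z‖ ∧ ∀ p ∈ L, ‖p‖ ≠ 1} :=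
      (isClosed_le continuous_const continuous_norm).inter isClosed_const
    unfold Om at hp
    rw [closure_union, closure_union, hc1.closure_eq, hc2.closure_eq] at hp
    have hpc : p ∈ closure (main r L) := by
      rcases hp with (hp | hp) | hp
      · exact hp
      · exact absurd (Or.inl (Or.inr hp)) hn
      · exact absurd (Or.inr hp) hn
    have hf : p ∈ frontier (main r L) := by
      rw [h.isOpen_main.frontier_eq]
      exact ⟨hpc, fun h' => hn (Or.inl (Or.inl h'))⟩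
    refine ⟨hf, ?_⟩
    obtain ⟨-, -, h1 | h1 | h1⟩ := h.frontier_sub hf
    · exact Or.inl (Or.inl h1)
    · refine Or.inl (Or.inr ⟨h1.1.le, ?_⟩)
      by_contra hc
      exact hn (Or.inl (Or.inr ⟨h1.1.le, fun q hq hq' => hc ⟨q, hq, hq'⟩⟩))
    · refine Or.inr ⟨h1.ge, ?_⟩
      by_contra hc
      exact hn (Or.inr ⟨h1.ge, fun q hq hq' => hc ⟨q, hq, hq'⟩⟩)
  · rintro ⟨hp, hY⟩
    exact ⟨closure_mono (fun x hx => Or.inl (Or.inl hx)) (frontier_subset_closure hp),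
      fun h' => disjoint_left.1 h.Om_disjoint h' hY⟩

theorem Cont.frontier_not_YS (h : Cont r L) {p : ℂ} (hp : p ∈ frontier (main r L))
    (hY : p ∉ YS r L) : p ∈ Om r L ∧ (‖p‖ = r ∨ ‖p‖ = 1) := by
  obtain ⟨-, -, h1 | h1 | h1⟩ := h.frontier_sub hp
  · exact absurd (Or.inl (Or.inl h1)) hY
  · exact ⟨Or.inl (Or.inr ⟨h1.1.le, fun q hq hq' => hY (Or.inl (Or.inr ⟨h1.1.le, q, hq, hq'⟩))⟩),
      Or.inl h1.1⟩
  · exact ⟨Or.inr ⟨h1.ge, fun q hq hq' => hY (Or.inr ⟨h1.ge, q, hq, hq'⟩)⟩, Or.inr h1⟩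

theorem Cont.nc_aux (h : Cont r L) {C O : Set ℂ} (hC : IsCompact C) (hO : IsOpen O)
    (hCO : C = O \ Om r L) {a : ℂ} (ha : a ∈ YS r L) (haC : a ∉ C) : C = ∅ := by
  have h1 : ∀ x ∈ C, x ∈ O := fun x hx => (hCO ▸ hx).1
  have hY : ∀ z ∈ C, z ∉ YS r L := fun z hz hzY =>
    Top3P.clopen h.preconn_YS hC.isClosed hO h1
      (fun x hx hxY => hCO ▸ ⟨hx, fun h' => disjoint_left.1 h.Om_disjoint h' hxY⟩) ha haC hz hzY
  have hopen : IsOpen C := by
    rw [isOpen_iff_mem_nhds]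
    intro c hc
    have hcO : c ∉ Om r L := (hCO ▸ hc).2
    have hcl : c ∉ closure (Om r L) := by
      intro h'
      have h2 : c ∈ frontier (Om r L) := by
        rw [h.isOpen_Om.frontier_eq]
        exact ⟨h', hcO⟩
      rw [h.frontier_Om] at h2
      exact hY c hc h2.2
    filter_upwards [hO.mem_nhds (h1 c hc), isClosed_closure.isOpen_compl.mem_nhds hcl] with y hy hy'
    exact hCO ▸ ⟨hy, fun h' => hy' (subset_closure h')⟩
  rcases isClopen_iff.1 ⟨hC.isClosed, hopen⟩ with h2 | h2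
  · exact h2
  · exact absurd (h2 ▸ mem_univ a) haC

theorem Cont.nc_Om (h : Cont r L) (ho : ∃ p ∈ L, ‖p‖ = 1) : NC (Om r L) := by
  intro C O hC hO hCO
  obtain ⟨a, haC, ha⟩ := Top3P.exists_far hC 0 1
  refine h.nc_aux hC hO hCO (a := a) (Or.inr ⟨?_, ho⟩) haC
  simpa using ha

theorem Cont.nc_inv (h : Cont r L) (ho : ∀ p ∈ L, ‖p‖ ≠ 1) {a : ℂ} (ha : a ∈ L) :
    NC ((fun z => (z - a)⁻¹) '' Om r L ∪ {0}) := by
  intro C O hC hO hCO
  have h0 : ∀ w ∈ C, w ≠ 0 := by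
    intro w hw h0
    rw [hCO] at hw
    exact hw.2 (Or.inr h0)
  have hC' : IsCompact ((fun w : ℂ => a + w⁻¹) '' C) :=
    hC.image_of_continuousOn (continuousOn_const.add (continuousOn_id.inv₀ h0))
  have hO' : IsOpen ({a}ᶜ ∩ (fun z : ℂ => (z - a)⁻¹) ⁻¹' O) :=
    ContinuousOn.isOpen_inter_preimage
      ((continuousOn_id.sub continuousOn_const).inv₀ fun z hz => sub_ne_zero.2 hz)
      isOpen_compl_singleton hO
  have hE := h.nc_aux hC' hO' (a := a) ?_ (Or.inl (Or.inl ha)) ?_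
  · exact image_eq_empty.1 hE
  · ext z
    constructor
    · rintro ⟨w, hw, rfl⟩
      have hw0 := h0 w hw
      rw [hCO] at hw
      refine ⟨⟨?_, ?_⟩, fun hz => hw.2 (Or.inl ⟨_, hz, by simp⟩)⟩
      · simpa using hw0
      · simpa using hw.1
    · rintro ⟨⟨hz1, hz2⟩, hz3⟩
      refine ⟨(z - a)⁻¹, ?_, by simp⟩
      rw [hCO]
      refine ⟨hz2, ?_⟩
      rintro (⟨y, hy, hyz⟩ | h0')
      · have : y = z := by simpa using hyz
        exact hz3 (this ▸ hy)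
      · exact hz1 (by simpa [sub_eq_zero] using h0')
  · rintro ⟨w, hw, hwa⟩
    exact h0 w hw (by simpa using hwa)

theorem nc_ball_diff {K : Set ℂ} {p : ℂ} {ρ : ℝ} (hK : IsPreconnected K) (hn : ¬ K ⊆ ball p ρ) :
    NC (ball p ρ \ K) := by
  intro C O hC hO hCO
  obtain ⟨q, hq, hq'⟩ := not_subset.1 hn
  have hY : IsPreconnected ((ball p ρ)ᶜ ∪ K) :=
    IsPreconnected.union q hq' hq (Top3P.preconn_ext p ρ) hK
  obtain ⟨a, haC, ha⟩ := Top3P.exists_far hC p ρ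
  have hsub : C ⊆ (ball p ρ)ᶜ ∪ K := by
    intro z hz
    rw [hCO] at hz
    by_cases h1 : z ∈ K
    · exact Or.inr h1
    · exact Or.inl fun h2 => hz.2 ⟨h2, h1⟩
  refine eq_empty_of_forall_notMem fun z hz => ?_
  refine Top3P.clopen hY hC.isClosed hO (fun x hx => ?_) (fun x hx hxY => ?_) (Or.inl ha) haC hz
    (hsub hz)
  · rw [hCO] at hx
    exact hx.1
  · rw [hCO]
    refine ⟨hx, fun h' => ?_⟩
    rcases hxY with h1 | h1
    · exact h1 h'.1
    · exact h'.2 h1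

end Pool.Agent.P.MP_3bd355_an
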