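import Pool.Agent.P.MP_3bd355_an.Har3
import Pool.Agent.P.MP_3bd355_an.Top3
import Pool.Agent.P.MP_3bd355_an.Top2

/-! Properties of the uniformisation. -/

open Set Filter Metric Complex InnerProductSpace
open scoped Topology ComplexConjugate Real

namespace Pool.Agent.P.MP_3bd355_an

variable {r : ℝ} {L : Set ℂ} {φ ψ F : ℂ → ℂ} {h s0 s1 : ℝ} {Fb : ℝ → ℂ}

namespace UniFP

theorem norm_expI (η : ℂ) : ‖exp (I * η)‖ = Real.exp (-η.im) := by
  rw [norm_exp]; simp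

theorem main_sub_Om : main r L ⊆ Om r L := fun _ hz => Or.inl (Or.inl hz)

theorem expI_shift (η : ℂ) (k : ℤ) : exp (I * (η + (2 * π * k : ℝ))) = exp (I * η) := by
  have e : I * (η + (2 * π * k : ℝ)) = I * η + k * (2 * π * I) := by push_cast; ring
  rw [e, exp_add, exp_int_mul_two_pi_mul_I, mul_one]

theorem St_shift {η : ℂ} (hη : η ∈ St h) (a : ℝ) : η + a ∈ St h := by
  simpa [St] using hη

theorem exists_Ico (s x : ℝ) : ∃ k : ℤ, x - 2 * π * k ∈ Ico s (s + 2 * π) := by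
  have h2 : (0 : ℝ) < 2 * π := by positivity
  refine ⟨toIcoDiv h2 s x, ?_⟩
  have := sub_toIcoDiv_zsmul_mem_Ico h2 s x
  rwa [zsmul_eq_mul, mul_comm _ (2 * π)] at this

theorem tendsto_expim (x : ℝ) :
    Tendsto (fun η : ℂ => Real.exp (-η.im)) (𝓝[upH] (x : ℂ)) (𝓝 1) := by
  have hc : Continuous fun η : ℂ => Real.exp (-η.im) := by fun_prop
  have := (hc.tendsto (x : ℂ)).mono_left (nhdsWithin_le_nhds (s := upH))
  simpa using this

theorem sep {p q : ℂ} (hpq : q ≠ p) {l : Filter ℂ} (hl : Tendsto F l (𝓝 q)) (P : ℂ → Prop) :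
    ∃ O ∈ 𝓝 p, ∀ᶠ η in l, F η ∈ O → P (F η) := by
  obtain ⟨u, v, hu, hv, hqu, hpv, huv⟩ := t2_separation hpq
  refine ⟨v, hv.mem_nhds hpv, ?_⟩
  filter_upwards [hl (hu.mem_nhds hqu)] with η h1 h2
  exact (Set.disjoint_left.1 huv h1 h2).elim

theorem closed_LA (hL : Cont r L) : IsClosed (LA L) := by
  refine hL.cpt.isClosed.union ?_
  exact (isClosed_eq continuous_norm continuous_const).inter isClosed_const

theorem LA_not_Ex (hL : Cont r L) {p : ℂ} (hp : p ∈ LA L) : p ∉ Ex r L := by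
  intro hE
  rcases hp with hp | hp
  · exact hE.2.1 hp
  · have := hE.1
    have := hp.1
    have := hL.r1
    linarith

end UniFP

open UniFP

theorem RMo.unif (hL : Cont r L) (hR : RMo r L φ ψ) (hh : 0 < h)
    (hb : ∀ p ∈ Om r L, ‖p‖ = r ∨ ‖p‖ = 1 → ‖φ p‖ ≤ Real.exp (-h)) :
    Unif r L φ (fun η => ψ (exp (I * η))) h := by
  have hw : ∀ η ∈ St h, exp (I * η) ∈ ball (0 : ℂ) 1 \ {0} := by
    intro η hη
    refine ⟨?_, exp_ne_zero _⟩
    rw [mem_ball_zero_iff, norm_expI]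
    exact Real.exp_lt_one_iff.2 (by linarith [hη.1])
  refine
    { cont := hL
      hpos := hh
      dφ := hR.dφ.mono main_sub_Om
      inj := hR.inj.mono main_sub_Om
      lt := fun z hz => hR.lt z (main_sub_Om hz)
      ne := fun hn z hz => (hR.inf hn).1 z (main_sub_Om hz)
      dF := hR.dψ.comp (f := fun η : ℂ => exp (I * η)) (by fun_prop) hw
      maps := ?_
      comp := fun η hη => (hR.inv _ (hw η hη)).2
      bdY := ?_
      bdO := ?_ }
  · intro η hη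
    obtain ⟨hz, he⟩ := hR.inv _ (hw η hη)
    set z := ψ (exp (I * η))
    have hlt : Real.exp (-h) < ‖φ z‖ := by
      rw [he, norm_expI]
      exact Real.exp_lt_exp.2 (by linarith [hη.2])
    rcases hz with (hz | hz) | hz
    · exact hz
    · exfalso
      have hsub : closedBall (0 : ℂ) r ⊆ Om r L := fun y hy =>
        Or.inl (Or.inr ⟨mem_closedBall_zero_iff.1 hy, hz.2⟩)
      have hd : DiffContOnCl ℂ φ (ball 0 r) := by
        apply DifferentiableOn.diffContOnCl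
        rw [closure_ball _ hL.r0.ne']
        exact hR.dφ.mono hsub
      have := norm_le_of_forall_mem_frontier_norm_le isBounded_ball hd (C := Real.exp (-h))
        (z := z) (fun y hy => by
          rw [frontier_ball _ hL.r0.ne'] at hy
          exact hb y (hsub (sphere_subset_closedBall hy)) (Or.inl (mem_sphere_zero_iff_norm.1 hy)))
        (by rw [closure_ball _ hL.r0.ne']; exact mem_closedBall_zero_iff.2 hz.1)
      linarith
    · exfalso
      obtain ⟨-, c, C, -, hC⟩ := hR.inf hz.2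
      have hsub : ∀ y : ℂ, 1 ≤ ‖y‖ → y ∈ Om r L := fun y hy => Or.inr ⟨hy, hz.2⟩
      rcases eq_or_lt_of_le hz.1 with h1 | h1
      · have := hb z (hsub z hz.1) (Or.inr h1.symm)
        linarith
      have hE : 0 < Real.exp (-h) := Real.exp_pos _
      set R : ℝ := max (‖z‖ + 1) (C / Real.exp (-h)) with hRd
      have hR1 : ‖z‖ + 1 ≤ R := le_max_left _ _
      have hR2 : C / Real.exp (-h) ≤ R := le_max_right _ _
      set U : Set ℂ := {y | 1 < ‖y‖ ∧ ‖y‖ < R}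
      have hUo : IsOpen U := (isOpen_lt continuous_const continuous_norm).inter
        (isOpen_lt continuous_norm continuous_const)
      have hcl : closure U ⊆ {y : ℂ | 1 ≤ ‖y‖ ∧ ‖y‖ ≤ R} :=
        closure_minimal (fun y hy => ⟨hy.1.le, hy.2.le⟩)
          ((isClosed_le continuous_const continuous_norm).inter
            (isClosed_le continuous_norm continuous_const))
      have hd : DiffContOnCl ℂ φ U :=
        DifferentiableOn.diffContOnCl (hR.dφ.mono fun y hy => hsub y (hcl hy).1)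
      have hbd : Bornology.IsBounded U :=
        (isBounded_ball (x := (0 : ℂ)) (r := R)).subset fun y hy => mem_ball_zero_iff.2 hy.2
      have := norm_le_of_forall_mem_frontier_norm_le hbd hd (C := Real.exp (-h))
        (z := z) (fun y hy => by
          rw [hUo.frontier_eq] at hy
          obtain ⟨hy1, hy2⟩ := hcl hy.1
          rcases eq_or_lt_of_le hy1 with e | e
          · exact hb y (hsub y hy1) (Or.inr e.symm)
          · have hyR : ‖y‖ = R := le_antisymm hy2 (not_lt.1 fun hh' => hy.2 ⟨e, hh'⟩)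
            have h3 := (hC y hy1).2
            rw [div_le_iff₀ hE] at hR2
            rw [hyR] at h3
            have hR0 : 0 < R := by linarith
            exact le_of_mul_le_mul_left (h3.trans hR2) hR0)
        (subset_closure ⟨h1, by linarith⟩)
      linarith
  · intro p hp hY
    have : p ∈ frontier (Om r L) := by rw [hL.frontier_Om]; exact ⟨hp, hY⟩
    exact (hR.bd p this).mono_left (nhdsWithin_mono _ main_sub_Om)
  · intro p hp hY
    obtain ⟨hO, hn⟩ := hL.frontier_not_YS hp hY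
    have hc : ContinuousAt φ p := hR.dφ.continuousOn.continuousAt (hL.isOpen_Om.mem_nhds hO)
    exact LS.of_tendsto (hc.norm.tendsto.mono_left nhdsWithin_le_nhds) (hb p hO hn)

theorem RMo.exists_height (hL : Cont r L) (hR : RMo r L φ ψ) :
    ∃ h > 0, ∀ p ∈ Om r L, ‖p‖ = r ∨ ‖p‖ = 1 → ‖φ p‖ ≤ Real.exp (-h) := by
  set K : Set ℂ := (sphere 0 r ∩ {_p | ∀ q ∈ L, ‖q‖ ≠ r}) ∪ (sphere 0 1 ∩ {_p | ∀ q ∈ L, ‖q‖ ≠ 1})
  have hK : IsCompact K :=
    ((isCompact_sphere _ _).inter_right isClosed_const).union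
      ((isCompact_sphere _ _).inter_right isClosed_const)
  have hKO : K ⊆ Om r L := by
    rintro p (hp | hp)
    · exact Or.inl (Or.inr ⟨(mem_sphere_zero_iff_norm.1 hp.1).le, hp.2⟩)
    · exact Or.inr ⟨(mem_sphere_zero_iff_norm.1 hp.1).ge, hp.2⟩
  have hin : ∀ p ∈ Om r L, ‖p‖ = r ∨ ‖p‖ = 1 → p ∈ K := by
    have := hL.r1
    rintro p ((hp | hp) | hp) hn
    · have := (main_sub r L hp).1
      rcases hn with hn | hn
      · linarith [this.1]
      · linarith [this.2]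
    · rcases hn with hn | hn
      · exact Or.inl ⟨mem_sphere_zero_iff_norm.2 hn, hp.2⟩
      · linarith [hp.1]
    · rcases hn with hn | hn
      · linarith [hp.1]
      · exact Or.inr ⟨mem_sphere_zero_iff_norm.2 hn, hp.2⟩
  rcases K.eq_empty_or_nonempty with hE | hN
  · refine ⟨1, one_pos, fun p hp hn => ?_⟩
    have := hin p hp hn
    rw [hE] at this
    exact this.elim
  obtain ⟨q, hq, hm⟩ := hK.exists_isMaxOn hN (hR.dφ.continuousOn.mono hKO).norm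
  have h1 : ‖φ q‖ < 1 := hR.lt q (hKO hq)
  have h2 : (0 : ℝ) < max ‖φ q‖ (1 / 2) := lt_max_of_lt_right (by norm_num)
  have h3 : max ‖φ q‖ (1 / 2) < 1 := max_lt h1 (by norm_num)
  refine ⟨-Real.log (max ‖φ q‖ (1 / 2)), by linarith [Real.log_neg h2 h3], fun p hp hn => ?_⟩
  rw [neg_neg, Real.exp_log h2]
  exact (hm (hin p hp hn)).trans (le_max_left _ _)

theorem Unif.onto (hU : Unif r L φ F h) {z : ℂ} (hz : z ∈ main r L)
    (hφ : Real.exp (-h) < ‖φ z‖) (s : ℝ) :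
    ∃ η ∈ St h, η.re ∈ Ico s (s + 2 * π) ∧ F η = z ∧ Real.exp (-η.im) = ‖φ z‖ := by
  have hpos : 0 < ‖φ z‖ := (Real.exp_pos _).trans hφ
  have hne : φ z ≠ 0 := norm_pos_iff.1 hpos
  set η₀ : ℂ := -I * log (φ z) with hη₀
  have he : exp (I * η₀) = φ z := by
    have : I * η₀ = log (φ z) := by
      rw [hη₀, ← mul_assoc, mul_neg, I_mul_I]; ring
    rw [this, exp_log hne]
  have hn : Real.exp (-η₀.im) = ‖φ z‖ := by rw [← norm_expI, he]
  have hS : η₀ ∈ St h := by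
    constructor
    · have := hU.lt z hz
      rw [← hn, Real.exp_lt_one_iff] at this
      linarith
    · rw [← hn, Real.exp_lt_exp] at hφ
      linarith
  obtain ⟨k, hk⟩ := exists_Ico s η₀.re
  have hS' := St_shift hS (2 * π * (-k : ℤ))
  refine ⟨η₀ + (2 * π * (-k : ℤ) : ℝ), hS', ?_, ?_, ?_⟩
  · rw [add_re, ofReal_re]
    convert hk using 1
    push_cast; ring
  · apply hU.inj (hU.maps _ hS') hz
    rw [hU.comp _ hS', expI_shift, he]
  · rw [add_im, ofReal_im, add_zero, hn]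

theorem Unif.norm_comp (hU : Unif r L φ F h) {η : ℂ} (hη : η ∈ St h) :
    ‖φ (F η)‖ = Real.exp (-η.im) := by
  rw [hU.comp η hη, norm_expI]

theorem Unif.periodic (hU : Unif r L φ F h) (k : ℤ) {η : ℂ} (hη : η ∈ St h) :
    F (η + (2 * π * k : ℝ)) = F η := by
  have hS := St_shift hη (2 * π * k)
  apply hU.inj (hU.maps _ hS) (hU.maps _ hη)
  rw [hU.comp _ hS, hU.comp _ hη, expI_shift]

theorem Unif.inj_mod (hU : Unif r L φ F h) {η η' : ℂ} (hη : η ∈ St h) (hη' : η' ∈ St h)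
    (he : F η = F η') : ∃ k : ℤ, η' = η + (2 * π * k : ℝ) := by
  have e : exp (I * η') = exp (I * η) := by rw [← hU.comp _ hη, ← hU.comp _ hη', he]
  obtain ⟨k, hk⟩ := exp_eq_exp_iff_exists_int.1 e
  refine ⟨k, mul_left_cancel₀ I_ne_zero ?_⟩
  rw [hk]; push_cast; ring

theorem Unif.analytic (hU : Unif r L φ F h) {η : ℂ} (hη : η ∈ St h) : AnalyticAt ℂ F η := by
  exact hU.dF.analyticAt ((isOpen_St h).mem_nhds hη)

theorem Unif.deriv_ne (hU : Unif r L φ F h) {η : ℂ} (hη : η ∈ St h) : deriv F η ≠ 0 := by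
  intro h0
  have hF := (hU.analytic hη).differentiableAt.hasDerivAt
  have hφ := (hU.dφ.differentiableAt
    (hU.cont.isOpen_main.mem_nhds (hU.maps η hη))).hasDerivAt
  have h1 : HasDerivAt (φ ∘ F) (deriv φ (F η) * deriv F η) η := hφ.comp η hF
  have h2 : HasDerivAt (fun y : ℂ => exp (I * y)) (exp (I * η) * (I * 1)) η :=
    ((hasDerivAt_id η).const_mul I).cexp
  have h3 : (φ ∘ F) =ᶠ[𝓝 η] fun y : ℂ => exp (I * y) := by
    filter_upwards [(isOpen_St h).mem_nhds hη] with y hy using hU.comp y hy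
  have h4 := (h2.congr_of_eventuallyEq h3).unique h1
  rw [h0, mul_zero, mul_one] at h4
  exact mul_ne_zero (exp_ne_zero _) I_ne_zero h4

theorem Unif.ev_main (hU : Unif r L φ F h) (x : ℝ) :
    ∀ᶠ η : ℂ in 𝓝[upH] (x : ℂ), η ∈ St h ∧ F η ∈ main r L := by
  filter_upwards [St_mem hU.hpos x] with η hη using ⟨hη, hU.maps η hη⟩

theorem Unif.ev_ne (hU : Unif r L φ F h) (x : ℝ) {K : Set ℂ} (hK : IsCompact K)
    (hs : K ⊆ main r L) : ∀ᶠ η : ℂ in 𝓝[upH] (x : ℂ), F η ∉ K := by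
  rcases K.eq_empty_or_nonempty with hE | hN
  · exact Eventually.of_forall fun η hη => by rw [hE] at hη; exact hη
  obtain ⟨q, hq, hm⟩ := hK.exists_isMaxOn hN (hU.dφ.continuousOn.mono hs).norm
  have h1 : ‖φ q‖ < 1 := hU.lt q (hs hq)
  filter_upwards [hU.ev_main x, (tendsto_expim x).eventually (lt_mem_nhds h1)] with η hη h2 hK'
  have h3 : ‖φ (F η)‖ ≤ ‖φ q‖ := hm hK'
  rw [hU.norm_comp hη.1] at h3
  linarith

theorem Unif.harm (hU : Unif r L φ F h) {u : ℂ → ℝ} {η : ℂ} (hη : η ∈ St h)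
    (hu : HarmonicAt u (F η)) : HarmonicAt (fun y => u (F y)) η := by
  exact harm_comp hu (hU.analytic hη)

theorem Unif.map_nhds (hU : Unif r L φ F h) {η : ℂ} (hη : η ∈ St h) :
    map F (𝓝 η) = 𝓝 (F η) := by
  exact (hU.analytic hη).hasStrictDerivAt.map_nhds_eq (hU.deriv_ne hη)

theorem UniFP.cluster (hU : Unif r L φ F h) (x : ℝ) (𝒰 : Ultrafilter ℂ)
    (h𝒰 : (𝒰 : Filter ℂ) ≤ 𝓝[upH] (x : ℂ)) :
    ∃ p ∈ frontier (main r L), p ∈ YS r L ∧ Tendsto F 𝒰 (𝓝[main r L] p) := by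
  have hm : ∀ᶠ η in (𝒰 : Filter ℂ), η ∈ St h ∧ F η ∈ main r L := h𝒰 (hU.ev_main x)
  obtain ⟨p, -, hp⟩ := (isCompact_cann r).ultrafilter_le_nhds (𝒰.map F) (by
    rw [Ultrafilter.coe_map, le_principal_iff, mem_map]
    filter_upwards [hm] with η hη using ann_sub_cann r (main_sub r L hη.2).1)
  have hp' : Tendsto F 𝒰 (𝓝 p) := hp
  have ht : Tendsto F 𝒰 (𝓝[main r L] p) :=
    tendsto_nhdsWithin_iff.2 ⟨hp', hm.mono fun _ hη => hη.2⟩
  have hfr : p ∈ frontier (main r L) := by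
    rw [hU.cont.isOpen_main.frontier_eq]
    refine ⟨mem_closure_of_tendsto hp' (hm.mono fun _ hη => hη.2), fun hpm => ?_⟩
    obtain ⟨K, hK, hKs, hKc⟩ := local_compact_nhds (hU.cont.isOpen_main.mem_nhds hpm)
    obtain ⟨η, h1, h2⟩ := (((hU.ev_ne x hKc hKs).filter_mono h𝒰).and
      (hp'.eventually_mem hK)).exists
    exact h1 h2
  refine ⟨p, hfr, by_contra fun hY => ?_, ht⟩
  have hlt : Real.exp (-h) < 1 := Real.exp_lt_one_iff.2 (by linarith [hU.hpos])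
  have h1 := ht.eventually (hU.bdO p hfr hY ((1 - Real.exp (-h)) / 2) (by linarith))
  have h2 : ∀ᶠ η in (𝒰 : Filter ℂ), (1 + Real.exp (-h)) / 2 < Real.exp (-η.im) :=
    h𝒰 ((tendsto_expim x).eventually (lt_mem_nhds (by linarith)))
  obtain ⟨η, ⟨a1, a2⟩, a3⟩ := ((h1.and h2).and hm).exists
  have a4 := hU.norm_comp a3.1
  linarith

/-- Push forward: what holds near each point of `frontier ∩ YS` holds near the real line. -/
theorem Unif.push (hU : Unif r L φ F h) {P : ℂ → Prop}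
    (hP : ∀ p ∈ frontier (main r L), p ∈ YS r L → ∀ᶠ z in 𝓝[main r L] p, P z) (x : ℝ) :
    ∀ᶠ η : ℂ in 𝓝[upH] (x : ℂ), P (F η) := by
  refine mem_iff_ultrafilter.2 fun 𝒰 h𝒰 => ?_
  obtain ⟨p, hp, hY, ht⟩ := cluster hU x 𝒰 h𝒰
  exact ht.eventually (hP p hp hY)

theorem Unif.tendsto_zero (hU : Unif r L φ F h) {u : ℂ → ℝ}
    (hu : ∀ p ∈ frontier (main r L), p ∈ YS r L → Tendsto u (𝓝[main r L] p) (𝓝 0)) (x : ℝ) :
    Tendsto (fun η => u (F η)) (𝓝[upH] (x : ℂ)) (𝓝 0) := by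
  intro s hs
  exact hU.push (P := fun z => u z ∈ s) (fun p hp hY => hu p hp hY hs) x

/-- Pull back: what holds near each point of a period holds near the boundary point. -/
theorem Unif.pull (hU : Unif r L φ F h) {P : ℂ → Prop} {p : ℂ} (hp : p ∈ YS r L) (s : ℝ)
    (hP : ∀ x ∈ Icc s (s + 2 * π), ∃ O ∈ 𝓝 p, ∀ᶠ η : ℂ in 𝓝[upH] (x : ℂ), F η ∈ O → P (F η)) :
    ∀ᶠ z in 𝓝[main r L] p, P z := by
  by_cases hcl : p ∈ closure (main r L)
  swap
  · rw [mem_closure_iff_nhdsWithin_neBot, not_neBot] at hcl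
    rw [hcl]
    exact eventually_bot
  have hfr : p ∈ frontier (main r L) := by
    rw [hU.cont.isOpen_main.frontier_eq]
    exact ⟨hcl, fun hm => Set.disjoint_left.1 hU.cont.Om_disjoint (main_sub_Om hm) hp⟩
  have key : ∀ᶠ y : ℂ × ℝ in 𝓝 (p, 0), ∀ t ∈ Icc s (s + 2 * π),
      0 < y.2 → F (t + y.2 * I) = y.1 → P y.1 := by
    refine isCompact_Icc.eventually_forall_of_forall_eventually
      (P := fun (y : ℂ × ℝ) (t : ℝ) => 0 < y.2 → F (t + y.2 * I) = y.1 → P y.1) fun x hx => ?_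
    obtain ⟨O, hO, hev⟩ := hP x hx
    rw [eventually_nhdsWithin_iff] at hev
    have c1 : Tendsto (fun w : (ℂ × ℝ) × ℝ => w.1.1) (𝓝 ((p, 0), x)) (𝓝 p) :=
      (by fun_prop : Continuous fun w : (ℂ × ℝ) × ℝ => w.1.1).tendsto _
    have c2 : Tendsto (fun w : (ℂ × ℝ) × ℝ => (w.2 : ℂ) + w.1.2 * I) (𝓝 ((p, 0), x))
        (𝓝 (x : ℂ)) := by
      have := (by fun_prop :
        Continuous fun w : (ℂ × ℝ) × ℝ => (w.2 : ℂ) + w.1.2 * I).tendsto ((p, 0), x)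
      simpa using this
    filter_upwards [c1 hO, c2.eventually hev] with w h1 h2 h3 h4
    rw [← h4]
    refine h2 ?_ (by rw [h4]; exact h1)
    simpa [upH] using h3
  have h1 := hU.bdY p hfr hp
  have h2 : Tendsto (fun z => -Real.log ‖φ z‖) (𝓝[main r L] p) (𝓝 0) := by
    have := (h1.log one_ne_zero).neg
    simpa using this
  have h3 : Tendsto (fun z => (z, -Real.log ‖φ z‖)) (𝓝[main r L] p) (𝓝 (p, 0)) :=
    (tendsto_id.mono_left nhdsWithin_le_nhds).prodMk_nhds h2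
  have hlt : Real.exp (-h) < 1 := Real.exp_lt_one_iff.2 (by linarith [hU.hpos])
  filter_upwards [h3.eventually key, h1.eventually (lt_mem_nhds hlt), self_mem_nhdsWithin]
    with z a1 a2 a3
  obtain ⟨η, hη, hre, hF, hn⟩ := hU.onto a3 a2 s
  have him : -Real.log ‖φ z‖ = η.im := by rw [← hn, Real.log_exp, neg_neg]
  refine a1 η.re (Ico_subset_Icc_self hre) ?_ ?_
  · simpa only [him] using hη.1
  · simpa only [him, re_add_im] using hF

theorem Unif.shift_ev (hU : Unif r L φ F h) {P : ℂ → Prop} {x : ℝ} (k : ℤ)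
    (hP : ∀ᶠ η : ℂ in 𝓝[upH] (x : ℂ), P (F η)) :
    ∀ᶠ η : ℂ in 𝓝[upH] ((x + 2 * π * k : ℝ) : ℂ), P (F η) := by
  have ht := tendsto_shift (x + 2 * π * k) (2 * π * (-k : ℤ))
  have e : x + 2 * π * k + 2 * π * (-k : ℤ) = x := by push_cast; ring
  rw [e] at ht
  filter_upwards [ht.eventually hP, St_mem hU.hpos (x + 2 * π * k)] with η h1 h2
  rwa [hU.periodic (-k) h2] at h1

theorem Unif.shift_ord (hU : Unif r L φ F h) {u : ℂ → ℝ} {x : ℝ} {j : ℕ} (k : ℤ)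
    (ho : Ord (fun η => u (F η)) x j) : Ord (fun η => u (F η)) (x + 2 * π * k) j := by
  have e : x + 2 * π * k + 2 * π * (-k : ℤ) = x := by push_cast; ring
  rw [← e] at ho
  refine ho.shift.congr ?_
  filter_upwards [St_mem hU.hpos (x + 2 * π * k)] with η h2
  rw [hU.periodic (-k) h2]

theorem Zo_shift {x : ℝ} (hx : x ∈ Zo s0 s1) (k : ℤ) : x + 2 * π * k ∈ Zo s0 s1 := by
  rcases hx with hx | ⟨m, hm⟩
  · exact Or.inl hx
  · refine Or.inr ⟨m + k, ?_⟩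
    convert hm using 1
    push_cast; ring

theorem Eo_shift {x : ℝ} (hx : x ∈ Eo s0 s1) (k : ℤ) : x + 2 * π * k ∈ Eo s0 s1 := by
  obtain ⟨m, hm⟩ := hx
  refine ⟨m + k, ?_⟩
  convert hm using 1
  push_cast; ring

theorem isOpen_Zo : IsOpen (Zo s0 s1) := by
  refine (isOpen_const (p := s1 = s0 + 2 * π)).union ?_
  have : {x : ℝ | ∃ k : ℤ, x - 2 * π * k ∈ Ioo s0 s1} =
      ⋃ k : ℤ, (fun x : ℝ => x - 2 * π * k) ⁻¹' Ioo s0 s1 := by
    ext x; simp only [mem_ofPred_eq, mem_iUnion, mem_preimage]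
  change IsOpen {x : ℝ | ∃ k : ℤ, x - 2 * π * k ∈ Ioo s0 s1}
  rw [this]
  exact isOpen_iUnion fun k => isOpen_Ioo.preimage (by fun_prop)

theorem isOpen_Eo : IsOpen (Eo s0 s1) := by
  have : Eo s0 s1 = ⋃ k : ℤ, (fun x : ℝ => x - 2 * π * k) ⁻¹' Ioo s1 (s0 + 2 * π) := by
    ext x; simp only [Eo, mem_ofPred_eq, mem_iUnion, mem_preimage]
  rw [this]
  exact isOpen_iUnion fun k => isOpen_Ioo.preimage (by fun_prop)

theorem Ioo_sub_Zo : Ioo s0 s1 ⊆ Zo s0 s1 := by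
  exact fun x hx => Or.inr ⟨0, by simpa using hx⟩

theorem Ioo_sub_Eo : Ioo s1 (s0 + 2 * π) ⊆ Eo s0 s1 := by
  exact fun x hx => ⟨0, by simpa using hx⟩

theorem not_Eo (hlt : s0 < s1) (hle : s1 ≤ s0 + 2 * π) {x : ℝ} :
    x ∉ Eo s0 s1 ↔ ∃ k : ℤ, x - 2 * π * k ∈ Icc s0 s1 := by
  have _ := hlt
  have _ := hle
  constructor
  · intro hx
    obtain ⟨k, hk⟩ := exists_Ico s0 x
    exact ⟨k, hk.1, not_lt.1 fun hh => hx ⟨k, hh, hk.2⟩⟩
  · rintro ⟨k, hk⟩ ⟨m, hm⟩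
    have h2 : (0 : ℝ) < 2 * π := by positivity
    have a1 : (m : ℝ) < k := lt_of_mul_lt_mul_left (a := 2 * π) (by linarith [hk.2, hm.1]) h2.le
    have a2 : (k : ℝ) < m + 1 :=
      lt_of_mul_lt_mul_left (a := 2 * π) (by linarith [hk.1, hm.2]) h2.le
    have b1 : m < k := by exact_mod_cast a1
    have b2 : k < m + 1 := by exact_mod_cast a2
    omega

theorem Zo_not_Eo (hlt : s0 < s1) (hle : s1 ≤ s0 + 2 * π) {x : ℝ} (hx : x ∈ Zo s0 s1) :
    x ∉ Eo s0 s1 := by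
  rcases hx with hx | ⟨k, hk⟩
  · rintro ⟨m, hm⟩
    linarith [hm.1, hm.2]
  · exact (not_Eo hlt hle).2 ⟨k, Ioo_subset_Icc_self hk⟩

theorem Zo_rep (hlt : s0 < s1) (hle : s1 ≤ s0 + 2 * π) {x : ℝ} (hx : x ∈ Zo s0 s1) :
    ∃ k : ℤ, x - 2 * π * k ∈ Icc s0 s1 ∧ x - 2 * π * k < s0 + 2 * π := by
  have _ := hlt
  rcases hx with hx | ⟨k, hk⟩
  · obtain ⟨k, hk⟩ := exists_Ico s0 x
    exact ⟨k, ⟨hk.1, by linarith [hk.2]⟩, hk.2⟩
  · exact ⟨k, Ioo_subset_Icc_self hk, by linarith [hk.2]⟩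

theorem Icc_cases (hle : s1 ≤ s0 + 2 * π) {x : ℝ} (hx : x ∈ Icc s0 s1) :
    x ∈ Zo s0 s1 ∨ (s1 < s0 + 2 * π ∧ (x = s0 ∨ x = s1)) := by
  rcases eq_or_lt_of_le hle with e | e
  · exact Or.inl (Or.inl e)
  rcases eq_or_lt_of_le hx.1 with a | a
  · exact Or.inr ⟨e, Or.inl a.symm⟩
  rcases eq_or_lt_of_le hx.2 with b | b
  · exact Or.inr ⟨e, Or.inr b⟩
  exact Or.inl (Ioo_sub_Zo ⟨a, b⟩)

theorem LA_sub_YS : LA L ⊆ YS r L := by
  rintro p (hp | hp)
  · exact Or.inl (Or.inl hp)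
  · exact Or.inr ⟨hp.1.ge, hp.2⟩

theorem Pic.pull (hU : Unif r L φ F h) (hP : Pic r L F s0 s1) {P : ℂ → Prop} {p : ℂ}
    (hp : p ∈ LA L) (H : ∀ x ∈ Icc s0 s1, ∃ O ∈ 𝓝 p,
      ∀ᶠ η : ℂ in 𝓝[upH] (x : ℂ), F η ∈ O → P (F η)) : ∀ᶠ z in 𝓝[main r L] p, P z := by
  refine hU.pull (LA_sub_YS hp) s0 fun x hx => ?_
  rcases le_or_gt x s1 with a | a
  · exact H x ⟨hx.1, a⟩
  rcases eq_or_lt_of_le hx.2 with b | b
  · obtain ⟨O, hO, hev⟩ := H s0 ⟨le_rfl, hP.lt.le⟩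
    refine ⟨O, hO, ?_⟩
    have := hU.shift_ev (P := fun z => z ∈ O → P z) 1 hev
    rwa [Int.cast_one, mul_one, ← b] at this
  · obtain ⟨q, hq, ht⟩ := hP.toEx x (Ioo_sub_Eo ⟨a, b⟩)
    exact sep (fun e : q = p => LA_not_Ex hU.cont hp (e ▸ hq)) ht P

theorem Pic.push (hU : Unif r L φ F h) (hP : Pic r L F s0 s1) {P : ℂ → Prop}
    (H : ∀ p ∈ LA L, ∀ᶠ z in 𝓝[main r L] p, P z) {x : ℝ} (hx : x ∉ Eo s0 s1) :
    ∀ᶠ η : ℂ in 𝓝[upH] (x : ℂ), P (F η) := by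
  have hO : IsOpen {p : ℂ | ∀ᶠ z in 𝓝[main r L] p, P z} := by
    simp only [eventually_nhdsWithin_iff]
    exact isOpen_setOfPred_eventually_nhds
  filter_upwards [hP.clZ x hx _ hO H, hU.ev_main x] with η h1 h2
  exact Eventually.self_of_nhdsWithin h1 h2.2

theorem Zer_shift {v : ℂ → ℝ} (hU : Unif r L φ F h) {x : ℝ} (hx : x ∈ Zer v F s0 s1) (k : ℤ) :
    x + 2 * π * k ∈ Zer v F s0 s1 := by
  refine ⟨Zo_shift hx.1 k, fun ho => hx.2 ?_⟩
  have e : x + 2 * π * k + 2 * π * (-k : ℤ) = x := by push_cast; ring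
  have := hU.shift_ord (-k) ho
  rwa [e] at this

theorem Bd.periodic (hU : Unif r L φ F h) (hB : Bd F Fb) (x : ℝ) (k : ℤ) :
    Fb (x + 2 * π * k) = Fb x := by
  refine tendsto_nhds_unique (hB.lim _) fun s hs => ?_
  exact hU.shift_ev (P := fun z => z ∈ s) k (hB.lim x hs)

theorem Bd.mem (hU : Unif r L φ F h) (hB : Bd F Fb) (x : ℝ) :
    Fb x ∈ frontier (main r L) ∧ Fb x ∈ YS r L ∧ Fb x ∈ cann r ∧ Fb x ∉ main r L := by
  obtain ⟨p, hp, hY, ht⟩ := cluster hU x (Ultrafilter.of (𝓝[upH] (x : ℂ))) (Ultrafilter.of_le _)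
  have e : Fb x = p := tendsto_nhds_unique ((hB.lim x).mono_left (Ultrafilter.of_le _))
    (ht.mono_right nhdsWithin_le_nhds)
  rw [e]
  exact ⟨hp, hY, (hU.cont.frontier_sub hp).1, (hU.cont.frontier_sub hp).2.1⟩

theorem Bd.tendsto (hU : Unif r L φ F h) (hB : Bd F Fb) (x : ℝ) :
    Tendsto F (𝓝[upH] (x : ℂ)) (𝓝[main r L] (Fb x)) := by
  exact tendsto_nhdsWithin_iff.2 ⟨hB.lim x, (hU.ev_main x).mono fun _ hη => hη.2⟩

theorem Bd.mem_LA (hU : Unif r L φ F h) (hP : Pic r L F s0 s1) (hB : Bd F Fb) {x : ℝ}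
    (hx : x ∈ Icc s0 s1) : Fb x ∈ LA L ∧ Fb x ∉ Ex r L ∧ (‖Fb x‖ ≠ 1 → Fb x ∈ L) := by
  have hE : x ∉ Eo s0 s1 := (not_Eo hP.lt hP.le).2 ⟨0, by simpa using hx⟩
  have hLA : Fb x ∈ LA L := by
    by_contra hn
    obtain ⟨K, hK, hKs, hKc⟩ :=
      local_compact_nhds ((closed_LA hU.cont).isOpen_compl.mem_nhds hn)
    obtain ⟨η, h1, h2⟩ := ((hP.clZ x hE Kᶜ hKc.isClosed.isOpen_compl
      (subset_compl_comm.1 hKs)).and
      (hB.lim x hK : ∀ᶠ η : ℂ in 𝓝[upH] (x : ℂ), F η ∈ K)).exists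
    exact h1 h2
  exact ⟨hLA, LA_not_Ex hU.cont hLA, fun hn => hLA.resolve_right fun hh => hn hh.1⟩

theorem Bd.surj (hU : Unif r L φ F h) (hP : Pic r L F s0 s1) (hB : Bd F Fb) {p : ℂ}
    (hp : p ∈ closure (main r L)) (hL : p ∈ LA L) : ∃ x ∈ Icc s0 s1, Fb x = p := by
  by_contra hn
  push Not at hn
  have := hP.pull hU (P := fun _ => False) hL fun x hx =>
    sep (hn x hx) (hB.lim x) fun _ => False
  rw [mem_closure_iff_nhdsWithin_neBot] at hp
  obtain ⟨_, h⟩ := this.exists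
  exact h

theorem Bd.pull (hU : Unif r L φ F h) (hP : Pic r L F s0 s1) (hB : Bd F Fb) {P : ℂ → Prop}
    {p : ℂ} (hp : p ∈ LA L)
    (H : ∀ x ∈ Icc s0 s1, Fb x = p → ∀ᶠ η : ℂ in 𝓝[upH] (x : ℂ), P (F η)) :
    ∀ᶠ z in 𝓝[main r L] p, P z := by
  refine hP.pull hU hp fun x hx => ?_
  by_cases e : Fb x = p
  · exact ⟨univ, univ_mem, (H x hx e).mono fun _ h _ => h⟩
  · exact sep e (hB.lim x) P

theorem Bd.ends (hU : Unif r L φ F h) (hP : Pic r L F s0 s1) (hB : Bd F Fb) :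
    (s1 < s0 + 2 * π ∧ ‖Fb s0‖ = r ∧ ‖Fb s1‖ = r) ∨ (s1 = s0 + 2 * π ∧ Fb s0 = Fb s1) := by
  have hper : Fb (s0 + 2 * π) = Fb s0 := by simpa using hB.periodic hU s0 1
  rcases eq_or_lt_of_le hP.le with e | e
  · exact Or.inr ⟨e, by rw [e, hper]⟩
  have hc : IsClosed {t : ℝ | ‖Fb t‖ = r} := isClosed_eq hB.cont.norm continuous_const
  have hs : Ioo s1 (s0 + 2 * π) ⊆ {t : ℝ | ‖Fb t‖ = r} := by
    intro t ht
    obtain ⟨q, hq, hl⟩ := hP.toEx t (Ioo_sub_Eo ht)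
    have : Fb t = q := tendsto_nhds_unique (hB.lim t) hl
    rw [mem_ofPred_eq, this]
    exact hq.1
  have hs' := closure_minimal hs hc
  rw [closure_Ioo e.ne] at hs'
  refine Or.inl ⟨e, ?_, hs' ⟨le_rfl, e.le⟩⟩
  rw [← hper]
  exact hs' ⟨e.le, le_rfl⟩

theorem Bd.mem_Zo (hU : Unif r L φ F h) (hP : Pic r L F s0 s1) (hB : Bd F Fb) {x : ℝ}
    (hx : x ∈ Icc s0 s1) (hn : ‖Fb x‖ ≠ r) : x ∈ Zo s0 s1 := by
  rcases Icc_cases hP.le hx with a | ⟨a, b⟩
  · exact a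
  exfalso
  rcases hB.ends hU hP with ⟨-, c, d⟩ | ⟨c, -⟩
  · rcases b with b | b
    · exact hn (b ▸ c)
    · exact hn (b ▸ d)
  · exact a.ne c

theorem Bd.near_Zo (hU : Unif r L φ F h) (hP : Pic r L F s0 s1) (hB : Bd F Fb) {x : ℝ}
    (hx : x ∈ Zo s0 s1) : ∀ᶠ t in 𝓝 x, Fb t ∈ Fb '' Icc s0 s1 := by
  filter_upwards [isOpen_Zo.mem_nhds hx] with t ht
  obtain ⟨k, hk, -⟩ := Zo_rep hP.lt hP.le ht
  refine ⟨_, hk, ?_⟩
  rw [← hB.periodic hU (t - 2 * π * k) k, sub_add_cancel]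

end Pool.Agent.P.MP_3bd355_an
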